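import Pool.Agent.H87.BZ.Step

/-!
# Project BZ, module BZ1: the theorem of Bombieri and Zannier

* `bz`: the theorem of Bombieri and Zannier. Let `c₁` be the constant of `S(1)` (`d ≥ 1`; for `d = 0` the
  polynomial `A` is a nonzero constant and has no zeros) and `c = c₁ + A.totalDegree + 1`. Let
  `A(ξ ^ u) = B(ξ ^ u) = 0`, `NTor ξ`. If `u = 0` take a unit vector `b`. Otherwise `u = g u₁` with `g ≥ 1` and
  `u₁` primitive (gcd of the entries): `Prim (fun _ : Fin 1 => u₁)` by Bezout; `ξ₁ = ξ ^ g` is `NTor`. If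
  `Ann (A.totalDegree) u₁` we are done. Otherwise `sb u₁ A ≠ 0`, and `sb u₁ A`, `sb u₁ B` vanish at `ξ₁`
  (`eval_sb`). Let `e ∈ MvPolynomial (Fin 1) ℤ` be an irreducible factor of `sb u₁ A` vanishing at `ξ₁`. It
  divides `sb u₁ B`: identify with `ℤ[X]` (for example `MvPolynomial.pUnitAlgEquiv`/
  `MvPolynomial.finOneEquiv`-like, or `sp1 (fun _ => 1)` which is bijective): `e` is irreducible of positive
  degree, so primitive and irreducible over `ℚ`, and it divides every integer polynomial vanishing at its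
  root `ξ₁`. `NT e` by `NT_one_var`. So `PF A B u₁`, and `S(1)` gives `Ann c₁ u₁`: `b · u = g (b · u₁) = 0`.
-/

set_option autoImplicit false

namespace Pool.Agent.H87.BZ

theorem exists_irr_zero {k : ℕ} {P : MvPolynomial (Fin k) ℤ} (hP : P ≠ 0) (x : Fin k → ℂ)
    (h : MvPolynomial.aeval x P = 0) :
    ∃ e, Irreducible e ∧ e ∣ P ∧ MvPolynomial.aeval x e = 0 := by
  revert hP h
  induction P using WfDvdMonoid.induction_on_irreducible with
  | zero => intro he; exact absurd rfl he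
  | unit u hu =>
    intro _ h
    exact absurd h ((hu.map (MvPolynomial.aeval x)).ne_zero)
  | mul a i ha hi ih =>
    intro _ h
    rw [map_mul] at h
    rcases mul_eq_zero.mp h with h1 | h1
    · exact ⟨i, hi, dvd_mul_right _ _, h1⟩
    · obtain ⟨g, hg, hga, hgN⟩ := ih ha h1
      exact ⟨g, hg, hga.mul_left _, hgN⟩

theorem aeval_uniq (P : MvPolynomial (Fin 1) ℤ) (z : ℂ) :
    Polynomial.aeval z (MvPolynomial.uniqueAlgEquiv ℤ (Fin 1) P) =
      MvPolynomial.aeval (fun _ => z) P := by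
  have h : ((Polynomial.aeval z).comp
      (MvPolynomial.uniqueAlgEquiv ℤ (Fin 1)).toAlgHom : MvPolynomial (Fin 1) ℤ →ₐ[ℤ] ℂ) =
      MvPolynomial.aeval (fun _ => z) := by
    refine MvPolynomial.algHom_ext fun i => ?_
    simp [MvPolynomial.uniqueAlgEquiv]
  exact congrArg (fun φ : MvPolynomial (Fin 1) ℤ →ₐ[ℤ] ℂ => φ P) h

/-- an irreducible integer polynomial divides all integer polynomials vanishing at its root -/
theorem dvd_of_root {E F : Polynomial ℤ} (hE : Irreducible E) {ξ : ℂ}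
    (h1 : Polynomial.aeval ξ E = 0) (h2 : Polynomial.aeval ξ F = 0) : E ∣ F := by
  have hdeg : E.natDegree ≠ 0 := by
    intro h0
    rw [Polynomial.natDegree_eq_zero] at h0
    obtain ⟨a, rfl⟩ := h0
    have ha : a ≠ 0 := by
      rintro rfl
      exact hE.ne_zero (by simp)
    rw [Polynomial.aeval_C] at h1
    exact ha (by simpa using h1)
  have hprim : E.IsPrimitive := hE.isPrimitive hdeg
  rw [Polynomial.IsPrimitive.Int.dvd_iff_map_cast_dvd_map_cast E F hprim]
  have hirr := (Polynomial.IsPrimitive.Int.irreducible_iff_irreducible_map_cast hprim).mp hE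
  have hval : ∀ G : Polynomial ℤ, Polynomial.aeval ξ (G.map (Int.castRingHom ℚ)) =
      Polynomial.aeval ξ G := by
    intro G
    exact Polynomial.aeval_map_algebraMap ℚ ξ G
  have hm := minpoly.dvd ℚ ξ (p := E.map (Int.castRingHom ℚ)) (by rw [hval, h1])
  have hm2 := minpoly.dvd ℚ ξ (p := F.map (Int.castRingHom ℚ)) (by rw [hval, h2])
  have hnu : ¬ IsUnit (minpoly ℚ ξ) := minpoly.not_isUnit ℚ ξ
  obtain ⟨c, hc⟩ := hm
  have hu := (hirr.isUnit_or_isUnit hc).resolve_left hnu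
  have hass : Associated (minpoly ℚ ξ) (E.map (Int.castRingHom ℚ)) := by
    rw [hc]
    exact (associated_mul_unit_right _ _ hu)
  exact hass.symm.dvd.trans hm2

theorem NTor_zpow {ξ : ℂ} (hξ : NTor ξ) {g : ℤ} (hg : g ≠ 0) : NTor (ξ ^ g) := by
  refine ⟨zpow_ne_zero _ hξ.1, fun n hn h => ?_⟩
  have h1 : ξ ^ (g * n) = 1 := by rw [zpow_mul, zpow_natCast, h]
  have hn' : (n : ℤ) ≠ 0 := by exact_mod_cast hn.ne'
  have h2 : 0 < (g * n).natAbs := Int.natAbs_pos.mpr (mul_ne_zero hg hn')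
  refine hξ.2 _ h2 ?_
  rcases Int.natAbs_eq (g * n) with h3 | h3
  · rw [h3, zpow_natCast] at h1
    exact h1
  · rw [h3, zpow_neg, inv_eq_one, zpow_natCast] at h1
    exact h1

/-- Bombieri and Zannier -/
theorem bz {d : ℕ} {A B : MvPolynomial (Fin d) ℤ} (hA : A ≠ 0) (hB : B ≠ 0)
    (hrp : IsRelPrime A B) : ∃ c : ℕ, ∀ (u : Fin d → ℤ) (ξ : ℂ), NTor ξ →
      MvPolynomial.aeval (pt ξ u) A = 0 → MvPolynomial.aeval (pt ξ u) B = 0 →
      ∃ b : Fin d → ℤ, b ≠ 0 ∧ (∀ j, |b j| ≤ (c : ℤ)) ∧ ∑ j, b j * u j = 0 := by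
  rcases Nat.eq_zero_or_pos d with hd | hd
  · subst hd
    refine ⟨0, fun u ξ _ h _ => ?_⟩
    exfalso
    rw [MvPolynomial.eq_C_of_isEmpty A, MvPolynomial.aeval_C] at h
    refine hA ?_
    rw [MvPolynomial.eq_C_of_isEmpty A]
    have : A.coeff 0 = 0 := by simpa using h
    rw [this, map_zero]
  obtain ⟨c₁, hc₁⟩ := bz_all (k := 1) hd hA hB hrp
  refine ⟨c₁ + A.totalDegree + 1, fun u ξ hξ hAu hBu => ?_⟩
  by_cases hu : u = 0
  · refine ⟨Pi.single ⟨0, hd⟩ 1, ?_, ?_, ?_⟩
    · intro h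
      have := congrFun h ⟨0, hd⟩
      rw [Pi.single_eq_same] at this
      exact one_ne_zero this
    · intro j
      by_cases hj : j = ⟨0, hd⟩
      · subst hj
        rw [Pi.single_eq_same]
        push_cast
        rw [abs_one]
        have : (0 : ℤ) ≤ c₁ + A.totalDegree := by positivity
        omega
      · rw [Pi.single_eq_of_ne hj, abs_zero]
        positivity
    · simp [hu]
  -- the primitive vector
  obtain ⟨g, u₁, V, hg0, hgu, hV⟩ : ∃ (g : ℤ) (u₁ V : Fin d → ℤ), g ≠ 0 ∧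
      (∀ j, u j = g * u₁ j) ∧ ∑ j, u₁ j * V j = 1 := by
    set g := Submodule.IsPrincipal.generator (Ideal.span (Set.range u)) with hg
    have hgs : Ideal.span (Set.range u) = Ideal.span {g} := by
      rw [hg]
      exact (Ideal.span_singleton_generator _).symm
    have h1 : ∀ j, g ∣ u j := by
      intro j
      have : u j ∈ Ideal.span (Set.range u) := Ideal.subset_span ⟨j, rfl⟩
      rw [hgs, Ideal.mem_span_singleton] at this
      exact this
    have h2 : g ∈ Ideal.span (Set.range u) := by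
      rw [hgs]
      exact Ideal.mem_span_singleton_self g
    rw [Ideal.mem_span_range_iff_exists_fun] at h2
    obtain ⟨V, hV⟩ := h2
    choose u₁ hu₁ using h1
    have hg0 : g ≠ 0 := by
      intro h0
      refine hu (funext fun j => ?_)
      rw [hu₁ j, h0, zero_mul, Pi.zero_apply]
    refine ⟨g, u₁, V, hg0, hu₁, ?_⟩
    have h3 : g * ∑ j, u₁ j * V j = g * 1 := by
      rw [mul_one, Finset.mul_sum]
      conv_rhs => rw [← hV]
      refine Finset.sum_congr rfl fun j _ => ?_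
      rw [hu₁ j]
      ring
    exact mul_left_cancel₀ hg0 h3
  have hξ₁ := NTor_zpow hξ hg0
  set ξ₁ := ξ ^ g with hξ₁d
  have hpt : pt ξ u = pt ξ₁ u₁ := by
    funext j
    simp only [pt]
    rw [hgu j, zpow_mul]
  rw [hpt] at hAu hBu
  set U : Fin 1 → Fin d → ℤ := fun _ => u₁ with hU
  have hfin : ∀ {c : ℕ}, c ≤ c₁ + A.totalDegree + 1 → Ann c U →
      ∃ b : Fin d → ℤ, b ≠ 0 ∧ (∀ j, |b j| ≤ ((c₁ + A.totalDegree + 1 : ℕ) : ℤ)) ∧
        ∑ j, b j * u j = 0 := by
    rintro c hc ⟨b, hb, h1, h2⟩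
    refine ⟨b, hb, fun j => (h1 j).trans (by exact_mod_cast hc), ?_⟩
    have h3 := h2 0
    calc ∑ j, b j * u j = g * ∑ j, U 0 j * b j := by
          rw [Finset.mul_sum]
          refine Finset.sum_congr rfl fun j _ => ?_
          rw [hgu j, hU]
          ring
      _ = 0 := by rw [h3, mul_zero]
  by_cases hAnn : Ann A.totalDegree U
  · exact hfin (by omega) hAnn
  have hUA : sb U A ≠ 0 := sb_ne_zero hAnn le_rfl hA
  have hev : ∀ P : MvPolynomial (Fin d) ℤ, MvPolynomial.aeval (pt ξ₁ u₁) P = 0 →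
      MvPolynomial.aeval (fun _ : Fin 1 => ξ₁) (sb U P) = 0 := by
    intro P hP
    rw [eval_sb U P _ fun _ => hξ₁.1]
    have : (fun j => ∏ i : Fin 1, ξ₁ ^ U i j) = pt ξ₁ u₁ := by
      funext j
      simp [pt, hU]
    rw [this, hP, mul_zero]
  obtain ⟨e, he, heA, he0⟩ := exists_irr_zero hUA _ (hev A hAu)
  have heB : e ∣ sb U B := by
    have h1 : MvPolynomial.uniqueAlgEquiv ℤ (Fin 1) e ∣
        MvPolynomial.uniqueAlgEquiv ℤ (Fin 1) (sb U B) := by
      refine dvd_of_root (ξ := ξ₁) ?_ (by rw [aeval_uniq, he0]) (by rw [aeval_uniq, hev B hBu])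
      exact (MulEquiv.irreducible_iff (MvPolynomial.uniqueAlgEquiv ℤ (Fin 1))).mpr he
    exact (map_dvd_iff (MvPolynomial.uniqueAlgEquiv ℤ (Fin 1))).mp h1
  have hPrim : Prim U := by
    refine ⟨fun j _ => V j, fun i i' => ?_⟩
    rw [if_pos (Subsingleton.elim i i')]
    exact hV
  exact hfin (by omega) (hc₁ U hPrim ⟨e, NT_one_var hξ₁ he0, heA, heB⟩)

end Pool.Agent.H87.BZ
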