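import Pool.Agent.H87.BZ.Defs

/-!
# Project BZ, module Conj: conjugate roots

* `conj_root`: `E` irreducible, `E(ξ) = 0`, and `g(z) ≠ 0` whenever `ζ z = ξ`, `ζ ^ β = 1`. Then `g(z) ≠ 0`
  whenever `E(ζ z) = 0`, `ζ ^ β = 1`. Proof: the polynomial `N` with
  `N(x) = ∏_{ζ ^ β = 1} g(ζ⁻¹ x)` has rational (integer) coefficients (for example
  `N = Res_T(T ^ β - 1, g(T x))` over `ℤ[x]`: `Polynomial.resultant_eq_prod_eval` after mapping to
  `ℂ[x]`, or use a field automorphism of the algebraic closure of `ℚ` in `ℂ`/of a splitting field instead of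
  `N`). If `g(z) = 0` with `E(ζ z) = 0` then `N(ζ z) = 0`, so `E ∣ N` over `ℚ` (`E` irreducible), `N(ξ) = 0`,
  contradiction.
-/

set_option autoImplicit false

namespace Pool.Agent.H87.BZ

private theorem Conj_gen {F K : Type*} [Field F] [Field K] [Algebra F K] [IsAlgClosed K]
    {p : Polynomial F} (hp : Irreducible p) (x y : algebraicClosure F K)
    (hx : Polynomial.aeval (x : K) p = 0) (hy : Polynomial.aeval (y : K) p = 0) :
    ∃ σ : algebraicClosure F K ≃+* algebraicClosure F K, σ x = y := by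
  have hN : Normal F (algebraicClosure F K) := IsAlgClosure.normal F _
  have h1 : ∀ z : algebraicClosure F K, Polynomial.aeval (z : K) p = 0 →
      Polynomial.aeval z p = 0 := by
    intro z hz
    have h : Polynomial.aeval (z : K) p =
        ((Polynomial.aeval z p : algebraicClosure F K) : K) :=
      Polynomial.aeval_algebraMap_apply K z p
    rw [h] at hz
    exact_mod_cast hz
  have h2 := minpoly.eq_of_irreducible hp (h1 y hy)
  have hya : IsAlgebraic F y := ⟨_, hp.ne_zero, h1 y hy⟩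
  obtain ⟨σ, hσ⟩ := minpoly.exists_algEquiv_of_root (x := x) hya (by
    rw [← h2, map_mul, h1 x hx, zero_mul])
  exact ⟨σ.toRingEquiv, hσ⟩

private theorem Conj_irrQ {E : Polynomial ℤ} (hE : Irreducible E) {ξ : ℂ}
    (hξ : Polynomial.aeval ξ E = 0) :
    Irreducible (E.map (Int.castRingHom ℚ)) := by
  have hd : E.natDegree ≠ 0 := by
    intro h0
    rw [Polynomial.eq_C_of_natDegree_eq_zero h0] at hξ
    rw [Polynomial.aeval_C] at hξ
    have : E.coeff 0 = 0 := by
      have := hξ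
      simpa using this
    apply hE.ne_zero
    rw [Polynomial.eq_C_of_natDegree_eq_zero h0, this, Polynomial.C_0]
  exact (Polynomial.IsPrimitive.Int.irreducible_iff_irreducible_map_cast
    (hE.isPrimitive hd)).mp hE

private theorem Conj_mem {E : Polynomial ℤ} (hE : E ≠ 0) {ξ : ℂ}
    (hξ : Polynomial.aeval ξ E = 0) : ξ ∈ algebraicClosure ℚ ℂ := by
  rw [mem_algebraicClosure_iff]
  refine ⟨E.map (Int.castRingHom ℚ), ?_, ?_⟩
  · exact (Polynomial.map_ne_zero_iff (RingHom.injective_int _)).mpr hE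
  · rw [← hξ, Polynomial.aeval_def, Polynomial.eval₂_map, Polynomial.aeval_def]
    congr 1

private theorem Conj_hom {R S : Type*} [CommRing R] [CommRing S] (φ : R →+* S) (x : R)
    (E : Polynomial ℤ) :
    Polynomial.aeval (φ x) E = φ (Polynomial.aeval x E) := by
  rw [Polynomial.aeval_def, Polynomial.aeval_def, Polynomial.hom_eval₂]
  congr 1
  exact RingHom.ext_int _ _

private theorem Conj_aeval {E : Polynomial ℤ} (x : algebraicClosure ℚ ℂ) :
    Polynomial.aeval (x : ℂ) E = ((Polynomial.aeval x E : algebraicClosure ℚ ℂ) : ℂ) :=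
  Conj_hom (algebraMap (algebraicClosure ℚ ℂ) ℂ) x E

private theorem Conj_gal {E : Polynomial ℤ} (hE : Irreducible E) {x y : algebraicClosure ℚ ℂ}
    (hx : Polynomial.aeval (x : ℂ) E = 0) (hy : Polynomial.aeval (y : ℂ) E = 0) :
    ∃ σ : (algebraicClosure ℚ ℂ) ≃+* (algebraicClosure ℚ ℂ), σ x = y := by
  have hI := Conj_irrQ hE hy
  have h1 : ∀ z : ℂ, Polynomial.aeval z E = 0 →
      Polynomial.aeval z (E.map (Int.castRingHom ℚ)) = 0 := by
    intro z hz
    rw [← hz, Polynomial.aeval_def, Polynomial.eval₂_map, Polynomial.aeval_def]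
    congr 1
  exact Conj_gen hI x y (h1 _ hx) (h1 _ hy)

private theorem Conj_map {E : Polynomial ℤ} {x : algebraicClosure ℚ ℂ}
    (σ : (algebraicClosure ℚ ℂ) ≃+* (algebraicClosure ℚ ℂ))
    (hx : Polynomial.aeval (x : ℂ) E = 0) :
    Polynomial.aeval ((σ x : algebraicClosure ℚ ℂ) : ℂ) E = 0 := by
  have h : Polynomial.aeval x E = 0 := by
    rw [Conj_aeval] at hx
    exact_mod_cast hx
  have h2 : Polynomial.aeval (σ x) E = 0 := by
    have := Conj_hom (σ : algebraicClosure ℚ ℂ →+* algebraicClosure ℚ ℂ) x E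
    rw [h, map_zero] at this
    exact this
  rw [Conj_aeval, h2]
  rfl

theorem conj_root {E g : Polynomial ℤ} (hE : Irreducible E) {β : ℕ} (hβ : 0 < β) {ξ : ℂ}
    (hξ : Polynomial.aeval ξ E = 0)
    (h : ∀ z ζ : ℂ, ζ ^ β = 1 → ζ * z = ξ → Polynomial.aeval z g ≠ 0) {z ζ : ℂ} (hζ : ζ ^ β = 1)
    (hz : Polynomial.aeval (ζ * z) E = 0) : Polynomial.aeval z g ≠ 0 := by
  intro hg
  have hξm := Conj_mem hE.ne_zero hξ
  have hζzm := Conj_mem hE.ne_zero hz
  have hζ0 : ζ ≠ 0 := by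
    rintro rfl
    rw [zero_pow hβ.ne'] at hζ
    exact zero_ne_one hζ
  have hζm : ζ ∈ algebraicClosure ℚ ℂ := by
    apply Conj_mem (E := Polynomial.X ^ β - 1)
    · exact Polynomial.X_pow_sub_C_ne_zero hβ 1
    · simp [hζ]
  have hzm : z ∈ algebraicClosure ℚ ℂ := by
    have h1 : z = ζ⁻¹ * (ζ * z) := by field_simp
    rw [h1]
    exact mul_mem (inv_mem hζm) hζzm
  set L := algebraicClosure ℚ ℂ with hL
  let ξ' : L := ⟨ξ, hξm⟩
  let ζ' : L := ⟨ζ, hζm⟩
  let z' : L := ⟨z, hzm⟩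
  obtain ⟨σ, hσ⟩ := Conj_gal hE (x := ζ' * z') (y := ξ') (by
    show Polynomial.aeval (ζ * z) E = 0
    exact hz) hξ
  refine h ((σ z' : L) : ℂ) ((σ ζ' : L) : ℂ) ?_ ?_ ?_
  · have h2 : (σ ζ') ^ β = 1 := by
      rw [← map_pow]
      have : ζ' ^ β = 1 := by
        apply Subtype.ext
        show ζ ^ β = 1
        exact hζ
      rw [this, map_one]
    exact_mod_cast congrArg (fun x : L => (x : ℂ)) h2
  · have h3 : σ ζ' * σ z' = ξ' := by rw [← map_mul, hσ]
    exact congrArg (fun x : L => (x : ℂ)) h3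
  · exact Conj_map (x := z') σ hg

end Pool.Agent.H87.BZ
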