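import Pool.Agent.H87.BZ.Elim0

/-!
# Project BZ, module Del: a polynomial vanishing at all points where all coefficients vanish

`F ≠ 0` and `G` are polynomials in one variable `T` over `MvPolynomial (Fin k) ℤ`, without a common
irreducible factor `g ∈ MvPolynomial (Fin k) ℤ` in which the variable `i` occurs. Let `M > F.natDegree` and
`Φ = F + X ^ M * G`: its coefficients are the coefficients of `F` and of `G`. Let `c₀` be a nonzero
coefficient of `F`. For each of the finitely many (up to units; `UniqueFactorizationMonoid.normalizedFactors`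
or the factors of `c₀` as a multiset) irreducible factors `g` of `c₀` with `g.degreeOf i ≠ 0` some
coefficient of `Φ` is not divisible by `g`, so the image of `Φ` over the domain `MvPolynomial (Fin k) ℤ ⧸ (g)`
is not zero and has finitely many roots; the natural numbers are distinct elements of this domain (a nonzero
integer is not divisible by `g`, `degreeOf i`). So there is `τ : ℕ` such that `b := Φ.eval (τ)` (the constant
`(τ : MvPolynomial (Fin k) ℤ)`) is not divisible by any of these `g`. Then `elim0 i c₀ b` with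
`Da = Db = D` gives `δ` (`b` is a sum of integer multiples of coefficients, so `b.degreeOf j ≤ D`). If all
coefficients of `F` and `G` vanish at `x`, then `c₀` and `b` vanish at `x`, and so does `δ`
(`aeval_of_span`).
-/

set_option autoImplicit false

namespace Pool.Agent.H87.BZ

private theorem Del_degreeOf_le {k : ℕ} {g a : MvPolynomial (Fin k) ℤ} (i : Fin k) (h : g ∣ a)
    (ha : a ≠ 0) : g.degreeOf i ≤ a.degreeOf i := by
  obtain ⟨c, rfl⟩ := h
  rw [MvPolynomial.degreeOf_mul_eq (left_ne_zero_of_mul ha) (right_ne_zero_of_mul ha)]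
  exact Nat.le_add_right _ _

private theorem Del_degreeOf_nat {k : ℕ} (j : Fin k) (t e : ℕ) :
    ((t : MvPolynomial (Fin k) ℤ) ^ e).degreeOf j = 0 := by
  have h : ((t : MvPolynomial (Fin k) ℤ) ^ e) = MvPolynomial.C ((t : ℤ) ^ e) := by
    rw [map_pow]
    simp
  rw [h, MvPolynomial.degreeOf_C]

private theorem Del_degreeOf_eval {k : ℕ} (j : Fin k) (P : Polynomial (MvPolynomial (Fin k) ℤ))
    (D : ℕ) (h : ∀ n, (P.coeff n).degreeOf j ≤ D) (t : ℕ) :
    (P.eval (t : MvPolynomial (Fin k) ℤ)).degreeOf j ≤ D := by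
  rw [Polynomial.eval_eq_sum_range]
  refine (MvPolynomial.degreeOf_sum_le _ _ _).trans (Finset.sup_le fun n _ => ?_)
  refine (MvPolynomial.degreeOf_mul_le _ _ _).trans ?_
  rw [Del_degreeOf_nat, add_zero]
  exact h n

private theorem Del_aeval_eval {k : ℕ} (P : Polynomial (MvPolynomial (Fin k) ℤ))
    (t : ℕ) (x : Fin k → ℂ) (h : ∀ n, MvPolynomial.aeval x (P.coeff n) = 0) :
    MvPolynomial.aeval x (P.eval (t : MvPolynomial (Fin k) ℤ)) = 0 := by
  rw [Polynomial.eval_eq_sum_range, map_sum]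
  refine Finset.sum_eq_zero fun n _ => ?_
  rw [map_mul, h n, zero_mul]

private theorem Del_finite {k : ℕ} (i : Fin k) (P : Polynomial (MvPolynomial (Fin k) ℤ))
    (g : MvPolynomial (Fin k) ℤ) (hg : Irreducible g) (hgi : g.degreeOf i ≠ 0)
    (n : ℕ) (hn : ¬ g ∣ P.coeff n) :
    {t : ℕ | g ∣ P.eval (t : MvPolynomial (Fin k) ℤ)}.Finite := by
  have hp : Prime g := hg.prime
  have hprime : (Ideal.span {g} : Ideal (MvPolynomial (Fin k) ℤ)).IsPrime :=
    (Ideal.span_singleton_prime hg.ne_zero).2 hp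
  have hdom : IsDomain (MvPolynomial (Fin k) ℤ ⧸ (Ideal.span {g} : Ideal (MvPolynomial (Fin k) ℤ))) :=
    Ideal.Quotient.isDomain _
  set q := Ideal.Quotient.mk (Ideal.span {g} : Ideal (MvPolynomial (Fin k) ℤ)) with hq
  have hq0 : ∀ z, q z = 0 ↔ g ∣ z := fun z => by
    rw [hq, Ideal.Quotient.eq_zero_iff_mem, Ideal.mem_span_singleton]
  have hne : P.map q ≠ 0 := by
    intro h0
    apply hn
    rw [← hq0, ← Polynomial.coeff_map, h0, Polynomial.coeff_zero]
  have hinj : Function.Injective (fun t : ℕ => q (t : MvPolynomial (Fin k) ℤ)) := by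
    intro t s hts
    have h1 : q ((t : MvPolynomial (Fin k) ℤ) - (s : MvPolynomial (Fin k) ℤ)) = 0 := by
      rw [map_sub, sub_eq_zero]
      exact hts
    rw [hq0] at h1
    by_contra hne'
    have h2 : ((t : MvPolynomial (Fin k) ℤ) - (s : MvPolynomial (Fin k) ℤ)) ≠ 0 := by
      intro h3
      rw [sub_eq_zero] at h3
      exact hne' (Nat.cast_injective h3)
    have h4 := Del_degreeOf_le i h1 h2
    have h5 : ((t : MvPolynomial (Fin k) ℤ) - (s : MvPolynomial (Fin k) ℤ)) =
        MvPolynomial.C ((t : ℤ) - (s : ℤ)) := by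
      rw [map_sub]
      simp
    rw [h5, MvPolynomial.degreeOf_C] at h4
    omega
  have hfin : {z | (P.map q).IsRoot z}.Finite := Polynomial.finite_setOfPred_isRoot hne
  refine (hfin.preimage (f := fun t : ℕ => q (t : MvPolynomial (Fin k) ℤ))
    (hinj.injOn)).subset ?_
  intro t ht
  have ht' : g ∣ P.eval (t : MvPolynomial (Fin k) ℤ) := ht
  rw [← hq0] at ht'
  show (P.map q).eval (q (t : MvPolynomial (Fin k) ℤ)) = 0
  rw [Polynomial.eval_map_apply]
  exact ht'

theorem del {k : ℕ} (i : Fin k) (F G : Polynomial (MvPolynomial (Fin k) ℤ)) (hF : F ≠ 0) (D : ℕ)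
    (hDF : ∀ n j, (F.coeff n).degreeOf j ≤ D) (hDG : ∀ n j, (G.coeff n).degreeOf j ≤ D)
    (h : ∀ g : MvPolynomial (Fin k) ℤ, Irreducible g → g.degreeOf i ≠ 0 →
      ¬ ((∀ n, g ∣ F.coeff n) ∧ ∀ n, g ∣ G.coeff n)) :
    ∃ δ : MvPolynomial (Fin k) ℤ, δ ≠ 0 ∧ δ.degreeOf i = 0 ∧
      (∀ j, δ.degreeOf j ≤ 2 * D * D + D + D) ∧
      ∀ x : Fin k → ℂ, (∀ n, MvPolynomial.aeval x (F.coeff n) = 0) →
        (∀ n, MvPolynomial.aeval x (G.coeff n) = 0) → MvPolynomial.aeval x δ = 0 := by
  classical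
  set M : ℕ := F.natDegree + 1 with hM
  set Φ : Polynomial (MvPolynomial (Fin k) ℤ) := F + Polynomial.X ^ M * G with hΦ
  have hΦ1 : ∀ n, n < M → Φ.coeff n = F.coeff n := by
    intro n hn
    rw [hΦ, Polynomial.coeff_add, Polynomial.coeff_X_pow_mul', if_neg (by omega), add_zero]
  have hΦ2 : ∀ n, Φ.coeff (n + M) = G.coeff n := by
    intro n
    rw [hΦ, Polynomial.coeff_add, Polynomial.coeff_X_pow_mul,
      Polynomial.coeff_eq_zero_of_natDegree_lt (by omega), zero_add]
  set c₀ := F.leadingCoeff with hc₀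
  have hc0 : c₀ ≠ 0 := Polynomial.leadingCoeff_ne_zero.2 hF
  -- the finitely many bad natural numbers
  have hfin : ∀ g : MvPolynomial (Fin k) ℤ, Irreducible g → g.degreeOf i ≠ 0 →
      {t : ℕ | g ∣ Φ.eval (t : MvPolynomial (Fin k) ℤ)}.Finite := by
    intro g hg hgi
    have h1 := h g hg hgi
    rw [not_and_or, not_forall, not_forall] at h1
    rcases h1 with ⟨n, hn⟩ | ⟨n, hn⟩
    · have hnM : n < M := by
        by_contra hlt
        apply hn
        rw [Polynomial.coeff_eq_zero_of_natDegree_lt (by omega)]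
        exact dvd_zero _
      exact Del_finite i Φ g hg hgi n (by rw [hΦ1 n hnM]; exact hn)
    · exact Del_finite i Φ g hg hgi (n + M) (by rw [hΦ2 n]; exact hn)
  set S : Finset (MvPolynomial (Fin k) ℤ) :=
    (UniqueFactorizationMonoid.factors c₀).toFinset.filter (fun g => g.degreeOf i ≠ 0) with hS
  have hSirr : ∀ g ∈ S, Irreducible g ∧ g.degreeOf i ≠ 0 := by
    intro g hg
    rw [hS, Finset.mem_filter, Multiset.mem_toFinset] at hg
    exact ⟨UniqueFactorizationMonoid.irreducible_of_factor g hg.1, hg.2⟩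
  have hbad : (⋃ g ∈ S, {t : ℕ | g ∣ Φ.eval (t : MvPolynomial (Fin k) ℤ)}).Finite :=
    S.finite_toSet.biUnion fun g hg => hfin g (hSirr g hg).1 (hSirr g hg).2
  obtain ⟨t, ht⟩ := hbad.exists_notMem
  have htS : ∀ g ∈ S, ¬ g ∣ Φ.eval (t : MvPolynomial (Fin k) ℤ) := by
    intro g hg hdvd
    exact ht (Set.mem_biUnion hg hdvd)
  have hb : Φ.eval (t : MvPolynomial (Fin k) ℤ) =
      F.eval (t : MvPolynomial (Fin k) ℤ) +
        (t : MvPolynomial (Fin k) ℤ) ^ M * G.eval (t : MvPolynomial (Fin k) ℤ) := by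
    rw [hΦ, Polynomial.eval_add, Polynomial.eval_mul, Polynomial.eval_pow, Polynomial.eval_X]
  have hbD : ∀ j, (Φ.eval (t : MvPolynomial (Fin k) ℤ)).degreeOf j ≤ D := by
    intro j
    rw [hb]
    refine (MvPolynomial.degreeOf_add_le _ _ _).trans (max_le ?_ ?_)
    · exact Del_degreeOf_eval j F D (fun n => hDF n j) t
    · refine (MvPolynomial.degreeOf_mul_le _ _ _).trans ?_
      rw [Del_degreeOf_nat, zero_add]
      exact Del_degreeOf_eval j G D (fun n => hDG n j) t
  have hcom : ∀ g : MvPolynomial (Fin k) ℤ, Irreducible g → g ∣ c₀ →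
      g ∣ Φ.eval (t : MvPolynomial (Fin k) ℤ) → g.degreeOf i = 0 := by
    intro g hg hgc hgb
    by_contra hgi
    obtain ⟨q, hq, hgq⟩ := UniqueFactorizationMonoid.exists_mem_factors_of_dvd hc0 hg hgc
    have hqirr := UniqueFactorizationMonoid.irreducible_of_factor q hq
    have h1 : g.degreeOf i ≤ q.degreeOf i := Del_degreeOf_le i hgq.dvd hqirr.ne_zero
    have hqS : q ∈ S := by
      rw [hS, Finset.mem_filter, Multiset.mem_toFinset]
      exact ⟨hq, by omega⟩
    exact htS q hqS (hgq.symm.dvd.trans hgb)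
  obtain ⟨ρ, hρ0, hρi, hρm, hρD⟩ := elim0 i c₀ (Φ.eval (t : MvPolynomial (Fin k) ℤ)) hc0 D D
    (fun j => hDF _ j) hbD hcom
  refine ⟨ρ, hρ0, hρi, hρD, ?_⟩
  intro x hx1 hx2
  refine aeval_of_span hρm x (hx1 _) ?_
  rw [hb, map_add, map_mul, Del_aeval_eval F t x hx1, Del_aeval_eval G t x hx2, mul_zero, add_zero]

end Pool.Agent.H87.BZ
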