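import Pool.Agent.H87.BZ.Torus

/-!
# Project BZ, module Psi: the substitution `X_0 ↦ X ^ β`, `X_(i+1) ↦ X_i * X ^ (yh i)`

`psi β yh` maps the monomial with exponents `(n_0, n_1, ..., n_k)` to
`X ^ (β n_0 + ∑ yh i * n_(i+1)) * ∏ X_i ^ n_(i+1)`. As `β ≥ 1`, distinct monomials have distinct images, so
* `psi_injective`;
* `psi_coeff_degreeOf`: each coefficient of `psi β yh f` (a polynomial in the `X_i`) is a sum of monomials
  `c * ∏ X_i ^ n_(i+1)` with `n` in the support of `f`.
* `psi_eval`: both sides are ring homomorphisms in `f`, equal on the variables (`MvPolynomial.algHom_ext` or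
  `ringHom_ext`, or `induction_on`).
* `psi_hat`: a nonzero polynomial in one variable is `X ^ a * P̂` with `P̂.coeff 0 ≠ 0`
  (`natTrailingDegree`).
* `hat_dvd`: `X ^ a * P̂ ∣ X ^ b * Q̂` and `P̂.coeff 0 ≠ 0` imply `P̂ ∣ Q̂`: `P̂ ∣ X ^ b * Q̂` and `X` is prime
  and does not divide `P̂`.
-/

set_option autoImplicit false

namespace Pool.Agent.H87.BZ

variable {k d : ℕ}

theorem psi_eval (β : ℕ) (yh : Fin k → ℕ) (f : MvPolynomial (Fin (k + 1)) ℤ) {S : Type*}
    [CommRing S] (y : Fin k → S) (T : S) :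
    Polynomial.eval₂ (MvPolynomial.aeval y : MvPolynomial (Fin k) ℤ →ₐ[ℤ] S).toRingHom T
      (psi β yh f) = MvPolynomial.aeval (tw β yh y T) f := by
  induction f using MvPolynomial.induction_on with
  | C a =>
    rw [MvPolynomial.algHom_C, MvPolynomial.algHom_C]
    simp only [eq_intCast]
    exact map_intCast (Polynomial.eval₂RingHom _ T) a
  | add p q hp hq => rw [map_add, Polynomial.eval₂_add, hp, hq, map_add]
  | mul_X p i hp =>
    rw [map_mul, Polynomial.eval₂_mul, hp, map_mul]
    congr 1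
    unfold psi
    rw [MvPolynomial.aeval_X, MvPolynomial.aeval_X]
    refine Fin.cases ?_ (fun j => ?_) i
    · simp [tw]
    · simp [tw, Polynomial.eval₂_mul]

private theorem Psi_mon (β : ℕ) (yh : Fin k → ℕ) (m : Fin (k + 1) →₀ ℕ) (c : ℤ) :
    psi β yh (MvPolynomial.monomial m c) =
      Polynomial.monomial (β * m 0 + ∑ i, yh i * m i.succ)
        (MvPolynomial.monomial m.tail c) := by
  unfold psi
  rw [MvPolynomial.aeval_monomial, Finsupp.prod_fintype _ _ (by simp), Fin.prod_univ_succ]
  simp only [tw, Fin.cons_zero, Fin.cons_succ]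
  rw [← Polynomial.C_mul_X_pow_eq_monomial, MvPolynomial.monomial_eq,
    Finsupp.prod_fintype _ _ (by simp)]
  simp only [mul_pow, Finset.prod_mul_distrib, ← pow_mul, Finsupp.tail_apply, Polynomial.C_mul,
    map_prod, Polynomial.C_pow]
  rw [pow_add, ← Finset.prod_pow_eq_pow_sum]
  have : (algebraMap ℤ (Polynomial (MvPolynomial (Fin k) ℤ))) c =
      Polynomial.C (MvPolynomial.C c) := by simp
  rw [this]
  ring

private theorem Psi_sum (β : ℕ) (yh : Fin k → ℕ) (f : MvPolynomial (Fin (k + 1)) ℤ) :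
    psi β yh f = ∑ m ∈ f.support, Polynomial.monomial (β * m 0 + ∑ i, yh i * m i.succ)
        (MvPolynomial.monomial m.tail (f.coeff m)) := by
  conv_lhs => rw [f.as_sum]
  rw [map_sum]
  exact Finset.sum_congr rfl (fun m _ => Psi_mon β yh m _)

theorem psi_injective {β : ℕ} (hβ : 1 ≤ β) (yh : Fin k → ℕ) :
    Function.Injective (psi β yh) := by
  rw [injective_iff_map_eq_zero]
  intro f hf
  ext m
  rw [MvPolynomial.coeff_zero]
  by_contra hm
  have hms : m ∈ f.support := MvPolynomial.mem_support_iff.mpr hm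
  have h1 := congrArg (fun P => (P.coeff (β * m 0 + ∑ i, yh i * m i.succ)).coeff m.tail) hf
  simp only [Psi_sum, Polynomial.finsetSum_coeff, Polynomial.coeff_zero,
    MvPolynomial.coeff_zero] at h1
  rw [MvPolynomial.coeff_sum, Finset.sum_eq_single_of_mem m hms] at h1
  · rw [Polynomial.coeff_monomial_same, MvPolynomial.coeff_monomial, if_pos rfl] at h1
    exact hm h1
  · intro m' _ hne
    rw [Polynomial.coeff_monomial]
    split_ifs with hw
    · rw [MvPolynomial.coeff_monomial, if_neg]
      intro ht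
      apply hne
      have hs : ∀ i : Fin k, m' i.succ = m i.succ := by
        intro i
        have := DFunLike.congr_fun ht i
        rwa [Finsupp.tail_apply, Finsupp.tail_apply] at this
      have h0 : m' 0 = m 0 := by
        simp only [hs] at hw
        have : β * m' 0 = β * m 0 := by omega
        exact Nat.eq_of_mul_eq_mul_left (by omega) this
      ext i
      refine Fin.cases h0 (fun j => hs j) i
    · simp

theorem psi_coeff_degreeOf {β : ℕ} (hβ : 1 ≤ β) (yh : Fin k → ℕ)
    (f : MvPolynomial (Fin (k + 1)) ℤ) (n : ℕ) (j : Fin k) :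
    ((psi β yh f).coeff n).degreeOf j ≤ f.degreeOf j.succ := by
  rw [Psi_sum, Polynomial.finsetSum_coeff]
  refine (MvPolynomial.degreeOf_sum_le _ _ _).trans ?_
  apply Finset.sup_le
  intro m hm
  rw [Polynomial.coeff_monomial]
  split_ifs with hw
  · rw [MvPolynomial.degreeOf_monomial_eq _ _ (MvPolynomial.mem_support_iff.mp hm)]
    rw [Finsupp.tail_apply]
    exact MvPolynomial.monomial_le_degreeOf _ hm
  · simp

theorem psi_hat {R : Type*} [CommRing R] {P : Polynomial R} (hP : P ≠ 0) :
    ∃ (a : ℕ) (Ph : Polynomial R), P = Polynomial.X ^ a * Ph ∧ Ph.coeff 0 ≠ 0 := by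
  obtain ⟨q, hq, hq'⟩ := Polynomial.exists_eq_pow_rootMultiplicity_mul_and_not_dvd P hP 0
  rw [Polynomial.C_0, sub_zero] at hq hq'
  refine ⟨_, q, hq, ?_⟩
  intro h
  exact hq' (Polynomial.X_dvd_iff.mpr h)

theorem hat_dvd {R : Type*} [CommRing R] [IsDomain R] {P Q : Polynomial R} {a b : ℕ}
    (h : Polynomial.X ^ a * P ∣ Polynomial.X ^ b * Q) (h0 : P.coeff 0 ≠ 0) : P ∣ Q := by
  have h1 : P ∣ Polynomial.X ^ b * Q := (Dvd.intro_left _ rfl).trans h
  clear h
  induction b with
  | zero => simpa using h1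
  | succ b ih =>
    apply ih
    obtain ⟨S, hS⟩ := h1
    have h2 : S.coeff 0 = 0 := by
      have := congrArg (fun p => Polynomial.coeff p 0) hS
      simp only [Polynomial.mul_coeff_zero, pow_succ, Polynomial.coeff_X_zero, mul_zero,
        zero_mul] at this
      rcases mul_eq_zero.mp this.symm with h3 | h3
      · exact absurd h3 h0
      · exact h3
    obtain ⟨S', rfl⟩ := Polynomial.X_dvd_iff.mpr h2
    refine ⟨S', ?_⟩
    have h3 : Polynomial.X * (Polynomial.X ^ b * Q) = Polynomial.X * (P * S') := by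
      calc Polynomial.X * (Polynomial.X ^ b * Q) = Polynomial.X ^ (b + 1) * Q := by ring
        _ = P * (Polynomial.X * S') := hS
        _ = _ := by ring
    exact mul_left_cancel₀ Polynomial.X_ne_zero h3

end Pool.Agent.H87.BZ
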