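import Pool.Agent.H87.BZ.TrD
import Pool.Agent.H87.BZ.Psi

/-!
# Project BZ, module NoCom: no common factor of all coefficients

`f`, `Q` nonzero and relatively prime in `ℤ[X_0, ..., X_k]`, `psi β yh f = X ^ a * P`, `psi β yh Q = X ^ b * R`.
* `no_common`: let `g` be irreducible in `ℤ[X_1..X_k]`, `g.degreeOf i ≠ 0`, dividing all coefficients of `P`
  and of `R`. The ring `D = MvPolynomial (Fin k) ℤ ⧸ (g)` is a domain (`g` is prime); let `y j ∈ D` be the
  images of the variables and `Ω` the fraction field of the polynomial ring `D[T]` (in `Type`,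
  characteristic zero because `g` does not divide nonzero integers: `degreeOf i`). `T ≠ 0`. By `psi_eval`
  (`S = Ω`) the point `tw β yh y T` is a common zero of `f` and `Q`: the image of `psi β yh f` under the
  coefficientwise map to `D` is zero. The elements `T` and `y j`, `j ≠ i`, are algebraically independent
  over `ℚ`: a relation may be taken with integer coefficients; it says that a polynomial in the `X_j`,
  `j ≠ i` (each coefficient of the relation as a polynomial in `T`) is divisible by `g`, which is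
  impossible unless it is zero (compare `degreeOf i`). Apply `trd` with `l = i.succ`.
-/

set_option autoImplicit false

namespace Pool.Agent.H87.BZ

variable {k : ℕ}

private theorem NoCom_degreeOf_le {g a : MvPolynomial (Fin k) ℤ} (i : Fin k) (h : g ∣ a)
    (ha : a ≠ 0) : g.degreeOf i ≤ a.degreeOf i := by
  obtain ⟨c, rfl⟩ := h
  rw [MvPolynomial.degreeOf_mul_eq (left_ne_zero_of_mul ha) (right_ne_zero_of_mul ha)]
  exact Nat.le_add_right _ _

private theorem NoCom_degreeOf_rename (i : Fin k)
    (p : MvPolynomial {j : Fin (k + 1) // j ≠ i.succ} ℤ) :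
    (MvPolynomial.rename Subtype.val p : MvPolynomial (Fin (k + 1)) ℤ).degreeOf i.succ = 0 := by
  classical
  rw [← Nat.le_zero, MvPolynomial.degreeOf_le_iff]
  intro m hm
  by_contra h0
  have h1 : i.succ ∈ (MvPolynomial.rename Subtype.val p : MvPolynomial (Fin (k + 1)) ℤ).vars := by
    rw [MvPolynomial.mem_vars_iff_mem_support]
    exact ⟨m, hm, by rw [Finsupp.mem_support_iff]; omega⟩
  obtain ⟨j, -, hj⟩ := MvPolynomial.mem_vars_rename _ _ h1
  exact j.2 hj

/-- The variables without the one with index `i.succ` are algebraically independent modulo `g`. -/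
private theorem NoCom_ind (i : Fin k) {g : MvPolynomial (Fin k) ℤ} (hgi : g.degreeOf i ≠ 0)
    {D : Type} [CommRing D] (q : MvPolynomial (Fin k) ℤ →+* D) (hq : ∀ z, q z = 0 → g ∣ z) :
    AlgebraicIndependent ℤ (fun j : {j : Fin (k + 1) // j ≠ i.succ} =>
      (Fin.cons Polynomial.X (fun n => Polynomial.C (q (MvPolynomial.X n))) :
        Fin (k + 1) → Polynomial D) j.1) := by
  rw [algebraicIndependent_iff]
  intro p hp
  set P : MvPolynomial (Fin (k + 1)) ℤ := MvPolynomial.rename Subtype.val p with hP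
  have h1 : (MvPolynomial.finSuccEquiv ℤ k P).map q = 0 := by
    have e : ((Polynomial.mapRingHom q).comp
        (MvPolynomial.finSuccEquiv ℤ k : MvPolynomial (Fin (k + 1)) ℤ →+* _)).comp
          (MvPolynomial.rename Subtype.val :
            MvPolynomial {j : Fin (k + 1) // j ≠ i.succ} ℤ →ₐ[ℤ] _).toRingHom =
        (MvPolynomial.aeval (fun j : {j : Fin (k + 1) // j ≠ i.succ} =>
      (Fin.cons Polynomial.X (fun n => Polynomial.C (q (MvPolynomial.X n))) :
        Fin (k + 1) → Polynomial D) j.1) :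
          MvPolynomial {j : Fin (k + 1) // j ≠ i.succ} ℤ →ₐ[ℤ] _).toRingHom := by
      apply MvPolynomial.ringHom_ext
      · intro r
        simp
      · rintro ⟨j, hj⟩
        revert hj
        refine Fin.cases ?_ ?_ j
        · intro _
          simp [MvPolynomial.finSuccEquiv_X_zero]
        · intro n _
          simp [MvPolynomial.finSuccEquiv_X_succ]
    have e2 := congrArg (fun F => F p) e
    rw [← hp]
    exact e2
  have h2 : MvPolynomial.finSuccEquiv ℤ k P = 0 := by
    ext1 n
    rw [Polynomial.coeff_zero]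
    by_contra h3
    have h4 : q ((MvPolynomial.finSuccEquiv ℤ k P).coeff n) = 0 := by
      rw [← Polynomial.coeff_map, h1, Polynomial.coeff_zero]
    have h5 := NoCom_degreeOf_le i (hq _ h4) h3
    have h6 := MvPolynomial.degreeOf_coeff_finSuccEquiv P i n
    have h7 : P.degreeOf i.succ = 0 := by
      rw [hP]
      exact NoCom_degreeOf_rename i p
    rw [h7] at h6
    omega
  have h3 : P = 0 := by
    rwa [EmbeddingLike.map_eq_zero_iff] at h2
  exact MvPolynomial.rename_injective _ Subtype.val_injective (by rw [← hP, h3, map_zero])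

/-- The same over the rationals, in a field. -/
private theorem NoCom_ind2 (i : Fin k) {g : MvPolynomial (Fin k) ℤ} (hgi : g.degreeOf i ≠ 0)
    {D : Type} [CommRing D] (q : MvPolynomial (Fin k) ℤ →+* D) (hq : ∀ z, q z = 0 → g ∣ z)
    {Ω : Type} [Field Ω] (F : Polynomial D →+* Ω) (hF : Function.Injective F) :
    ∃ _ : CharZero Ω, AlgebraicIndependent ℚ (fun j : {j : Fin (k + 1) // j ≠ i.succ} =>
      (Fin.cons (F Polynomial.X)
        (fun n => (F.comp Polynomial.C) (q (MvPolynomial.X n))) : Fin (k + 1) → Ω) j.1) := by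
  have h0 := NoCom_ind i hgi q hq
  have h1 : AlgebraicIndependent ℤ (fun j : {j : Fin (k + 1) // j ≠ i.succ} =>
      (Fin.cons (F Polynomial.X)
        (fun n => (F.comp Polynomial.C) (q (MvPolynomial.X n))) : Fin (k + 1) → Ω) j.1) := by
    rw [algebraicIndependent_iff] at h0 ⊢
    intro p hp
    apply h0 p
    apply hF
    rw [map_zero, ← hp]
    have e : F.comp (MvPolynomial.aeval (fun j : {j : Fin (k + 1) // j ≠ i.succ} =>
      (Fin.cons Polynomial.X (fun n => Polynomial.C (q (MvPolynomial.X n))) :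
        Fin (k + 1) → Polynomial D) j.1) :
          MvPolynomial {j : Fin (k + 1) // j ≠ i.succ} ℤ →ₐ[ℤ] _).toRingHom =
        (MvPolynomial.aeval (fun j : {j : Fin (k + 1) // j ≠ i.succ} =>
      (Fin.cons (F Polynomial.X)
        (fun n => (F.comp Polynomial.C) (q (MvPolynomial.X n))) : Fin (k + 1) → Ω) j.1) :
          MvPolynomial {j : Fin (k + 1) // j ≠ i.succ} ℤ →ₐ[ℤ] _).toRingHom := by
      apply MvPolynomial.ringHom_ext
      · intro r
        simp
      · rintro ⟨j, hj⟩
        revert hj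
        refine Fin.cases ?_ ?_ j
        · intro _
          simp
        · intro n _
          simp
    exact congrArg (fun G => G p) e
  have hchar : CharZero Ω := by
    have h3 := h1.algebraMap_injective
    exact ⟨fun m n hmn => by
      have h4 : algebraMap ℤ Ω (m : ℤ) = algebraMap ℤ Ω (n : ℤ) := by
        rw [map_natCast, map_natCast]
        exact hmn
      exact_mod_cast h3 h4⟩
  refine ⟨hchar, ?_⟩
  have hst : IsScalarTower ℤ ℚ Ω := AddCommGroup.intIsScalarTower
  have halg : Algebra.IsAlgebraic ℤ ℚ := IsLocalization.isAlgebraic ℚ (nonZeroDivisors ℤ)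
  exact h1.extendScalars ℚ

private theorem NoCom_vanish {f : MvPolynomial (Fin (k + 1)) ℤ} {β : ℕ} (yh : Fin k → ℕ) {a : ℕ}
    {P : Polynomial (MvPolynomial (Fin k) ℤ)} (h1 : psi β yh f = Polynomial.X ^ a * P)
    {g : MvPolynomial (Fin k) ℤ} (hP : ∀ n, g ∣ P.coeff n) {D : Type} [CommRing D]
    (q : MvPolynomial (Fin k) ℤ →+* D) (hq : q g = 0) {Ω : Type} [CommRing Ω]
    (u : D →+* Ω) (T : Ω) :
    MvPolynomial.aeval (tw β yh (fun n => u (q (MvPolynomial.X n))) T) f = 0 := by
  rw [← psi_eval, h1, Polynomial.eval₂_mul]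
  have h2 : P.map q = 0 := by
    ext1 n
    rw [Polynomial.coeff_map, Polynomial.coeff_zero]
    obtain ⟨c, hc⟩ := hP n
    rw [hc, map_mul, hq, zero_mul]
  have h3 : (MvPolynomial.aeval (fun n => u (q (MvPolynomial.X n))) :
      MvPolynomial (Fin k) ℤ →ₐ[ℤ] Ω).toRingHom = u.comp q := by
    apply MvPolynomial.ringHom_ext
    · intro r
      simp
    · intro n
      simp
  rw [h3]
  have h4 : Polynomial.eval₂ (u.comp q) T P = 0 := by
    rw [← Polynomial.eval₂_map, h2, Polynomial.eval₂_zero]
  rw [h4, mul_zero]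

private theorem NoCom_aux {f Q : MvPolynomial (Fin (k + 1)) ℤ} (hf : f ≠ 0)
    (hrp : IsRelPrime f Q) {β : ℕ} (hβ : 1 ≤ β) (yh : Fin k → ℕ) {a b : ℕ}
    {P R : Polynomial (MvPolynomial (Fin k) ℤ)} (h1 : psi β yh f = Polynomial.X ^ a * P)
    (h2 : psi β yh Q = Polynomial.X ^ b * R) (i : Fin k) {g : MvPolynomial (Fin k) ℤ}
    (hgi : g.degreeOf i ≠ 0) (hP : ∀ n, g ∣ P.coeff n) (hR : ∀ n, g ∣ R.coeff n)
    {D : Type} [CommRing D] [IsDomain D] (q : MvPolynomial (Fin k) ℤ →+* D)
    (hq0 : ∀ z, q z = 0 ↔ g ∣ z) : False := by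
  have hinj : Function.Injective (algebraMap (Polynomial D) (FractionRing (Polynomial D))) :=
    IsFractionRing.injective (Polynomial D) (FractionRing (Polynomial D))
  obtain ⟨hchar, hind2⟩ := NoCom_ind2 i hgi q (fun z hz => (hq0 z).1 hz)
    (algebraMap (Polynomial D) (FractionRing (Polynomial D))) hinj
  have hT : algebraMap (Polynomial D) (FractionRing (Polynomial D)) Polynomial.X ≠ 0 := by
    rw [Ne, map_eq_zero_iff _ hinj]
    exact Polynomial.X_ne_zero
  have hqg : q g = 0 := (hq0 g).2 dvd_rfl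
  exact trd hf hrp hT _ i.succ hind2 hβ yh
    (NoCom_vanish yh h1 hP q hqg
      ((algebraMap (Polynomial D) (FractionRing (Polynomial D))).comp Polynomial.C) _)
    (NoCom_vanish yh h2 hR q hqg
      ((algebraMap (Polynomial D) (FractionRing (Polynomial D))).comp Polynomial.C) _)

theorem no_common {f Q : MvPolynomial (Fin (k + 1)) ℤ} (hf : f ≠ 0) (hQ : Q ≠ 0)
    (hrp : IsRelPrime f Q) {β : ℕ} (hβ : 1 ≤ β) (yh : Fin k → ℕ) {a b : ℕ}
    {P R : Polynomial (MvPolynomial (Fin k) ℤ)} (h1 : psi β yh f = Polynomial.X ^ a * P)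
    (h2 : psi β yh Q = Polynomial.X ^ b * R) (i : Fin k) {g : MvPolynomial (Fin k) ℤ}
    (hg : Irreducible g) (hgi : g.degreeOf i ≠ 0) :
    ¬ ((∀ n, g ∣ P.coeff n) ∧ ∀ n, g ∣ R.coeff n) := by
  rintro ⟨hP, hR⟩
  have hprime : (Ideal.span {g} : Ideal (MvPolynomial (Fin k) ℤ)).IsPrime :=
    (Ideal.span_singleton_prime hg.ne_zero).2 hg.prime
  have hdom : IsDomain (MvPolynomial (Fin k) ℤ ⧸ (Ideal.span {g} : Ideal (MvPolynomial (Fin k) ℤ))) :=
    Ideal.Quotient.isDomain _
  exact NoCom_aux hf hrp hβ yh h1 h2 i hgi hP hR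
    (Ideal.Quotient.mk (Ideal.span {g} : Ideal (MvPolynomial (Fin k) ℤ)))
    (fun z => by rw [Ideal.Quotient.eq_zero_iff_mem, Ideal.mem_span_singleton])

end Pool.Agent.H87.BZ
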