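import Pool.Agent.H87.BZ.Psi

/-!
# Project BZ, module PsiW: widths and lengths under the substitution `psi`

`psi β yh` maps the monomial with exponents `(n_0, n_1, ..., n_k)` to
`X ^ (β n_0 + ∑ yh i * n_(i+1)) * ∏ X_i ^ n_(i+1)`.
* `psi_width`: let `W = cons w U`. The monomial `m` of `A` gives in `psi β yh (sb W A)` the power
  `β (shf_0 + w · m) + ∑ yh i (shf_(i+1) + ∑ U i j m j) = c + v · m` of `X` (`ex_apply`), where
  `c = β shf_0 + ∑ yh i shf_(i+1)` and `v j = β w j + ∑ yh i U i j`. As `|v · m| ≤ Δ * A.totalDegree`, all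
  exponents of `X` in `psi β yh (sb W A)` lie in `[c - Δ totalDegree, c + Δ totalDegree]`, so
  `natDegree - natTrailingDegree ≤ 2 Δ totalDegree`. For a divisor `f` of `sb W A ≠ 0` the polynomial
  `psi f` divides `psi (sb W A) ≠ 0`, and `natDegree - natTrailingDegree` is additive for products over a
  domain. Finally `natDegree P̂ = natDegree (psi f) - natTrailingDegree (psi f)`.
* `psi_len`: for `‖y i‖ = 1` the coefficients of `(psi ..).map (aeval y)` are sums of numbers
  `A.coeff m * (number of absolute value 1)`, each `m` contributing to one coefficient; multiplication by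
  `X ^ a` does not change the sum of the norms of the coefficients.
-/

set_option autoImplicit false

namespace Pool.Agent.H87.BZ

variable {k d : ℕ}

/-- The exponent of `X` in the image of a monomial. -/
private def PsiW_N (β : ℕ) (yh : Fin k → ℕ) (m : Fin (k + 1) →₀ ℕ) : ℕ :=
  β * m 0 + ∑ i, yh i * m i.succ

private lemma PsiW_mono (β : ℕ) (yh : Fin k → ℕ) (m : Fin (k + 1) →₀ ℕ) (c : ℤ) :
    psi β yh (MvPolynomial.monomial m c) =
      Polynomial.C (MvPolynomial.monomial (Finsupp.tail m) c) * Polynomial.X ^ PsiW_N β yh m := by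
  unfold psi PsiW_N
  rw [MvPolynomial.aeval_monomial, Finsupp.prod_fintype _ _ (fun i => by simp),
    Fin.prod_univ_succ]
  simp only [tw, Fin.cons_zero, Fin.cons_succ, mul_pow, ← pow_mul]
  rw [Finset.prod_mul_distrib, Finset.prod_pow_eq_pow_sum, MvPolynomial.monomial_eq,
    Finsupp.prod_fintype _ _ (fun i => by simp)]
  simp only [Finsupp.tail_apply, map_mul, map_prod, map_pow, pow_add]
  rw [show (algebraMap ℤ (Polynomial (MvPolynomial (Fin k) ℤ))) c =
    Polynomial.C (MvPolynomial.C c) from rfl]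
  ring

private lemma PsiW_sb (β : ℕ) (yh : Fin k → ℕ) (W : Fin (k + 1) → Fin d → ℤ)
    (A : MvPolynomial (Fin d) ℤ) :
    psi β yh (sb W A) = ∑ m ∈ A.support,
      Polynomial.C (MvPolynomial.monomial (Finsupp.tail (ex W A m)) (A.coeff m)) *
        Polynomial.X ^ PsiW_N β yh (ex W A m) := by
  unfold sb
  rw [map_sum]
  exact Finset.sum_congr rfl fun m _ => PsiW_mono β yh _ _

private lemma PsiW_coeff (β : ℕ) (yh : Fin k → ℕ) (W : Fin (k + 1) → Fin d → ℤ)
    (A : MvPolynomial (Fin d) ℤ) (n : ℕ) :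
    (psi β yh (sb W A)).coeff n = ∑ m ∈ A.support,
      if n = PsiW_N β yh (ex W A m) then
        MvPolynomial.monomial (Finsupp.tail (ex W A m)) (A.coeff m) else 0 := by
  rw [PsiW_sb, Polynomial.finsetSum_coeff]
  exact Finset.sum_congr rfl fun m _ => by rw [Polynomial.coeff_C_mul_X_pow]

private lemma PsiW_exp {β Δ : ℕ} (yh : Fin k → ℕ) (U : Fin k → Fin d → ℤ)
    (w v : Fin d → ℤ) (hv : ∀ j, v j = β * w j + ∑ i, (yh i : ℤ) * U i j)
    (hvΔ : ∀ j, |v j| ≤ (Δ : ℤ)) (A : MvPolynomial (Fin d) ℤ) {m : Fin d →₀ ℕ}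
    (hm : m ∈ A.support) :
    |((PsiW_N β yh (ex (Fin.cons w U : Fin (k + 1) → Fin d → ℤ) A m) : ℕ) : ℤ) -
      (β * shf (Fin.cons w U : Fin (k + 1) → Fin d → ℤ) A 0 +
        ∑ i : Fin k, (yh i : ℤ) * shf (Fin.cons w U : Fin (k + 1) → Fin d → ℤ) A i.succ)| ≤
      (Δ : ℤ) * A.totalDegree := by
  have h1 : ((PsiW_N β yh (ex (Fin.cons w U : Fin (k + 1) → Fin d → ℤ) A m) : ℕ) : ℤ) -
      (β * shf (Fin.cons w U : Fin (k + 1) → Fin d → ℤ) A 0 +
        ∑ i : Fin k, (yh i : ℤ) * shf (Fin.cons w U : Fin (k + 1) → Fin d → ℤ) A i.succ) =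
      ∑ j, v j * (m j : ℤ) := by
    unfold PsiW_N
    push_cast
    rw [ex_apply _ A hm 0]
    simp only [ex_apply _ A hm, Fin.cons_zero, Fin.cons_succ]
    have h2 : ∑ j, v j * (m j : ℤ) = (β : ℤ) * ∑ j, w j * (m j : ℤ) +
        ∑ i : Fin k, (yh i : ℤ) * ∑ j, U i j * (m j : ℤ) := by
      simp only [hv, Finset.mul_sum]
      rw [Finset.sum_comm, ← Finset.sum_add_distrib]
      refine Finset.sum_congr rfl fun j _ => ?_
      rw [add_mul, Finset.sum_mul]
      congr 1
      · ring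
      · exact Finset.sum_congr rfl fun i _ => by ring
    rw [h2]
    simp only [mul_add, Finset.sum_add_distrib]
    ring
  rw [h1]
  have h3 : ∑ j, (m j : ℤ) ≤ A.totalDegree := by
    have := MvPolynomial.le_totalDegree hm
    rw [Finsupp.sum_fintype _ _ (fun i => rfl)] at this
    exact_mod_cast this
  calc |∑ j, v j * (m j : ℤ)| ≤ ∑ j, |v j * (m j : ℤ)| := Finset.abs_sum_le_sum_abs _ _
    _ ≤ ∑ j, (Δ : ℤ) * (m j : ℤ) := by
        refine Finset.sum_le_sum fun j _ => ?_
        rw [abs_mul, abs_of_nonneg (Int.natCast_nonneg (m j))]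
        exact mul_le_mul_of_nonneg_right (hvΔ j) (Int.natCast_nonneg _)
    _ = (Δ : ℤ) * ∑ j, (m j : ℤ) := by rw [Finset.mul_sum]
    _ ≤ (Δ : ℤ) * A.totalDegree := mul_le_mul_of_nonneg_left h3 (Int.natCast_nonneg _)

theorem psi_width {β Δ : ℕ} (hβ : 1 ≤ β) (yh : Fin k → ℕ) (U : Fin k → Fin d → ℤ)
    (w v : Fin d → ℤ) (hv : ∀ j, v j = β * w j + ∑ i, (yh i : ℤ) * U i j)
    (hvΔ : ∀ j, |v j| ≤ (Δ : ℤ)) {A : MvPolynomial (Fin d) ℤ}
    {f : MvPolynomial (Fin (k + 1)) ℤ}
    (hA : sb (Fin.cons w U : Fin (k + 1) → Fin d → ℤ) A ≠ 0)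
    (hf : f ∣ sb (Fin.cons w U : Fin (k + 1) → Fin d → ℤ) A) {a : ℕ}
    {P : Polynomial (MvPolynomial (Fin k) ℤ)} (h : psi β yh f = Polynomial.X ^ a * P)
    (h0 : P.coeff 0 ≠ 0) : P.natDegree ≤ 2 * A.totalDegree * Δ := by
  set W : Fin (k + 1) → Fin d → ℤ := Fin.cons w U with hW
  set G := psi β yh (sb W A) with hG
  have hG0 : G ≠ 0 := by
    rw [hG, Ne, ← map_zero (psi β yh)]
    exact fun h1 => hA (psi_injective hβ yh h1)
  obtain ⟨g, hg⟩ := hf
  have hGg : G = psi β yh f * psi β yh g := by rw [hG, hg, map_mul]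
  have hf0 : psi β yh f ≠ 0 := fun h1 => hG0 (by rw [hGg, h1, zero_mul])
  have hg0 : psi β yh g ≠ 0 := fun h1 => hG0 (by rw [hGg, h1, mul_zero])
  have hP0 : P ≠ 0 := fun h1 => h0 (by rw [h1, Polynomial.coeff_zero])
  have hX0 : (Polynomial.X : Polynomial (MvPolynomial (Fin k) ℤ)) ^ a ≠ 0 :=
    pow_ne_zero _ Polynomial.X_ne_zero
  have h1 : G.natDegree = (psi β yh f).natDegree + (psi β yh g).natDegree := by
    rw [hGg, Polynomial.natDegree_mul hf0 hg0]
  have h2 : G.natTrailingDegree = (psi β yh f).natTrailingDegree +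
      (psi β yh g).natTrailingDegree := by
    rw [hGg, Polynomial.natTrailingDegree_mul hf0 hg0]
  have h3 : (psi β yh f).natDegree = a + P.natDegree := by
    rw [h, Polynomial.natDegree_mul hX0 hP0, Polynomial.natDegree_X_pow]
  have h4 : (psi β yh f).natTrailingDegree = a := by
    have h5 : P.natTrailingDegree = 0 := by
      have := Polynomial.natTrailingDegree_le_of_ne_zero h0
      omega
    rw [h, Polynomial.natTrailingDegree_mul hX0 hP0, h5, add_zero]
    have := Polynomial.natTrailingDegree_X_pow (R := MvPolynomial (Fin k) ℤ) a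
    exact this
  have h6 := Polynomial.natTrailingDegree_le_natDegree (psi β yh g)
  -- the exponents of `G`
  have hexp : ∀ n, G.coeff n ≠ 0 → |(n : ℤ) - (β * shf W A 0 +
      ∑ i : Fin k, (yh i : ℤ) * shf W A i.succ)| ≤ (Δ : ℤ) * A.totalDegree := by
    intro n hn
    rw [hG, PsiW_coeff] at hn
    obtain ⟨m, hm, hmn⟩ := Finset.exists_ne_zero_of_sum_ne_zero hn
    have hnm : n = PsiW_N β yh (ex W A m) := by
      by_contra h7
      exact hmn (if_neg h7)
    rw [hnm]
    exact PsiW_exp yh U w v hv hvΔ A hm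
  have h8 := hexp G.natDegree (by
    rw [← Polynomial.leadingCoeff]
    exact Polynomial.leadingCoeff_ne_zero.2 hG0)
  have h9 := hexp G.natTrailingDegree (by
    rw [← Polynomial.trailingCoeff]
    exact mt Polynomial.trailingCoeff_eq_zero.1 hG0)
  rw [abs_le] at h8 h9
  have h10 : (P.natDegree : ℤ) ≤ 2 * A.totalDegree * Δ := by
    have h11 : (P.natDegree : ℤ) + (psi β yh g).natDegree + a = G.natDegree := by
      rw [h1, h3]; push_cast; ring
    have h12 : (G.natTrailingDegree : ℤ) = a + (psi β yh g).natTrailingDegree := by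
      rw [h2, h4]; push_cast; ring
    have h13 : ((psi β yh g).natTrailingDegree : ℤ) ≤ (psi β yh g).natDegree := by
      exact_mod_cast h6
    nlinarith [h8.2, h9.1]
  exact_mod_cast h10

theorem psi_len {β : ℕ} (hβ : 1 ≤ β) (yh : Fin k → ℕ) (U : Fin k → Fin d → ℤ) (w : Fin d → ℤ)
    {A : MvPolynomial (Fin d) ℤ} {a : ℕ} {P : Polynomial (MvPolynomial (Fin k) ℤ)}
    (h : psi β yh (sb (Fin.cons w U : Fin (k + 1) → Fin d → ℤ) A) = Polynomial.X ^ a * P)
    (y : Fin k → ℂ) (hy : ∀ i, ‖y i‖ = 1) :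
    (P.map (MvPolynomial.aeval y : MvPolynomial (Fin k) ℤ →ₐ[ℤ] ℂ).toRingHom).sum
      (fun _ c => ‖c‖) ≤ ln A := by
  set W : Fin (k + 1) → Fin d → ℤ := Fin.cons w U with hW
  set φ : MvPolynomial (Fin k) ℤ →+* ℂ :=
    (MvPolynomial.aeval y : MvPolynomial (Fin k) ℤ →ₐ[ℤ] ℂ).toRingHom with hφ
  have hφm : ∀ (s : Fin k →₀ ℕ) (c : ℤ), ‖φ (MvPolynomial.monomial s c)‖ = |((c : ℤ) : ℝ)| := by
    intro s c
    have h1 : φ (MvPolynomial.monomial s c) = MvPolynomial.aeval y (MvPolynomial.monomial s c) :=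
      rfl
    rw [h1, MvPolynomial.aeval_monomial, Finsupp.prod_fintype _ _ (fun i => by simp), norm_mul,
      norm_prod]
    simp only [norm_pow, hy, one_pow, Finset.prod_const_one, mul_one]
    simp
  have hc : ∀ n, ‖(P.map φ).coeff n‖ ≤ ∑ m ∈ A.support,
      if n + a = PsiW_N β yh (ex W A m) then |((A.coeff m : ℤ) : ℝ)| else 0 := by
    intro n
    have h1 : P.coeff n = (psi β yh (sb W A)).coeff (n + a) := by
      rw [h, Polynomial.coeff_X_pow_mul]
    rw [Polynomial.coeff_map, h1, PsiW_coeff, map_sum]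
    refine (norm_sum_le _ _).trans (Finset.sum_le_sum fun m _ => ?_)
    split_ifs with h2
    · rw [hφm]
    · simp
  rw [Polynomial.sum_def]
  calc ∑ n ∈ (P.map φ).support, ‖(P.map φ).coeff n‖
      ≤ ∑ n ∈ (P.map φ).support, ∑ m ∈ A.support,
        if n + a = PsiW_N β yh (ex W A m) then |((A.coeff m : ℤ) : ℝ)| else 0 :=
        Finset.sum_le_sum fun n _ => hc n
    _ = ∑ m ∈ A.support, ∑ n ∈ (P.map φ).support,
        if n + a = PsiW_N β yh (ex W A m) then |((A.coeff m : ℤ) : ℝ)| else 0 :=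
        Finset.sum_comm
    _ ≤ ∑ m ∈ A.support, |((A.coeff m : ℤ) : ℝ)| := by
        refine Finset.sum_le_sum fun m _ => ?_
        rw [← Finset.sum_filter, Finset.sum_const, nsmul_eq_mul]
        have h1 : ((P.map φ).support.filter
            (fun n => n + a = PsiW_N β yh (ex W A m))).card ≤ 1 := by
          rw [Finset.card_le_one]
          intro x hx z hz
          rw [Finset.mem_filter] at hx hz
          omega
        have h2 : ((((P.map φ).support.filter
            (fun n => n + a = PsiW_N β yh (ex W A m))).card : ℕ) : ℝ) ≤ 1 := by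
          exact_mod_cast h1
        nlinarith [abs_nonneg ((A.coeff m : ℤ) : ℝ)]
    _ = ln A := rfl

end Pool.Agent.H87.BZ
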