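import Pool.Agent.H87.BZ.Defs

/-!
# Project BZ, module NormE: the product of the `E(ζ z)`, `ζ ^ β = 1`

`E ∈ ℤ[X]` irreducible with a nontorsion root; so `E` is primitive, of positive degree, separable over `ℂ`,
`E(0) ≠ 0` (otherwise `E` is associated to `X`, whose only root `0` is not `NTor`).
Let `N = Res_T(T ^ β - 1, E(T z)) ∈ ℤ[z]`: the resultant (formal degrees `β` and `natDegree E`) over the ring
`ℤ[z]` of `T ^ β - 1` and of `∑ e_j z ^ j T ^ j` (`Polynomial ℤ` coefficients).
* Over `ℂ[z]`: `Polynomial.resultant_map_map`, and `T ^ β - 1` is the product of the `T - ζ`, so by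
  `Polynomial.resultant_prod_left`/`resultant_eq_prod_eval`/`resultant_X_sub_C_left` the image of `N` is, up
  to sign, `∏_{ζ ^ β = 1} E(ζ z)`.
* `lm N = β * lm E`: the Mahler measure is multiplicative and that of `E(ζ z)`, `|ζ| = 1`, equals that of
  `E` (rotation of the circle, or the formula with the roots); the sign does not matter.
* root multiplicities: that of `E(ζ z)` at `z₀` is that of `E` at `ζ z₀`, which is `1` if `E(ζ z₀) = 0`
  (separable: `E` irreducible over `ℚ`, characteristic zero) and `0` otherwise.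
* primitive: let `ℓ` be a prime number. Over an algebraic closure `L` of `ZMod ℓ`, the image of `E` is not
  zero (`E` is primitive), `T ^ β - 1` splits into linear factors `T - ζ_i` with `ζ_i ≠ 0` (some may be
  equal), so the image of `N` in `L[z]` is, up to sign, the product of the polynomials `E(ζ_i z) ≠ 0`:
  nonzero. So no prime divides all coefficients of `N`.
-/

set_option autoImplicit false

namespace Pool.Agent.H87.BZ

open Polynomial in
/-- The norm polynomial. -/
private noncomputable def NormE_N (E : Polynomial ℤ) (β : ℕ) : Polynomial ℤ :=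
  Polynomial.resultant (X ^ β - 1 : Polynomial (Polynomial ℤ))
    ((E.map C).comp (C X * X)) β E.natDegree

open Polynomial in
private theorem NormE_map (E : Polynomial ℤ) {β : ℕ} (hβ : 0 < β) (L : Type*) [Field L]
    [IsAlgClosed L] : (NormE_N E β).map (Int.castRingHom L) =
      ((X ^ β - 1 : Polynomial L).roots.map
        (fun ζ => (E.map (Int.castRingHom L)).comp (C ζ * X))).prod := by
  set φ : ℤ →+* L := Int.castRingHom L with hφ
  have h0 : (NormE_N E β).map φ = Polynomial.mapRingHom φ (NormE_N E β) := rfl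
  rw [h0, NormE_N, ← Polynomial.resultant_map_map]
  set f : Polynomial (Polynomial L) := (X ^ β - 1 : Polynomial (Polynomial ℤ)).map
    (Polynomial.mapRingHom φ) with hf
  set g : Polynomial (Polynomial L) := ((E.map C).comp (C X * X)).map
    (Polynomial.mapRingHom φ) with hg
  have hf1 : f = (X ^ β - 1 : Polynomial L).map C := by
    rw [hf]
    simp
  have hmon : (X ^ β - 1 : Polynomial L).Monic := by
    have := Polynomial.monic_X_pow_sub_C (1 : L) hβ.ne'
    simpa using this
  have hdeg : (X ^ β - 1 : Polynomial L).natDegree = β := by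
    have := Polynomial.natDegree_X_pow_sub_C (n := β) (r := (1 : L))
    simpa using this
  have hfd : f.natDegree = β := by
    rw [hf1, Polynomial.natDegree_map_eq_of_injective Polynomial.C_injective, hdeg]
  have hfl : f.leadingCoeff = 1 := by
    rw [hf1]
    exact hmon.map C
  have hfs : f.Splits := by
    rw [hf1]
    exact (IsAlgClosed.splits _).map _
  have hgd : g.natDegree ≤ E.natDegree := by
    rw [hg]
    refine Polynomial.natDegree_map_le.trans ?_
    refine Polynomial.natDegree_comp_le.trans ?_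
    have h1 : (E.map (C : ℤ →+* Polynomial ℤ)).natDegree ≤ E.natDegree :=
      Polynomial.natDegree_map_le
    have h2 : (C X * X : Polynomial (Polynomial ℤ)).natDegree ≤ 1 := by
      refine (Polynomial.natDegree_C_mul_le _ _).trans ?_
      exact Polynomial.natDegree_X_le
    calc _ ≤ E.natDegree * 1 := Nat.mul_le_mul h1 h2
      _ = _ := mul_one _
  have key := Polynomial.resultant_eq_prod_eval f g E.natDegree hgd hfs
  rw [hfd, hfl, one_pow, one_mul] at key
  rw [key, hf1, Splits.roots_map_of_injective (IsAlgClosed.splits _) Polynomial.C_injective,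
    Multiset.map_map]
  congr 1
  apply Multiset.map_congr rfl
  intro ζ _
  simp only [Function.comp]
  rw [hg, Polynomial.map_comp, Polynomial.eval_comp, Polynomial.map_map]
  have h3 : (Polynomial.mapRingHom φ).comp (C : ℤ →+* Polynomial ℤ) = (C : L →+* _).comp φ :=
    RingHom.ext_int _ _
  rw [h3, ← Polynomial.map_map, Polynomial.eval_map]
  rw [Polynomial.comp]
  congr 1
  simp only [Polynomial.map_mul, Polynomial.map_C, Polynomial.map_X, Polynomial.coe_mapRingHom,
    Polynomial.eval_mul, Polynomial.eval_C, Polynomial.eval_X]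
  exact mul_comm _ _

private theorem NormE_natDegree {E : Polynomial ℤ} (hE : Irreducible E) (h : HasNT E) :
    E.natDegree ≠ 0 := by
  intro h0
  obtain ⟨c, rfl⟩ := Polynomial.natDegree_eq_zero.mp h0
  obtain ⟨ξ, _, hξ⟩ := h
  rw [Polynomial.aeval_C] at hξ
  have : c = 0 := by simpa using hξ
  exact hE.ne_zero (by simp [this])

private theorem NormE_comp_ne_zero {L : Type*} [Field L] {p : Polynomial L} (hp : p ≠ 0) {ζ : L}
    (hζ : ζ ≠ 0) : p.comp (Polynomial.C ζ * Polynomial.X) ≠ 0 := by
  intro h
  apply hp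
  have h2 : (p.comp (Polynomial.C ζ * Polynomial.X)).comp (Polynomial.C ζ⁻¹ * Polynomial.X) =
      0 := by rw [h, Polynomial.zero_comp]
  rw [Polynomial.comp_assoc] at h2
  have h3 : (Polynomial.C ζ * Polynomial.X : Polynomial L).comp (Polynomial.C ζ⁻¹ * Polynomial.X)
      = Polynomial.X := by
    simp only [Polynomial.mul_comp, Polynomial.C_comp, Polynomial.X_comp]
    rw [← mul_assoc, ← Polynomial.C_mul, mul_inv_cancel₀ hζ, Polynomial.C_1, one_mul]
  rwa [h3, Polynomial.comp_X] at h2

private theorem NormE_root_ne_zero {L : Type*} [Field L] {β : ℕ} (hβ : 0 < β) {ζ : L}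
    (hζ : ζ ∈ (Polynomial.X ^ β - 1 : Polynomial L).roots) : ζ ^ β = 1 ∧ ζ ≠ 0 := by
  have h1 : ζ ^ β = 1 := by
    have := (Polynomial.mem_roots'.mp hζ).2
    simpa [Polynomial.IsRoot, sub_eq_zero] using this
  refine ⟨h1, ?_⟩
  rintro rfl
  rw [zero_pow hβ.ne'] at h1
  exact zero_ne_one h1

private theorem NormE_primitive {E : Polynomial ℤ} (hE : Irreducible E) (h : HasNT E) {β : ℕ}
    (hβ : 0 < β) : (NormE_N E β).IsPrimitive := by
  have hEp : E.IsPrimitive := hE.isPrimitive (NormE_natDegree hE h)
  -- nonvanishing over a field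
  have key : ∀ (L : Type) [Field L] [IsAlgClosed L], E.map (Int.castRingHom L) ≠ 0 →
      (NormE_N E β).map (Int.castRingHom L) ≠ 0 := by
    intro L _ _ hEL h0
    rw [NormE_map E hβ L, Multiset.prod_eq_zero_iff, Multiset.mem_map] at h0
    obtain ⟨ζ, hζ, hζ0⟩ := h0
    exact NormE_comp_ne_zero hEL (NormE_root_ne_zero hβ hζ).2 hζ0
  intro r hr
  by_contra hu
  rcases eq_or_ne r 0 with rfl | hr0
  · rw [Polynomial.C_0, zero_dvd_iff] at hr
    refine key ℂ ?_ (by rw [hr, Polynomial.map_zero])
    intro h0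
    apply hE.ne_zero
    exact Polynomial.map_injective (Int.castRingHom ℂ) (RingHom.injective_int _)
      (by rw [h0, Polynomial.map_zero])
  · obtain ⟨ℓ, hℓ, hℓr⟩ : ∃ ℓ : ℕ, ℓ.Prime ∧ (ℓ : ℤ) ∣ r := by
      have : r.natAbs ≠ 1 := fun h1 => hu (Int.isUnit_iff_natAbs_eq.mpr h1)
      obtain ⟨ℓ, hℓ, hd⟩ := Nat.exists_prime_and_dvd this
      exact ⟨ℓ, hℓ, Int.natCast_dvd.mpr hd⟩
    have : Fact ℓ.Prime := ⟨hℓ⟩
    have hcast : ((ℓ : ℤ) : AlgebraicClosure (ZMod ℓ)) = 0 := by
      have : ((ℓ : ℕ) : AlgebraicClosure (ZMod ℓ)) = 0 := by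
        rw [← map_natCast (algebraMap (ZMod ℓ) (AlgebraicClosure (ZMod ℓ)))]
        simp
      exact_mod_cast this
    refine key (AlgebraicClosure (ZMod ℓ)) ?_ ?_
    · intro h0
      have hd : Polynomial.C (ℓ : ℤ) ∣ E := by
        rw [Polynomial.C_dvd_iff_dvd_coeff]
        intro n
        have h1 : ((E.coeff n : ℤ) : AlgebraicClosure (ZMod ℓ)) = 0 := by
          have := congrArg (fun p => Polynomial.coeff p n) h0
          simpa using this
        have h2 : ((E.coeff n : ℤ) : ZMod ℓ) = 0 := by
          apply (algebraMap (ZMod ℓ) (AlgebraicClosure (ZMod ℓ))).injective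
          rw [map_zero, map_intCast]
          exact h1
        exact (ZMod.intCast_zmod_eq_zero_iff_dvd _ _).mp h2
      have := hEp _ hd
      rw [Int.isUnit_iff_natAbs_eq, Int.natAbs_natCast] at this
      exact hℓ.one_lt.ne' this
    · obtain ⟨M, hM⟩ := (map_dvd Polynomial.C hℓr).trans hr
      rw [hM, Polynomial.map_mul, Polynomial.map_C]
      simp [hcast]

private theorem NormE_lm_rot (p : Polynomial ℂ) {ζ : ℂ} (hζ : ‖ζ‖ = 1) :
    (p.comp (Polynomial.C ζ * Polynomial.X)).logMahlerMeasure = p.logMahlerMeasure := by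
  have hζ0 : ζ ≠ 0 := by
    rintro rfl
    simp at hζ
  have hr := Polynomial.map_roots_comp_C_mul_X_add_C p ζ 0 (isUnit_iff_ne_zero.mpr hζ0)
  simp only [map_zero, add_zero] at hr
  rw [Polynomial.logMahlerMeasure_eq_log_leadingCoeff_add_sum_log_roots,
    Polynomial.logMahlerMeasure_eq_log_leadingCoeff_add_sum_log_roots, ← hr, Multiset.map_map]
  congr 1
  · rw [Polynomial.leadingCoeff_comp]
    · simp [hζ]
    · rw [Polynomial.natDegree_C_mul hζ0]
      simp
  · congr 1
    apply Multiset.map_congr rfl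
    intro x _
    simp [hζ]

private theorem NormE_lm_prod (s : Multiset ℂ) (p : Polynomial ℂ) (hp : p ≠ 0)
    (hs : ∀ ζ ∈ s, ‖ζ‖ = 1) :
    ((s.map (fun ζ => p.comp (Polynomial.C ζ * Polynomial.X))).prod).logMahlerMeasure =
      s.card * p.logMahlerMeasure := by
  induction s using Multiset.induction_on with
  | empty => simp
  | cons a s ih =>
    have ha : ‖a‖ = 1 := hs a (Multiset.mem_cons_self a s)
    have ha0 : a ≠ 0 := by
      rintro rfl
      simp at ha
    have hne : (s.map (fun ζ => p.comp (Polynomial.C ζ * Polynomial.X))).prod ≠ 0 := by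
      rw [Ne, Multiset.prod_eq_zero_iff, Multiset.mem_map]
      rintro ⟨ζ, hζ, h0⟩
      have h1 : ‖ζ‖ = 1 := hs ζ (Multiset.mem_cons_of_mem hζ)
      refine NormE_comp_ne_zero hp ?_ h0
      rintro rfl
      simp at h1
    rw [Multiset.map_cons, Multiset.prod_cons,
      Polynomial.logMahlerMeasure_mul_eq_add_logMahlerMeasure
        (mul_ne_zero (NormE_comp_ne_zero hp ha0) hne),
      ih (fun ζ hζ => hs ζ (Multiset.mem_cons_of_mem hζ)), NormE_lm_rot p ha, Multiset.card_cons]
    push_cast
    ring

private theorem NormE_nodup {β : ℕ} (hβ : 0 < β) :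
    (Polynomial.X ^ β - 1 : Polynomial ℂ).roots.Nodup ∧
      (Polynomial.X ^ β - 1 : Polynomial ℂ).roots.card = β := by
  have h := Complex.isPrimitiveRoot_exp β hβ.ne'
  have h1 := h.nthRoots_one_nodup
  have h2 := h.card_nthRoots_one
  have h3 : Polynomial.nthRoots β (1 : ℂ) = (Polynomial.X ^ β - 1 : Polynomial ℂ).roots := by
    rw [Polynomial.nthRoots, Polynomial.C_1]
  rw [h3] at h1 h2
  exact ⟨h1, h2⟩

private theorem NormE_mult {E : Polynomial ℤ} (hE : Irreducible E) (h : HasNT E) (z : ℂ) :
    (E.map (Int.castRingHom ℂ)).rootMultiplicity z ≤ 1 := by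
  have hEp : E.IsPrimitive := hE.isPrimitive (NormE_natDegree hE h)
  have hirr : Irreducible (E.map (Int.castRingHom ℚ)) :=
    (Polynomial.IsPrimitive.Int.irreducible_iff_irreducible_map_cast hEp).mp hE
  have hsep : (E.map (Int.castRingHom ℚ)).Separable := hirr.separable
  have hsep2 : (E.map (Int.castRingHom ℂ)).Separable := by
    have := hsep.map (f := algebraMap ℚ ℂ)
    have e : (algebraMap ℚ ℂ).comp (Int.castRingHom ℚ) = Int.castRingHom ℂ := RingHom.ext_int _ _
    rwa [Polynomial.map_map, e] at this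
  exact Polynomial.rootMultiplicity_le_one_of_separable hsep2 z

theorem normE {E : Polynomial ℤ} (hE : Irreducible E) (h : HasNT E) {β : ℕ} (hβ : 0 < β) :
    ∃ N : Polynomial ℤ, N.IsPrimitive ∧ lm N = β * lm E ∧
      ∀ z : ℂ, ∃ Z : Finset ℂ, (∀ ζ ∈ Z, ζ ^ β = 1 ∧ Polynomial.aeval (ζ * z) E = 0) ∧
        (N.map (Int.castRingHom ℂ)).rootMultiplicity z = Z.card := by
  classical
  have hE0 : E.map (Int.castRingHom ℂ) ≠ 0 := by
    intro h0
    apply hE.ne_zero
    exact Polynomial.map_injective (Int.castRingHom ℂ) (RingHom.injective_int _)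
      (by rw [h0, Polynomial.map_zero])
  have hroots := NormE_nodup hβ
  refine ⟨NormE_N E β, NormE_primitive hE h hβ, ?_, ?_⟩
  · rw [lm, lm, NormE_map E hβ ℂ, NormE_lm_prod _ _ hE0, hroots.2]
    intro ζ hζ
    exact Complex.norm_eq_one_of_pow_eq_one (NormE_root_ne_zero hβ hζ).1 hβ.ne'
  · intro z
    set s := (Polynomial.X ^ β - 1 : Polynomial ℂ).roots with hs
    refine ⟨s.toFinset.filter (fun ζ => Polynomial.aeval (ζ * z) E = 0), ?_, ?_⟩
    · intro ζ hζ
      rw [Finset.mem_filter, Multiset.mem_toFinset] at hζ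
      exact ⟨(NormE_root_ne_zero hβ hζ.1).1, hζ.2⟩
    · rw [NormE_map E hβ ℂ, ← Polynomial.count_roots, Polynomial.roots_multiset_prod]
      · rw [Multiset.bind_map, Multiset.count_bind]
        have hcount : ∀ ζ ∈ s, Multiset.count z
            (((E.map (Int.castRingHom ℂ)).comp (Polynomial.C ζ * Polynomial.X)).roots) =
              if Polynomial.aeval (ζ * z) E = 0 then 1 else 0 := by
          intro ζ hζ
          have hζ0 := (NormE_root_ne_zero hβ hζ).2
          rw [Polynomial.count_roots]
          have h1 := Polynomial.rootMultiplicity_comp_C_mul_X_add_C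
            (E.map (Int.castRingHom ℂ)) ζ 0 z (isUnit_iff_ne_zero.mpr hζ0)
          simp only [map_zero, add_zero] at h1
          rw [h1]
          have h2 : Polynomial.aeval (ζ * z) E = (E.map (Int.castRingHom ℂ)).eval (ζ * z) := by
            rw [Polynomial.eval_map, Polynomial.aeval_def]
            rfl
          split_ifs with h3
          · apply le_antisymm (NormE_mult hE h _)
            rw [h2] at h3
            exact (Polynomial.rootMultiplicity_pos hE0).mpr h3
          · rw [h2] at h3
            exact Polynomial.rootMultiplicity_eq_zero h3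
        rw [Multiset.map_congr rfl hcount]
        rw [Finset.card_filter, Finset.sum_eq_multiset_sum, Multiset.toFinset_val, hroots.1.dedup]
      · rw [Multiset.mem_map]
        rintro ⟨ζ, hζ, h0⟩
        exact NormE_comp_ne_zero hE0 (NormE_root_ne_zero hβ hζ).2 h0

end Pool.Agent.H87.BZ
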