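import Pool.Agent.H87.BZ.MultR
import Pool.Agent.H87.BZ.NormE

/-!
# Project BZ, module RLow: lower bound for the measure of the resultant

`F`, `G ∈ ℤ[z][X]` of degrees at most `m`, `n` in `X`, `R = Res_X(F, G) ∈ ℤ[z]` (formal degrees `m`, `n`), not
zero. `E` irreducible with a nontorsion root; whenever `ζ ^ β = 1`, `E(ζ z) = 0` the polynomials `F(z, X)`,
`G(z, X)` vanish at `X = ζ` and are not both identically zero. Then `β * lm E ≤ lm R`.
Proof. `normE` gives `N`. For every `z` the multiplicity of `z` as a root of `N` is `|Z|`, `Z` a set of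
`ζ` with `ζ ^ β = 1`, `E(ζ z) = 0`. If `Z` is empty there is nothing to show. Otherwise `multR` (for the
images of `F`, `G` over `ℂ[z]`; the image of the resultant is the resultant of the images,
`Polynomial.resultant_map_map`; evaluation at `z` of the image over `ℂ` is `evz z`) shows that the
multiplicity of `z` in `R` is at least `|Z|` (`Polynomial.le_rootMultiplicity_iff`). So `N ∣ R` over `ℂ`
(`N` splits; `Multiset.le`/`Polynomial.roots`), hence over `ℚ` (`Polynomial.map_dvd_map'`), hence over `ℤ`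
(`N` primitive: `Polynomial.IsPrimitive.Int.dvd_iff_map_cast_dvd_map_cast` or
`IsPrimitive.dvd_of_fraction_map_dvd_fraction_map` applied to the primitive part of `R`). Then
`lm N ≤ lm R`: `R = N * M`, `lm` is additive, `lm M ≥ 0` (`M ≠ 0` has integer coefficients; the Mahler
measure is at least the absolute value of the leading coefficient).
-/

set_option autoImplicit false

namespace Pool.Agent.H87.BZ

open Polynomial in
private theorem RLow_map_ne {M : Polynomial ℤ} (hM : M ≠ 0) : M.map (Int.castRingHom ℂ) ≠ 0 := by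
  intro h
  exact hM ((Polynomial.map_eq_zero_iff Int.cast_injective).mp h)

theorem lm_nonneg {M : Polynomial ℤ} (hM : M ≠ 0) : 0 ≤ lm M := by
  unfold lm
  rw [Polynomial.logMahlerMeasure_eq_log_MahlerMeasure]
  apply Real.log_nonneg
  apply Polynomial.one_le_mahlerMeasure_of_one_le_norm_leadingCoeff
  rw [Polynomial.leadingCoeff_map_of_injective Int.cast_injective, eq_intCast,
    Complex.norm_intCast]
  have : M.leadingCoeff ≠ 0 := Polynomial.leadingCoeff_ne_zero.mpr hM
  exact_mod_cast Int.one_le_abs this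

theorem lm_mul {M N : Polynomial ℤ} (hM : M ≠ 0) (hN : N ≠ 0) : lm (M * N) = lm M + lm N := by
  unfold lm
  rw [Polynomial.map_mul]
  exact Polynomial.logMahlerMeasure_mul_eq_add_logMahlerMeasure
    (mul_ne_zero (RLow_map_ne hM) (RLow_map_ne hN))

private theorem RLow_evz (z : ℂ) :
    (Polynomial.evalRingHom z).comp (Polynomial.mapRingHom (Int.castRingHom ℂ)) = evz z := by
  ext
  · simp
  · simp [evz]

theorem rlow {F G : Polynomial (Polynomial ℤ)} {m n β : ℕ} (hβ : 0 < β) (hF : F.natDegree ≤ m)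
    (hG : G.natDegree ≤ n) {E : Polynomial ℤ} (hE : Irreducible E) (hE1 : HasNT E)
    (h : ∀ z ζ : ℂ, ζ ^ β = 1 → Polynomial.aeval (ζ * z) E = 0 →
      ((F.map (evz z)).eval ζ = 0 ∧ (G.map (evz z)).eval ζ = 0) ∧
        (F.map (evz z) ≠ 0 ∨ G.map (evz z) ≠ 0))
    (hR : Polynomial.resultant F G m n ≠ 0) :
    β * lm E ≤ lm (Polynomial.resultant F G m n) := by
  classical
  obtain ⟨N, hN, hlm, hroot⟩ := normE hE hE1 hβ
  have hN0 : N ≠ 0 := hN.ne_zero
  have hNc : N.map (Int.castRingHom ℂ) ≠ 0 := RLow_map_ne hN0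
  have hRc : (Polynomial.resultant F G m n).map (Int.castRingHom ℂ) ≠ 0 := RLow_map_ne hR
  have h1 : N.map (Int.castRingHom ℂ) ∣
      (Polynomial.resultant F G m n).map (Int.castRingHom ℂ) := by
    rw [IsAlgClosed.dvd_iff_roots_le_roots hNc hRc, Multiset.le_iff_count]
    intro z
    rw [Polynomial.count_roots, Polynomial.count_roots]
    obtain ⟨Z, hZ1, hZ2⟩ := hroot z
    rw [hZ2]
    rcases Z.eq_empty_or_nonempty with hZe | ⟨ζ₀, hζ₀⟩
    · rw [hZe]; simp
    rw [Polynomial.le_rootMultiplicity_iff hRc]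
    have key : ∀ Q : Polynomial (Polynomial ℤ),
        (Q.map (Polynomial.mapRingHom (Int.castRingHom ℂ))).map (Polynomial.evalRingHom z) =
          Q.map (evz z) := by
      intro Q
      rw [Polynomial.map_map, RLow_evz]
    have h2 := multR (F.map (Polynomial.mapRingHom (Int.castRingHom ℂ)))
      (G.map (Polynomial.mapRingHom (Int.castRingHom ℂ))) m n
      (Polynomial.natDegree_map_le.trans hF) (Polynomial.natDegree_map_le.trans hG) z Z
      (by rw [key, key]; exact (h z ζ₀ (hZ1 ζ₀ hζ₀).1 (hZ1 ζ₀ hζ₀).2).2)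
      (by
        intro ζ hζ
        rw [key, key]
        exact (h z ζ (hZ1 ζ hζ).1 (hZ1 ζ hζ).2).1)
    rw [Polynomial.resultant_map_map] at h2
    exact h2
  have h3 : N ∣ Polynomial.resultant F G m n := by
    rw [Polynomial.IsPrimitive.Int.dvd_iff_map_cast_dvd_map_cast _ _ hN]
    have e1 : ∀ Q : Polynomial ℤ, Q.map (Int.castRingHom ℂ) =
        (Q.map (Int.castRingHom ℚ)).map (algebraMap ℚ ℂ) := by
      intro Q
      rw [Polynomial.map_map]
      congr 1
    rw [e1 N, e1 (Polynomial.resultant F G m n), Polynomial.map_dvd_map'] at h1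
    exact h1
  obtain ⟨M, hM⟩ := h3
  have hM0 : M ≠ 0 := by
    rintro rfl
    exact hR (by rw [hM, mul_zero])
  rw [hM, lm_mul hN0 hM0, hlm]
  linarith [lm_nonneg hM0]

end Pool.Agent.H87.BZ
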