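import Pool.Agent.H87.BZ.Rpt
import Pool.Agent.H87.BZ.RLow

/-!
# Project BZ, module RUp: upper bound for the measure of the resultant

* `mm_le_sum`: `M(f) ≤` the sum of the absolute values of the coefficients (in Mathlib:
  `Polynomial.mahlerMeasure_le_sum_norm_coeff` or similar; or via the integral).
* `rup`: `F ∣ H`, `H = F * H'`. For all `z` on the unit circle outside a finite set (zeros of
  `R = Res(F, G)`, of the leading coefficients of `F`, `H'`, `H` in `ℤ[z]`): `log |R(z)| ≤ m log b + n log M(F_z)`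
  (`rpt` and `resultant_map_map` for `evz z`), `log M(F_z) = log M(H_z) - log M(H'_z) ≤
  log a - log |lc(H')(z)|` (`M(H'_z) ≥ |leading coefficient of H'_z| = |lc(H')(z)|`). So
  `log |R(z)| ≤ m log b + n log a - n log |lc(H')(z)|`. Average over the circle
  (`Real.circleAverage_mono`-type lemma; the functions `log |polynomial|` are circle integrable,
  `Polynomial.intervalIntegrable_mahlerMeasure`; finitely many `z` do not matter): `lm R ≤ m log b + n log a
  - n * lm (lc H')`, and `lm (lc H') ≥ 0` for the nonzero integer polynomial `lc H'`.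
-/

set_option autoImplicit false

namespace Pool.Agent.H87.BZ

theorem rup {F G H : Polynomial (Polynomial ℤ)} {m n : ℕ} {a b : ℝ} (hF : F.natDegree ≤ m)
    (hG : G.natDegree ≤ n) (hFH : F ∣ H) (hH : H ≠ 0) (ha : 1 ≤ a) (hb : 1 ≤ b)
    (hHa : ∀ z : ℂ, ‖z‖ = 1 → (H.map (evz z)).sum (fun _ c => ‖c‖) ≤ a)
    (hGb : ∀ z : ℂ, ‖z‖ = 1 → (G.map (evz z)).sum (fun _ c => ‖c‖) ≤ b)
    (hR : Polynomial.resultant F G m n ≠ 0) :
    lm (Polynomial.resultant F G m n) ≤ m * Real.log b + n * Real.log a := by
  obtain ⟨H', rfl⟩ := hFH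
  have hH' : H' ≠ 0 := right_ne_zero_of_mul hH
  have hL : H'.leadingCoeff ≠ 0 := Polynomial.leadingCoeff_ne_zero.mpr hH'
  have hLn : H'.leadingCoeff ^ n ≠ 0 := pow_ne_zero _ hL
  have h1 : lm (Polynomial.resultant F G m n) ≤
      lm (Polynomial.resultant F G m n * H'.leadingCoeff ^ n) := by
    rw [lm_mul hR hLn]
    linarith [lm_nonneg hLn]
  refine h1.trans ?_
  unfold lm
  rw [Polynomial.logMahlerMeasure_def]
  apply Real.circleAverage_mono_on_of_le_circle
  · exact (analyticOnNhd_id.aeval_polynomial _).meromorphicOn.circleIntegrable_log_norm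
  intro z hz
  have hz1 : ‖z‖ = 1 := by simpa using hz
  have hev : ∀ Q : Polynomial ℤ, (Q.map (Int.castRingHom ℂ)).eval z = evz z Q := by
    intro Q
    rw [Polynomial.eval_map]
    rfl
  rw [hev, map_mul, map_pow, ← Polynomial.resultant_map_map]
  have h2 := rpt (F.map (evz z)) (G.map (evz z)) m n (Polynomial.natDegree_map_le.trans hF)
    (Polynomial.natDegree_map_le.trans hG) b (hGb z hz1)
  have h3 : (F.map (evz z)).mahlerMeasure * ‖evz z H'.leadingCoeff‖ ≤ a := by
    have e1 : ‖evz z H'.leadingCoeff‖ ≤ (H'.map (evz z)).mahlerMeasure := by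
      by_cases h0 : evz z H'.leadingCoeff = 0
      · rw [h0, norm_zero]; exact Polynomial.mahlerMeasure_nonneg _
      · rw [← Polynomial.leadingCoeff_map_of_leadingCoeff_ne_zero _ h0]
        exact Polynomial.leadingCoeff_le_mahlerMeasure _
    calc (F.map (evz z)).mahlerMeasure * ‖evz z H'.leadingCoeff‖
        ≤ (F.map (evz z)).mahlerMeasure * (H'.map (evz z)).mahlerMeasure :=
          mul_le_mul_of_nonneg_left e1 (Polynomial.mahlerMeasure_nonneg _)
      _ = ((F * H').map (evz z)).mahlerMeasure := by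
          rw [Polynomial.map_mul, Polynomial.mahlerMeasure_mul]
      _ ≤ ((F * H').map (evz z)).sum (fun _ c => ‖c‖) :=
          Polynomial.mahlerMeasure_le_sum_norm_coeff _
      _ ≤ a := hHa z hz1
  have h4 : ‖Polynomial.resultant (F.map (evz z)) (G.map (evz z)) m n *
      evz z H'.leadingCoeff ^ n‖ ≤ b ^ m * a ^ n := by
    rw [norm_mul, norm_pow]
    calc _ ≤ (b ^ m * (F.map (evz z)).mahlerMeasure ^ n) * ‖evz z H'.leadingCoeff‖ ^ n :=
          mul_le_mul_of_nonneg_right h2 (by positivity)
      _ = b ^ m * ((F.map (evz z)).mahlerMeasure * ‖evz z H'.leadingCoeff‖) ^ n := by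
          rw [mul_pow]; ring
      _ ≤ b ^ m * a ^ n := by
          apply mul_le_mul_of_nonneg_left _ (by positivity)
          exact pow_le_pow_left₀ (mul_nonneg (Polynomial.mahlerMeasure_nonneg _)
            (norm_nonneg _)) h3 n
  have h5 : (1 : ℝ) ≤ b ^ m * a ^ n := by
    calc (1 : ℝ) = 1 * 1 := by ring
      _ ≤ b ^ m * a ^ n := mul_le_mul (one_le_pow₀ hb) (one_le_pow₀ ha) zero_le_one
          (by positivity)
  have h6 : m * Real.log b + n * Real.log a = Real.log (b ^ m * a ^ n) := by
    rw [Real.log_mul (by positivity) (by positivity), Real.log_pow, Real.log_pow]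
  rw [h6]
  rcases (norm_nonneg (Polynomial.resultant (F.map (evz z)) (G.map (evz z)) m n *
      evz z H'.leadingCoeff ^ n)).eq_or_lt with h0 | h0
  · rw [← h0, Real.log_zero]
    exact Real.log_nonneg h5
  · exact Real.log_le_log h0 h4

end Pool.Agent.H87.BZ
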