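import Pool.Agent.H87.BZ.Defs

/-!
# Project BZ, module ResDeg: degrees of a resultant

`Polynomial.resultant P Q m n` is the determinant of an `(m + n) × (m + n)` matrix whose entries are
coefficients of `P` or `Q` or zero. `Matrix.det_apply`, `MvPolynomial.degreeOf_sum_le`,
`degreeOf_mul_le`, `degreeOf_prod_le` (a product of `m + n` entries of `degreeOf j` at most `D`); the sign is
a unit constant.
-/

set_option autoImplicit false

namespace Pool.Agent.H87.BZ

theorem degreeOf_resultant {k : ℕ} (P Q : Polynomial (MvPolynomial (Fin k) ℤ)) (m n D : ℕ)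
    (hP : ∀ l j, (P.coeff l).degreeOf j ≤ D) (hQ : ∀ l j, (Q.coeff l).degreeOf j ≤ D)
    (j : Fin k) : (Polynomial.resultant P Q m n).degreeOf j ≤ (m + n) * D := by
  have hent : ∀ a b, (Polynomial.sylvester P Q m n a b).degreeOf j ≤ D := by
    intro a b
    induction b using Fin.addCases with
    | left b =>
      rw [Polynomial.sylvester, Matrix.of_apply, Fin.addCases_left]
      split_ifs
      · exact hQ _ j
      · rw [MvPolynomial.degreeOf_zero]; exact Nat.zero_le _
    | right b =>
      rw [Polynomial.sylvester, Matrix.of_apply, Fin.addCases_right]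
      split_ifs
      · exact hP _ j
      · rw [MvPolynomial.degreeOf_zero]; exact Nat.zero_le _
  unfold Polynomial.resultant
  rw [Matrix.det_apply]
  refine (MvPolynomial.degreeOf_sum_le j _ _).trans (Finset.sup_le fun σ _ => ?_)
  have hprod : (∏ i, Polynomial.sylvester P Q m n (σ i) i).degreeOf j ≤ (m + n) * D := by
    refine (MvPolynomial.degreeOf_prod_le j _ _).trans ?_
    refine (Finset.sum_le_card_nsmul _ _ D fun i _ => hent _ _).trans ?_
    simp
  have hsmul : Equiv.Perm.sign σ • ∏ i, Polynomial.sylvester P Q m n (σ i) i =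
      MvPolynomial.C ((Equiv.Perm.sign σ : ℤˣ) : ℤ) *
        ∏ i, Polynomial.sylvester P Q m n (σ i) i := by
    rw [Units.smul_def, ← MvPolynomial.smul_eq_C_mul]
  rw [hsmul]
  exact (MvPolynomial.degreeOf_C_mul_le _ _ _).trans hprod

end Pool.Agent.H87.BZ
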