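import Pool.Agent.H87.BZ.TrD
import Pool.Agent.H87.BZ.Psi

/-!
# Project BZ, module ResNe: the resultant is not zero

`f`, `Q` nonzero and relatively prime in `ℤ[X_0, ..., X_k]`, `psi β yh f = X ^ a * P`, `psi β yh Q = X ^ b * R`
with `P.coeff 0 ≠ 0`, `R.coeff 0 ≠ 0`.
* `res_ne`: the resultant of `P` and `R` is not zero. Let `L` be an algebraic closure of the fraction field
  of `MvPolynomial (Fin k) ℤ` (a field in `Type`, characteristic zero), `y i ∈ L` the image of the variable
  `X i`. If the resultant is zero, then so is the resultant of the images of `P`, `R` over the fraction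
  field (`Polynomial.resultant_map_map`; the degrees do not change), so they are not coprime
  (`Polynomial.resultant_eq_zero_iff`) and have a common root `T ∈ L` (a common factor of positive degree has
  a root in the algebraic closure). `T ≠ 0` because `P.coeff 0 ≠ 0`. By `psi_eval` (`S = L`), `tw β yh y T` is a
  common zero of `f` and `Q`. The `y i` are algebraically independent over `ℚ`: apply `trd` with `l = 0`
  (the coordinates of `Fin.cons T y` with index `≠ 0` are the `y i`).
-/

set_option autoImplicit false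

namespace Pool.Agent.H87.BZ

variable {k : ℕ}

private theorem ResNe_alg_ind (k : ℕ) {L : Type} [Field L] [CharZero L] (y : Fin k → L)
    (hφ : Function.Injective (MvPolynomial.aeval y : MvPolynomial (Fin k) ℤ →ₐ[ℤ] L)) (T : L) :
    AlgebraicIndependent ℚ (fun j : {j : Fin (k + 1) // j ≠ 0} =>
      (Fin.cons T y : Fin (k + 1) → L) j.1) := by
  have h0 : AlgebraicIndependent ℤ y := hφ
  have : Algebra.IsAlgebraic ℤ ℚ := IsLocalization.isAlgebraic ℚ (nonZeroDivisors ℤ)
  have h1 : AlgebraicIndependent ℚ y := h0.extendScalars ℚ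
  have h2 := h1.comp (fun j : {j : Fin (k + 1) // j ≠ 0} => Fin.pred j.1 j.2) (by
    intro a b hab
    apply Subtype.ext
    simpa using hab)
  convert h2 using 1
  funext j
  obtain ⟨j, hj⟩ := j
  obtain ⟨i, rfl⟩ := Fin.exists_succ_eq.mpr hj
  simp

private theorem ResNe_core {f Q : MvPolynomial (Fin (k + 1)) ℤ} (hf : f ≠ 0)
    (hrp : IsRelPrime f Q) {β : ℕ} (hβ : 1 ≤ β) (yh : Fin k → ℕ) {a b : ℕ}
    {P R : Polynomial (MvPolynomial (Fin k) ℤ)} (h1 : psi β yh f = Polynomial.X ^ a * P)
    (h1' : P.coeff 0 ≠ 0) (h2 : psi β yh Q = Polynomial.X ^ b * R)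
    (hres : Polynomial.resultant P R P.natDegree R.natDegree = 0)
    {L : Type} [Field L] [CharZero L] [IsAlgClosed L] (φ : MvPolynomial (Fin k) ℤ →+* L)
    (hφ : Function.Injective φ) : False := by
  have haev : (MvPolynomial.aeval (fun i => φ (MvPolynomial.X i)) :
      MvPolynomial (Fin k) ℤ →ₐ[ℤ] L).toRingHom = φ := by
    apply MvPolynomial.ringHom_ext
    · intro n
      simp
    · intro i
      simp
  have haev' : Function.Injective (MvPolynomial.aeval (fun i => φ (MvPolynomial.X i)) :
      MvPolynomial (Fin k) ℤ →ₐ[ℤ] L) := by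
    intro x y hxy
    apply hφ
    rw [← haev]
    exact hxy
  -- the resultant over L vanishes
  have hr : Polynomial.resultant (P.map φ) (R.map φ) = 0 := by
    have hP : (P.map φ).natDegree = P.natDegree := Polynomial.natDegree_map_eq_of_injective hφ P
    have hR : (R.map φ).natDegree = R.natDegree := Polynomial.natDegree_map_eq_of_injective hφ R
    rw [hP, hR, Polynomial.resultant_map_map, hres, map_zero]
  have hnc := (Polynomial.resultant_eq_zero_iff.mp hr).2
  rw [Polynomial.isCoprime_iff_aeval_ne_zero_of_isAlgClosed (k := L) L] at hnc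
  push Not at hnc
  obtain ⟨T, hT1, hT2⟩ := hnc
  have hT1' : Polynomial.eval₂ φ T P = 0 := by
    simpa [Polynomial.aeval_def, Polynomial.eval₂_map] using hT1
  have hT2' : Polynomial.eval₂ φ T R = 0 := by
    simpa [Polynomial.aeval_def, Polynomial.eval₂_map] using hT2
  have hT : T ≠ 0 := by
    rintro rfl
    rw [Polynomial.eval₂_at_zero] at hT1'
    exact h1' (hφ (by rw [hT1', map_zero]))
  have e1 := psi_eval β yh f (fun i => φ (MvPolynomial.X i)) T
  have e2 := psi_eval β yh Q (fun i => φ (MvPolynomial.X i)) T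
  rw [haev, h1, Polynomial.eval₂_mul, hT1', mul_zero] at e1
  rw [haev, h2, Polynomial.eval₂_mul, hT2', mul_zero] at e2
  exact trd hf hrp hT (fun i => φ (MvPolynomial.X i)) 0 (ResNe_alg_ind k _ haev' T) hβ yh e1.symm
    e2.symm

theorem res_ne {f Q : MvPolynomial (Fin (k + 1)) ℤ} (hf : f ≠ 0) (hQ : Q ≠ 0)
    (hrp : IsRelPrime f Q) {β : ℕ} (hβ : 1 ≤ β) (yh : Fin k → ℕ) {a b : ℕ}
    {P R : Polynomial (MvPolynomial (Fin k) ℤ)} (h1 : psi β yh f = Polynomial.X ^ a * P)
    (h1' : P.coeff 0 ≠ 0) (h2 : psi β yh Q = Polynomial.X ^ b * R) (h2' : R.coeff 0 ≠ 0) :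
    Polynomial.resultant P R P.natDegree R.natDegree ≠ 0 := by
  intro hres
  have : CharZero (MvPolynomial (Fin k) ℤ) := inferInstance
  have : CharZero (FractionRing (MvPolynomial (Fin k) ℤ)) :=
    charZero_of_injective_algebraMap
      (IsFractionRing.injective (MvPolynomial (Fin k) ℤ) (FractionRing (MvPolynomial (Fin k) ℤ)))
  have : CharZero (AlgebraicClosure (FractionRing (MvPolynomial (Fin k) ℤ))) :=
    charZero_of_injective_algebraMap (algebraMap (FractionRing (MvPolynomial (Fin k) ℤ)) _).injective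
  exact ResNe_core hf hrp hβ yh h1 h1' h2 hres
    ((algebraMap (FractionRing (MvPolynomial (Fin k) ℤ))
      (AlgebraicClosure (FractionRing (MvPolynomial (Fin k) ℤ)))).comp
      (algebraMap (MvPolynomial (Fin k) ℤ) (FractionRing (MvPolynomial (Fin k) ℤ))))
    (by
      intro x y hxy
      exact IsFractionRing.injective (MvPolynomial (Fin k) ℤ) _
        ((algebraMap (FractionRing (MvPolynomial (Fin k) ℤ)) _).injective hxy))

end Pool.Agent.H87.BZ
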