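import Pool.Agent.H87.BZ.FG
import Pool.Agent.H87.BZ.ResNe
import Pool.Agent.H87.BZ.NoCom
import Pool.Agent.H87.BZ.PsiW
import Pool.Agent.H87.BZ.ResDeg
import Pool.Agent.H87.BZ.Del
import Pool.Agent.H87.BZ.RLow
import Pool.Agent.H87.BZ.RUp

/-!
# Project BZ, module CoreE: an algebraic number of small height and bounded degree

Let `Dg = A.totalDegree + B.totalDegree`, `W = cons w U`, `t = A.support.card`. Not `Ann Dg U`, hence not
`Ann Dg W`. So `P := sb W A`, `Q := sb W B`, `sb U A = kap P`, `sb U B = kap Q` are not zero (`sb_ne_zero`,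
`kap_sb`).
1. `PF_exists_irr`: `e` irreducible, `NT e`, `e ∣ sb U A`, `e ∣ sb U B`. `fg`: `f ∣ P`, `IsRelPrime f Q`,
   `e ∣ kap f`. `psi β yh f = X ^ a * Ph`, `psi β yh Q = X ^ b * Qh`, `psi β yh P = X ^ a' * Hh` with nonzero
   constant coefficients (`psi_hat`, `psi_injective`), `Ph ∣ Hh` (`hat_dvd`). `m = natDegree Ph`,
   `n = natDegree Qh`, both at most `2 Dg Δ` (`psi_width`).
2. `De = 2 Dg (d k Δ)` bounds `degreeOf` of `sb U A`, `sb U B`, `e`, and of the coefficients of `Ph`, `Qh`,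
   `Hh` (`degreeOf_sb`; `psi_coeff_degreeOf`; `degreeOf (i+1)` of a divisor of `P` is at most that of `P`,
   `MvPolynomial.degreeOf_mul_eq`; the rows of index `i + 1` of `W` are those of `U`;
   the coefficients of `Ph` are those of `psi f`).
3. `R = Res(Ph, Qh) ≠ 0` (`res_ne`), `degreeOf R ≤ (m + n) De ≤ 4 Dg Δ De` (`degreeOf_resultant`).
4. `NT_degreeOf`: `i` with `e.degreeOf i ≠ 0`. `del i Ph Qh De` (`no_common`) gives `δ`,
   `degreeOf δ ≤ Dδ := 2 De De + De + De`.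
5. `H` = the set of the differences of the exponents of two different monomials of `sb U A`; at most `t ^ 2`
   elements (`card_support_sb`), nonzero, entries at most `De`. `Π₀ = q Δ ∏_{h ∈ H} |h_{j(h)}|` with
   `h_{j(h)} ≠ 0`; `Π₀ ≤ q Δ (De + 1) ^ (t ^ 2)`. `prm (t ^ 2) Π₀`: a prime `p > t ^ 2`, `p ∤ Π₀`,
   `p ≤ (t ^ 2)! Π₀ + 1`. (`t ≤ t ^ 2 < p`.)
6. `K₀ = De + t (2 De (p De) + De + p De + q Δ Dδ) + 4 Dg Δ De`; `pick i yh (q Δ) p K₀ H` gives `û`.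
7. `sel i e (sb U A) δ De Dδ t p (q Δ) K₀ û` gives `E` (`not_NT_of_expand` for the hypothesis on
   `expand p e`; `NT_not_dvd_monomial` for `hmon`).
8. `F = Ph.map (sp1 û)`, `G = Qh.map (sp1 û)`, `Hs = Hh.map (sp1 û)`: `Res(F, G) = sp1 û R ≠ 0` with formal
   degrees `m`, `n` (`Polynomial.resultant_map_map`, `sp1_ne_zero`), `F ∣ Hs`, `Hs ≠ 0` (some coefficient of
   `Hh` is not zero, and `sp1_ne_zero`). `(F.map (evz z)) = Ph.map (aeval (z ^ û))` (`aeval_sp1`).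
9. `rlow` (with `β := q Δ`): let `ζ ^ (q Δ) = 1`, `E(ζ z) = 0`. Then `ζ ^ β = 1` (`q Δ ∣ β`),
   `ζ ^ (yh j) = ζ ^ (û j)`, so by `psi_eval` and `aeval_kap` the value of `psi β yh f` at `(z ^ û, ζ)` is
   `f (1, (z ζ) ^ û) = (kap f)((ζ z) ^ û)`, which is zero because `E ∣ sp1 û e`, `e ∣ kap f`; so
   `ζ ^ a Ph(z ^ û, ζ) = 0`, `Ph(z ^ û, ζ) = 0`. The same for `Qh` (`e ∣ sb U B = kap Q`). Not both
   `Ph(z ^ û, X)`, `Qh(z ^ û, X)` are zero polynomials, because `δ(z ^ û) ≠ 0` (`sel` and `del`).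
   So `q Δ lm E ≤ lm (Res(F, G))`.
10. `rup` with `a = ln A`, `b = ln B` (both at least `1`: `psi_len` for `P`, `Q`, `y = z ^ û`):
   `lm (Res(F, G)) ≤ m log (ln B) + n log (ln A) ≤ 2 Dg Δ (log (ln A) + log (ln B))`.
   So `q lm E ≤ 2 Dg (log (ln A) + log (ln B))`.
11. `natDegree E ≤ natDegree (sp1 û e) ≤ De ∑ û j ≤ De p (q Δ) (K₀ + 2) ^ k` (`natDegree_sp1`), which is at
   most `C (q Δ + 1) ^ C` for a constant `C` depending only on `A`, `B`, `k`, `d`: all of `De`, `Dδ`, `Π₀`,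
   `p`, `K₀` are bounded by polynomials in `q Δ` (`Δ ≤ q Δ`).
-/

set_option autoImplicit false

namespace Pool.Agent.H87.BZ

open Polynomial in
/-- polynomially bounded functions -/
def PB (f : ℕ → ℕ) : Prop := ∃ C : ℕ, ∀ x, f x ≤ C * (x + 1) ^ C

theorem PB.mono {f g : ℕ → ℕ} (hg : PB g) (h : ∀ x, f x ≤ g x) : PB f := by
  obtain ⟨C, hC⟩ := hg
  exact ⟨C, fun x => (h x).trans (hC x)⟩

theorem PB.const (c : ℕ) : PB fun _ => c :=
  ⟨c, fun x => Nat.le_mul_of_pos_right _ (by positivity)⟩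

theorem PB.id : PB fun x => x := ⟨1, fun x => by simp⟩

theorem PB.add {f g : ℕ → ℕ} (hf : PB f) (hg : PB g) : PB fun x => f x + g x := by
  obtain ⟨C, hC⟩ := hf
  obtain ⟨D, hD⟩ := hg
  refine ⟨C + D, fun x => (add_le_add (hC x) (hD x)).trans ?_⟩
  rw [add_mul]
  exact add_le_add
    (Nat.mul_le_mul_left _ (Nat.pow_le_pow_right (by omega) (by omega)))
    (Nat.mul_le_mul_left _ (Nat.pow_le_pow_right (by omega) (by omega)))

theorem PB.mul {f g : ℕ → ℕ} (hf : PB f) (hg : PB g) : PB fun x => f x * g x := by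
  obtain ⟨C, hC⟩ := hf
  obtain ⟨D, hD⟩ := hg
  refine ⟨C * D + C + D, fun x => (Nat.mul_le_mul (hC x) (hD x)).trans ?_⟩
  have : C * (x + 1) ^ C * (D * (x + 1) ^ D) = (C * D) * (x + 1) ^ (C + D) := by
    rw [pow_add]; ring
  rw [this]
  exact Nat.mul_le_mul (by omega) (Nat.pow_le_pow_right (by omega) (by omega))

theorem PB.pow {f : ℕ → ℕ} (hf : PB f) (n : ℕ) : PB fun x => f x ^ n := by
  induction n with
  | zero => simpa using PB.const 1
  | succ n ih => simpa [pow_succ] using ih.mul hf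

open MvPolynomial in
theorem degreeOf_dvd {k : ℕ} {f P : MvPolynomial (Fin k) ℤ} (hP : P ≠ 0) (h : f ∣ P) (j : Fin k) :
    f.degreeOf j ≤ P.degreeOf j := by
  obtain ⟨g, rfl⟩ := h
  rw [degreeOf_mul_eq (left_ne_zero_of_mul hP) (right_ne_zero_of_mul hP)]
  omega

theorem one_le_ln {k : ℕ} {A : MvPolynomial (Fin k) ℤ} (hA : A ≠ 0) : 1 ≤ ln A := by
  obtain ⟨m, hm⟩ := MvPolynomial.support_nonempty.mpr hA
  have h1 : (1 : ℝ) ≤ |((A.coeff m : ℤ) : ℝ)| := by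
    have : (1 : ℤ) ≤ |A.coeff m| := Int.one_le_abs (by simpa using hm)
    exact_mod_cast this
  refine h1.trans ?_
  exact Finset.single_le_sum (f := fun m => |((A.coeff m : ℤ) : ℝ)|)
    (fun _ _ => abs_nonneg _) hm

/-- the first part of the construction -/
theorem setup {k d : ℕ} {A B : MvPolynomial (Fin d) ℤ} (hA : A ≠ 0) (hB : B ≠ 0)
    {U : Fin k → Fin d → ℤ} {w : Fin d → ℤ} (yh : Fin k → ℕ) {β : ℕ} (hβ : 1 ≤ β)
    (hAnn : ¬ Ann (A.totalDegree + B.totalDegree) U) (hPF : PF A B U)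
    (hnPF : ¬ PF A B (Fin.cons w U : Fin (k + 1) → Fin d → ℤ)) :
    ∃ (e : MvPolynomial (Fin k) ℤ) (f : MvPolynomial (Fin (k + 1)) ℤ) (a b a' : ℕ)
      (Ph Qh Hh : Polynomial (MvPolynomial (Fin k) ℤ)),
      Irreducible e ∧ NT e ∧ e ∣ sb U A ∧ e ∣ sb U B ∧
      sb U A ≠ 0 ∧ sb U B ≠ 0 ∧
      sb (Fin.cons w U : Fin (k + 1) → Fin d → ℤ) A ≠ 0 ∧
      sb (Fin.cons w U : Fin (k + 1) → Fin d → ℤ) B ≠ 0 ∧
      f ∣ sb (Fin.cons w U : Fin (k + 1) → Fin d → ℤ) A ∧ f ≠ 0 ∧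
      IsRelPrime f (sb (Fin.cons w U : Fin (k + 1) → Fin d → ℤ) B) ∧ e ∣ kap f ∧
      psi β yh f = Polynomial.X ^ a * Ph ∧ Ph.coeff 0 ≠ 0 ∧
      psi β yh (sb (Fin.cons w U : Fin (k + 1) → Fin d → ℤ) B) = Polynomial.X ^ b * Qh ∧
      Qh.coeff 0 ≠ 0 ∧
      psi β yh (sb (Fin.cons w U : Fin (k + 1) → Fin d → ℤ) A) = Polynomial.X ^ a' * Hh ∧
      Hh.coeff 0 ≠ 0 ∧ Ph ∣ Hh := by
  have hUA : sb U A ≠ 0 := sb_ne_zero hAnn (by omega) hA
  have hUB : sb U B ≠ 0 := sb_ne_zero hAnn (by omega) hB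
  have hWA : sb (Fin.cons w U : Fin (k + 1) → Fin d → ℤ) A ≠ 0 := by
    intro h
    rw [← kap_sb w U A, h, map_zero] at hUA
    exact hUA rfl
  have hWB : sb (Fin.cons w U : Fin (k + 1) → Fin d → ℤ) B ≠ 0 := by
    intro h
    rw [← kap_sb w U B, h, map_zero] at hUB
    exact hUB rfl
  obtain ⟨e, he, hNT, heA, heB⟩ := PF_exists_irr hPF hUA
  obtain ⟨f, hfP, hrp, hef⟩ := fg (P := sb (Fin.cons w U : Fin (k + 1) → Fin d → ℤ) A)
    (Q := sb (Fin.cons w U : Fin (k + 1) → Fin d → ℤ) B) he hNT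
    (by rw [kap_sb]; exact hUA) (by rw [kap_sb]; exact heA) hnPF
  have hf0 : f ≠ 0 := fun h => hWA (by rw [h] at hfP; exact zero_dvd_iff.mp hfP)
  have hinj := psi_injective hβ yh
  have h1 : psi β yh f ≠ 0 := fun h => hf0 (hinj (by rw [h, map_zero]))
  have h2 : psi β yh (sb (Fin.cons w U : Fin (k + 1) → Fin d → ℤ) B) ≠ 0 :=
    fun h => hWB (hinj (by rw [h, map_zero]))
  have h3 : psi β yh (sb (Fin.cons w U : Fin (k + 1) → Fin d → ℤ) A) ≠ 0 :=
    fun h => hWA (hinj (by rw [h, map_zero]))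
  obtain ⟨a, Ph, hPh, hPh0⟩ := psi_hat h1
  obtain ⟨b, Qh, hQh, hQh0⟩ := psi_hat h2
  obtain ⟨a', Hh, hHh, hHh0⟩ := psi_hat h3
  refine ⟨e, f, a, b, a', Ph, Qh, Hh, he, hNT, heA, heB, hUA, hUB, hWA, hWB, hfP, hf0, hrp, hef,
    hPh, hPh0, hQh, hQh0, hHh, hHh0, ?_⟩
  refine hat_dvd (a := a) (b := a') ?_ hPh0
  rw [← hPh, ← hHh]
  exact map_dvd _ hfP

theorem degreeOf_sb_le {k d Δ Dg : ℕ} {U : Fin k → Fin d → ℤ}
    (hU : ∀ i j, |U i j| ≤ (k : ℤ) * Δ) {A : MvPolynomial (Fin d) ℤ} (hA : A.totalDegree ≤ Dg)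
    (i : Fin k) : (sb U A).degreeOf i ≤ 2 * Dg * (d * (k * Δ)) := by
  refine (degreeOf_sb U A i).trans ?_
  have h1 : ∑ j, (U i j).natAbs ≤ d * (k * Δ) := by
    have : ∀ j ∈ (Finset.univ : Finset (Fin d)), (U i j).natAbs ≤ k * Δ := by
      intro j _
      have := hU i j
      have h2 : ((U i j).natAbs : ℤ) ≤ ((k * Δ : ℕ) : ℤ) := by
        rw [Int.natCast_natAbs]
        push_cast
        exact this
      exact_mod_cast h2
    have := Finset.sum_le_card_nsmul _ _ _ this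
    simpa using this
  exact Nat.mul_le_mul (Nat.mul_le_mul_left _ hA) h1

theorem degreeOf_sb_cons {k d Δ Dg : ℕ} {U : Fin k → Fin d → ℤ} (w : Fin d → ℤ)
    (hU : ∀ i j, |U i j| ≤ (k : ℤ) * Δ) {A : MvPolynomial (Fin d) ℤ} (hA : A.totalDegree ≤ Dg)
    (i : Fin k) : (sb (Fin.cons w U : Fin (k + 1) → Fin d → ℤ) A).degreeOf i.succ ≤
      2 * Dg * (d * (k * Δ)) := by
  refine (degreeOf_sb _ A i.succ).trans ?_
  have h1 : ∑ j, ((Fin.cons w U : Fin (k + 1) → Fin d → ℤ) i.succ j).natAbs ≤ d * (k * Δ) := by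
    have : ∀ j ∈ (Finset.univ : Finset (Fin d)),
        ((Fin.cons w U : Fin (k + 1) → Fin d → ℤ) i.succ j).natAbs ≤ k * Δ := by
      intro j _
      rw [Fin.cons_succ]
      have := hU i j
      have h2 : ((U i j).natAbs : ℤ) ≤ ((k * Δ : ℕ) : ℤ) := by
        rw [Int.natCast_natAbs]
        push_cast
        exact this
      exact_mod_cast h2
    have := Finset.sum_le_card_nsmul _ _ _ this
    simpa using this
  exact Nat.mul_le_mul (Nat.mul_le_mul_left _ hA) h1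

/-- degrees of the coefficients of the polynomials with hats -/
theorem coeff_hat_degreeOf {k D : ℕ} {β : ℕ} (hβ : 1 ≤ β) (yh : Fin k → ℕ)
    {f : MvPolynomial (Fin (k + 1)) ℤ} {a : ℕ} {Ph : Polynomial (MvPolynomial (Fin k) ℤ)}
    (h : psi β yh f = Polynomial.X ^ a * Ph) (hf : ∀ j : Fin k, f.degreeOf j.succ ≤ D)
    (n : ℕ) (j : Fin k) : (Ph.coeff n).degreeOf j ≤ D := by
  have h1 : Ph.coeff n = (psi β yh f).coeff (n + a) := by
    rw [h, Polynomial.coeff_X_pow_mul]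
  rw [h1]
  exact (psi_coeff_degreeOf hβ yh f _ j).trans (hf j)

theorem choose_dir {k : ℕ} {e P δ : MvPolynomial (Fin k) ℤ} {i : Fin k} {De Dδ t x K : ℕ}
    (yh : Fin k → ℕ) (he : Irreducible e) (hNT : NT e) (hei : e.degreeOf i ≠ 0) (hP : P ≠ 0)
    (heP : e ∣ P) (ht : P.support.card ≤ t) (hDP : ∀ j, P.degreeOf j ≤ De) (hδ : δ ≠ 0)
    (hδi : δ.degreeOf i = 0) (hDδ : ∀ j, δ.degreeOf j ≤ Dδ) (hx : 0 < x)
    (hK : De + t * (2 * De * (2 * (De + t ^ 2 + x) * De) + De + 2 * (De + t ^ 2 + x) * De + x * Dδ)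
      ≤ K) :
    ∃ (û : Fin k → ℕ) (E : Polynomial ℤ), (∀ j, û j ≡ yh j [MOD x]) ∧ Sep û K ∧
      Irreducible E ∧ HasNT E ∧ E ∣ sp1 û e ∧
      (∀ z ζ : ℂ, ζ ^ x = 1 → Polynomial.aeval (ζ * z) E = 0 →
        MvPolynomial.aeval (fun j => z ^ û j) δ ≠ 0) ∧
      E.natDegree ≤ De * (2 * (De + t ^ 2 + x) * x * (K + 2) ^ k) := by
  have hDe : ∀ j, e.degreeOf j ≤ De := fun j => (degreeOf_dvd hP heP j).trans (hDP j)
  obtain ⟨p, hp, hnp, hpn⟩ := Nat.exists_prime_lt_and_le_two_mul (De + t ^ 2 + x) (by omega)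
  have hpx : ¬ p ∣ x := fun h => absurd (Nat.le_of_dvd hx h) (by omega)
  obtain ⟨û, h1, h2, h3, h4, h5⟩ := pick i yh x p K hx hp hpx (difs P)
    (fun h hh => difs_not_dvd hDP (by omega) hh) (lt_of_le_of_lt (card_difs P ht) (by omega))
  have htt : t ≤ t ^ 2 := by
    rcases Nat.eq_zero_or_pos t with h | h
    · simp [h]
    · exact Nat.le_self_pow (by norm_num) t
  have hK' : De + t * (2 * De * (p * De) + De + p * De + x * Dδ) ≤ K := by
    refine le_trans ?_ hK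
    have h6 : p * De ≤ 2 * (De + t ^ 2 + x) * De := Nat.mul_le_mul_right _ hpn
    have h7 : 2 * De * (p * De) ≤ 2 * De * (2 * (De + t ^ 2 + x) * De) := Nat.mul_le_mul_left _ h6
    exact Nat.add_le_add_left (Nat.mul_le_mul_left _ (by omega)) _
  have hDeK : De ≤ K := le_trans (Nat.le_add_right _ _) hK'
  obtain ⟨E, hE, hE1, hE2, hE3⟩ := sel i e P δ De Dδ t p x K û he hei
    (by
      rintro ⟨m, c, hmc⟩
      have hc : c ≠ 0 := by
        rintro rfl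
        exact he.ne_zero (by rw [hmc, map_zero])
      exact NT_not_dvd_monomial hNT m hc (by rw [← hmc]))
    hP heP ht hp (by omega) hDe
    (fun m hm m' hm' hne => h2 _ (mem_difs hm hm' hne))
    (fun h => not_NT_of_expand he.ne_zero hp.two_le h hNT) hδ hδi hDδ hx hK' h3 h4
  refine ⟨û, E, h1, h4, hE, hE1, hE2, hE3, ?_⟩
  have h8 : sp1 û e ≠ 0 := sp1_ne_zero h4 he.ne_zero fun j => (hDe j).trans hDeK
  calc E.natDegree ≤ (sp1 û e).natDegree := Polynomial.natDegree_le_of_dvd hE2 h8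
    _ ≤ ∑ j, û j * e.degreeOf j := natDegree_sp1 û e
    _ ≤ ∑ j, û j * De := Finset.sum_le_sum fun j _ => Nat.mul_le_mul_left _ (hDe j)
    _ = De * ∑ j, û j := by rw [← Finset.sum_mul, mul_comm]
    _ ≤ De * (p * x * (K + 2) ^ k) := Nat.mul_le_mul_left _ h5
    _ ≤ De * (2 * (De + t ^ 2 + x) * x * (K + 2) ^ k) :=
      Nat.mul_le_mul_left _ (Nat.mul_le_mul_right _ (Nat.mul_le_mul_right _ hpn))

theorem evz_comp {k : ℕ} (û : Fin k → ℕ) (z : ℂ) :
    (evz z).comp (sp1 û).toRingHom =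
      (MvPolynomial.aeval (fun i => z ^ û i) : MvPolynomial (Fin k) ℤ →ₐ[ℤ] ℂ).toRingHom := by
  refine RingHom.ext fun P => ?_
  exact aeval_sp1 û P z

/-- the zeros at `(z ^ û, ζ)` -/
theorem van {k : ℕ} {û yh : Fin k → ℕ} {x β : ℕ} (hx : 0 < x) (hdvd : x ∣ β)
    (hmod : ∀ j, û j ≡ yh j [MOD x]) {z ζ : ℂ} (hζ : ζ ^ x = 1)
    {f : MvPolynomial (Fin (k + 1)) ℤ} {e : MvPolynomial (Fin k) ℤ} (hef : e ∣ kap f)
    (he : MvPolynomial.aeval (fun i => (ζ * z) ^ û i) e = 0) {a : ℕ}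
    {Ph : Polynomial (MvPolynomial (Fin k) ℤ)} (h : psi β yh f = Polynomial.X ^ a * Ph) :
    ((Ph.map (sp1 û).toRingHom).map (evz z)).eval ζ = 0 := by
  have hζ0 : ζ ≠ 0 := by
    rintro rfl
    rw [zero_pow hx.ne'] at hζ
    exact zero_ne_one hζ
  rw [Polynomial.map_map, evz_comp, Polynomial.eval_map]
  have h1 := psi_eval β yh f (fun i => z ^ û i) ζ
  have h2 : tw β yh (fun i => z ^ û i) ζ =
      (Fin.cons 1 (fun i => (ζ * z) ^ û i) : Fin (k + 1) → ℂ) := by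
    unfold tw
    have h3 : ζ ^ β = 1 := by
      obtain ⟨c, rfl⟩ := hdvd
      rw [pow_mul, hζ, one_pow]
    have h4 : ∀ i, z ^ û i * ζ ^ yh i = (ζ * z) ^ û i := by
      intro i
      have h5 : ζ ^ yh i = ζ ^ û i := by
        have h6 : û i % x = yh i % x := hmod i
        rw [pow_eq_pow_mod (yh i) hζ, ← h6, ← pow_eq_pow_mod (û i) hζ]
      rw [h5, mul_pow, mul_comm]
    rw [h3]
    congr 1
    funext i
    exact h4 i
  rw [h2, ← aeval_kap, h, Polynomial.eval₂_mul, Polynomial.eval₂_pow, Polynomial.eval₂_X] at h1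
  have h6 : MvPolynomial.aeval (fun i => (ζ * z) ^ û i) (kap f) = 0 := by
    obtain ⟨g, hg⟩ := hef
    rw [hg, map_mul, he, zero_mul]
  rw [h6] at h1
  exact (mul_eq_zero.mp h1).resolve_left (pow_ne_zero _ hζ0)

theorem lm_bound {k d : ℕ} {A B : MvPolynomial (Fin d) ℤ} (hA : A ≠ 0) (hB : B ≠ 0)
    {q Δ x : ℕ} (hq : 1 ≤ q) (hΔ : 1 ≤ Δ) (hxq : x = q * Δ) {U : Fin k → Fin d → ℤ}
    {w v : Fin d → ℤ} {yh : Fin k → ℕ} {β : ℕ} (hβ : 1 ≤ β) (hdvd : x ∣ β)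
    (hv : ∀ j, v j = β * w j + ∑ i, (yh i : ℤ) * U i j) (hvΔ : ∀ j, |v j| ≤ (Δ : ℤ))
    {e : MvPolynomial (Fin k) ℤ} {f : MvPolynomial (Fin (k + 1)) ℤ} {a b a' : ℕ}
    {Ph Qh Hh : Polynomial (MvPolynomial (Fin k) ℤ)}
    (heB : e ∣ sb U B)
    (hWA : sb (Fin.cons w U : Fin (k + 1) → Fin d → ℤ) A ≠ 0)
    (hWB : sb (Fin.cons w U : Fin (k + 1) → Fin d → ℤ) B ≠ 0)
    (hfP : f ∣ sb (Fin.cons w U : Fin (k + 1) → Fin d → ℤ) A) (hef : e ∣ kap f)
    (hPh : psi β yh f = Polynomial.X ^ a * Ph) (hPh0 : Ph.coeff 0 ≠ 0)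
    (hQh : psi β yh (sb (Fin.cons w U : Fin (k + 1) → Fin d → ℤ) B) = Polynomial.X ^ b * Qh)
    (hQh0 : Qh.coeff 0 ≠ 0)
    (hHh : psi β yh (sb (Fin.cons w U : Fin (k + 1) → Fin d → ℤ) A) = Polynomial.X ^ a' * Hh)
    (hPH : Ph ∣ Hh) {û : Fin k → ℕ} {E : Polynomial ℤ}
    (hmod : ∀ j, û j ≡ yh j [MOD x]) (hE : Irreducible E) (hE1 : HasNT E) (hE2 : E ∣ sp1 û e)
    {δ : MvPolynomial (Fin k) ℤ}
    (hE3 : ∀ z ζ : ℂ, ζ ^ x = 1 → Polynomial.aeval (ζ * z) E = 0 →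
        MvPolynomial.aeval (fun j => z ^ û j) δ ≠ 0)
    (hδ : ∀ y : Fin k → ℂ, (∀ n, MvPolynomial.aeval y (Ph.coeff n) = 0) →
        (∀ n, MvPolynomial.aeval y (Qh.coeff n) = 0) → MvPolynomial.aeval y δ = 0)
    (hHs : Hh.map (sp1 û).toRingHom ≠ 0)
    (hR : sp1 û (Polynomial.resultant Ph Qh Ph.natDegree Qh.natDegree) ≠ 0) :
    (q : ℝ) * lm E ≤ 2 * (A.totalDegree + B.totalDegree) * (Real.log (ln A) + Real.log (ln B)) := by
  have hx : 0 < x := by rw [hxq]; positivity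
  have hR' : Polynomial.resultant (Ph.map (sp1 û).toRingHom) (Qh.map (sp1 û).toRingHom)
      Ph.natDegree Qh.natDegree ≠ 0 := by
    rw [Polynomial.resultant_map_map]
    exact hR
  have hlow := rlow (F := Ph.map (sp1 û).toRingHom) (G := Qh.map (sp1 û).toRingHom)
    (m := Ph.natDegree) (n := Qh.natDegree) hx Polynomial.natDegree_map_le
    Polynomial.natDegree_map_le hE hE1
    (by
      intro z ζ hζ hz
      have he0 : MvPolynomial.aeval (fun i => (ζ * z) ^ û i) e = 0 := by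
        rw [← aeval_sp1]
        obtain ⟨g, hg⟩ := hE2
        rw [hg, map_mul, hz, zero_mul]
      refine ⟨⟨van hx hdvd hmod hζ hef he0 hPh,
        van hx hdvd hmod hζ (by rw [kap_sb]; exact heB) he0 hQh⟩, ?_⟩
      by_contra hcon
      rw [not_or, not_not, not_not] at hcon
      obtain ⟨hc1, hc2⟩ := hcon
      rw [Polynomial.map_map, evz_comp] at hc1 hc2
      refine hE3 z ζ hζ hz (hδ _ (fun n => ?_) fun n => ?_)
      · have := congrArg (fun P : Polynomial ℂ => P.coeff n) hc1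
        simpa [Polynomial.coeff_map] using this
      · have := congrArg (fun P : Polynomial ℂ => P.coeff n) hc2
        simpa [Polynomial.coeff_map] using this)
    hR'
  have hlnA := one_le_ln hA
  have hlnB := one_le_ln hB
  have hup := rup (F := Ph.map (sp1 û).toRingHom) (G := Qh.map (sp1 û).toRingHom)
    (H := Hh.map (sp1 û).toRingHom) (m := Ph.natDegree) (n := Qh.natDegree) (a := ln A)
    (b := ln B) Polynomial.natDegree_map_le Polynomial.natDegree_map_le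
    (by
      obtain ⟨g, hg⟩ := hPH
      exact ⟨g.map (sp1 û).toRingHom, by rw [hg, Polynomial.map_mul]⟩) hHs hlnA hlnB
    (by
      intro z hz
      rw [Polynomial.map_map, evz_comp]
      exact psi_len hβ yh U w hHh _ fun i => by rw [norm_pow, hz, one_pow])
    (by
      intro z hz
      rw [Polynomial.map_map, evz_comp]
      exact psi_len hβ yh U w hQh _ fun i => by rw [norm_pow, hz, one_pow])
    hR'
  have hm : Ph.natDegree ≤ 2 * A.totalDegree * Δ := psi_width hβ yh U w v hv hvΔ hWA hfP hPh hPh0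
  have hn : Qh.natDegree ≤ 2 * B.totalDegree * Δ :=
    psi_width hβ yh U w v hv hvΔ hWB (dvd_refl _) hQh hQh0
  have hm' : (Ph.natDegree : ℝ) ≤ 2 * (A.totalDegree + B.totalDegree) * Δ := by
    have : Ph.natDegree ≤ 2 * (A.totalDegree + B.totalDegree) * Δ :=
      hm.trans (Nat.mul_le_mul_right _ (Nat.mul_le_mul_left _ (Nat.le_add_right _ _)))
    exact_mod_cast this
  have hn' : (Qh.natDegree : ℝ) ≤ 2 * (A.totalDegree + B.totalDegree) * Δ := by
    have : Qh.natDegree ≤ 2 * (A.totalDegree + B.totalDegree) * Δ :=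
      hn.trans (Nat.mul_le_mul_right _ (Nat.mul_le_mul_left _ (Nat.le_add_left _ _)))
    exact_mod_cast this
  have hlA : 0 ≤ Real.log (ln A) := Real.log_nonneg hlnA
  have hlB : 0 ≤ Real.log (ln B) := Real.log_nonneg hlnB
  have h1 : (x : ℝ) * lm E ≤ 2 * (A.totalDegree + B.totalDegree) * Δ * Real.log (ln B) +
      2 * (A.totalDegree + B.totalDegree) * Δ * Real.log (ln A) :=
    (hlow.trans hup).trans (add_le_add (mul_le_mul_of_nonneg_right hm' hlB)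
      (mul_le_mul_of_nonneg_right hn' hlA))
  have hΔ0 : (0 : ℝ) < Δ := by exact_mod_cast hΔ
  have h2 : (Δ : ℝ) * (q * lm E) ≤ Δ * (2 * (A.totalDegree + B.totalDegree) *
      (Real.log (ln A) + Real.log (ln B))) := by
    have h3 : (x : ℝ) = q * Δ := by rw [hxq]; push_cast; ring
    rw [h3] at h1
    linarith
  exact le_of_mul_le_mul_left h2 hΔ0

/-- bound for the degrees in the `k` variables -/
def De (d k Dg : ℕ) (x : ℕ) : ℕ := 2 * Dg * (d * (k * x))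

/-- the bound for the separation parameter -/
def KK (d k Dg t : ℕ) (x : ℕ) : ℕ :=
  De d k Dg x + t * (2 * De d k Dg x * (2 * (De d k Dg x + t ^ 2 + x) * De d k Dg x) +
    De d k Dg x + 2 * (De d k Dg x + t ^ 2 + x) * De d k Dg x +
    x * (2 * De d k Dg x * De d k Dg x + De d k Dg x + De d k Dg x)) + 4 * Dg * x * De d k Dg x

theorem PB_De (d k Dg : ℕ) : PB (De d k Dg) :=
  (PB.const (2 * Dg)).mul ((PB.const d).mul ((PB.const k).mul PB.id))

theorem PB_KK (d k Dg t : ℕ) : PB (KK d k Dg t) := by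
  have h := PB_De d k Dg
  have h1 : PB fun x => 2 * (De d k Dg x + t ^ 2 + x) :=
    (PB.const 2).mul ((h.add (PB.const _)).add PB.id)
  have h2 : PB fun x => 2 * De d k Dg x := (PB.const 2).mul h
  exact (h.add ((PB.const t).mul ((((h2.mul (h1.mul h)).add h).add (h1.mul h)).add
    (PB.id.mul (((h2.mul h).add h).add h))))).add (((PB.const (4 * Dg)).mul PB.id).mul h)

theorem PB_final (d k Dg t : ℕ) : PB fun x =>
    De d k Dg x * (2 * (De d k Dg x + t ^ 2 + x) * x * (KK d k Dg t x + 2) ^ k) :=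
  (PB_De d k Dg).mul ((((PB.const 2).mul (((PB_De d k Dg).add (PB.const _)).add PB.id)).mul
    PB.id).mul (((PB_KK d k Dg t).add (PB.const 2)).pow k))

theorem core {k d : ℕ} {A B : MvPolynomial (Fin d) ℤ} (hA : A ≠ 0) (hB : B ≠ 0) :
    ∃ C : ℕ, ∀ (q Δ : ℕ) (U : Fin k → Fin d → ℤ) (w v : Fin d → ℤ) (yh : Fin k → ℕ) (β : ℕ),
      1 ≤ q → 1 ≤ Δ → (∀ i j, |U i j| ≤ (k : ℤ) * Δ) → 1 ≤ β → q * Δ ∣ β →
      (∀ j, v j = β * w j + ∑ i, (yh i : ℤ) * U i j) → (∀ j, |v j| ≤ (Δ : ℤ)) →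
      ¬ Ann (A.totalDegree + B.totalDegree) U → PF A B U →
      ¬ PF A B (Fin.cons w U : Fin (k + 1) → Fin d → ℤ) →
      ∃ E : Polynomial ℤ, Irreducible E ∧ HasNT E ∧ q * lm E ≤ C ∧
        E.natDegree ≤ C * (q * Δ + 1) ^ C := by
  set Dg := A.totalDegree + B.totalDegree with hDg
  set t := A.support.card with ht
  obtain ⟨C₁, hC₁⟩ := PB_final d k Dg t
  set L : ℝ := 2 * (A.totalDegree + B.totalDegree) * (Real.log (ln A) + Real.log (ln B)) with hL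
  refine ⟨C₁ + ⌈L⌉₊, ?_⟩
  intro q Δ U w v yh β hq hΔ hU hβ hdvd hv hvΔ hAnn hPF hnPF
  obtain ⟨x, hx⟩ : ∃ x, x = q * Δ := ⟨_, rfl⟩
  rw [← hx] at hdvd
  have hx0 : 0 < x := by rw [hx]; positivity
  have hΔx : Δ ≤ x := by rw [hx]; exact Nat.le_mul_of_pos_left _ hq
  obtain ⟨e, f, a, b, a', Ph, Qh, Hh, he, hNT, heA, heB, hUA, hUB, hWA, hWB, hfP, hf0, hrp, hef,
    hPh, hPh0, hQh, hQh0, hHh, hHh0, hPH⟩ := setup hA hB yh hβ hAnn hPF hnPF
  have hDeM : 2 * Dg * (d * (k * Δ)) ≤ De d k Dg x :=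
    Nat.mul_le_mul_left _ (Nat.mul_le_mul_left _ (Nat.mul_le_mul_left _ hΔx))
  have hUx : ∀ i, (sb U A).degreeOf i ≤ De d k Dg x := fun i =>
    (degreeOf_sb_le hU (Nat.le_add_right _ _) i).trans hDeM
  have hfd : ∀ j : Fin k, f.degreeOf j.succ ≤ De d k Dg x := fun j =>
    (degreeOf_dvd hWA hfP j.succ).trans
      ((degreeOf_sb_cons w hU (Nat.le_add_right _ _) j).trans hDeM)
  have hdP := coeff_hat_degreeOf hβ yh hPh hfd
  have hdQ := coeff_hat_degreeOf hβ yh hQh fun j =>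
    (degreeOf_sb_cons w hU (Nat.le_add_left _ _) j).trans hDeM
  have hdH := coeff_hat_degreeOf hβ yh hHh fun j =>
    (degreeOf_sb_cons w hU (Nat.le_add_right _ _) j).trans hDeM
  have hres := res_ne hf0 hWB hrp hβ yh hPh hPh0 hQh hQh0
  have hm : Ph.natDegree ≤ 2 * A.totalDegree * Δ := psi_width hβ yh U w v hv hvΔ hWA hfP hPh hPh0
  have hn : Qh.natDegree ≤ 2 * B.totalDegree * Δ :=
    psi_width hβ yh U w v hv hvΔ hWB (dvd_refl _) hQh hQh0
  have hmn : Ph.natDegree + Qh.natDegree ≤ 4 * Dg * x := by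
    have h1 : A.totalDegree * Δ ≤ Dg * x := Nat.mul_le_mul (Nat.le_add_right _ _) hΔx
    have h2 : B.totalDegree * Δ ≤ Dg * x := Nat.mul_le_mul (Nat.le_add_left _ _) hΔx
    have h3 : 2 * A.totalDegree * Δ = 2 * (A.totalDegree * Δ) := by ring
    have h4 : 2 * B.totalDegree * Δ = 2 * (B.totalDegree * Δ) := by ring
    have h5 : 4 * Dg * x = 4 * (Dg * x) := by ring
    omega
  have hresd : ∀ j, (Polynomial.resultant Ph Qh Ph.natDegree Qh.natDegree).degreeOf j ≤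
      4 * Dg * x * De d k Dg x := fun j =>
    (degreeOf_resultant Ph Qh _ _ (De d k Dg x) hdP hdQ j).trans (Nat.mul_le_mul_right _ hmn)
  obtain ⟨i, hi⟩ := NT_degreeOf he.ne_zero hNT
  have hPh' : Ph ≠ 0 := fun h => hPh0 (by rw [h, Polynomial.coeff_zero])
  obtain ⟨δ, hδ, hδi, hDδ, hδv⟩ := del i Ph Qh hPh' (De d k Dg x) hdP hdQ fun g hg hgi =>
    no_common hf0 hWB hrp hβ yh hPh hQh i hg hgi
  obtain ⟨û, E, h1, hsep, hE, hE1, hE2, hE3, hdeg⟩ := choose_dir (t := t) (x := x)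
    (K := KK d k Dg t x) yh he hNT hi hUA heA (card_support_sb U A) hUx hδ hδi hDδ hx0
    (by unfold KK; exact Nat.le_add_right _ _)
  have hK1 : De d k Dg x ≤ KK d k Dg t x := by
    unfold KK
    rw [add_assoc]
    exact Nat.le_add_right _ _
  have hK2 : 4 * Dg * x * De d k Dg x ≤ KK d k Dg t x := by
    unfold KK
    exact Nat.le_add_left _ _
  refine ⟨E, hE, hE1, ?_, ?_⟩
  · have hlm := lm_bound hA hB hq hΔ hx hβ hdvd hv hvΔ heB hWA hWB hfP hef hPh hPh0 hQh hQh0 hHh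
      hPH h1 hE hE1 hE2 hE3 hδv
      (by
        intro h
        have h2 : sp1 û (Hh.coeff 0) = 0 := by
          have := congrArg (fun P : Polynomial (Polynomial ℤ) => P.coeff 0) h
          rwa [Polynomial.coeff_map, Polynomial.coeff_zero] at this
        exact sp1_ne_zero hsep hHh0 (fun j => (hdH 0 j).trans hK1) h2)
      (sp1_ne_zero hsep hres fun j => (hresd j).trans hK2)
    have h2 : L ≤ (⌈L⌉₊ : ℝ) := Nat.le_ceil L
    have h3 : ((C₁ + ⌈L⌉₊ : ℕ) : ℝ) = C₁ + (⌈L⌉₊ : ℝ) := by push_cast; ring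
    rw [h3]
    have h4 : (0 : ℝ) ≤ C₁ := Nat.cast_nonneg _
    linarith
  · rw [← hx]
    refine hdeg.trans ((hC₁ x).trans ?_)
    exact Nat.mul_le_mul (Nat.le_add_right _ _)
      (Nat.pow_le_pow_right (by omega) (Nat.le_add_right _ _))

end Pool.Agent.H87.BZ
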