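import Mathlib

/-!
# Project BZ (MP_9f5454_nt): intersections of subvarieties of codimension two with one-dimensional
subgroups (theorem of Bombieri and Zannier), and the nonreciprocal part of the question

Definitions.
* `NTor ξ`: `ξ` is a nonzero complex number which is not a root of unity.
* `pt ξ r = (ξ ^ r_1, ..., ξ ^ r_k)`.
* `NT e`: `e` has zeros `pt ξ r` with `ξ` not a root of unity, for directions `r` outside any given
  finite union of hyperplanes (expressed with a nonzero polynomial `h`).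
* `sp1 û`: the substitution `X_i ↦ X ^ (û i)`, into polynomials in one variable.
* `sb U A`: the substitution `x_j ↦ ∏ i, X_i ^ (U i j)` in `A`, multiplied by the monomial
  `∏ i, X_i ^ (shf U A i)` (which makes all exponents nonnegative).
* `Prim U`: the integer matrix `U` has an integer right inverse (its rows are a basis of a primitive
  sublattice).
* `PF A B U`: `sb U A` and `sb U B` have a common factor `e` with `NT e`.
* `Ann c U`: some nonzero integer vector with entries at most `c` in absolute value is orthogonal to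
  all rows of `U`.
* `kap`: the substitution `X_0 ↦ 1`, `X_(i+1) ↦ X_i`.
* `psi β yh`: the substitution `X_0 ↦ X ^ β`, `X_(i+1) ↦ X_i * X ^ (yh i)` into polynomials in one
  variable `X` over `MvPolynomial (Fin k) ℤ`.
* `lm E`: the logarithmic Mahler measure of an integer polynomial in one variable.
* `evz z`: evaluation of integer polynomials at `z`.
-/

set_option autoImplicit false

namespace Pool.Agent.H87.BZ

/-- `ξ` is neither zero nor a root of unity. -/
def NTor (ξ : ℂ) : Prop := ξ ≠ 0 ∧ ∀ n : ℕ, 0 < n → ξ ^ n ≠ 1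

/-- The point `(ξ ^ r_1, ..., ξ ^ r_k)`. -/
noncomputable def pt {k : ℕ} (ξ : ℂ) (r : Fin k → ℤ) : Fin k → ℂ := fun i => ξ ^ r i

/-- `e` has zeros of the form `pt ξ r`, `ξ` not a root of unity, for generic `r`. -/
def NT {k : ℕ} (e : MvPolynomial (Fin k) ℤ) : Prop :=
  ∀ h : MvPolynomial (Fin k) ℤ, h ≠ 0 → ∃ (r : Fin k → ℤ) (ξ : ℂ), NTor ξ ∧
    MvPolynomial.aeval (pt ξ r) e = 0 ∧ ∃ z : ℂ, z ≠ 0 ∧ MvPolynomial.aeval (pt z r) h ≠ 0

/-- The substitution `X_i ↦ X ^ (û i)`. -/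
noncomputable def sp1 {k : ℕ} (û : Fin k → ℕ) : MvPolynomial (Fin k) ℤ →ₐ[ℤ] Polynomial ℤ :=
  MvPolynomial.aeval fun i => (Polynomial.X : Polynomial ℤ) ^ û i

/-- The shift which makes all exponents nonnegative. -/
def shf {k d : ℕ} (U : Fin k → Fin d → ℤ) (A : MvPolynomial (Fin d) ℤ) (i : Fin k) : ℤ :=
  (A.totalDegree : ℤ) * ∑ j, |U i j|

/-- The exponent vector of the image of the monomial `m`. -/
noncomputable def ex {k d : ℕ} (U : Fin k → Fin d → ℤ) (A : MvPolynomial (Fin d) ℤ)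
    (m : Fin d →₀ ℕ) : Fin k →₀ ℕ :=
  Finsupp.equivFunOnFinite.symm fun i => (shf U A i + ∑ j, U i j * (m j : ℤ)).toNat

/-- The substitution `x_j ↦ ∏ i, X_i ^ (U i j)` in `A`, times a monomial. -/
noncomputable def sb {k d : ℕ} (U : Fin k → Fin d → ℤ) (A : MvPolynomial (Fin d) ℤ) :
    MvPolynomial (Fin k) ℤ :=
  ∑ m ∈ A.support, MvPolynomial.monomial (ex U A m) (A.coeff m)

/-- `U` has an integer right inverse. -/
def Prim {k d : ℕ} (U : Fin k → Fin d → ℤ) : Prop :=
  ∃ V : Fin d → Fin k → ℤ, ∀ i i', ∑ j, U i j * V j i' = if i = i' then 1 else 0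

/-- `sb U A` and `sb U B` have a common factor of type `NT`. -/
def PF {k d : ℕ} (A B : MvPolynomial (Fin d) ℤ) (U : Fin k → Fin d → ℤ) : Prop :=
  ∃ e : MvPolynomial (Fin k) ℤ, NT e ∧ e ∣ sb U A ∧ e ∣ sb U B

/-- Some small nonzero vector is orthogonal to all rows of `U`. -/
def Ann {k d : ℕ} (c : ℕ) (U : Fin k → Fin d → ℤ) : Prop :=
  ∃ b : Fin d → ℤ, b ≠ 0 ∧ (∀ j, |b j| ≤ (c : ℤ)) ∧ ∀ i, ∑ j, U i j * b j = 0

/-- The substitution `X_0 ↦ 1`, `X_(i+1) ↦ X_i`. -/
noncomputable def kap {k : ℕ} :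
    MvPolynomial (Fin (k + 1)) ℤ →ₐ[ℤ] MvPolynomial (Fin k) ℤ :=
  MvPolynomial.aeval (Fin.cons 1 MvPolynomial.X)

/-- The point `(T ^ β, y_1 T ^ (yh 1), ..., y_k T ^ (yh k))`. -/
def tw {k : ℕ} {S : Type*} [CommRing S] (β : ℕ) (yh : Fin k → ℕ) (y : Fin k → S) (T : S) :
    Fin (k + 1) → S := Fin.cons (T ^ β) fun i => y i * T ^ yh i

/-- The substitution `X_0 ↦ X ^ β`, `X_(i+1) ↦ X_i * X ^ (yh i)`. -/
noncomputable def psi {k : ℕ} (β : ℕ) (yh : Fin k → ℕ) :
    MvPolynomial (Fin (k + 1)) ℤ →ₐ[ℤ] Polynomial (MvPolynomial (Fin k) ℤ) :=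
  MvPolynomial.aeval (tw β yh (fun i => Polynomial.C (MvPolynomial.X i)) Polynomial.X)

/-- The logarithmic Mahler measure of an integer polynomial in one variable. -/
noncomputable def lm (E : Polynomial ℤ) : ℝ :=
  (E.map (Int.castRingHom ℂ)).logMahlerMeasure

/-- Evaluation of integer polynomials at `z`. -/
noncomputable def evz (z : ℂ) : Polynomial ℤ →+* ℂ := (Polynomial.aeval z : Polynomial ℤ →ₐ[ℤ] ℂ)

/-- The length of an integer polynomial in several variables. -/
noncomputable def ln {k : ℕ} (P : MvPolynomial (Fin k) ℤ) : ℝ :=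
  ∑ m ∈ P.support, |((P.coeff m : ℤ) : ℝ)|

/-- A nontorsion root exists. -/
def HasNT (E : Polynomial ℤ) : Prop := ∃ ξ : ℂ, NTor ξ ∧ Polynomial.aeval ξ E = 0

end Pool.Agent.H87.BZ
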