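import Pool.Agent.H87.BZ.Dob5
import Pool.Agent.H87.BZ.RLow

/-!
# Project BZ, module Dob: lower bound for the measure, all cases

`dob`: for every `K` there is `c > 0` with `c ≤ (lm E) ^ K * natDegree E` for all irreducible `E ∈ ℤ[X]` with a
nontorsion root.
* `natDegree E ≥ 1` (a nonzero constant has no roots); so `K = 0` is clear with `c = 1`. Let `K ≥ 1`.
* If the leading coefficient has absolute value at least `2`: `lm E ≥ log 2` (the Mahler measure is at least
  the absolute value of the leading coefficient).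
* Otherwise `E` or `-E` is monic (`lm (-E) = lm E`, roots, irreducibility are the same). For
  `natDegree ≥ D₀`: `dob_large`. For `natDegree < D₀`: the set of all integer polynomials with `natDegree < D₀`
  and Mahler measure at most `e` is finite (`Polynomial.finite_mahlerMeasure_le`); every irreducible `E` with
  a nontorsion root has `lm E > 0` (`lm_nonneg` and, if `lm E = 0`, all nonzero roots are roots of unity,
  `Polynomial.pow_eq_one_of_mahlerMeasure_eq_one`); so `lm E ≥ μ` for some `μ ∈ (0, 1]` for all these `E`,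
  and `c ≤ μ ^ K` works.
-/

set_option autoImplicit false

namespace Pool.Agent.H87.BZ

private theorem Dob_deg {E : Polynomial ℤ} (hE : Irreducible E) (h : HasNT E) :
    1 ≤ E.natDegree := by
  by_contra hcon
  have h0 : E.natDegree = 0 := by omega
  obtain ⟨a, ha⟩ := Polynomial.natDegree_eq_zero.1 h0
  obtain ⟨ξ, -, hξ⟩ := h
  rw [← ha, Polynomial.aeval_C] at hξ
  have ha0 : a = 0 := by simpa using hξ
  exact hE.ne_zero (by rw [← ha, ha0, Polynomial.C_0])

private theorem Dob_lm_eq (E : Polynomial ℤ) :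
    lm E = Real.log (E.map (Int.castRingHom ℂ)).mahlerMeasure := by
  rw [lm, Polynomial.logMahlerMeasure_eq_log_MahlerMeasure]

private theorem Dob_lm_neg (E : Polynomial ℤ) : lm (-E) = lm E := by
  simp [lm, Polynomial.logMahlerMeasure]

private theorem Dob_map_ne {E : Polynomial ℤ} (hE : E ≠ 0) :
    E.map (Int.castRingHom ℂ) ≠ 0 :=
  (Polynomial.map_ne_zero_iff (Int.castRingHom ℂ).injective_int).2 hE

private theorem Dob_lm_pos {E : Polynomial ℤ} (hE : Irreducible E) (h : HasNT E) : 0 < lm E := by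
  have hne := hE.ne_zero
  rcases (lm_nonneg hne).lt_or_eq with hlt | heq
  · exact hlt
  · exfalso
    have hM : (E.map (Int.castRingHom ℂ)).mahlerMeasure = 1 := by
      have hpos := Polynomial.mahlerMeasure_pos_of_ne_zero (Dob_map_ne hne)
      rw [Dob_lm_eq] at heq
      exact Real.eq_one_of_pos_of_log_eq_zero hpos heq.symm
    obtain ⟨ξ, ⟨hξ0, hξ⟩, hroot⟩ := h
    obtain ⟨n, hn, hpow⟩ := Polynomial.pow_eq_one_of_mahlerMeasure_eq_one hM hξ0
      (by
        rw [Polynomial.mem_aroots]
        exact ⟨hne, hroot⟩)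
    exact hξ n hn hpow

private theorem Dob_min {S : Set (Polynomial ℤ)} (hS : S.Finite) :
    (∀ E ∈ S, 0 < lm E) → ∃ μ : ℝ, 0 < μ ∧ ∀ E ∈ S, μ ≤ lm E := by
  refine Set.Finite.induction_on _ hS ?_ ?_
  · intro _
    exact ⟨1, one_pos, fun E hE => absurd hE (Set.notMem_empty E)⟩
  · intro a s _ _ ih h
    obtain ⟨μ, hμ, hs⟩ := ih fun E hE => h E (Set.mem_insert_of_mem _ hE)
    refine ⟨min μ (lm a), lt_min hμ (h a (Set.mem_insert _ _)), fun E hE => ?_⟩
    rcases Set.mem_insert_iff.1 hE with rfl | hE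
    · exact min_le_right _ _
    · exact (min_le_left _ _).trans (hs E hE)

private theorem Dob_aux {x y : ℝ} {K n : ℕ} (hy : 0 ≤ y) (hx : y ≤ x) (hn : 1 ≤ n) :
    y ^ K ≤ x ^ K * n := by
  have h1 : y ^ K ≤ x ^ K := pow_le_pow_left₀ hy hx K
  have h2 : (1 : ℝ) ≤ n := by exact_mod_cast hn
  have h3 : 0 ≤ x ^ K := pow_nonneg (hy.trans hx) K
  calc y ^ K ≤ x ^ K := h1
    _ = x ^ K * 1 := (mul_one _).symm
    _ ≤ x ^ K * n := mul_le_mul_of_nonneg_left h2 h3

private theorem Dob_monic (K : ℕ) (hK : 1 ≤ K) : ∃ c : ℝ, 0 < c ∧ ∀ E : Polynomial ℤ,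
    Irreducible E → E.Monic → HasNT E → c ≤ lm E ^ K * E.natDegree := by
  obtain ⟨D₀, c₁, hc₁, hlarge⟩ := dob_large K hK
  have hfin := Polynomial.finite_mahlerMeasure_le D₀ ⟨Real.exp 1, (Real.exp_pos 1).le⟩
  obtain ⟨μ, hμ, hmin⟩ := Dob_min (hfin.subset (Set.inter_subset_left
    (t := {E : Polynomial ℤ | Irreducible E ∧ HasNT E})))
    (fun E hE => Dob_lm_pos hE.2.1 hE.2.2)
  refine ⟨min c₁ (min (μ ^ K) 1), lt_min hc₁ (lt_min (pow_pos hμ K) one_pos),
    fun E hE hmon hNT => ?_⟩
  have hdeg := Dob_deg hE hNT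
  by_cases hD : D₀ ≤ E.natDegree
  · exact (min_le_left _ _).trans (hlarge E hE hmon hNT hD)
  · by_cases hM : (E.map (Int.castRingHom ℂ)).mahlerMeasure ≤ Real.exp 1
    · refine (min_le_right _ _).trans ((min_le_left _ _).trans ?_)
      refine Dob_aux hμ.le (hmin E ⟨⟨by omega, ?_⟩, hE, hNT⟩) hdeg
      exact hM
    · refine (min_le_right _ _).trans ((min_le_right _ _).trans ?_)
      have h1 : (1 : ℝ) ≤ lm E := by
        rw [Dob_lm_eq]
        rw [Real.le_log_iff_exp_le (Polynomial.mahlerMeasure_pos_of_ne_zero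
          (Dob_map_ne hE.ne_zero))]
        exact (not_le.1 hM).le
      have := Dob_aux (K := K) zero_le_one h1 hdeg
      simpa using this

theorem dob (K : ℕ) : ∃ c : ℝ, 0 < c ∧ ∀ E : Polynomial ℤ, Irreducible E → HasNT E →
    c ≤ lm E ^ K * E.natDegree := by
  rcases Nat.eq_zero_or_pos K with rfl | hK
  · refine ⟨1, one_pos, fun E hE hNT => ?_⟩
    have := Dob_deg hE hNT
    rw [pow_zero, one_mul]
    exact_mod_cast this
  · obtain ⟨c₁, hc₁, hmonic⟩ := Dob_monic K hK
    have hlog : 0 < Real.log 2 := Real.log_pos one_lt_two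
    refine ⟨min c₁ (Real.log 2 ^ K), lt_min hc₁ (pow_pos hlog K), fun E hE hNT => ?_⟩
    have hdeg := Dob_deg hE hNT
    have hne := hE.ne_zero
    by_cases hl : |E.leadingCoeff| = 1
    · refine (min_le_left _ _).trans ?_
      rcases (abs_eq zero_le_one).1 hl with h1 | h1
      · exact hmonic E hE h1 hNT
      · have hirr : Irreducible (-E) := (Associated.neg_left (Associated.refl E)).irreducible_iff.2 hE
        have hNT' : HasNT (-E) := by
          obtain ⟨ξ, h2, h3⟩ := hNT
          exact ⟨ξ, h2, by rw [map_neg, h3, neg_zero]⟩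
        have hmon : (-E).Monic := by
          rw [Polynomial.Monic, Polynomial.leadingCoeff_neg, h1, neg_neg]
        have := hmonic (-E) hirr hmon hNT'
        rwa [Dob_lm_neg, Polynomial.natDegree_neg] at this
    · refine (min_le_right _ _).trans (Dob_aux hlog.le ?_ hdeg)
      have h2 : (2 : ℤ) ≤ |E.leadingCoeff| := by
        have h3 : 0 < |E.leadingCoeff| := abs_pos.2 (Polynomial.leadingCoeff_ne_zero.2 hne)
        omega
      have h3 : (2 : ℝ) ≤ (E.map (Int.castRingHom ℂ)).mahlerMeasure := by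
        refine le_trans ?_ (Polynomial.leadingCoeff_le_mahlerMeasure _)
        rw [Polynomial.leadingCoeff_map_of_injective (Int.castRingHom ℂ).injective_int]
        simp only [eq_intCast, Complex.norm_intCast]
        exact_mod_cast h2
      rw [Dob_lm_eq]
      exact Real.log_le_log two_pos h3

end Pool.Agent.H87.BZ
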