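import Pool.Agent.H87.BZ.Defs

/-!
# Project BZ, module Dob1: the auxiliary polynomial (Dobrowolski)

`E` monic irreducible of degree `D ≥ 1`, with roots `α_1, ..., α_D` (distinct). `lm E = ∑ log max(1, |α_i|)`.
Write `R_i = N ^ T * max(1, |α_i|) ^ N`. For a polynomial `g` with `natDegree < N` and coefficients in
`{0, 1}` and `s < T` one has `|(hasseDeriv s g)(α_i)| ≤ ∑_{n < N} C(n, s) max(1,|α_i|) ^ N ≤
N * N ^ s * max(1, |α_i|) ^ N ≤ R_i`. Let `M` be a natural number with
`3 N ^ T exp(N lm E / D) ≤ M ≤ 6 N ^ T exp(N lm E / D)` (the left side is at least `3`, so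
`⌈ ⌉` works). Divide each of the squares `[-R_i, R_i]^2 ⊂ ℂ` into `M ^ 2` equal squares of side
`2 R_i / M`. There are `2 ^ N` polynomials `g` and `M ^ (2 T D)` possible positions of the vector
`((hasseDeriv s g)(α_i))_(s < T, i)`; as `M ^ (2 T D) < 2 ^ N` there are two polynomials `g ≠ g'` with the
same position. `F = g - g'`. Then `|(hasseDeriv s F)(α_i)| ≤ 2 √2 R_i / M`, so
`∏_i |(hasseDeriv s F)(α_i)| ≤ (2 √2 N ^ T / M) ^ D * exp(N lm E) < 1` (`(exp(N lm E / D)) ^ D =
exp(N lm E)`). The product `∏_i (hasseDeriv s F)(α_i)` is an integer (the resultant of the monic `E` and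
`hasseDeriv s F`, or a norm), so it is `0`; hence `hasseDeriv s F` vanishes at some `α_i`, so it is
divisible by `E` (irreducible), for every `s < T`. So every `α_i` is a root of `F` of multiplicity at least
`T` (`Polynomial.lt_rootMultiplicity_iff..`, `hasseDeriv` versions, or Taylor expansion), and `E ^ T ∣ F`
over `ℂ`, hence over `ℤ` (`E ^ T` monic).
-/

set_option autoImplicit false

namespace Pool.Agent.H87.BZ

open Polynomial

/-- The product of the values of an integer polynomial at the roots of a monic one is an integer. -/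
private theorem Dob1_int {E : Polynomial ℤ} (hm : E.Monic) (G : Polynomial ℤ) :
    ∃ z : ℤ, ((E.map (Int.castRingHom ℂ)).roots.map
      (fun a => (G.map (Int.castRingHom ℂ)).eval a)).prod = (z : ℂ) := by
  refine ⟨resultant E G, ?_⟩
  have hsp : (E.map (Int.castRingHom ℂ)).Splits := IsAlgClosed.splits _
  have h1 := resultant_eq_prod_eval (E.map (Int.castRingHom ℂ)) (G.map (Int.castRingHom ℂ))
    G.natDegree natDegree_map_le hsp
  rw [hm.natDegree_map, resultant_map_map, (hm.map _).leadingCoeff, one_pow, one_mul] at h1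
  rw [← h1]
  rfl

/-- Zero product. -/
private theorem Dob1_zero {E : Polynomial ℤ} (hm : E.Monic) (G : Polynomial ℤ)
    (h : ((E.map (Int.castRingHom ℂ)).roots.map
      (fun a => ‖(G.map (Int.castRingHom ℂ)).eval a‖)).prod < 1) :
    ∃ a ∈ (E.map (Int.castRingHom ℂ)).roots, (G.map (Int.castRingHom ℂ)).eval a = 0 := by
  obtain ⟨z, hz⟩ := Dob1_int hm G
  have h2 : ((E.map (Int.castRingHom ℂ)).roots.map
      (fun a => ‖(G.map (Int.castRingHom ℂ)).eval a‖)).prod = ‖(z : ℂ)‖ := by
    rw [← hz]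
    generalize (E.map (Int.castRingHom ℂ)).roots = s
    induction s using Multiset.induction_on with
    | empty => simp
    | cons a s ih => simp only [Multiset.map_cons, Multiset.prod_cons, norm_mul, ih]
  rw [h2] at h
  have hz0 : z = 0 := by
    have : |(z : ℝ)| < 1 := by simpa using h
    have h3 : |z| < 1 := by exact_mod_cast this
    exact Int.abs_lt_one_iff.mp h3
  rw [hz0, Int.cast_zero] at hz
  rw [Multiset.prod_eq_zero_iff] at hz
  rw [Multiset.mem_map] at hz
  exact hz

/-- `E` divides everything vanishing at a root. -/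
private theorem Dob1_dvd {E : Polynomial ℤ} (hE : Irreducible E) (hm : E.Monic) (G : Polynomial ℤ)
    {a : ℂ} (ha : a ∈ (E.map (Int.castRingHom ℂ)).roots)
    (hG : (G.map (Int.castRingHom ℂ)).eval a = 0) : E ∣ G := by
  have hEa : Polynomial.aeval a E = 0 := by
    have := (Polynomial.mem_roots'.mp ha).2
    rw [IsRoot.def, eval_map] at this
    exact this
  have hGa : Polynomial.aeval a G = 0 := by
    rw [eval_map] at hG
    exact hG
  have hint : IsIntegral ℤ a := ⟨E, hm, hEa⟩
  have h1 : minpoly ℤ a ∣ E := minpoly.isIntegrallyClosed_dvd hint hEa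
  have h2 : minpoly ℤ a ∣ G := minpoly.isIntegrallyClosed_dvd hint hGa
  have h3 : ¬ IsUnit (minpoly ℤ a) := minpoly.not_isUnit ℤ a
  have h4 : Associated (minpoly ℤ a) E := (hE.dvd_iff.mp h1).resolve_left h3 |>.symm
  exact h4.symm.dvd.trans h2

private theorem Dob1_hmap (F : Polynomial ℤ) (s : ℕ) :
    (hasseDeriv s F).map (Int.castRingHom ℂ) = hasseDeriv s (F.map (Int.castRingHom ℂ)) := by
  ext n
  simp [coeff_map, hasseDeriv_coeff]

/-- Hasse derivative and divisibility by powers. -/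
private theorem Dob1_pow {E : Polynomial ℤ} (hE : Irreducible E) (hm : E.Monic) (F : Polynomial ℤ)
    (T : ℕ) (h : ∀ s < T, E ∣ hasseDeriv s F) : E ^ T ∣ F := by
  have hinj : Function.Injective (Int.castRingHom ℂ) := Int.cast_injective
  rw [← Polynomial.map_dvd_map (Int.castRingHom ℂ) hinj (hm.pow T), Polynomial.map_pow]
  have hnd : (E.map (Int.castRingHom ℂ)).roots.Nodup := by
    have h1 : Irreducible (E.map (algebraMap ℤ ℚ)) :=
      (Polynomial.Monic.irreducible_iff_irreducible_map_fraction_map hm).mp hE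
    have h2 : ((E.map (algebraMap ℤ ℚ)).map (algebraMap ℚ ℂ)).Separable := h1.separable.map
    rw [Polynomial.map_map] at h2
    have h3 : (algebraMap ℚ ℂ).comp (algebraMap ℤ ℚ) = Int.castRingHom ℂ := RingHom.ext_int _ _
    rw [h3] at h2
    exact nodup_roots h2
  have hsp : (E.map (Int.castRingHom ℂ)).Splits := IsAlgClosed.splits _
  have hprod : E.map (Int.castRingHom ℂ) =
      ∏ a ∈ (E.map (Int.castRingHom ℂ)).roots.toFinset, (X - C a) := by
    have h4 := hsp.eq_prod_roots_of_monic (hm.map _)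
    rw [Finset.prod, Multiset.toFinset_val, hnd.dedup]
    exact h4
  rw [hprod, ← Finset.prod_pow]
  apply Finset.prod_dvd_of_coprime
  · intro a _ b _ hab
    exact (isCoprime_X_sub_C_of_isUnit_sub (sub_ne_zero.mpr hab).isUnit).pow
  · intro a ha
    rw [Multiset.mem_toFinset] at ha
    have h5 : (X : ℂ[X]) ^ T ∣ taylor a (F.map (Int.castRingHom ℂ)) := by
      rw [X_pow_dvd_iff]
      intro s hs
      rw [taylor_coeff, ← Dob1_hmap]
      obtain ⟨Q, hQ⟩ := h s hs
      rw [hQ, Polynomial.map_mul, eval_mul]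
      have : eval a (E.map (Int.castRingHom ℂ)) = 0 := (Polynomial.mem_roots'.mp ha).2
      rw [this, zero_mul]
    obtain ⟨Q, hQ⟩ := h5
    have h6 := congrArg (taylor (-a)) hQ
    rw [taylor_taylor, taylor_mul, taylor_pow, taylor_X, neg_add_cancel, taylor_zero] at h6
    rw [h6, C_neg, ← sub_eq_add_neg]
    exact Dvd.intro _ rfl

/-- Bound for the values of the Hasse derivatives. -/
private theorem Dob1_bound (G : Polynomial ℤ) {N s T : ℕ} (hN : 1 ≤ N) (hs : s < T)
    (hd : G.natDegree < N) (hc : ∀ n, |G.coeff n| ≤ 1) (a : ℂ) :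
    ‖(hasseDeriv s (G.map (Int.castRingHom ℂ))).eval a‖ ≤ (N : ℝ) ^ T * (max 1 ‖a‖) ^ N := by
  have h1 : (hasseDeriv s (G.map (Int.castRingHom ℂ))).natDegree < N := by
    refine lt_of_le_of_lt (natDegree_hasseDeriv_le _ _) ?_
    have : (G.map (Int.castRingHom ℂ)).natDegree ≤ G.natDegree := natDegree_map_le
    omega
  have hM : (1 : ℝ) ≤ max 1 ‖a‖ := le_max_left _ _
  have hN' : (1 : ℝ) ≤ N := by exact_mod_cast hN
  rw [eval_eq_sum_range' h1]
  have h2 : ∀ i ∈ Finset.range N, ‖(hasseDeriv s (G.map (Int.castRingHom ℂ))).coeff i * a ^ i‖ ≤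
      (N : ℝ) ^ s * (max 1 ‖a‖) ^ N := by
    intro i hi
    rw [Finset.mem_range] at hi
    rw [norm_mul, norm_pow]
    apply mul_le_mul
    · rw [hasseDeriv_coeff, coeff_map, norm_mul]
      by_cases hi' : i + s < N
      · have e1 : ‖(((i + s).choose s : ℕ) : ℂ)‖ ≤ (N : ℝ) ^ s := by
          rw [Complex.norm_natCast]
          calc (((i + s).choose s : ℕ) : ℝ) ≤ (((i + s) ^ s : ℕ) : ℝ) := by
                exact_mod_cast Nat.choose_le_pow (i + s) s
            _ ≤ (N : ℝ) ^ s := by
                push_cast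
                gcongr
                exact_mod_cast hi'.le
        have e2 : ‖(Int.castRingHom ℂ) (G.coeff (i + s))‖ ≤ 1 := by
          have := hc (i + s)
          rw [eq_intCast, Complex.norm_intCast]
          exact_mod_cast this
        calc _ ≤ (N : ℝ) ^ s * 1 := mul_le_mul e1 e2 (norm_nonneg _) (by positivity)
          _ = _ := mul_one _
      · have : G.coeff (i + s) = 0 := coeff_eq_zero_of_natDegree_lt (by omega)
        rw [this]
        simp
    · calc ‖a‖ ^ i ≤ (max 1 ‖a‖) ^ i := pow_le_pow_left₀ (norm_nonneg _) (le_max_right _ _) _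
        _ ≤ (max 1 ‖a‖) ^ N := pow_le_pow_right₀ hM hi.le
    · positivity
    · positivity
  calc _ ≤ ∑ i ∈ Finset.range N, (N : ℝ) ^ s * (max 1 ‖a‖) ^ N := norm_sum_le_of_le _ h2
    _ = (N : ℝ) ^ (s + 1) * (max 1 ‖a‖) ^ N := by
        rw [Finset.sum_const, Finset.card_range, nsmul_eq_mul]; ring
    _ ≤ _ := by
        apply mul_le_mul_of_nonneg_right _ (by positivity)
        exact pow_le_pow_right₀ hN' (by omega)

/-- The polynomial with coefficients given by a Boolean vector. -/
private noncomputable def Dob1_g (N : ℕ) (b : Fin N → Bool) : Polynomial ℤ :=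
  ∑ i : Fin N, C (if b i then (1 : ℤ) else 0) * X ^ (i : ℕ)

private theorem Dob1_gcoeff (N : ℕ) (b : Fin N → Bool) (n : ℕ) :
    (Dob1_g N b).coeff n = if h : n < N then (if b ⟨n, h⟩ then 1 else 0) else 0 := by
  unfold Dob1_g
  rw [finsetSum_coeff]
  simp only [coeff_C_mul_X_pow]
  by_cases h : n < N
  · rw [dif_pos h]
    rw [Finset.sum_eq_single ⟨n, h⟩]
    · simp
    · intro i _ hi
      rw [if_neg]
      rintro rfl
      exact hi rfl
    · simp
  · rw [dif_neg h]
    apply Finset.sum_eq_zero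
    intro i _
    rw [if_neg]
    rintro rfl
    exact h i.2

private theorem Dob1_gdeg (N : ℕ) (hN : 1 ≤ N) (b : Fin N → Bool) :
    (Dob1_g N b).natDegree < N := by
  have h1 : (Dob1_g N b).degree < (N : WithBot ℕ) := by
    rw [degree_lt_iff_coeff_zero]
    intro m hm
    rw [Dob1_gcoeff, dif_neg (by omega)]
  have h2 : (Dob1_g N b).natDegree ≤ N - 1 := by
    rw [natDegree_le_iff_coeff_eq_zero]
    intro m hm
    rw [Dob1_gcoeff, dif_neg (by omega)]
  omega

/-- Two numbers in the same subinterval. -/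
private theorem Dob1_floor {u u' r : ℝ} {M : ℕ} (hM : 1 ≤ M) (hr : 0 < r) (hu : |u| ≤ r)
    (hu' : |u'| ≤ r) (h : min ⌊(u + r) * (M / (2 * r))⌋₊ M = min ⌊(u' + r) * (M / (2 * r))⌋₊ M) :
    |u - u'| ≤ 2 * r / M := by
  have hM' : (0 : ℝ) < M := by exact_mod_cast hM
  have hc : (0 : ℝ) < M / (2 * r) := by positivity
  have key : ∀ w : ℝ, |w| ≤ r → 0 ≤ (w + r) * (M / (2 * r)) ∧
      ⌊(w + r) * (M / (2 * r))⌋₊ ≤ M := by
    intro w hw
    rw [abs_le] at hw
    refine ⟨mul_nonneg (by linarith) hc.le, ?_⟩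
    apply Nat.floor_le_of_le
    calc (w + r) * (M / (2 * r)) ≤ (2 * r) * (M / (2 * r)) := by
          apply mul_le_mul_of_nonneg_right _ hc.le
          linarith
      _ = M := by field_simp
  obtain ⟨k1, k2⟩ := key u hu
  obtain ⟨k3, k4⟩ := key u' hu'
  rw [min_eq_left k2, min_eq_left k4] at h
  have f1 := Nat.floor_le k1
  have f2 := Nat.lt_floor_add_one ((u + r) * (M / (2 * r)))
  have f3 := Nat.floor_le k3
  have f4 := Nat.lt_floor_add_one ((u' + r) * (M / (2 * r)))
  rw [h] at f1 f2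
  have f5 : |(u - u') * (M / (2 * r))| ≤ 1 := by
    rw [abs_le]
    constructor <;> nlinarith
  rw [abs_mul, abs_of_pos hc] at f5
  rw [← le_div_iff₀ hc] at f5
  calc |u - u'| ≤ 1 / (M / (2 * r)) := f5
    _ = 2 * r / M := by field_simp

theorem aux1 {E : Polynomial ℤ} (hE : Irreducible E) (hm : E.Monic) (T N : ℕ) (hT : 1 ≤ T)
    (hN : 1 ≤ N)
    (h : (6 * (N : ℝ) ^ T * Real.exp (N * lm E / E.natDegree)) ^ (2 * T * E.natDegree) <
      2 ^ N) :
    ∃ F : Polynomial ℤ, F ≠ 0 ∧ F.natDegree < N ∧ (∀ n, |F.coeff n| ≤ 1) ∧ E ^ T ∣ F := by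
  classical
  have hD : 1 ≤ E.natDegree := by
    by_contra hc
    have h0 : E.natDegree = 0 := by omega
    have := hm.natDegree_eq_zero.mp h0
    exact hE.not_isUnit (this ▸ isUnit_one)
  have hcard : (E.map (Int.castRingHom ℂ)).roots.card = E.natDegree := by
    rw [← hm.natDegree_map (Int.castRingHom ℂ)]
    exact (IsAlgClosed.splits _ : (E.map (Int.castRingHom ℂ)).Splits).natDegree_eq_card_roots.symm
  have hE0 : E.map (Int.castRingHom ℂ) ≠ 0 := (hm.map _).ne_zero
  have hexp : Real.exp (lm E) =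
      ((E.map (Int.castRingHom ℂ)).roots.map (fun a => max 1 ‖a‖)).prod := by
    unfold lm
    rw [logMahlerMeasure_eq_log_MahlerMeasure, Real.exp_log (mahlerMeasure_pos_of_ne_zero hE0),
      mahlerMeasure_eq_leadingCoeff_mul_prod_roots,
      (hm.map _).leadingCoeff, norm_one, one_mul]
  have hlm : 0 ≤ lm E := by
    rw [← Real.one_le_exp_iff, hexp]
    exact one_le_prod_max_one_norm_roots _
  have hN' : (1 : ℝ) ≤ N := by exact_mod_cast hN
  have hD' : (1 : ℝ) ≤ E.natDegree := by exact_mod_cast hD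
  set x : ℝ := (N : ℝ) ^ T * Real.exp (N * lm E / E.natDegree) with hx
  have hx1 : 1 ≤ x := by
    have e1 : (1 : ℝ) ≤ (N : ℝ) ^ T := one_le_pow₀ hN'
    have e2 : (1 : ℝ) ≤ Real.exp (N * lm E / E.natDegree) := by
      rw [Real.one_le_exp_iff]; positivity
    calc (1 : ℝ) = 1 * 1 := by ring
      _ ≤ _ := mul_le_mul e1 e2 zero_le_one (by positivity)
  set M : ℕ := ⌊4 * x⌋₊ + 1 with hMdef
  have hM1 : 4 * x < M := by
    rw [hMdef]; push_cast; exact Nat.lt_floor_add_one _
  have hM2 : (M : ℝ) + 1 ≤ 6 * x := by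
    have := Nat.floor_le (show 0 ≤ 4 * x by linarith)
    rw [hMdef]; push_cast; linarith
  have hM0 : 1 ≤ M := by omega
  have hM0' : (0 : ℝ) < M := by exact_mod_cast hM0
  -- the pigeonhole principle
  let R : Finset ℂ := (E.map (Int.castRingHom ℂ)).roots.toFinset
  have hR : R.card ≤ E.natDegree := hcard ▸ Multiset.toFinset_card_le _
  let v : (Fin N → Bool) → ℕ → ℂ → ℂ := fun b s a =>
    (hasseDeriv s ((Dob1_g N b).map (Int.castRingHom ℂ))).eval a
  let rr : ℂ → ℝ := fun a => (N : ℝ) ^ T * (max 1 ‖a‖) ^ N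
  have hrr : ∀ a, 0 < rr a := by
    intro a
    have : (0 : ℝ) < max 1 ‖a‖ := lt_of_lt_of_le zero_lt_one (le_max_left _ _)
    positivity
  have hv : ∀ b s a, s < T → ‖v b s a‖ ≤ rr a := by
    intro b s a hs
    apply Dob1_bound _ hN hs (Dob1_gdeg N hN b)
    intro n
    rw [Dob1_gcoeff]
    split_ifs <;> simp
  let f : (Fin N → Bool) → (Fin T × R → Fin (M + 1) × Fin (M + 1)) := fun b q =>
    (⟨min ⌊((v b q.1 q.2).re + rr q.2) * (M / (2 * rr q.2))⌋₊ M, by omega⟩,
      ⟨min ⌊((v b q.1 q.2).im + rr q.2) * (M / (2 * rr q.2))⌋₊ M, by omega⟩)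
  have hlt : Fintype.card (Fin T × R → Fin (M + 1) × Fin (M + 1)) <
      Fintype.card (Fin N → Bool) := by
    simp only [Fintype.card_fun, Fintype.card_prod, Fintype.card_fin, Fintype.card_coe,
      Fintype.card_bool]
    have e1 : (((M + 1) * (M + 1)) ^ (T * R.card) : ℕ) ≤ (M + 1) ^ (2 * T * E.natDegree) := by
      rw [← pow_two, ← pow_mul]
      apply Nat.pow_le_pow_right (by omega)
      rw [mul_assoc]
      gcongr
    have e2 : (((M + 1) ^ (2 * T * E.natDegree) : ℕ) : ℝ) < ((2 ^ N : ℕ) : ℝ) := by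
      push_cast
      refine lt_of_le_of_lt ?_ h
      apply pow_le_pow_left₀ (by positivity)
      calc (M : ℝ) + 1 ≤ 6 * x := hM2
        _ = _ := by rw [hx]; ring
    have e3 : (M + 1) ^ (2 * T * E.natDegree) < 2 ^ N := by exact_mod_cast e2
    exact lt_of_le_of_lt e1 e3
  obtain ⟨b, b', hbb, hfb⟩ := Fintype.exists_ne_map_eq_of_card_lt f hlt
  have hclose : ∀ s a, s < T → a ∈ (E.map (Int.castRingHom ℂ)).roots →
      ‖v b s a - v b' s a‖ ≤ 4 * (N : ℝ) ^ T / M * (max 1 ‖a‖) ^ N := by
    intro s a hs ha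
    have ha' : a ∈ R := Multiset.mem_toFinset.mpr ha
    have hq := congrFun hfb (⟨s, hs⟩, ⟨a, ha'⟩)
    simp only [f, Prod.mk.injEq, Fin.mk.injEq] at hq
    have c1 := Dob1_floor hM0 (hrr a) ((Complex.abs_re_le_norm _).trans (hv b s a hs))
      ((Complex.abs_re_le_norm _).trans (hv b' s a hs)) hq.1
    have c2 := Dob1_floor hM0 (hrr a) ((Complex.abs_im_le_norm _).trans (hv b s a hs))
      ((Complex.abs_im_le_norm _).trans (hv b' s a hs)) hq.2
    calc ‖v b s a - v b' s a‖ ≤ |(v b s a - v b' s a).re| + |(v b s a - v b' s a).im| :=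
          Complex.norm_le_abs_re_add_abs_im _
      _ ≤ 2 * rr a / M + 2 * rr a / M := by
          rw [Complex.sub_re, Complex.sub_im]
          exact add_le_add c1 c2
      _ = _ := by simp only [rr]; ring
  set F : Polynomial ℤ := Dob1_g N b - Dob1_g N b' with hF
  have hFc : ∀ n, |F.coeff n| ≤ 1 := by
    intro n
    rw [hF, coeff_sub, Dob1_gcoeff, Dob1_gcoeff]
    split_ifs <;> simp
  refine ⟨F, ?_, ?_, hFc, ?_⟩
  · intro hF0
    apply hbb
    funext i
    have h1 : F.coeff i = 0 := by rw [hF0, coeff_zero]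
    rw [hF, coeff_sub, Dob1_gcoeff, Dob1_gcoeff, dif_pos i.2, dif_pos i.2] at h1
    revert h1
    cases b i <;> cases b' i <;> simp
  · have h1 : F.natDegree ≤ N - 1 := by
      rw [natDegree_le_iff_coeff_eq_zero]
      intro m hm'
      rw [hF, coeff_sub, Dob1_gcoeff, Dob1_gcoeff, dif_neg (by omega), dif_neg (by omega), sub_zero]
    omega
  · apply Dob1_pow hE hm
    intro s hs
    have hprod : ((E.map (Int.castRingHom ℂ)).roots.map
        (fun a => ‖((hasseDeriv s F).map (Int.castRingHom ℂ)).eval a‖)).prod < 1 := by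
      have hval : ∀ a ∈ (E.map (Int.castRingHom ℂ)).roots,
          ‖((hasseDeriv s F).map (Int.castRingHom ℂ)).eval a‖ ≤
            4 * (N : ℝ) ^ T / M * (max 1 ‖a‖) ^ N := by
        intro a ha
        have := hclose s a hs ha
        rw [Dob1_hmap, hF, Polynomial.map_sub, map_sub, eval_sub]
        exact this
      have hp : ((E.map (Int.castRingHom ℂ)).roots.map
          (fun a => ‖((hasseDeriv s F).map (Int.castRingHom ℂ)).eval a‖)).prod ≤
          ((E.map (Int.castRingHom ℂ)).roots.map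
            (fun a => 4 * (N : ℝ) ^ T / M * (max 1 ‖a‖) ^ N)).prod := by
        apply Multiset.prod_map_le_prod_map₀
        · intro a _; exact norm_nonneg _
        · exact hval
      refine lt_of_le_of_lt hp ?_
      rw [Multiset.prod_map_mul, Multiset.map_const', Multiset.prod_replicate, hcard,
        Multiset.prod_map_pow, ← hexp]
      have e1 : 4 * (N : ℝ) ^ T / M < Real.exp (-(N * lm E / E.natDegree)) := by
        rw [div_lt_iff₀ hM0', Real.exp_neg, ← div_eq_inv_mul, lt_div_iff₀ (Real.exp_pos _)]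
        calc 4 * (N : ℝ) ^ T * Real.exp (N * lm E / E.natDegree) = 4 * x := by rw [hx]; ring
          _ < M := hM1
      calc (4 * (N : ℝ) ^ T / M) ^ E.natDegree * Real.exp (lm E) ^ N
          < Real.exp (-(N * lm E / E.natDegree)) ^ E.natDegree * Real.exp (lm E) ^ N := by
            apply mul_lt_mul_of_pos_right _ (by positivity)
            exact pow_lt_pow_left₀ e1 (by positivity) (by omega)
        _ = 1 := by
            rw [← Real.exp_nat_mul, ← Real.exp_nat_mul, ← Real.exp_add]
            rw [show (E.natDegree : ℝ) * -(N * lm E / E.natDegree) + N * lm E = 0 by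
              field_simp; ring]
            exact Real.exp_zero
    obtain ⟨a, ha, hza⟩ := Dob1_zero hm (hasseDeriv s F) hprod
    exact Dob1_dvd hE hm _ ha hza

end Pool.Agent.H87.BZ
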