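import Pool.Agent.H87.BZ.Defs

/-!
# Project BZ, module Dob2: values of the auxiliary polynomial at powers of the roots

`E` monic irreducible of degree `D` with roots `α_1, ..., α_D`, `E ^ T ∣ F`, `natDegree F < N`, coefficients
of `F` at most `1` in absolute value, `F(α ^ p) ≠ 0` for a root `α` of `E`. Then
`p ^ (T D) ≤ N ^ D exp(p N lm E)`.
Proof. `F(α_i ^ p) ≠ 0` for all `i`: otherwise `E` divides `F(X ^ p)` (`Polynomial.expand ℤ p F`), and it
would vanish at `α`. `E(X ^ p) = E(X) ^ p + p H(X)` in `ℤ[X]` (Fermat; `ZMod.expand_card` after reduction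
modulo `p`), so `∏_i E(α_i ^ p) = p ^ D ∏_i H(α_i)`, an integer multiple of `p ^ D` (the products
`∏_i G(α_i)` with `G ∈ ℤ[X]` are integers: resultants with the monic `E`, or norms). With `F = E ^ T G`:
`∏_i F(α_i ^ p) = (∏_i E(α_i ^ p)) ^ T ∏_i G(α_i ^ p)` is an integer divisible by `p ^ (T D)`, not zero, so
its absolute value is at least `p ^ (T D)`. On the other hand
`|F(α_i ^ p)| ≤ N max(1, |α_i|) ^ (p N)`, and `∏_i max(1, |α_i|) = exp(lm E)` (`E` monic).
-/

set_option autoImplicit false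

namespace Pool.Agent.H87.BZ

private theorem Dob2_norm_prod (s : Multiset ℂ) (f : ℂ → ℂ) :
    ‖(s.map f).prod‖ = (s.map fun z => ‖f z‖).prod := by
  induction s using Multiset.induction with
  | empty => simp
  | cons a s ih => rw [Multiset.map_cons, Multiset.prod_cons, norm_mul, ih, Multiset.map_cons,
      Multiset.prod_cons]

/-- the product of the values of an integer polynomial at the roots of `E` is an integer -/
private theorem Dob2_int {E : Polynomial ℤ} (hm : E.Monic) (G : Polynomial ℤ) :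
    ∃ r : ℤ, (((E.map (Int.castRingHom ℂ)).roots.map fun β => Polynomial.aeval β G).prod : ℂ) =
      (r : ℂ) := by
  refine ⟨Polynomial.resultant E G E.natDegree G.natDegree, ?_⟩
  have h1 := Polynomial.resultant_eq_prod_eval (E.map (Int.castRingHom ℂ))
    (G.map (Int.castRingHom ℂ)) G.natDegree Polynomial.natDegree_map_le
    (IsAlgClosed.splits (E.map (Int.castRingHom ℂ)))
  rw [(hm.map (Int.castRingHom ℂ)).leadingCoeff, one_pow, one_mul, hm.natDegree_map,
    Polynomial.resultant_map_map] at h1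
  have h2 : (Int.castRingHom ℂ) (Polynomial.resultant E G E.natDegree G.natDegree) =
    ((Polynomial.resultant E G E.natDegree G.natDegree : ℤ) : ℂ) := rfl
  rw [h2] at h1
  rw [h1]
  congr 1
  refine Multiset.map_congr rfl ?_
  intro β _
  rw [Polynomial.eval_map, Polynomial.aeval_def]
  rfl

private theorem Dob2_dvd {E G : Polynomial ℤ} (hE : Irreducible E) (hm : E.Monic) {β : ℂ}
    (hβ : Polynomial.aeval β E = 0) (hG : Polynomial.aeval β G = 0) : E ∣ G := by
  have hint : IsIntegral ℤ β := ⟨E, hm, hβ⟩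
  have h1 : minpoly ℤ β ∣ E := minpoly.isIntegrallyClosed_dvd hint hβ
  have h2 : minpoly ℤ β ∣ G := minpoly.isIntegrallyClosed_dvd hint hG
  exact ((minpoly.irreducible hint).dvd_symm hE h1).trans h2

private theorem Dob2_fermat (E : Polynomial ℤ) {p : ℕ} (hp : p.Prime) :
    ∃ H : Polynomial ℤ, Polynomial.expand ℤ p E = E ^ p + Polynomial.C (p : ℤ) * H := by
  have : Fact p.Prime := ⟨hp⟩
  have h1 : (Polynomial.expand ℤ p E - E ^ p).map (Int.castRingHom (ZMod p)) = 0 := by
    rw [Polynomial.map_sub, Polynomial.map_expand, ZMod.expand_card, Polynomial.map_pow, sub_self]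
  have h2 : Polynomial.C (p : ℤ) ∣ Polynomial.expand ℤ p E - E ^ p := by
    rw [Polynomial.C_dvd_iff_dvd_coeff]
    intro i
    have h3 := congrArg (fun q => Polynomial.coeff q i) h1
    simp only [Polynomial.coeff_map, Polynomial.coeff_zero] at h3
    exact (ZMod.intCast_zmod_eq_zero_iff_dvd _ _).1 h3
  obtain ⟨H, hH⟩ := h2
  exact ⟨H, by rw [← hH]; ring⟩

private theorem Dob2_expand (G : Polynomial ℤ) (p : ℕ) (β : ℂ) :
    Polynomial.aeval β (Polynomial.expand ℤ p G) = Polynomial.aeval (β ^ p) G := by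
  rw [Polynomial.expand_aeval]

private theorem Dob2_upper {F : Polynomial ℤ} {N p : ℕ} (hFd : F.natDegree < N)
    (hFc : ∀ n, |F.coeff n| ≤ 1) (β : ℂ) :
    ‖Polynomial.aeval (β ^ p) F‖ ≤ N * (max 1 ‖β‖) ^ (p * N) := by
  rw [Polynomial.aeval_eq_sum_range' hFd]
  have h0 : (1 : ℝ) ≤ max 1 ‖β‖ := le_max_left _ _
  calc ‖∑ i ∈ Finset.range N, F.coeff i • (β ^ p) ^ i‖
      ≤ ∑ i ∈ Finset.range N, ‖F.coeff i • (β ^ p) ^ i‖ := norm_sum_le _ _
    _ ≤ ∑ i ∈ Finset.range N, (max 1 ‖β‖) ^ (p * N) := by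
        refine Finset.sum_le_sum ?_
        intro i hi
        rw [Finset.mem_range] at hi
        have h1 : F.coeff i • (β ^ p) ^ i = ((F.coeff i : ℤ) : ℂ) * (β ^ p) ^ i := by
          rw [zsmul_eq_mul]
        rw [h1, norm_mul, norm_pow, norm_pow, ← pow_mul]
        have h2 : ‖((F.coeff i : ℤ) : ℂ)‖ ≤ 1 := by
          rw [Complex.norm_intCast]
          exact_mod_cast hFc i
        have h3 : ‖β‖ ^ (p * i) ≤ (max 1 ‖β‖) ^ (p * N) := by
          calc ‖β‖ ^ (p * i) ≤ (max 1 ‖β‖) ^ (p * i) := by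
                gcongr
                exact le_max_right _ _
            _ ≤ (max 1 ‖β‖) ^ (p * N) := by
                apply pow_le_pow_right₀ h0
                exact Nat.mul_le_mul_left _ hi.le
        calc ‖((F.coeff i : ℤ) : ℂ)‖ * ‖β‖ ^ (p * i) ≤ 1 * ‖β‖ ^ (p * i) := by gcongr
          _ = ‖β‖ ^ (p * i) := one_mul _
          _ ≤ _ := h3
    _ = N * (max 1 ‖β‖) ^ (p * N) := by
        rw [Finset.sum_const, Finset.card_range, nsmul_eq_mul]

private theorem Dob2_prod_const (s : Multiset ℂ) (a : ℝ) (f : ℂ → ℝ) (n : ℕ) :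
    (s.map fun β => a * f β ^ n).prod = a ^ s.card * (s.map f).prod ^ n := by
  induction s using Multiset.induction with
  | empty => simp
  | cons b s ih =>
    rw [Multiset.map_cons, Multiset.prod_cons, ih, Multiset.map_cons, Multiset.prod_cons,
      Multiset.card_cons, mul_pow]
    ring

private theorem Dob2_prod_constC (s : Multiset ℂ) (a : ℂ) (f : ℂ → ℂ) :
    (s.map fun β => a * f β).prod = a ^ s.card * (s.map f).prod := by
  induction s using Multiset.induction with
  | empty => simp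
  | cons b s ih =>
    rw [Multiset.map_cons, Multiset.prod_cons, ih, Multiset.map_cons, Multiset.prod_cons,
      Multiset.card_cons]
    ring

theorem pw {E F : Polynomial ℤ} (hE : Irreducible E) (hm : E.Monic) {T N p : ℕ} (hN : 1 ≤ N)
    (hp : p.Prime) (hFd : F.natDegree < N) (hFc : ∀ n, |F.coeff n| ≤ 1) (hEF : E ^ T ∣ F)
    {α : ℂ} (hα : Polynomial.aeval α E = 0) (hne : Polynomial.aeval (α ^ p) F ≠ 0) :
    (p : ℝ) ^ (T * E.natDegree) ≤ (N : ℝ) ^ E.natDegree * Real.exp (p * N * lm E) := by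
  set R : Multiset ℂ := (E.map (Int.castRingHom ℂ)).roots with hR
  have hE0 : E.map (Int.castRingHom ℂ) ≠ 0 := (hm.map _).ne_zero
  have hcard : R.card = E.natDegree := by
    rw [hR, ← hm.natDegree_map (Int.castRingHom ℂ)]
    exact ((IsAlgClosed.splits (E.map (Int.castRingHom ℂ))).natDegree_eq_card_roots).symm
  have hroot : ∀ β ∈ R, Polynomial.aeval β E = 0 := by
    intro β hβ
    rw [hR, Polynomial.mem_roots hE0, Polynomial.IsRoot.def, Polynomial.eval_map] at hβ
    rw [Polynomial.aeval_def]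
    exact hβ
  -- `F` does not vanish at the powers of the roots
  have hF : ∀ β ∈ R, Polynomial.aeval (β ^ p) F ≠ 0 := by
    intro β hβ h0
    have h1 : E ∣ Polynomial.expand ℤ p F := by
      apply Dob2_dvd hE hm (hroot β hβ)
      rw [Dob2_expand]
      exact h0
    obtain ⟨q, hq⟩ := h1
    apply hne
    rw [← Dob2_expand, hq, map_mul, hα, zero_mul]
  obtain ⟨H, hH⟩ := Dob2_fermat E hp
  obtain ⟨G, hG⟩ := hEF
  have hval : ∀ β ∈ R, Polynomial.aeval (β ^ p) F =
      (p : ℂ) ^ T * Polynomial.aeval β (H ^ T * Polynomial.expand ℤ p G) := by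
    intro β hβ
    have h1 : Polynomial.aeval (β ^ p) E = (p : ℂ) * Polynomial.aeval β H := by
      rw [← Dob2_expand, hH, map_add, map_pow, hroot β hβ, zero_pow hp.ne_zero, zero_add, map_mul,
        Polynomial.aeval_C]
      congr 1
    rw [hG, map_mul, map_pow, h1, mul_pow, map_mul, map_pow, Dob2_expand]
    ring
  obtain ⟨r, hr⟩ := Dob2_int hm (H ^ T * Polynomial.expand ℤ p G)
  have hprod : (R.map fun β => Polynomial.aeval (β ^ p) F).prod =
      (p : ℂ) ^ (T * E.natDegree) * (r : ℂ) := by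
    rw [Multiset.map_congr rfl hval, Dob2_prod_constC, hcard, ← pow_mul, ← hr]
  have hr0 : r ≠ 0 := by
    intro h0
    rw [h0, Int.cast_zero, mul_zero, Multiset.prod_eq_zero_iff, Multiset.mem_map] at hprod
    obtain ⟨β, hβ, hβ0⟩ := hprod
    exact hF β hβ hβ0
  have hlow : (p : ℝ) ^ (T * E.natDegree) ≤ ‖(R.map fun β => Polynomial.aeval (β ^ p) F).prod‖ := by
    rw [hprod, norm_mul, norm_pow, Complex.norm_natCast, Complex.norm_intCast]
    have h1 : (1 : ℝ) ≤ |(r : ℝ)| := by
      have : (1 : ℤ) ≤ |r| := Int.one_le_abs hr0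
      exact_mod_cast this
    have h2 : (0 : ℝ) ≤ (p : ℝ) ^ (T * E.natDegree) := by positivity
    nlinarith
  have hup : ‖(R.map fun β => Polynomial.aeval (β ^ p) F).prod‖ ≤
      (N : ℝ) ^ E.natDegree * (R.map fun β => max 1 ‖β‖).prod ^ (p * N) := by
    rw [Dob2_norm_prod, ← hcard, ← Dob2_prod_const R (N : ℝ) (fun β => max 1 ‖β‖) (p * N)]
    apply Multiset.prod_map_le_prod_map₀
    · intro β _
      exact norm_nonneg _
    · intro β _
      exact Dob2_upper hFd hFc β
  have hmm : (R.map fun β => max 1 ‖β‖).prod = Real.exp (lm E) := by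
    have h1 := Polynomial.mahlerMeasure_eq_leadingCoeff_mul_prod_roots (E.map (Int.castRingHom ℂ))
    rw [(hm.map (Int.castRingHom ℂ)).leadingCoeff, norm_one, one_mul] at h1
    rw [← hR] at h1
    rw [← h1]
    unfold lm
    rw [Polynomial.logMahlerMeasure_eq_log_MahlerMeasure,
      Real.exp_log (Polynomial.mahlerMeasure_pos_of_ne_zero hE0)]
  refine hlow.trans (hup.trans ?_)
  rw [hmm, ← Real.exp_nat_mul]
  push_cast
  rfl

end Pool.Agent.H87.BZ
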