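import Pool.Agent.H87.BZ.Defs

/-!
# Project BZ, module Dob3: conjugates of powers

* `bad`: if for every `p` in the set `S` of primes there are roots `α ≠ β` of `E` with `α ^ p = β ^ p`,
  then `2 ^ |S| ≤ natDegree E`. Proof (`S` nonempty; if `S` is empty we need `1 ≤ natDegree E`, which we
  assume). Fix a root `α₁ ≠ 0` (for `S` nonempty: the roots `α ≠ β` above are not zero, so no root is zero as
  `E` is irreducible). Let `Z` be the set of the roots of unity `ζ` with `E(ζ α₁) = 0`. If `α ≠ β`,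
  `α ^ p = β ^ p`, then `α = ζ β`, `ζ` of order `p`; an automorphism `τ` (of a splitting field of `E` together
  with enough roots of unity, or of the algebraic closure of `ℚ` in `ℂ`) mapping `β` to `α₁` shows that
  `τ(ζ) ∈ Z` has order `p`. If `ζ, ζ' ∈ Z` have coprime orders `a`, `b`: let `σ` be an automorphism with
  `σ(α₁) = ζ α₁`; then `σ(ζ' α₁) = σ(ζ') ζ α₁` is a root of `E`, so `σ(ζ') ζ ∈ Z`, of order `a b`. By
  induction `Z` contains, for every subset `J` of `S`, an element of order `∏_{p ∈ J} p`. So `|Z| ≥ 2 ^ |S|`,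
  and the `ζ α₁`, `ζ ∈ Z`, are distinct roots of `E`.
  Existence of automorphisms: `E` irreducible over `ℚ`, roots in `ℂ`: Mathlib has
  `IsConjRoot`/`minpoly` results (`exists_algEquiv_...` for normal extensions, e.g. the algebraic closure of
  `ℚ` inside `ℂ`, `AlgebraicClosure`, or `IntermediateField.exists_algHom_of_splits..`).
-/

set_option autoImplicit false

namespace Pool.Agent.H87.BZ

private theorem Dob3_gen {F K : Type*} [Field F] [Field K] [Algebra F K] [IsAlgClosed K]
    {p : Polynomial F} (hp : Irreducible p) (x y : algebraicClosure F K)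
    (hx : Polynomial.aeval (x : K) p = 0) (hy : Polynomial.aeval (y : K) p = 0) :
    ∃ σ : algebraicClosure F K ≃+* algebraicClosure F K, σ x = y := by
  have hN : Normal F (algebraicClosure F K) := IsAlgClosure.normal F _
  have h1 : ∀ z : algebraicClosure F K, Polynomial.aeval (z : K) p = 0 →
      Polynomial.aeval z p = 0 := by
    intro z hz
    have h : Polynomial.aeval (z : K) p =
        ((Polynomial.aeval z p : algebraicClosure F K) : K) :=
      Polynomial.aeval_algebraMap_apply K z p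
    rw [h] at hz
    exact_mod_cast hz
  have h2 := minpoly.eq_of_irreducible hp (h1 y hy)
  have hya : IsAlgebraic F y := ⟨_, hp.ne_zero, h1 y hy⟩
  obtain ⟨σ, hσ⟩ := minpoly.exists_algEquiv_of_root (x := x) hya (by
    rw [← h2, map_mul, h1 x hx, zero_mul])
  exact ⟨σ.toRingEquiv, hσ⟩

private theorem Dob3_irrQ {E : Polynomial ℤ} (hE : Irreducible E) {ξ : ℂ}
    (hξ : Polynomial.aeval ξ E = 0) :
    Irreducible (E.map (Int.castRingHom ℚ)) := by
  have hd : E.natDegree ≠ 0 := by
    intro h0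
    rw [Polynomial.eq_C_of_natDegree_eq_zero h0] at hξ
    rw [Polynomial.aeval_C] at hξ
    have : E.coeff 0 = 0 := by
      have := hξ
      simpa using this
    apply hE.ne_zero
    rw [Polynomial.eq_C_of_natDegree_eq_zero h0, this, Polynomial.C_0]
  exact (Polynomial.IsPrimitive.Int.irreducible_iff_irreducible_map_cast
    (hE.isPrimitive hd)).mp hE

private theorem Dob3_mem {E : Polynomial ℤ} (hE : E ≠ 0) {ξ : ℂ}
    (hξ : Polynomial.aeval ξ E = 0) : ξ ∈ algebraicClosure ℚ ℂ := by
  rw [mem_algebraicClosure_iff]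
  refine ⟨E.map (Int.castRingHom ℚ), ?_, ?_⟩
  · exact (Polynomial.map_ne_zero_iff (RingHom.injective_int _)).mpr hE
  · rw [← hξ, Polynomial.aeval_def, Polynomial.eval₂_map, Polynomial.aeval_def]
    congr 1

private theorem Dob3_hom {R S : Type*} [CommRing R] [CommRing S] (φ : R →+* S) (x : R)
    (E : Polynomial ℤ) :
    Polynomial.aeval (φ x) E = φ (Polynomial.aeval x E) := by
  rw [Polynomial.aeval_def, Polynomial.aeval_def, Polynomial.hom_eval₂]
  congr 1
  exact RingHom.ext_int _ _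

private theorem Dob3_aeval {E : Polynomial ℤ} (x : algebraicClosure ℚ ℂ) :
    Polynomial.aeval (x : ℂ) E = ((Polynomial.aeval x E : algebraicClosure ℚ ℂ) : ℂ) :=
  Dob3_hom (algebraMap (algebraicClosure ℚ ℂ) ℂ) x E

private theorem Dob3_gal {E : Polynomial ℤ} (hE : Irreducible E) {x y : algebraicClosure ℚ ℂ}
    (hx : Polynomial.aeval (x : ℂ) E = 0) (hy : Polynomial.aeval (y : ℂ) E = 0) :
    ∃ σ : (algebraicClosure ℚ ℂ) ≃+* (algebraicClosure ℚ ℂ), σ x = y := by
  have hI := Dob3_irrQ hE hy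
  have h1 : ∀ z : ℂ, Polynomial.aeval z E = 0 →
      Polynomial.aeval z (E.map (Int.castRingHom ℚ)) = 0 := by
    intro z hz
    rw [← hz, Polynomial.aeval_def, Polynomial.eval₂_map, Polynomial.aeval_def]
    congr 1
  exact Dob3_gen hI x y (h1 _ hx) (h1 _ hy)

private theorem Dob3_map {E : Polynomial ℤ} {x : algebraicClosure ℚ ℂ}
    (σ : (algebraicClosure ℚ ℂ) ≃+* (algebraicClosure ℚ ℂ))
    (hx : Polynomial.aeval (x : ℂ) E = 0) :
    Polynomial.aeval ((σ x : algebraicClosure ℚ ℂ) : ℂ) E = 0 := by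
  have h : Polynomial.aeval x E = 0 := by
    rw [Dob3_aeval] at hx
    exact_mod_cast hx
  have h2 : Polynomial.aeval (σ x) E = 0 := by
    have := Dob3_hom (σ : algebraicClosure ℚ ℂ →+* algebraicClosure ℚ ℂ) x E
    rw [h, map_zero] at this
    exact this
  rw [Dob3_aeval, h2]
  rfl

/-- The roots of unity `ζ` with `ζ α₁` a root of `E` contain elements of all products of orders. -/
private theorem Dob3_step {E : Polynomial ℤ} (hE : Irreducible E)
    {α : algebraicClosure ℚ ℂ} (hα : Polynomial.aeval (α : ℂ) E = 0) (hα0 : α ≠ 0)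
    {S : Finset ℕ} (hp : ∀ p ∈ S, p.Prime)
    (hS : ∀ p ∈ S, ∃ ζ : algebraicClosure ℚ ℂ, orderOf ζ = p ∧
      Polynomial.aeval ((ζ * α : algebraicClosure ℚ ℂ) : ℂ) E = 0) :
    ∃ ζ : algebraicClosure ℚ ℂ, orderOf ζ = ∏ p ∈ S, p ∧
      Polynomial.aeval ((ζ * α : algebraicClosure ℚ ℂ) : ℂ) E = 0 := by
  classical
  induction S using Finset.induction_on with
  | empty => exact ⟨1, by simp, by simpa using hα⟩
  | insert p S hpS ih =>
    obtain ⟨ζ, hζ1, hζ2⟩ := ih (fun q hq => hp q (Finset.mem_insert_of_mem hq))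
      (fun q hq => hS q (Finset.mem_insert_of_mem hq))
    obtain ⟨η, hη1, hη2⟩ := hS p (Finset.mem_insert_self _ _)
    obtain ⟨σ, hσ⟩ := Dob3_gal hE hα hη2
    refine ⟨σ ζ * η, ?_, ?_⟩
    · have h1 : orderOf (σ ζ) = ∏ p ∈ S, p := by
        rw [← hζ1]
        exact orderOf_injective (σ : algebraicClosure ℚ ℂ →* algebraicClosure ℚ ℂ)
          σ.injective ζ
      rw [(Commute.all _ _).orderOf_mul_eq_mul_orderOf_of_coprime, h1, hη1,
        Finset.prod_insert hpS, mul_comm]
      rw [h1, hη1]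
      apply Nat.Coprime.prod_left
      intro q hq
      rw [Nat.coprime_primes (hp q (Finset.mem_insert_of_mem hq))
        (hp p (Finset.mem_insert_self _ _))]
      rintro rfl
      exact hpS hq
    · have h2 : σ ζ * η * α = σ (ζ * α) := by
        rw [map_mul, hσ, mul_assoc]
      rw [h2]
      exact Dob3_map σ hζ2

theorem bad {E : Polynomial ℤ} (hE : Irreducible E) (hd : 1 ≤ E.natDegree) (S : Finset ℕ)
    (hS : ∀ p ∈ S, p.Prime ∧ ∃ α β : ℂ, Polynomial.aeval α E = 0 ∧ Polynomial.aeval β E = 0 ∧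
      α ≠ β ∧ α ^ p = β ^ p) : 2 ^ S.card ≤ E.natDegree := by
  classical
  rcases S.eq_empty_or_nonempty with rfl | ⟨p₀, hp₀⟩
  · simpa using hd
  obtain ⟨hp₀p, α₀, β₀, hα₀, hβ₀, hne₀, hpow₀⟩ := hS p₀ hp₀
  have hβ₀0 : β₀ ≠ 0 := by
    rintro rfl
    rw [zero_pow hp₀p.ne_zero] at hpow₀
    exact hne₀ (pow_eq_zero_iff hp₀p.ne_zero |>.mp hpow₀)
  set L := algebraicClosure ℚ ℂ with hL
  let α : L := ⟨β₀, Dob3_mem hE.ne_zero hβ₀⟩
  have hα : Polynomial.aeval (α : ℂ) E = 0 := hβ₀
  have hα0 : α ≠ 0 := by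
    intro h
    exact hβ₀0 (congrArg (fun x : L => (x : ℂ)) h)
  have key : ∀ p ∈ S, ∃ ζ : L, orderOf ζ = p ∧
      Polynomial.aeval ((ζ * α : L) : ℂ) E = 0 := by
    intro p hp
    obtain ⟨hpp, a, b, ha, hb, hab, hpow⟩ := hS p hp
    have hb0 : b ≠ 0 := by
      rintro rfl
      rw [zero_pow hpp.ne_zero] at hpow
      exact hab (pow_eq_zero_iff hpp.ne_zero |>.mp hpow)
    let a' : L := ⟨a, Dob3_mem hE.ne_zero ha⟩
    let b' : L := ⟨b, Dob3_mem hE.ne_zero hb⟩
    have hb'0 : b' ≠ 0 := fun h => hb0 (congrArg (fun x : L => (x : ℂ)) h)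
    have hpow' : a' ^ p = b' ^ p := Subtype.ext hpow
    obtain ⟨σ, hσ⟩ := Dob3_gal hE (x := b') (y := α) hb hα
    refine ⟨σ (a' / b'), ?_, ?_⟩
    · have h1 : orderOf (a' / b') = p := by
        have : Fact p.Prime := ⟨hpp⟩
        apply orderOf_eq_prime
        · rw [div_pow, hpow', div_self (pow_ne_zero _ hb'0)]
        · intro h
          rw [div_eq_one_iff_eq hb'0] at h
          exact hab (congrArg (fun x : L => (x : ℂ)) h)
      rw [← h1]
      exact orderOf_injective (σ : L →* L) σ.injective _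
    · have h2 : σ (a' / b') * α = σ a' := by
        rw [← hσ, ← map_mul, div_mul_cancel₀ _ hb'0]
      rw [h2]
      exact Dob3_map σ ha
  have key2 : ∀ J : Finset ℕ, J ∈ S.powerset → ∃ ζ : L, orderOf ζ = ∏ p ∈ J, p ∧
      Polynomial.aeval ((ζ * α : L) : ℂ) E = 0 := by
    intro J hJ
    rw [Finset.mem_powerset] at hJ
    exact Dob3_step hE hα hα0 (fun p hp => (hS p (hJ hp)).1) (fun p hp => key p (hJ hp))
  choose! f hf1 hf2 using key2
  have hcard : S.powerset.card ≤ ((E.map (Int.castRingHom ℂ)).roots.toFinset).card := by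
    apply Finset.card_le_card_of_injOn (fun J => ((f J * α : L) : ℂ))
    · intro J hJ
      have hJ' := hf2 J hJ
      simp only [Finset.mem_coe, Multiset.mem_toFinset]
      rw [Polynomial.mem_roots ((Polynomial.map_ne_zero_iff
        (RingHom.injective_int _)).mpr hE.ne_zero), Polynomial.IsRoot, Polynomial.eval_map]
      rw [← hJ', Polynomial.aeval_def]
      congr 1
    · intro J hJ J' hJ' h
      have h1 : f J * α = f J' * α := Subtype.ext h
      have h2 : f J = f J' := mul_right_cancel₀ hα0 h1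
      have h3 : ∏ p ∈ J, p = ∏ p ∈ J', p := by
        rw [← hf1 J hJ, ← hf1 J' hJ', h2]
      have h4 : ∀ K ∈ S.powerset, (∏ p ∈ K, p).primeFactors = K := by
        intro K hK
        rw [Finset.mem_powerset] at hK
        exact Nat.primeFactors_prod (fun p hp => (hS p (hK hp)).1)
      rw [← h4 J hJ, ← h4 J' hJ', h3]
  rw [Finset.card_powerset] at hcard
  calc 2 ^ S.card ≤ ((E.map (Int.castRingHom ℂ)).roots.toFinset).card := hcard
    _ ≤ (E.map (Int.castRingHom ℂ)).roots.card := Multiset.toFinset_card_le _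
    _ ≤ (E.map (Int.castRingHom ℂ)).natDegree := Polynomial.card_roots' _
    _ ≤ E.natDegree := Polynomial.natDegree_map_le

end Pool.Agent.H87.BZ
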