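import Pool.Agent.H87.BZ.Defs

/-!
# Project BZ, module Dob3d: powers of the roots for different exponents are different

* `disj`: `E` monic irreducible with a nontorsion root, `p ≠ q` positive: `α ^ p ≠ β ^ q` for all roots
  `α`, `β`. Proof: suppose `α ^ p = β ^ q` and (by symmetry) `p > q`. Then for every root `α'` there is a
  root `β'` with `α' ^ p = β' ^ q` (automorphism with `α ↦ α'`; or: `∏_β (X ^ p - β ^ q)` has rational
  coefficients, and is divisible by `E`). Take `α'` with `|α'| = H` maximal: `H ^ p = |β'| ^ q ≤ H ^ q`, so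
  `H ≤ 1` (`H > 0`). So `lm E = 0` (`E` monic), and all roots are roots of unity or zero
  (`Polynomial.pow_eq_one_of_mahlerMeasure_eq_one`), contradiction.
-/

set_option autoImplicit false

namespace Pool.Agent.H87.BZ

private theorem Dob3d_gen {F K : Type*} [Field F] [Field K] [Algebra F K] [IsAlgClosed K]
    {p : Polynomial F} (hp : Irreducible p) (x y : algebraicClosure F K)
    (hx : Polynomial.aeval (x : K) p = 0) (hy : Polynomial.aeval (y : K) p = 0) :
    ∃ σ : algebraicClosure F K ≃+* algebraicClosure F K, σ x = y := by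
  have hN : Normal F (algebraicClosure F K) := IsAlgClosure.normal F _
  have h1 : ∀ z : algebraicClosure F K, Polynomial.aeval (z : K) p = 0 →
      Polynomial.aeval z p = 0 := by
    intro z hz
    have h : Polynomial.aeval (z : K) p =
        ((Polynomial.aeval z p : algebraicClosure F K) : K) :=
      Polynomial.aeval_algebraMap_apply K z p
    rw [h] at hz
    exact_mod_cast hz
  have h2 := minpoly.eq_of_irreducible hp (h1 y hy)
  have hya : IsAlgebraic F y := ⟨_, hp.ne_zero, h1 y hy⟩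
  obtain ⟨σ, hσ⟩ := minpoly.exists_algEquiv_of_root (x := x) hya (by
    rw [← h2, map_mul, h1 x hx, zero_mul])
  exact ⟨σ.toRingEquiv, hσ⟩

private theorem Dob3d_irrQ {E : Polynomial ℤ} (hE : Irreducible E) {ξ : ℂ}
    (hξ : Polynomial.aeval ξ E = 0) :
    Irreducible (E.map (Int.castRingHom ℚ)) := by
  have hd : E.natDegree ≠ 0 := by
    intro h0
    rw [Polynomial.eq_C_of_natDegree_eq_zero h0] at hξ
    rw [Polynomial.aeval_C] at hξ
    have : E.coeff 0 = 0 := by
      have := hξ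
      simpa using this
    apply hE.ne_zero
    rw [Polynomial.eq_C_of_natDegree_eq_zero h0, this, Polynomial.C_0]
  exact (Polynomial.IsPrimitive.Int.irreducible_iff_irreducible_map_cast
    (hE.isPrimitive hd)).mp hE

private theorem Dob3d_mem {E : Polynomial ℤ} (hE : E ≠ 0) {ξ : ℂ}
    (hξ : Polynomial.aeval ξ E = 0) : ξ ∈ algebraicClosure ℚ ℂ := by
  rw [mem_algebraicClosure_iff]
  refine ⟨E.map (Int.castRingHom ℚ), ?_, ?_⟩
  · exact (Polynomial.map_ne_zero_iff (RingHom.injective_int _)).mpr hE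
  · rw [← hξ, Polynomial.aeval_def, Polynomial.eval₂_map, Polynomial.aeval_def]
    congr 1

private theorem Dob3d_hom {R S : Type*} [CommRing R] [CommRing S] (φ : R →+* S) (x : R)
    (E : Polynomial ℤ) :
    Polynomial.aeval (φ x) E = φ (Polynomial.aeval x E) := by
  rw [Polynomial.aeval_def, Polynomial.aeval_def, Polynomial.hom_eval₂]
  congr 1
  exact RingHom.ext_int _ _

private theorem Dob3d_aeval {E : Polynomial ℤ} (x : algebraicClosure ℚ ℂ) :
    Polynomial.aeval (x : ℂ) E = ((Polynomial.aeval x E : algebraicClosure ℚ ℂ) : ℂ) :=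
  Dob3d_hom (algebraMap (algebraicClosure ℚ ℂ) ℂ) x E

private theorem Dob3d_gal {E : Polynomial ℤ} (hE : Irreducible E) {x y : algebraicClosure ℚ ℂ}
    (hx : Polynomial.aeval (x : ℂ) E = 0) (hy : Polynomial.aeval (y : ℂ) E = 0) :
    ∃ σ : (algebraicClosure ℚ ℂ) ≃+* (algebraicClosure ℚ ℂ), σ x = y := by
  have hI := Dob3d_irrQ hE hy
  have h1 : ∀ z : ℂ, Polynomial.aeval z E = 0 →
      Polynomial.aeval z (E.map (Int.castRingHom ℚ)) = 0 := by
    intro z hz
    rw [← hz, Polynomial.aeval_def, Polynomial.eval₂_map, Polynomial.aeval_def]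
    congr 1
  exact Dob3d_gen hI x y (h1 _ hx) (h1 _ hy)

private theorem Dob3d_map {E : Polynomial ℤ} {x : algebraicClosure ℚ ℂ}
    (σ : (algebraicClosure ℚ ℂ) ≃+* (algebraicClosure ℚ ℂ))
    (hx : Polynomial.aeval (x : ℂ) E = 0) :
    Polynomial.aeval ((σ x : algebraicClosure ℚ ℂ) : ℂ) E = 0 := by
  have h : Polynomial.aeval x E = 0 := by
    rw [Dob3d_aeval] at hx
    exact_mod_cast hx
  have h2 : Polynomial.aeval (σ x) E = 0 := by
    have := Dob3d_hom (σ : algebraicClosure ℚ ℂ →+* algebraicClosure ℚ ℂ) x E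
    rw [h, map_zero] at this
    exact this
  rw [Dob3d_aeval, h2]
  rfl

/-- A monic irreducible polynomial with a nontorsion root has a root outside the unit disc. -/
private theorem Dob3d_kron {E : Polynomial ℤ} (hE : Irreducible E) (hm : E.Monic)
    (h : ∀ z : ℂ, Polynomial.aeval z E = 0 → ‖z‖ ≤ 1) (hE1 : HasNT E) : False := by
  obtain ⟨ξ, ⟨hξ0, hξ1⟩, hξ⟩ := hE1
  have hmap : E.map (Int.castRingHom ℂ) ≠ 0 :=
    (Polynomial.map_ne_zero_iff (RingHom.injective_int _)).mpr hE.ne_zero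
  have hroots : ∀ z ∈ (E.map (Int.castRingHom ℂ)).roots, ‖z‖ ≤ 1 := by
    intro z hz
    apply h z
    rw [Polynomial.mem_roots hmap, Polynomial.IsRoot, Polynomial.eval_map] at hz
    rw [← hz, Polynomial.aeval_def]
    congr 1
  have hM : (E.map (Int.castRingHom ℂ)).mahlerMeasure = 1 := by
    rw [Polynomial.mahlerMeasure_eq_leadingCoeff_mul_prod_roots]
    have h1 : ((E.map (Int.castRingHom ℂ)).roots.map (fun a ↦ max 1 ‖a‖)).prod = 1 := by
      apply Multiset.prod_eq_one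
      intro x hx
      rw [Multiset.mem_map] at hx
      obtain ⟨a, ha, rfl⟩ := hx
      exact max_eq_left (hroots a ha)
    rw [h1, (hm.map (Int.castRingHom ℂ)).leadingCoeff]
    simp
  obtain ⟨n, hn, hn1⟩ := Polynomial.pow_eq_one_of_mahlerMeasure_eq_one hM (z := ξ) hξ0 (by
    rw [Polynomial.mem_aroots]
    exact ⟨hE.ne_zero, hξ⟩)
  exact hξ1 n hn hn1

private theorem Dob3d_lt {E : Polynomial ℤ} (hE : Irreducible E) (hm : E.Monic) (hE1 : HasNT E)
    {p q : ℕ} (hq : 1 ≤ q) (hpq : q < p) {α β : ℂ} (hα : Polynomial.aeval α E = 0)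
    (hβ : Polynomial.aeval β E = 0) : α ^ p ≠ β ^ q := by
  intro hpow
  classical
  set L := algebraicClosure ℚ ℂ with hL
  let a : L := ⟨α, Dob3d_mem hE.ne_zero hα⟩
  let b : L := ⟨β, Dob3d_mem hE.ne_zero hβ⟩
  have hpow' : a ^ p = b ^ q := Subtype.ext hpow
  have hmap : E.map (Int.castRingHom ℂ) ≠ 0 :=
    (Polynomial.map_ne_zero_iff (RingHom.injective_int _)).mpr hE.ne_zero
  have hmem : ∀ z : ℂ, z ∈ (E.map (Int.castRingHom ℂ)).roots.toFinset ↔
      Polynomial.aeval z E = 0 := by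
    intro z
    rw [Multiset.mem_toFinset, Polynomial.mem_roots hmap, Polynomial.IsRoot,
      Polynomial.eval_map, Polynomial.aeval_def]
    rfl
  obtain ⟨γ, hγ1, hγ2⟩ := Finset.exists_max_image (E.map (Int.castRingHom ℂ)).roots.toFinset
    (fun z => ‖z‖) ⟨α, (hmem α).mpr hα⟩
  have hγ := (hmem γ).mp hγ1
  let c : L := ⟨γ, Dob3d_mem hE.ne_zero hγ⟩
  obtain ⟨σ, hσ⟩ := Dob3d_gal hE (x := a) (y := c) hα hγ
  have h1 : c ^ p = (σ b) ^ q := by
    rw [← hσ, ← map_pow, hpow', map_pow]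
  have h2 : γ ^ p = ((σ b : L) : ℂ) ^ q := congrArg (fun x : L => (x : ℂ)) h1
  have h3 : ‖((σ b : L) : ℂ)‖ ≤ ‖γ‖ := hγ2 _ ((hmem _).mpr (Dob3d_map (x := b) σ hβ))
  have h4 : ‖γ‖ ≤ 1 := by
    by_contra hlt
    push Not at hlt
    have h5 : ‖γ‖ ^ p ≤ ‖γ‖ ^ q := by
      calc ‖γ‖ ^ p = ‖γ ^ p‖ := (norm_pow _ _).symm
        _ = ‖((σ b : L) : ℂ)‖ ^ q := by rw [h2, norm_pow]
        _ ≤ ‖γ‖ ^ q := pow_le_pow_left₀ (norm_nonneg _) h3 q
    have h6 := pow_lt_pow_right₀ hlt hpq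
    linarith
  exact Dob3d_kron hE hm (fun z hz => (hγ2 z ((hmem z).mpr hz)).trans h4) hE1

theorem disj {E : Polynomial ℤ} (hE : Irreducible E) (hm : E.Monic) (hE1 : HasNT E) {p q : ℕ}
    (hp : 1 ≤ p) (hq : 1 ≤ q) (hpq : p ≠ q) {α β : ℂ} (hα : Polynomial.aeval α E = 0)
    (hβ : Polynomial.aeval β E = 0) : α ^ p ≠ β ^ q := by
  rcases lt_or_gt_of_ne hpq with h | h
  · exact (Dob3d_lt hE hm hE1 hp h hβ hα).symm
  · exact Dob3d_lt hE hm hE1 hq h hα hβ

end Pool.Agent.H87.BZ
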