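import Pool.Agent.H87.BZ.Dob1
import Pool.Agent.H87.BZ.Dob2
import Pool.Agent.H87.BZ.Dob3
import Pool.Agent.H87.BZ.Dob3d

/-!
# Project BZ, module Dob4: lower bound for the measure, monic polynomials of large degree

`dob_main`: let `E` be monic irreducible with a nontorsion root, `D = natDegree E`, and `L`, `T`, `Y` natural
numbers, `N = D L`, such that the hypothesis of `aux1` holds, `N ^ 2 ≤ L ^ T`,
`Y L (lm E) ≤ 1/2`, `2 ≤ L`, and there are more than `L + log_2 D` primes in `(L, Y]`. This is impossible.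
Proof. `aux1` gives `F`. Let `p ∈ (L, Y]` be prime, `α` a root of `E`. If `F(α ^ p) ≠ 0` then `pw` gives
`T log p ≤ log N + p L lm E` (divide by `D`, `N = D L`), but `T log p ≥ T log L ≥ 2 log N` and
`p L lm E ≤ Y L lm E ≤ 1/2 < log 2 ≤ log N`: contradiction. So `F` vanishes at all `α ^ p`. Let `S` be the set
of the primes in `(L, Y]`, `S_b` the set of the bad ones (`α ^ p = β ^ p` for two different roots);
`2 ^ |S_b| ≤ D` by `bad`. For good `p` the numbers `α ^ p` are `D` different numbers, and for different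
primes these sets are disjoint (`disj`). So `F` has at least `D |S \ S_b| ≥ D (L + 1) > N > natDegree F`
different roots, so `F = 0`: contradiction. (In the statement: `hS : ∃ S` of primes in `(L, Y]`,
`D < 2 ^ (|S| - L)`, `L ≤ |S|`; as `2 ^ |S_b| ≤ D`, `|S_b| < |S| - L`.)

-/

set_option autoImplicit false

namespace Pool.Agent.H87.BZ

private theorem Dob4_deg {E : Polynomial ℤ} (hm : E.Monic) (hE1 : HasNT E) :
    1 ≤ E.natDegree := by
  obtain ⟨ξ, _, hξ⟩ := hE1
  by_contra hcon
  have h0 : E.natDegree = 0 := by omega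
  have h1 : E = 1 := hm.natDegree_eq_zero.1 h0
  rw [h1, map_one] at hξ
  exact one_ne_zero hξ

private theorem Dob4_roots {E : Polynomial ℤ} (hE : Irreducible E) (hm : E.Monic) :
    ((E.map (Int.castRingHom ℂ)).roots.toFinset).card = E.natDegree := by
  classical
  have h1 : Irreducible (E.map (Int.castRingHom ℚ)) :=
    (Polynomial.IsPrimitive.Int.irreducible_iff_irreducible_map_cast hm.isPrimitive).1 hE
  have h2 : (E.map (Int.castRingHom ℚ)).Separable := h1.separable
  have h3 : (E.map (Int.castRingHom ℂ)).Separable := by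
    have h4 := h2.map (f := algebraMap ℚ ℂ)
    rw [Polynomial.map_map] at h4
    have h5 : (algebraMap ℚ ℂ).comp (Int.castRingHom ℚ) = Int.castRingHom ℂ :=
      RingHom.ext_int _ _
    rwa [h5] at h4
  have h6 : (E.map (Int.castRingHom ℂ)).roots.Nodup := Polynomial.nodup_roots h3
  rw [Multiset.toFinset_card_of_nodup h6]
  have h7 : (E.map (Int.castRingHom ℂ)).natDegree = E.natDegree :=
    hm.natDegree_map _
  rw [← h7]
  exact ((IsAlgClosed.splits (E.map (Int.castRingHom ℂ))).natDegree_eq_card_roots).symm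

private theorem Dob4_mem {E : Polynomial ℤ} (hm : E.Monic) (α : ℂ) :
    α ∈ (E.map (Int.castRingHom ℂ)).roots.toFinset ↔ Polynomial.aeval α E = 0 := by
  classical
  rw [Multiset.mem_toFinset, Polynomial.mem_roots (hm.map _).ne_zero, Polynomial.IsRoot.def,
    Polynomial.eval_map, Polynomial.aeval_def]
  rfl

private theorem Dob4_vanish {E F : Polynomial ℤ} (hE : Irreducible E) (hm : E.Monic)
    (hE1 : HasNT E) {L T Y : ℕ} (hL : 2 ≤ L)
    (hNL : (E.natDegree * L) ^ 2 ≤ L ^ T) (hY : (Y : ℝ) * L * lm E ≤ 1 / 2)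
    (hFd : F.natDegree < E.natDegree * L) (hFc : ∀ n, |F.coeff n| ≤ 1) (hEF : E ^ T ∣ F)
    {p : ℕ} (hp : p.Prime) (hLp : L < p) (hpY : p ≤ Y) {α : ℂ}
    (hα : Polynomial.aeval α E = 0) : Polynomial.aeval (α ^ p) F = 0 := by
  by_contra hne
  have hD : 1 ≤ E.natDegree := Dob4_deg hm hE1
  set D := E.natDegree with hDdef
  have hN : 2 ≤ D * L := by nlinarith
  have h1 := pw hE hm (T := T) (N := D * L) (p := p) (by omega) hp hFd hFc hEF hα hne
  rw [← hDdef] at h1
  have h2 : Real.exp (p * ((D * L : ℕ) : ℝ) * lm E) = (Real.exp (p * L * lm E)) ^ D := by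
    rw [← Real.exp_nat_mul]
    congr 1
    push_cast
    ring
  rw [h2, pow_mul, ← mul_pow] at h1
  have h3 : (p : ℝ) ^ T ≤ ((D * L : ℕ) : ℝ) * Real.exp (p * L * lm E) := by
    exact le_of_pow_le_pow_left₀ (by omega) (by positivity) h1
  have h4 : (p : ℝ) * L * lm E ≤ 1 / 2 := by
    rcases le_or_gt 0 (lm E) with h | h
    · have h5 : (p : ℝ) ≤ Y := by exact_mod_cast hpY
      calc (p : ℝ) * L * lm E ≤ (Y : ℝ) * L * lm E := by gcongr
        _ ≤ 1 / 2 := hY
    · have h6 : (0 : ℝ) ≤ (p : ℝ) * L := by positivity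
      nlinarith
  have h7 : Real.exp (p * L * lm E) < 2 := by
    calc Real.exp (p * L * lm E) ≤ Real.exp (1 / 2) := Real.exp_le_exp.2 h4
      _ < 2 := by
        have h8 : Real.exp (1 / 2) ^ 2 < 2 ^ 2 := by
          rw [← Real.exp_nat_mul]
          norm_num
          have := Real.exp_one_lt_d9
          linarith
        exact lt_of_pow_lt_pow_left₀ 2 (by norm_num) h8
  have h9 : ((D * L : ℕ) : ℝ) ^ 2 ≤ (p : ℝ) ^ T := by
    calc ((D * L : ℕ) : ℝ) ^ 2 = (((D * L) ^ 2 : ℕ) : ℝ) := by push_cast; ring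
      _ ≤ ((L ^ T : ℕ) : ℝ) := by exact_mod_cast hNL
      _ = (L : ℝ) ^ T := by push_cast; ring
      _ ≤ (p : ℝ) ^ T := by
        have : (L : ℝ) ≤ p := by exact_mod_cast hLp.le
        gcongr
  have h10 : (2 : ℝ) ≤ ((D * L : ℕ) : ℝ) := by exact_mod_cast hN
  nlinarith

theorem dob_main {E : Polynomial ℤ} (hE : Irreducible E) (hm : E.Monic) (hE1 : HasNT E)
    {L T Y : ℕ} (hL : 2 ≤ L) (hT : 1 ≤ T)
    (h : (6 * ((E.natDegree * L : ℕ) : ℝ) ^ T *
      Real.exp ((E.natDegree * L : ℕ) * lm E / E.natDegree)) ^ (2 * T * E.natDegree) <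
      2 ^ (E.natDegree * L))
    (hNL : (E.natDegree * L) ^ 2 ≤ L ^ T) (hY : (Y : ℝ) * L * lm E ≤ 1 / 2) (S : Finset ℕ)
    (hS : ∀ p ∈ S, p.Prime ∧ L < p ∧ p ≤ Y) (hSL : L ≤ S.card)
    (hSc : E.natDegree < 2 ^ (S.card - L)) : False := by
  classical
  have hD : 1 ≤ E.natDegree := Dob4_deg hm hE1
  obtain ⟨F, hF0, hFd, hFc, hEF⟩ := aux1 hE hm T (E.natDegree * L) hT (by nlinarith) h
  set R : Finset ℂ := (E.map (Int.castRingHom ℂ)).roots.toFinset with hR
  have hRc : R.card = E.natDegree := Dob4_roots hE hm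
  -- bad primes
  set B : Finset ℕ := S.filter fun p => ∃ α β : ℂ, Polynomial.aeval α E = 0 ∧
    Polynomial.aeval β E = 0 ∧ α ≠ β ∧ α ^ p = β ^ p with hB
  have hbad : 2 ^ B.card ≤ E.natDegree := by
    apply bad hE hD B
    intro p hp
    rw [hB, Finset.mem_filter] at hp
    exact ⟨(hS p hp.1).1, hp.2⟩
  have hBc : B.card < S.card - L :=
    (Nat.pow_lt_pow_iff_right (by norm_num : 1 < 2)).1 (lt_of_le_of_lt hbad hSc)
  have hGc : L + 1 ≤ (S \ B).card := by
    have h1 := Finset.le_card_sdiff B S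
    omega
  -- the roots of F
  set W : Finset ℂ := (S \ B).biUnion fun p => R.image fun α => α ^ p with hW
  have hWc : W.card = (S \ B).card * E.natDegree := by
    rw [hW, Finset.card_biUnion]
    · rw [Finset.sum_const_nat (m := E.natDegree)]
      intro p hp
      rw [Finset.card_image_of_injOn, hRc]
      intro α hα β hβ hαβ
      by_contra hne
      have hα' := (Dob4_mem hm α).1 (Finset.mem_coe.1 hα)
      have hβ' := (Dob4_mem hm β).1 (Finset.mem_coe.1 hβ)
      rw [Finset.mem_sdiff] at hp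
      apply hp.2
      rw [hB, Finset.mem_filter]
      exact ⟨hp.1, α, β, hα', hβ', hne, hαβ⟩
    · intro p hp q hq hpq
      change Disjoint (R.image fun α => α ^ p) (R.image fun α => α ^ q)
      rw [Finset.disjoint_left]
      intro z hz hz'
      obtain ⟨α, hα, rfl⟩ := Finset.mem_image.1 hz
      obtain ⟨β, hβ, hβα⟩ := Finset.mem_image.1 hz'
      have hp1 := (hS p (Finset.mem_sdiff.1 hp).1).1.one_lt
      have hq1 := (hS q (Finset.mem_sdiff.1 hq).1).1.one_lt
      exact disj hE hm hE1 hp1.le hq1.le hpq ((Dob4_mem hm α).1 hα) ((Dob4_mem hm β).1 hβ)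
        hβα.symm
  have hFm : F.map (Int.castRingHom ℂ) ≠ 0 := by
    rw [Ne, Polynomial.map_eq_zero_iff (RingHom.injective_int (Int.castRingHom ℂ))]
    exact hF0
  have hsub : W.val ⊆ (F.map (Int.castRingHom ℂ)).roots := by
    intro z hz
    have hz' : z ∈ W := hz
    rw [hW, Finset.mem_biUnion] at hz'
    obtain ⟨p, hp, hz2⟩ := hz'
    obtain ⟨α, hα, rfl⟩ := Finset.mem_image.1 hz2
    have hp' := hS p (Finset.mem_sdiff.1 hp).1
    have hv := Dob4_vanish hE hm hE1 hL hNL hY hFd hFc hEF hp'.1 hp'.2.1 hp'.2.2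
      ((Dob4_mem hm α).1 hα)
    rw [Polynomial.mem_roots hFm, Polynomial.IsRoot.def, Polynomial.eval_map]
    rw [Polynomial.aeval_def] at hv
    exact hv
  have hle := Polynomial.card_le_degree_of_subset_roots hsub
  rw [hWc] at hle
  have hle2 : (F.map (Int.castRingHom ℂ)).natDegree ≤ F.natDegree := Polynomial.natDegree_map_le
  have : (L + 1) * E.natDegree ≤ (S \ B).card * E.natDegree := Nat.mul_le_mul_right _ hGc
  nlinarith

end Pool.Agent.H87.BZ
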