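import Pool.Agent.H87.BZ.Defs

/-!
# Project BZ, module PiLow: a lower bound for the number of primes

`C(2n, n)` is a product of prime powers at most `2n` each (`Nat.factorization_choose_le_log`,
`Nat.prod_pow_factorization_centralBinom`, only primes at most `2n` occur), so
`C(2n, n) ≤ (2n) ^ π(2n)`, and `4 ^ n < n * C(2n, n)` for `n ≥ 4` (`Nat.four_pow_lt_mul_centralBinom`). So
`π(2n) ≥ (n log 4 - log n) / log (2n)`, which is at least `√(2n + 1)` for large `n`. (Mathlib may have better
bounds of Chebyshev type, use whatever is there.)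
-/

set_option autoImplicit false

namespace Pool.Agent.H87.BZ

theorem piLow : ∃ n₀ : ℕ, ∀ n, n₀ ≤ n → n ≤ (Nat.primeCounting n) ^ 2 := by
  have h1 := (isLittleO_log_rpow_atTop (r := 1 / 2) (by norm_num)).bound
    (c := 1 / 4) (by norm_num)
  rw [Filter.eventually_atTop] at h1
  obtain ⟨x₀, hx₀⟩ := h1
  refine ⟨max ⌈x₀⌉₊ 4, fun n hn => ?_⟩
  have hn1 : x₀ ≤ n := (Nat.le_ceil x₀).trans (by exact_mod_cast (le_max_left _ _).trans hn)
  have hn4 : (4 : ℝ) ≤ n := by exact_mod_cast (le_max_right _ _).trans hn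
  have hn4' : 4 ≤ n := by exact_mod_cast hn4
  have key : ∀ x : ℝ, x₀ ≤ x → 1 ≤ x → Real.log x ≤ 1 / 4 * Real.sqrt x := by
    intro x hx hx1
    have := hx₀ x hx
    rw [Real.norm_of_nonneg (Real.log_nonneg hx1), Real.norm_of_nonneg (by positivity),
      ← Real.sqrt_eq_rpow] at this
    exact this
  have k1 := key n hn1 (by linarith)
  have k2 := key (n + 1) (by linarith) (by linarith)
  have s1 : Real.sqrt n * Real.sqrt n = n := Real.mul_self_sqrt (by linarith)
  have s2 : (2 : ℝ) ≤ Real.sqrt n := by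
    rw [show (2 : ℝ) = Real.sqrt 4 by
      rw [show (4 : ℝ) = 2 ^ 2 by norm_num, Real.sqrt_sq (by norm_num)]]
    exact Real.sqrt_le_sqrt hn4
  have s3 : Real.sqrt (n + 1) ≤ Real.sqrt n + 1 := by
    rw [show Real.sqrt n + 1 = Real.sqrt ((Real.sqrt n + 1) ^ 2) by
      rw [Real.sqrt_sq (by positivity)]]
    apply Real.sqrt_le_sqrt
    nlinarith
  have hlog : 0 < Real.log n := Real.log_pos (by linarith)
  have l2 : (0.6931471803 : ℝ) < Real.log 2 := Real.log_two_gt_d9
  have h3 := Chebyshev.pi_ge n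
  rw [div_le_iff₀ hlog] at h3
  have h4 : Real.sqrt n * Real.log n ≤ n * Real.log 2 - Real.log (n + 1) := by
    have e1 : Real.sqrt n * Real.log n ≤ 1 / 4 * n := by
      calc Real.sqrt n * Real.log n ≤ Real.sqrt n * (1 / 4 * Real.sqrt n) :=
            mul_le_mul_of_nonneg_left k1 (by positivity)
        _ = 1 / 4 * (Real.sqrt n * Real.sqrt n) := by ring
        _ = 1 / 4 * n := by rw [s1]
    have e2 : (n : ℝ) * 0.69 ≤ n * Real.log 2 :=
      mul_le_mul_of_nonneg_left (by linarith) (by linarith)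
    nlinarith
  have h5 : Real.sqrt n ≤ Nat.primeCounting n := by
    by_contra hc
    rw [not_le] at hc
    have := mul_lt_mul_of_pos_right hc hlog
    linarith
  have h6 : (n : ℝ) ≤ (Nat.primeCounting n : ℝ) ^ 2 := by
    calc (n : ℝ) = Real.sqrt n * Real.sqrt n := s1.symm
      _ ≤ (Nat.primeCounting n : ℝ) * (Nat.primeCounting n : ℝ) :=
        mul_le_mul h5 h5 (by positivity) (by positivity)
      _ = _ := by ring
  exact_mod_cast h6

end Pool.Agent.H87.BZ
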