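import Pool.Agent.H87.BZ.Dob4
import Pool.Agent.H87.BZ.PiLow

/-!
# Project BZ, module Dob5: lower bound for the measure, monic polynomials of large degree

`dob_large`: for `K ≥ 1` there are `D₀`, `c > 0` with `c ≤ (lm E) ^ K * D` for `D ≥ D₀`. Put `T = 16 K + 2`;
for given `E` let `L` be the least natural number with `D ≤ L ^ (8 K)`, so `L ≥ 2` and
`(L / 2) ^ (8 K) ≤ (L - 1) ^ (8 K) < D` for `D ≥ 2`; `L → ∞` as `D → ∞`. `N = D L ≤ L ^ (8 K + 1)`, so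
`N ^ 2 ≤ L ^ T`. Let `Y = ((8 K + 3) L) ^ 2`. For `Y ≥ n₀` (`piLow`), `π(Y) ≥ (8 K + 3) L`, and the set `S` of
the primes in `(L, Y]` has at least `(8 K + 2) L` elements, and `2 ^ (|S| - L) ≥ 2 ^ ((8 K + 1) L) >
L ^ (8 K) ≥ D` (`2 ^ L > L`). If `lm E ≤ 1 / (2 (8 K + 3)^2 L^3)` then `Y L (lm E) ≤ 1/2`, and the hypothesis of
`aux1`, which is (take logarithms and divide by `D`)
`2 T (log 6 + T log N) + 2 T L lm E < L log 2`, holds for all large `L` (`log N ≤ (8 K + 1) log L`,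
`L lm E ≤ 1`). So for `L ≥ L₀`: `lm E > 1 / (2 (8 K + 3)^2 L^3)` and
`(lm E) ^ K * D ≥ D / (2 (8 K + 3)^2) ^ K / L ^ (3 K) ≥ c`, because `L ^ (3K) ≤ 2 ^ (3K) * D ^ (3/8) ≤
2 ^ (3 K) * D` (from `(L/2) ^ (8K) ≤ D`, `(L / 2) ^ (3 K) ≤ (L / 2) ^ (8 K)` as `L ≥ 2`).
-/

set_option autoImplicit false

namespace Pool.Agent.H87.BZ

private theorem Dob5_exp (A : ℝ) (hA : 0 < A) (M : ℕ) :
    ∃ L₀ : ℕ, ∀ L : ℕ, L₀ ≤ L → A * (L : ℝ) ^ M < 2 ^ L := by
  have h1 := tendsto_pow_const_div_const_pow_of_one_lt M (r := (2 : ℝ)) (by norm_num)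
  have h2 : ∀ᶠ n : ℕ in Filter.atTop, (n : ℝ) ^ M / 2 ^ n < 1 / A :=
    (tendsto_order.1 h1).2 _ (by positivity)
  obtain ⟨L₀, hL₀⟩ := Filter.eventually_atTop.1 h2
  refine ⟨L₀, fun L hL => ?_⟩
  have h3 := hL₀ L hL
  rw [div_lt_div_iff₀ (by positivity) hA, one_mul] at h3
  linarith

private theorem Dob5_small {K : ℕ} {E : Polynomial ℤ} (hE : Irreducible E) (hm : E.Monic)
    (hE1 : HasNT E) {L : ℕ} (hL : 2 ≤ L) (hD : 1 ≤ E.natDegree) (hDL : E.natDegree ≤ L ^ (8 * K))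
    (hpi : ((8 * K + 3) * L) ^ 2 ≤ (Nat.primeCounting (((8 * K + 3) * L) ^ 2)) ^ 2)
    (hbig : (18 : ℝ) ^ (2 * (16 * K + 2)) *
      (L : ℝ) ^ ((8 * K + 1) * (16 * K + 2) * (2 * (16 * K + 2))) < 2 ^ L) :
    1 / (2 * (8 * (K : ℝ) + 3) ^ 2 * (L : ℝ) ^ 3) < lm E := by
  classical
  by_contra hcon
  rw [not_lt] at hcon
  set D := E.natDegree with hDdef
  set T := 16 * K + 2 with hT
  set Y := ((8 * K + 3) * L) ^ 2 with hY
  have hL0 : (0 : ℝ) < L := by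
    have : 0 < L := by omega
    exact_mod_cast this
  have hL2 : (2 : ℝ) ≤ L := by exact_mod_cast hL
  have hlm1 : (L : ℝ) * lm E ≤ 1 := by
    have h1 : (L : ℝ) * lm E ≤ L * (1 / (2 * (8 * (K : ℝ) + 3) ^ 2 * (L : ℝ) ^ 3)) := by gcongr
    refine h1.trans ?_
    rw [mul_one_div, div_le_one (by positivity)]
    have h2 : (1 : ℝ) ≤ (8 * (K : ℝ) + 3) ^ 2 := by
      have : (0 : ℝ) ≤ K := Nat.cast_nonneg K
      nlinarith
    have h3 : (L : ℝ) ≤ (L : ℝ) ^ 3 := by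
      have : (1 : ℝ) ≤ (L : ℝ) ^ 2 := by nlinarith
      nlinarith
    have h4 : (0 : ℝ) ≤ (L : ℝ) ^ 3 := by positivity
    nlinarith
  have hYL : (Y : ℝ) * L * lm E ≤ 1 / 2 := by
    have h1 : (Y : ℝ) * L * lm E ≤ (Y : ℝ) * L *
        (1 / (2 * (8 * (K : ℝ) + 3) ^ 2 * (L : ℝ) ^ 3)) := by gcongr
    refine h1.trans (le_of_eq ?_)
    rw [hY]
    push_cast
    field_simp
  -- the primes
  set S : Finset ℕ := (Finset.Ioc L Y).filter Nat.Prime with hS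
  have hpiY : (8 * K + 3) * L ≤ Nat.primeCounting Y :=
    (Nat.pow_le_pow_iff_left (by norm_num : (2 : ℕ) ≠ 0)).1 hpi
  have hScard : (8 * K + 2) * L ≤ S.card := by
    have h1 : Nat.primeCounting Y = ((Finset.range (Y + 1)).filter Nat.Prime).card := by
      unfold Nat.primeCounting Nat.primeCounting'
      rw [Nat.count_eq_card_filter_range]
    have h2 : (Finset.range (Y + 1)).filter Nat.Prime ⊆ S ∪ (Finset.Ioc 0 L) := by
      intro p hp
      rw [Finset.mem_filter, Finset.mem_range] at hp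
      rw [Finset.mem_union]
      by_cases h : L < p
      · left
        rw [hS, Finset.mem_filter, Finset.mem_Ioc]
        exact ⟨⟨h, by omega⟩, hp.2⟩
      · right
        rw [Finset.mem_Ioc]
        exact ⟨hp.2.pos, by omega⟩
    have h3 := (Finset.card_le_card h2).trans (Finset.card_union_le _ _)
    rw [← h1, Nat.card_Ioc] at h3
    have h4 : (8 * K + 3) * L = (8 * K + 2) * L + L := by ring
    omega
  have hSL : L ≤ S.card := by
    have : 1 * L ≤ (8 * K + 2) * L := Nat.mul_le_mul_right _ (by omega)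
    omega
  have hSc : D < 2 ^ (S.card - L) := by
    have h1 : 8 * K * L + 1 ≤ S.card - L := by
      have h2 : (8 * K + 2) * L = 8 * K * L + L + L := by ring
      omega
    calc D ≤ L ^ (8 * K) := hDL
      _ ≤ (2 ^ L) ^ (8 * K) := Nat.pow_le_pow_left (Nat.lt_two_pow_self).le _
      _ = 2 ^ (8 * K * L) := by rw [← pow_mul]; ring_nf
      _ < 2 ^ (S.card - L) := Nat.pow_lt_pow_right (by norm_num) (by omega)
  have hDL1 : D * L ≤ L ^ (8 * K + 1) := by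
    rw [pow_succ]
    exact Nat.mul_le_mul_right _ hDL
  have hNL : (D * L) ^ 2 ≤ L ^ T := by
    calc (D * L) ^ 2 ≤ (L ^ (8 * K + 1)) ^ 2 := Nat.pow_le_pow_left hDL1 2
      _ = L ^ T := by rw [← pow_mul, hT]; ring_nf
  have hD0 : (0 : ℝ) < D := by
    have : 0 < D := by omega
    exact_mod_cast this
  have hmain : (6 * ((D * L : ℕ) : ℝ) ^ T *
      Real.exp ((D * L : ℕ) * lm E / D)) ^ (2 * T * D) < 2 ^ (D * L) := by
    have h1 : ((D * L : ℕ) : ℝ) * lm E / D = L * lm E := by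
      push_cast
      field_simp
    rw [h1]
    have h2 : Real.exp (L * lm E) ≤ 3 := by
      calc Real.exp (L * lm E) ≤ Real.exp 1 := Real.exp_le_exp.2 hlm1
        _ ≤ 3 := by
          have := Real.exp_one_lt_d9
          linarith
    have h3 : ((D * L : ℕ) : ℝ) ≤ (L : ℝ) ^ (8 * K + 1) := by exact_mod_cast hDL1
    have h4 : 6 * ((D * L : ℕ) : ℝ) ^ T * Real.exp (L * lm E) ≤
        18 * (L : ℝ) ^ ((8 * K + 1) * T) := by
      calc 6 * ((D * L : ℕ) : ℝ) ^ T * Real.exp (L * lm E)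
          ≤ 6 * ((L : ℝ) ^ (8 * K + 1)) ^ T * 3 := by gcongr
        _ = 18 * (L : ℝ) ^ ((8 * K + 1) * T) := by rw [← pow_mul]; ring
    have h5 : (6 * ((D * L : ℕ) : ℝ) ^ T * Real.exp (L * lm E)) ^ (2 * T) < 2 ^ L := by
      calc (6 * ((D * L : ℕ) : ℝ) ^ T * Real.exp (L * lm E)) ^ (2 * T)
          ≤ (18 * (L : ℝ) ^ ((8 * K + 1) * T)) ^ (2 * T) := by
            apply pow_le_pow_left₀ (by positivity) h4
        _ = 18 ^ (2 * T) * (L : ℝ) ^ ((8 * K + 1) * T * (2 * T)) := by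
            rw [mul_pow, ← pow_mul]
        _ < 2 ^ L := hbig
    rw [pow_mul _ (2 * T) D, mul_comm D L, pow_mul (2 : ℝ) L D]
    have h6 := pow_lt_pow_left₀ h5 (by positivity) (show D ≠ 0 by omega)
    rw [mul_comm D L] at h6
    exact h6
  exact dob_main hE hm hE1 hL (by omega) hmain hNL hYL S
    (by
      intro p hp
      rw [hS, Finset.mem_filter, Finset.mem_Ioc] at hp
      exact ⟨hp.2, hp.1.1, hp.1.2⟩) hSL hSc

theorem dob_large (K : ℕ) (hK : 1 ≤ K) : ∃ (D₀ : ℕ) (c : ℝ), 0 < c ∧ ∀ E : Polynomial ℤ,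
    Irreducible E → E.Monic → HasNT E → D₀ ≤ E.natDegree →
      c ≤ lm E ^ K * E.natDegree := by
  classical
  obtain ⟨n₀, hn₀⟩ := piLow
  obtain ⟨L₁, hL₁⟩ := Dob5_exp ((18 : ℝ) ^ (2 * (16 * K + 2))) (by positivity)
    ((8 * K + 1) * (16 * K + 2) * (2 * (16 * K + 2)))
  set L₀ := max 2 (max n₀ L₁) with hL₀
  refine ⟨L₀ ^ (8 * K) + 1, (1 / (16 * (8 * (K : ℝ) + 3) ^ 2)) ^ K, by positivity, ?_⟩
  intro E hE hm hE1 hD
  set D := E.natDegree with hDdef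
  have hD1 : 1 ≤ D := by omega
  have hex : ∃ L : ℕ, D ≤ L ^ (8 * K) := ⟨D, by
    calc D = D ^ 1 := (pow_one D).symm
      _ ≤ D ^ (8 * K) := Nat.pow_le_pow_right hD1 (by omega)⟩
  set L := Nat.find hex with hLdef
  have hDL : D ≤ L ^ (8 * K) := Nat.find_spec hex
  have hLL : L₀ < L := by
    have h1 : L₀ ^ (8 * K) < L ^ (8 * K) := by omega
    exact lt_of_pow_lt_pow_left₀ _ (Nat.zero_le _) h1
  have hL2 : 2 ≤ L := by
    have : 2 ≤ L₀ := le_max_left _ _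
    omega
  have hLn : n₀ ≤ L := by
    have : n₀ ≤ L₀ := (le_max_left _ _).trans (le_max_right _ _)
    omega
  have hLL1 : L₁ ≤ L := by
    have : L₁ ≤ L₀ := (le_max_right _ _).trans (le_max_right _ _)
    omega
  have hDL' : (L - 1) ^ (8 * K) < D := by
    have h1 := Nat.find_min hex (m := L - 1) (by omega)
    omega
  have hYn : n₀ ≤ ((8 * K + 3) * L) ^ 2 := by
    have h1 : L ≤ (8 * K + 3) * L := Nat.le_mul_of_pos_left _ (by omega)
    have h2 : (8 * K + 3) * L ≤ ((8 * K + 3) * L) ^ 2 := Nat.le_self_pow (by norm_num) _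
    omega
  have hlow := Dob5_small hE hm hE1 hL2 hD1 hDL (hn₀ _ hYn) (hL₁ L hLL1)
  have hL0 : (0 : ℝ) < L := by
    have : 0 < L := by omega
    exact_mod_cast this
  have h1 : (1 / (2 * (8 * (K : ℝ) + 3) ^ 2 * (L : ℝ) ^ 3)) ^ K ≤ lm E ^ K :=
    pow_le_pow_left₀ (by positivity) hlow.le K
  have h2 : ((L : ℝ) / 2) ^ (3 * K) ≤ D := by
    have h3 : (L : ℝ) / 2 ≤ ((L - 1 : ℕ) : ℝ) := by
      rw [Nat.cast_sub (by omega)]
      have : (2 : ℝ) ≤ L := by exact_mod_cast hL2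
      push_cast
      linarith
    have h4 : (L - 1) ^ (3 * K) ≤ (L - 1) ^ (8 * K) := Nat.pow_le_pow_right (by omega) (by omega)
    have h5 : (((L - 1) ^ (3 * K) : ℕ) : ℝ) ≤ D := by
      have : (L - 1) ^ (3 * K) ≤ D := by omega
      exact_mod_cast this
    calc ((L : ℝ) / 2) ^ (3 * K) ≤ (((L - 1 : ℕ) : ℝ)) ^ (3 * K) :=
          pow_le_pow_left₀ (by positivity) h3 _
      _ = (((L - 1) ^ (3 * K) : ℕ) : ℝ) := by push_cast; rfl
      _ ≤ D := h5
  calc (1 / (16 * (8 * (K : ℝ) + 3) ^ 2)) ^ K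
      = (1 / (2 * (8 * (K : ℝ) + 3) ^ 2 * (L : ℝ) ^ 3)) ^ K * ((L : ℝ) / 2) ^ (3 * K) := by
        rw [pow_mul ((L : ℝ) / 2) 3 K, ← mul_pow]
        congr 1
        field_simp
        ring
    _ ≤ lm E ^ K * D :=
        mul_le_mul h1 h2 (by positivity) (le_trans (by positivity) h1)

end Pool.Agent.H87.BZ
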