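import Pool.Agent.H87.BZ.Defs

/-!
# Project BZ, module Elim0: elimination of one variable

`elim0`: let `a ≠ 0` and `b` have no common irreducible factor in which the variable `i` occurs. Then the
ideal `(a, b)` contains a nonzero polynomial `ρ` without the variable `i`, with degree bounds.
Proof. If `a.degreeOf i = 0` take `ρ = a`. Otherwise `b ≠ 0` (an irreducible factor of `a` in which `i`
occurs exists, and it divides `0`). If `b.degreeOf i = 0` take `ρ = b`. Otherwise view `a`, `b` as
polynomials in the variable `i` over `R = MvPolynomial (Fin k') ℤ`, `k = k' + 1` (rename the variables with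
the transposition of `i` and `0` and use `MvPolynomial.finSuccEquiv`, or use a `finSuccEquivNth` if there
is one); both have positive degree. Let `ρ` be their resultant. `ρ ≠ 0`: otherwise they have a common
factor of positive degree over the fraction field of `R` (`Polynomial.resultant_map_map`,
`Polynomial.resultant_eq_zero_iff`); by the lemma of Gauss (`R` is a unique factorization domain;
`Polynomial.IsPrimitive.dvd_of_fraction_map_dvd_fraction_map` or the irreducible factors) they have a common
irreducible factor of positive degree in `R[X]`. Concretely: a polynomial `g` over the fraction field which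
divides both and has positive degree has an irreducible factor, which is (up to a constant) a primitive
polynomial in `R[X]`, irreducible there, and divides `a` and `b` there. `ρ` lies in the ideal:
`Polynomial.exists_mul_add_mul_eq_C_resultant`. Degrees: `ρ` is a determinant of a matrix with
`b.degreeOf i` rows of coefficients of `a` and `a.degreeOf i` rows of coefficients of `b`, so
`ρ.degreeOf j ≤ (b.degreeOf i) * (a.degreeOf j) + (a.degreeOf i) * (b.degreeOf j)` (`Matrix.det_apply`,
`degreeOf_sum_le`, `degreeOf_mul_le`, `degreeOf_prod_le`); the coefficients of `a` as a polynomial in the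
variable `i` have `degreeOf j` at most that of `a`.
-/

set_option autoImplicit false

namespace Pool.Agent.H87.BZ

open Polynomial in
/-- over a unique factorization domain, a vanishing resultant gives a common irreducible factor of
positive degree -/
private theorem Elim0_common {R : Type*} [CommRing R] [IsDomain R] [UniqueFactorizationMonoid R]
    (f g : R[X]) (hf : f ≠ 0) (hres : f.resultant g = 0) :
    ∃ q : R[X], Irreducible q ∧ q ∣ f ∧ q ∣ g ∧ 0 < q.natDegree := by
  set K := FractionRing R
  have hinj : Function.Injective (algebraMap R K) := IsFractionRing.injective R K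
  have hinj' : Function.Injective (Polynomial.map (algebraMap R K)) :=
    Polynomial.map_injective _ hinj
  have h1 : (f.map (algebraMap R K)).resultant (g.map (algebraMap R K)) = 0 := by
    rw [natDegree_map_eq_of_injective hinj, natDegree_map_eq_of_injective hinj,
      resultant_map_map, hres, _root_.map_zero]
  rw [resultant_eq_zero_iff] at h1
  have hf' : f.map (algebraMap R K) ≠ 0 := by
    intro h0
    exact hf (hinj' (by rw [h0, Polynomial.map_zero]))
  have h2 : ∃ z : K[X], Irreducible z ∧ z ∣ f.map (algebraMap R K) ∧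
      z ∣ g.map (algebraMap R K) := by
    by_contra hne
    push Not at hne
    exact h1.2 (isCoprime_of_irreducible_dvd (fun h => hf' h.1) hne)
  obtain ⟨z, hz, hzf, hzg⟩ := h2
  -- factor `f`
  obtain ⟨s, hs, u, hu⟩ := WfDvdMonoid.exists_factors f hf
  have h3 : f.map (algebraMap R K) = (s.prod.map (algebraMap R K)) *
      ((u : R[X]).map (algebraMap R K)) := by
    rw [← Polynomial.map_mul, hu]
  have hum : IsUnit ((u : R[X]).map (algebraMap R K)) := by
    have := u.isUnit.map (mapRingHom (algebraMap R K))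
    exact this
  have h4 : z ∣ s.prod.map (algebraMap R K) := by
    rw [h3] at hzf
    exact (hum.dvd_mul_right).1 hzf
  have h5 : s.prod.map (algebraMap R K) = (s.map (mapRingHom (algebraMap R K))).prod := by
    have := map_multiset_prod (mapRingHom (algebraMap R K)) s
    exact this
  rw [h5] at h4
  obtain ⟨q', hq', hzq'⟩ := Prime.exists_mem_multiset_dvd hz.prime h4
  rw [Multiset.mem_map] at hq'
  obtain ⟨q, hqs, rfl⟩ := hq'
  have hqi := hs q hqs
  have hq0 : (q.map (algebraMap R K)) ≠ 0 := by
    intro h0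
    exact hqi.ne_zero (hinj' (by rw [h0, Polynomial.map_zero]))
  have hzd : 0 < z.natDegree := hz.natDegree_pos
  have hqd : 0 < q.natDegree := by
    have := natDegree_le_of_dvd hzq' hq0
    rw [coe_mapRingHom, natDegree_map_eq_of_injective hinj] at this
    omega
  have hqp : q.IsPrimitive := hqi.isPrimitive hqd.ne'
  have hqK : Irreducible (q.map (algebraMap R K)) :=
    hqp.irreducible_iff_irreducible_map_fraction_map.1 hqi
  have has : Associated z (q.map (algebraMap R K)) :=
    hz.associated_of_dvd hqK hzq'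
  refine ⟨q, hqi, ?_, ?_, hqd⟩
  · rw [← hu]
    exact (Multiset.dvd_prod hqs).mul_right _
  · exact hqp.dvd_of_fraction_map_dvd_fraction_map (K := K) (has.symm.dvd.trans hzg)

/-- a polynomial in which the variable `i` occurs has an irreducible factor in which it occurs -/
private theorem Elim0_factor {k : ℕ} (i : Fin k) (a : MvPolynomial (Fin k) ℤ) (ha : a ≠ 0)
    (hd : a.degreeOf i ≠ 0) :
    ∃ g : MvPolynomial (Fin k) ℤ, Irreducible g ∧ g ∣ a ∧ g.degreeOf i ≠ 0 := by
  obtain ⟨s, hs, u, hu⟩ := WfDvdMonoid.exists_factors a ha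
  by_contra hne
  push Not at hne
  apply hd
  have hu0 : (u : MvPolynomial (Fin k) ℤ).degreeOf i = 0 := by
    have h1 : (u : MvPolynomial (Fin k) ℤ) * ((u⁻¹ : (MvPolynomial (Fin k) ℤ)ˣ) :
      MvPolynomial (Fin k) ℤ) = 1 := Units.mul_inv u
    have h2 := MvPolynomial.degreeOf_mul_eq (n := i) u.ne_zero (u⁻¹).ne_zero
    rw [h1, MvPolynomial.degreeOf_one] at h2
    omega
  have key : ∀ t : Multiset (MvPolynomial (Fin k) ℤ), (∀ g ∈ t, g.degreeOf i = 0) →
      t.prod.degreeOf i = 0 := by
    intro t
    induction t using Multiset.induction_on with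
    | empty => intro _; simp
    | cons b t ih =>
      intro ht
      rw [Multiset.prod_cons]
      have h1 := MvPolynomial.degreeOf_mul_le i b t.prod
      rw [ht b (Multiset.mem_cons_self b t),
        ih (fun g hg => ht g (Multiset.mem_cons_of_mem hg))] at h1
      omega
  have h3 : s.prod.degreeOf i = 0 := by
    apply key
    intro g hg
    apply hne g (hs g hg)
    rw [← hu]
    exact (Multiset.dvd_prod hg).mul_right _
  have h4 := MvPolynomial.degreeOf_mul_le i s.prod (u : MvPolynomial (Fin k) ℤ)
  rw [hu, h3, hu0] at h4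
  omega

/-- degrees of a resultant of polynomials with polynomial coefficients -/
private theorem Elim0_deg {k : ℕ} (j : Fin k) (f g : Polynomial (MvPolynomial (Fin k) ℤ))
    (m n Da Db : ℕ) (hf : ∀ l, (f.coeff l).degreeOf j ≤ Da)
    (hg : ∀ l, (g.coeff l).degreeOf j ≤ Db) :
    (f.resultant g m n).degreeOf j ≤ m * Db + n * Da := by
  unfold Polynomial.resultant
  rw [Matrix.det_apply]
  refine (MvPolynomial.degreeOf_sum_le j _ _).trans (Finset.sup_le fun σ _ => ?_)
  have h1 : (Equiv.Perm.sign σ • ∏ i, Polynomial.sylvester f g m n (σ i) i).degreeOf j ≤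
      (∏ i, Polynomial.sylvester f g m n (σ i) i).degreeOf j := by
    rcases Int.units_eq_one_or (Equiv.Perm.sign σ) with h | h
    · rw [h, one_smul]
    · rw [h]
      have : ((-1 : ℤˣ) • ∏ i, Polynomial.sylvester f g m n (σ i) i) =
          -∏ i, Polynomial.sylvester f g m n (σ i) i := by
        rw [Units.smul_def]
        simp
      rw [this, MvPolynomial.degreeOf_neg]
  refine h1.trans ?_
  rw [Fin.prod_univ_add]
  refine (MvPolynomial.degreeOf_mul_le j _ _).trans (Nat.add_le_add ?_ ?_)
  · refine (MvPolynomial.degreeOf_prod_le j _ _).trans ?_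
    refine (Finset.sum_le_card_nsmul _ _ Db ?_).trans (by simp)
    intro i _
    unfold Polynomial.sylvester
    rw [Matrix.of_apply, Fin.addCases_left]
    split_ifs
    · exact hg _
    · simp
  · refine (MvPolynomial.degreeOf_prod_le j _ _).trans ?_
    refine (Finset.sum_le_card_nsmul _ _ Da ?_).trans (by simp)
    intro i _
    unfold Polynomial.sylvester
    rw [Matrix.of_apply, Fin.addCases_right]
    split_ifs
    · exact hf _
    · simp

private theorem Elim0_ren {k : ℕ} (p : MvPolynomial (Fin k) ℤ) :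
    MvPolynomial.finSuccEquiv ℤ k (MvPolynomial.rename Fin.succ p) = Polynomial.C p := by
  induction p using MvPolynomial.induction_on with
  | C c =>
    rw [MvPolynomial.rename_C]
    have h := RingHom.congr_fun (MvPolynomial.finSuccEquiv_comp_C_eq_C (R := ℤ) k) c
    have h2 : (MvPolynomial.finSuccEquiv ℤ k).symm (Polynomial.C (MvPolynomial.C c)) =
        MvPolynomial.C c := h
    rw [← h2, AlgEquiv.apply_symm_apply]
  | add p q hp hq => rw [_root_.map_add, _root_.map_add, hp, hq, Polynomial.C_add]
  | mul_X p j hp =>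
    rw [_root_.map_mul, _root_.map_mul, hp, MvPolynomial.rename_X,
      MvPolynomial.finSuccEquiv_X_succ, Polynomial.C_mul]

/-- the case of the variable `0` -/
private theorem Elim0_zero {k : ℕ} (a b : MvPolynomial (Fin (k + 1)) ℤ) (ha : a ≠ 0) (Da Db : ℕ)
    (hDa : ∀ j, a.degreeOf j ≤ Da) (hDb : ∀ j, b.degreeOf j ≤ Db)
    (h : ∀ g : MvPolynomial (Fin (k + 1)) ℤ, Irreducible g → g ∣ a → g ∣ b →
      g.degreeOf 0 = 0) :
    ∃ ρ : MvPolynomial (Fin (k + 1)) ℤ, ρ ≠ 0 ∧ ρ.degreeOf 0 = 0 ∧ ρ ∈ Ideal.span {a, b} ∧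
      ∀ j, ρ.degreeOf j ≤ 2 * Da * Db + Da + Db := by
  have hma : a ∈ Ideal.span {a, b} := Ideal.subset_span (by simp)
  have hmb : b ∈ Ideal.span {a, b} := Ideal.subset_span (by simp)
  by_cases ha0 : a.degreeOf 0 = 0
  · exact ⟨a, ha, ha0, hma, fun j => (hDa j).trans (by nlinarith [Nat.zero_le (2 * Da * Db)])⟩
  have hb : b ≠ 0 := by
    rintro rfl
    obtain ⟨g, hg, hga, hgd⟩ := Elim0_factor 0 a ha ha0
    exact hgd (h g hg hga (dvd_zero g))
  by_cases hb0 : b.degreeOf 0 = 0
  · exact ⟨b, hb, hb0, hmb, fun j => (hDb j).trans (by nlinarith [Nat.zero_le (2 * Da * Db)])⟩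
  set e := MvPolynomial.finSuccEquiv ℤ k with he
  have hea : (e a).natDegree = a.degreeOf 0 := MvPolynomial.natDegree_finSuccEquiv a
  have heb : (e b).natDegree = b.degreeOf 0 := MvPolynomial.natDegree_finSuccEquiv b
  have hea0 : e a ≠ 0 := by
    rw [Ne, EmbeddingLike.map_eq_zero_iff]
    exact ha
  set ρ₀ := (e a).resultant (e b) with hρ₀
  have hρ0 : ρ₀ ≠ 0 := by
    intro h0
    obtain ⟨q, hq, hqa, hqb, hqd⟩ := Elim0_common (e a) (e b) hea0 h0
    have h1 : Irreducible (e.symm q) := (MulEquiv.irreducible_iff e.symm).2 hq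
    have h2 : e.symm q ∣ a := by
      have := map_dvd e.symm hqa
      rwa [AlgEquiv.symm_apply_apply] at this
    have h3 : e.symm q ∣ b := by
      have := map_dvd e.symm hqb
      rwa [AlgEquiv.symm_apply_apply] at this
    have h4 := h _ h1 h2 h3
    rw [← MvPolynomial.natDegree_finSuccEquiv, ← he, AlgEquiv.apply_symm_apply] at h4
    omega
  obtain ⟨P, Q, -, -, hPQ⟩ := Polynomial.exists_mul_add_mul_eq_C_resultant (e a) (e b)
    (m := (e a).natDegree) (n := (e b).natDegree) le_rfl le_rfl (Or.inl (by rw [hea]; exact ha0))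
  have hren : e (MvPolynomial.rename Fin.succ ρ₀) = Polynomial.C ρ₀ := Elim0_ren ρ₀
  refine ⟨MvPolynomial.rename Fin.succ ρ₀, ?_, ?_, ?_, ?_⟩
  · intro h0
    apply hρ0
    rw [h0, _root_.map_zero] at hren
    exact (Polynomial.C_eq_zero.1 hren.symm)
  · rw [← MvPolynomial.natDegree_finSuccEquiv, ← he, hren, Polynomial.natDegree_C]
  · rw [Ideal.mem_span_pair]
    refine ⟨e.symm P, e.symm Q, ?_⟩
    apply e.injective
    rw [_root_.map_add, _root_.map_mul, _root_.map_mul, AlgEquiv.apply_symm_apply,
      AlgEquiv.apply_symm_apply, hren, hρ₀, ← hPQ]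
    ring
  · intro j
    refine Fin.cases ?_ (fun j => ?_) j
    · rw [← MvPolynomial.natDegree_finSuccEquiv, ← he, hren, Polynomial.natDegree_C]
      exact Nat.zero_le _
    · rw [MvPolynomial.degreeOf_rename_of_injective (Fin.succ_injective k)]
      have h1 := Elim0_deg j (e a) (e b) (e a).natDegree (e b).natDegree Da Db
        (fun l => (MvPolynomial.degreeOf_coeff_finSuccEquiv a j l).trans (hDa _))
        (fun l => (MvPolynomial.degreeOf_coeff_finSuccEquiv b j l).trans (hDb _))
      refine h1.trans ?_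
      rw [hea, heb]
      have h2 := Nat.mul_le_mul_right Db (hDa 0)
      have h3 := Nat.mul_le_mul_right Da (hDb 0)
      nlinarith

theorem elim0 {k : ℕ} (i : Fin k) (a b : MvPolynomial (Fin k) ℤ) (ha : a ≠ 0) (Da Db : ℕ)
    (hDa : ∀ j, a.degreeOf j ≤ Da) (hDb : ∀ j, b.degreeOf j ≤ Db)
    (h : ∀ g : MvPolynomial (Fin k) ℤ, Irreducible g → g ∣ a → g ∣ b → g.degreeOf i = 0) :
    ∃ ρ : MvPolynomial (Fin k) ℤ, ρ ≠ 0 ∧ ρ.degreeOf i = 0 ∧ ρ ∈ Ideal.span {a, b} ∧
      ∀ j, ρ.degreeOf j ≤ 2 * Da * Db + Da + Db := by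
  obtain _ | k := k
  · exact i.elim0
  set σ : Equiv.Perm (Fin (k + 1)) := Equiv.swap 0 i with hσ
  set R := MvPolynomial.renameEquiv ℤ σ with hR
  have hRa : ∀ p : MvPolynomial (Fin (k + 1)) ℤ, R p = MvPolynomial.rename σ p := fun _ => rfl
  have hRR : ∀ p : MvPolynomial (Fin (k + 1)) ℤ, R (R p) = p := by
    intro p
    rw [hRa, hRa, MvPolynomial.rename_rename]
    have : (⇑σ ∘ ⇑σ) = id := by
      funext x
      simp [hσ]
    rw [this, MvPolynomial.rename_id_apply]
  have hdeg : ∀ (p : MvPolynomial (Fin (k + 1)) ℤ) (j : Fin (k + 1)),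
      (R p).degreeOf (σ j) = p.degreeOf j := by
    intro p j
    rw [hRa, MvPolynomial.degreeOf_rename_of_injective σ.injective]
  have hσσ : ∀ j, σ (σ j) = j := by
    intro j
    simp [hσ]
  have hdeg' : ∀ (p : MvPolynomial (Fin (k + 1)) ℤ) (j : Fin (k + 1)),
      (R p).degreeOf j = p.degreeOf (σ j) := by
    intro p j
    rw [← hdeg p (σ j), hσσ]
  obtain ⟨ρ, h1, h2, h3, h4⟩ := Elim0_zero (R a) (R b)
    (by rw [Ne, EmbeddingLike.map_eq_zero_iff]; exact ha) Da Db
    (fun j => by rw [hdeg']; exact hDa _) (fun j => by rw [hdeg']; exact hDb _) (by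
      intro g hg hga hgb
      have h5 : Irreducible (R g) := (MulEquiv.irreducible_iff R).2 hg
      have h6 := h (R g) h5 (by have := map_dvd R hga; rwa [hRR] at this)
        (by have := map_dvd R hgb; rwa [hRR] at this)
      rw [hdeg'] at h6
      have h7 : σ i = 0 := by simp [hσ]
      rwa [h7] at h6)
  refine ⟨R ρ, ?_, ?_, ?_, ?_⟩
  · rw [Ne, EmbeddingLike.map_eq_zero_iff]
    exact h1
  · rw [hdeg']
    have h7 : σ i = 0 := by simp [hσ]
    rw [h7]
    exact h2
  · rw [Ideal.mem_span_pair] at h3 ⊢
    obtain ⟨u, v, huv⟩ := h3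
    refine ⟨R u, R v, ?_⟩
    rw [← huv, _root_.map_add, _root_.map_mul, _root_.map_mul, hRR, hRR]
  · intro j
    rw [hdeg']
    exact h4 _

/-- elements of the ideal vanish at the common zeros -/
theorem aeval_of_span {k : ℕ} {a b ρ : MvPolynomial (Fin k) ℤ} (h : ρ ∈ Ideal.span {a, b})
    {S : Type*} [CommRing S] (x : Fin k → S) (ha : MvPolynomial.aeval x a = 0)
    (hb : MvPolynomial.aeval x b = 0) : MvPolynomial.aeval x ρ = 0 := by
  rw [Ideal.mem_span_pair] at h
  obtain ⟨u, v, rfl⟩ := h
  rw [map_add, map_mul, map_mul, ha, hb, mul_zero, mul_zero, add_zero]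

end Pool.Agent.H87.BZ
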