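import Pool.Agent.H87.BZ.NTc

/-!
# Project BZ, module FG: splitting off the factors of type `NT`

`P` nonzero with `kap P ≠ 0`, `e` irreducible, `NT e`, `e ∣ kap P`, and `P`, `Q` have no common factor of type
`NT`. Then `P` has a factor `f`, relatively prime to `Q`, with `e ∣ kap f`.
Proof. Factor `P` (`WfDvdMonoid.exists_factors`): `P` is associated to the product of a multiset `s` of
irreducible elements. Let `f` be the product of those `γ ∈ s` with `NT γ`, `g` the product of the others:
`P ~ f * g`. `IsRelPrime f Q`: a common divisor which is not a unit has an irreducible factor `γ'`, which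
divides (prime) one of the `γ ∈ s` with `NT γ`, so is associated to it, `NT γ'` (`NT_of_dvd`), and divides
`P` and `Q`: contradiction. `e` is prime and divides `kap P ~ kap f * kap g`. If `e ∣ kap f` we are done.
Otherwise `e ∣ kap γ` for some `γ ∈ s` without `NT γ`, `kap γ ≠ 0`. By `nt_of` either `γ = monomial m c`,
then `kap γ` is a monomial too, nonzero, contradicting `NT_not_dvd_monomial`; or `γ ∣ expand p γ` for a prime
`p`. In this case apply `NT e` with `h = kap γ`: there are `r`, `ξ`, `NTor ξ`, with `e (ξ ^ r) = 0`, so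
`(kap γ)(ξ ^ r) = 0`, i.e. `γ` vanishes at `pt ξ (Fin.cons 0 r)`, and `γ` does not vanish at
`pt z (Fin.cons 0 r)` for some `z ≠ 0`. This contradicts `tors` (`q = p`).
-/

set_option autoImplicit false

namespace Pool.Agent.H87.BZ

theorem aeval_kap {k : ℕ} (P : MvPolynomial (Fin (k + 1)) ℤ) {S : Type*} [CommRing S]
    (y : Fin k → S) : MvPolynomial.aeval y (kap P) =
      MvPolynomial.aeval (Fin.cons 1 y : Fin (k + 1) → S) P := by
  have h : (MvPolynomial.aeval y).comp kap =
      (MvPolynomial.aeval (Fin.cons 1 y : Fin (k + 1) → S) :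
        MvPolynomial (Fin (k + 1)) ℤ →ₐ[ℤ] S) := by
    apply MvPolynomial.algHom_ext
    intro i
    rw [AlgHom.comp_apply, kap, MvPolynomial.aeval_X, MvPolynomial.aeval_X]
    refine Fin.cases ?_ (fun i => ?_) i
    · simp
    · simp
  rw [← h, AlgHom.comp_apply]

private theorem FG_kap_monomial {k : ℕ} (n : Fin (k + 1) →₀ ℕ) (n' : Fin k →₀ ℕ) (c : ℤ)
    (h : ∀ i : Fin k, n' i = n i.succ) :
    kap (MvPolynomial.monomial n c) = MvPolynomial.monomial n' c := by
  rw [kap, MvPolynomial.aeval_monomial, MvPolynomial.monomial_eq]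
  rw [Finsupp.prod_fintype _ _ (fun i => pow_zero _), Finsupp.prod_fintype _ _ (fun i => pow_zero _),
    Fin.prod_univ_succ]
  simp [h, MvPolynomial.algebraMap_eq]

theorem kap_sb {k d : ℕ} (w : Fin d → ℤ) (U : Fin k → Fin d → ℤ) (A : MvPolynomial (Fin d) ℤ) :
    kap (sb (Fin.cons w U : Fin (k + 1) → Fin d → ℤ) A) = sb U A := by
  rw [sb, sb, map_sum]
  apply Finset.sum_congr rfl
  intro m _
  apply FG_kap_monomial
  intro i
  simp [ex, shf]

theorem fg {k : ℕ} {P Q : MvPolynomial (Fin (k + 1)) ℤ} {e : MvPolynomial (Fin k) ℤ}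
    (he : Irreducible e) (hNT : NT e) (hP : kap P ≠ 0) (heP : e ∣ kap P)
    (hPF : ¬ ∃ ε : MvPolynomial (Fin (k + 1)) ℤ, NT ε ∧ ε ∣ P ∧ ε ∣ Q) :
    ∃ f, f ∣ P ∧ IsRelPrime f Q ∧ e ∣ kap f := by
  classical
  have hP0 : P ≠ 0 := by
    rintro rfl
    exact hP (map_zero _)
  obtain ⟨s, hs, hassoc⟩ := WfDvdMonoid.exists_factors P hP0
  have hsplit : (s.filter NT).prod * (s.filter (fun γ => ¬ NT γ)).prod = s.prod := by
    rw [← Multiset.prod_add, Multiset.filter_add_not]
  have hfP : (s.filter NT).prod ∣ P :=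
    (Dvd.intro _ hsplit).trans hassoc.dvd
  have hf0 : (s.filter NT).prod ≠ 0 := fun h0 => by
    rw [h0, zero_dvd_iff] at hfP
    exact hP0 hfP
  refine ⟨(s.filter NT).prod, hfP, ?_, ?_⟩
  · intro δ hδf hδQ
    by_contra hu
    have hδ0 : δ ≠ 0 := fun h0 => by
      rw [h0, zero_dvd_iff] at hδf
      exact hf0 hδf
    obtain ⟨γ', hγ', hγδ⟩ := WfDvdMonoid.exists_irreducible_factor hu hδ0
    have hpr : Prime γ' := UniqueFactorizationMonoid.irreducible_iff_prime.mp hγ'
    obtain ⟨γ, hγ, hd⟩ := hpr.exists_mem_multiset_dvd (hγδ.trans hδf)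
    rw [Multiset.mem_filter] at hγ
    have hass : Associated γ' γ := hγ'.associated_of_dvd (hs γ hγ.1) hd
    exact hPF ⟨γ', NT_of_dvd hγ.2 hass.symm.dvd, (hγδ.trans hδf).trans hfP, hγδ.trans hδQ⟩
  · have hprime : Prime e := UniqueFactorizationMonoid.irreducible_iff_prime.mp he
    have h1 : e ∣ kap (s.filter NT).prod * kap (s.filter (fun γ => ¬ NT γ)).prod := by
      rw [← map_mul, hsplit]
      exact heP.trans (map_dvd kap hassoc.symm.dvd)
    rcases hprime.dvd_or_dvd h1 with h2 | h2
    · exact h2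
    · exfalso
      rw [map_multiset_prod] at h2
      obtain ⟨γ, hγ, hd⟩ := hprime.exists_mem_multiset_map_dvd h2
      rw [Multiset.mem_filter] at hγ
      have hγP : γ ∣ P := (Multiset.dvd_prod hγ.1).trans hassoc.dvd
      have hkγ : kap γ ≠ 0 := fun h0 => by
        have := map_dvd kap hγP
        rw [h0, zero_dvd_iff] at this
        exact hP this
      by_cases hmon : ∃ m c, γ = MvPolynomial.monomial m c
      · obtain ⟨m, c, rfl⟩ := hmon
        have hk := FG_kap_monomial m
          (Finsupp.equivFunOnFinite.symm fun i : Fin k => m i.succ) c (fun i => by simp)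
        have hc : c ≠ 0 := by
          rintro rfl
          exact hkγ (by simp)
        rw [hk] at hd
        exact NT_not_dvd_monomial hNT _ hc hd
      · by_cases hex : ∃ p : ℕ, p.Prime ∧ γ ∣ MvPolynomial.expand p γ
        · obtain ⟨p, hp, hγp⟩ := hex
          obtain ⟨r, ξ, hξ, h0, z, hz, hz0⟩ := hNT (kap γ) hkγ
          have hcons : ∀ w : ℂ, (Fin.cons 1 (pt w r) : Fin (k + 1) → ℂ) =
              pt w (Fin.cons 0 r : Fin (k + 1) → ℤ) := by
            intro w
            funext i
            refine Fin.cases ?_ (fun i => ?_) i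
            · simp [pt]
            · simp [pt]
          have h3 : MvPolynomial.aeval (pt ξ (Fin.cons 0 r : Fin (k + 1) → ℤ)) γ = 0 := by
            rw [← hcons, ← aeval_kap]
            obtain ⟨q, hq⟩ := hd
            rw [hq, map_mul, h0, zero_mul]
          have h4 : MvPolynomial.aeval (pt z (Fin.cons 0 r : Fin (k + 1) → ℤ)) γ ≠ 0 := by
            rw [← hcons, ← aeval_kap]
            exact hz0
          exact tors hp.two_le hγp ⟨z, hz, h4⟩ h3 hξ
        · push Not at hex
          exact hγ.2 (nt_of (hs γ hγ.1) hmon hex)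

end Pool.Agent.H87.BZ
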