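import Pool.Agent.H87.BZ.Defs

/-!
# Project BZ, module FewM: multiplicities of roots of polynomials with few terms

* `few_mult`: a nonzero root of a polynomial with `t` terms over `ℂ` has multiplicity at most `t - 1`.
  Induction on `t`: dividing by a power of `X` (this does not change the multiplicity of `z ≠ 0` nor the
  number of terms) we may assume `P.coeff 0 ≠ 0`. If `t = 1`, `P` is a nonzero constant: multiplicity `0`. If
  `t ≥ 2`, the derivative has `t - 1` terms (characteristic `0`) and the multiplicity of `z` in it is the
  multiplicity in `P` minus one if `z` is a root (`Polynomial.derivative_rootMultiplicity_of_root`).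
* `width_le`: `E ∣ P`, so every nonzero root of `E` has multiplicity at most `t - 1 ≤ t` in `E`; the number
  of nonzero roots of `E` with multiplicity is `natDegree E - natTrailingDegree E`
  (`0` is a root of multiplicity `natTrailingDegree`; `ℂ` is algebraically closed, so the number of all
  roots is `natDegree`); the nonzero roots lie in `S`.
-/

set_option autoImplicit false

namespace Pool.Agent.H87.BZ

private theorem FewM_aux (n : ℕ) : ∀ (P : Polynomial ℂ), P.natDegree ≤ n → P ≠ 0 →
    ∀ {z : ℂ}, z ≠ 0 → P.rootMultiplicity z < P.support.card := by
  classical
  induction n with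
  | zero =>
    intro P hn hP z hz
    have h1 : P = Polynomial.C (P.coeff 0) :=
      Polynomial.eq_C_of_natDegree_eq_zero (Nat.le_zero.mp hn)
    have h2 : P.rootMultiplicity z = 0 := by
      rw [h1, Polynomial.rootMultiplicity_C]
    rw [h2, Finset.card_pos]
    exact Polynomial.nonempty_support_iff.mpr hP
  | succ n ih =>
    intro P hn hP z hz
    by_cases h0 : P.coeff 0 = 0
    · obtain ⟨Q, rfl⟩ : Polynomial.X ∣ P := Polynomial.X_dvd_iff.mpr h0
      have hQ : Q ≠ 0 := right_ne_zero_of_mul hP
      have h1 : (Polynomial.X * Q).rootMultiplicity z = Q.rootMultiplicity z := by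
        rw [Polynomial.rootMultiplicity_mul hP]
        have : Polynomial.rootMultiplicity z (Polynomial.X : Polynomial ℂ) = 0 := by
          rw [Polynomial.rootMultiplicity_eq_zero]
          simpa [Polynomial.IsRoot] using hz
        rw [this, zero_add]
      have h2 : (Polynomial.X * Q).support.card = Q.support.card := by
        have : (Polynomial.X * Q).support = Q.support.map ⟨Nat.succ, Nat.succ_injective⟩ := by
          ext m
          rcases m with _ | m
          · simp [Polynomial.mem_support_iff]
          · simp [Polynomial.mem_support_iff]
        rw [this, Finset.card_map]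
      rw [h1, h2]
      apply ih Q _ hQ hz
      rw [Polynomial.natDegree_mul Polynomial.X_ne_zero hQ, Polynomial.natDegree_X] at hn
      omega
    · by_cases hr : P.IsRoot z
      · have hd : P.natDegree ≠ 0 := by
          intro hd
          have h1 : P = Polynomial.C (P.coeff 0) := Polynomial.eq_C_of_natDegree_eq_zero hd
          rw [h1, Polynomial.IsRoot, Polynomial.eval_C] at hr
          exact h0 hr
        have hD : Polynomial.derivative P ≠ 0 := by
          intro h
          exact hd (Polynomial.natDegree_eq_zero_of_derivative_eq_zero h)
        have h1 := ih (Polynomial.derivative P) (by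
          have := Polynomial.natDegree_derivative_lt hd
          omega) hD hz
        rw [Polynomial.derivative_rootMultiplicity_of_root hr] at h1
        have h2 : (Polynomial.derivative P).support.card ≤ (P.support.erase 0).card := by
          calc (Polynomial.derivative P).support.card
              ≤ ((P.support.erase 0).image (fun m => m - 1)).card := by
                apply Finset.card_le_card
                intro m hm
                rw [Polynomial.mem_support_iff, Polynomial.coeff_derivative] at hm
                rw [Finset.mem_image]
                refine ⟨m + 1, ?_, by simp⟩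
                rw [Finset.mem_erase, Polynomial.mem_support_iff]
                exact ⟨by omega, left_ne_zero_of_mul hm⟩
            _ ≤ (P.support.erase 0).card := Finset.card_image_le
        rw [Finset.card_erase_of_mem (Polynomial.mem_support_iff.mpr h0)] at h2
        have h3 : 0 < P.rootMultiplicity z := (Polynomial.rootMultiplicity_pos hP).mpr hr
        omega
      · rw [Polynomial.rootMultiplicity_eq_zero hr, Finset.card_pos]
        exact Polynomial.nonempty_support_iff.mpr hP

theorem few_mult (P : Polynomial ℂ) (hP : P ≠ 0) {z : ℂ} (hz : z ≠ 0) :
    P.rootMultiplicity z < P.support.card := FewM_aux P.natDegree P le_rfl hP hz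

theorem width_le (E P : Polynomial ℤ) (hP : P ≠ 0) (h : E ∣ P) (S : Finset ℂ)
    (hS : ∀ z : ℂ, z ≠ 0 → Polynomial.aeval z E = 0 → z ∈ S) :
    E.natDegree - E.natTrailingDegree ≤ P.support.card * S.card := by
  classical
  have hinj : Function.Injective (Int.castRingHom ℂ) := RingHom.injective_int _
  have hE : E ≠ 0 := by
    rintro rfl
    exact hP (zero_dvd_iff.mp h)
  set E' := E.map (Int.castRingHom ℂ) with hE'
  set P' := P.map (Int.castRingHom ℂ) with hP'
  have hE0 : E' ≠ 0 := (Polynomial.map_ne_zero_iff hinj).mpr hE
  have hP0 : P' ≠ 0 := (Polynomial.map_ne_zero_iff hinj).mpr hP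
  have hdvd : E' ∣ P' := Polynomial.map_dvd _ h
  have hsupp : P'.support.card = P.support.card := by
    rw [hP', Polynomial.support_map_of_injective _ hinj]
  have h1 : E.natDegree = Multiset.card E'.roots := by
    rw [← Polynomial.natDegree_map_eq_of_injective hinj E]
    exact (IsAlgClosed.splits E').natDegree_eq_card_roots
  have h2 : E.natTrailingDegree = E'.roots.count 0 := by
    rw [Polynomial.count_roots, Polynomial.rootMultiplicity_eq_natTrailingDegree']
    unfold Polynomial.natTrailingDegree Polynomial.trailingDegree
    rw [hE', Polynomial.support_map_of_injective _ hinj]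
  have h3 : Multiset.card E'.roots = ∑ z ∈ E'.roots.toFinset, E'.roots.count z :=
    (Multiset.toFinset_sum_count_eq _).symm
  have h4 : ∑ z ∈ E'.roots.toFinset, E'.roots.count z ≤
      E'.roots.count 0 + ∑ z ∈ S, P.support.card := by
    calc ∑ z ∈ E'.roots.toFinset, E'.roots.count z
        ≤ ∑ z ∈ insert 0 (E'.roots.toFinset.erase 0), E'.roots.count z :=
          Finset.sum_le_sum_of_subset (by
            intro z hz
            by_cases hz0 : z = 0
            · simp [hz0]
            · exact Finset.mem_insert_of_mem (Finset.mem_erase.mpr ⟨hz0, hz⟩))
      _ = E'.roots.count 0 + ∑ z ∈ E'.roots.toFinset.erase 0, E'.roots.count z :=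
          Finset.sum_insert (Finset.notMem_erase _ _)
      _ ≤ E'.roots.count 0 + ∑ z ∈ E'.roots.toFinset.erase 0, P.support.card := by
          gcongr with z hz
          rw [Finset.mem_erase] at hz
          rw [Polynomial.count_roots, ← hsupp]
          exact (Polynomial.rootMultiplicity_le_rootMultiplicity_of_dvd hP0 hdvd z).trans
            (few_mult P' hP0 hz.1).le
      _ ≤ E'.roots.count 0 + ∑ z ∈ S, P.support.card := by
          gcongr
          intro z hz
          rw [Finset.mem_erase, Multiset.mem_toFinset, Polynomial.mem_roots hE0,
            Polynomial.IsRoot, hE', Polynomial.eval_map] at hz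
          exact hS z hz.1 hz.2
  rw [Finset.sum_const, smul_eq_mul, mul_comm S.card] at h4
  omega

end Pool.Agent.H87.BZ
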