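import Pool.Agent.H87.BZ.Slot

/-!
# Project BZ, module Fin: sequences of bounded measure
-/

set_option autoImplicit false

open Finset Filter Topology MeasureTheory

namespace Pool.Agent.H87.BZ

open Pool.Agent.H87.MM

variable {n : ℕ}

/-- multiplicativity of the measure of a monomial substitution -/
theorem mA_prod {d n : ℕ} (σ : (Fin d → ℤ) →+ (Fin n → ℤ)) {c : ℕ} (hc : (c : ℤ) ≠ 0)
    {ι : Type*} [Fintype ι] (B : ι → MvPolynomial (Fin d) ℤ) (hB : ∀ i, B i ≠ 0)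
    (hσ : ∀ i, ∀ m ∈ (B i).support, ∀ m' ∈ (B i).support, σ (iot m) = σ (iot m') → m = m') :
    mA σ (MvPolynomial.C (c : ℤ) * ∏ i, B i) = Real.log c + ∑ i, mA σ (B i) := by
  classical
  have h1 : ∀ i, ∃ (z : Fin n → ℤ) (Q : MvPolynomial (Fin n) ℤ), Q ≠ 0 ∧
      JJ n Q = mo z * SP σ (B i) := by
    intro i
    obtain ⟨z, P, Q, hP, -⟩ := exists_poly σ (B i) (B i)
    refine ⟨iot z, P, ?_, hP⟩
    rintro rfl
    rw [map_zero] at hP
    exact mul_ne_zero (mo_ne _) (SP_ne_zero σ (hB i) (hσ i)) hP.symm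
  choose z Q hQ hJ using h1
  have hCne : (MvPolynomial.C (c : ℤ) : MvPolynomial (Fin n) ℤ) ≠ 0 := by
    rwa [Ne, MvPolynomial.C_eq_zero]
  have hPne : (∏ i, Q i) ≠ 0 := prod_ne_zero_iff.mpr fun i _ => hQ i
  have hmo : ∀ s : Finset ι, ∏ i ∈ s, mo (z i) = mo (∑ i ∈ s, z i) := by
    intro s
    induction s using Finset.induction_on with
    | empty => rw [prod_empty, sum_empty, mo_zero]
    | insert i s hi ih => rw [prod_insert hi, sum_insert hi, ih, mo_mul]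
  have hC : JJ n (MvPolynomial.C (c : ℤ)) = SP σ (MvPolynomial.C (c : ℤ)) := by
    rw [show (MvPolynomial.C (c : ℤ) : MvPolynomial (Fin n) ℤ) = MvPolynomial.monomial 0 (c : ℤ)
      from rfl, show (MvPolynomial.C (c : ℤ) : MvPolynomial (Fin d) ℤ) =
      MvPolynomial.monomial 0 (c : ℤ) from rfl, JJ_monomial, SP_monomial, iot_zero, iot_zero,
      map_zero]
  have h2 : JJ n (MvPolynomial.C (c : ℤ) * ∏ i, Q i) =
      mo (∑ i, z i) * SP σ (MvPolynomial.C (c : ℤ) * ∏ i, B i) := by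
    rw [map_mul, map_mul, map_prod, map_prod, hC, ← hmo, prod_congr rfl fun i _ => hJ i,
      prod_mul_distrib]
    ring
  rw [← mm_eq_mA σ h2, mm_mul hCne hPne, mm_C, mm_prod _ _ fun i _ => hQ i]
  congr 1
  · rw [Int.cast_natCast, abs_of_nonneg (Nat.cast_nonneg _)]
  · exact sum_congr rfl fun i _ => mm_eq_mA σ (hJ i)

/-- the sequence version -/
theorem bounded_seq (k : ℕ → ℕ) (F : ∀ n, MvPolynomial (Fin (k n)) ℤ) (hF : ∀ n, F n ≠ 0)
    (hcl : ∀ n, Cl (F n)) {C : ℝ} (hC : ∀ n, mm (F n) ≤ C) :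
    ∃ (d : ℕ) (G : MvPolynomial (Fin d) ℤ), G ≠ 0 ∧
      {n | ∃ σ : (Fin d → ℤ) →+ (Fin (k n) → ℤ), SP σ G ≠ 0 ∧ mm (F n) = mA σ G}.Infinite := by
  classical
  obtain ⟨𝒰, h𝒰⟩ : ∃ 𝒰 : Ultrafilter ℕ, (𝒰 : Filter ℕ) ≤ atTop :=
    ⟨Ultrafilter.of atTop, Ultrafilter.of_le _⟩
  obtain ⟨N0, hN0⟩ := exists_nat_ge (12 * C)
  -- decompositions
  have hdec : ∀ n, ∃ (c : ℕ) (g : Fin N0 → MvPolynomial (Fin (k n)) ℤ),
      c ∈ Finset.Icc 1 ⌊Real.exp C⌋₊ ∧ (∀ i, g i = 1 ∨ (Irreducible (g i) ∧ ¬ Recip (g i))) ∧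
      mm (F n) = Real.log c + ∑ i, mm (g i) := by
    intro n
    obtain ⟨c, s, hc, hs, hsum⟩ := decomp (hF n) (hcl n)
    have hnn : ∀ s : Multiset (MvPolynomial (Fin (k n)) ℤ), (∀ G ∈ s, Irreducible G ∧ ¬ Recip G) →
        (s.card : ℝ) * (1 / 12) ≤ (s.map mm).sum := by
      intro s
      induction s using Multiset.induction_on with
      | empty => intro _; simp
      | cons G s ih =>
        intro hs
        have h1 := ih fun G' hG' => hs G' (Multiset.mem_cons_of_mem hG')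
        have h2 := mm_lower (hs G (Multiset.mem_cons_self _ _)).1
          (hs G (Multiset.mem_cons_self _ _)).2
        rw [Multiset.card_cons, Multiset.map_cons, Multiset.sum_cons]
        push_cast
        linarith
    have h1 := hnn s hs
    have h2 : 0 ≤ Real.log c := Real.log_nonneg (by exact_mod_cast hc)
    have h3 := hC n
    have h4 : (s.card : ℝ) ≤ N0 := by linarith
    obtain ⟨g, hg1, hg2⟩ := pad N0 s (by exact_mod_cast h4) hs
    refine ⟨c, g, ?_, hg1, by rw [hsum, hg2]⟩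
    rw [Finset.mem_Icc]
    refine ⟨hc, ?_⟩
    rw [Nat.le_floor_iff (Real.exp_pos _).le]
    have h5 : Real.log c ≤ C := by
      have : 0 ≤ (s.map mm).sum := le_trans (by positivity) h1
      linarith
    rwa [Real.log_le_iff_le_exp (by exact_mod_cast hc)] at h5
  choose c g hc hg hsum using hdec
  have hcop : ∀ n i, Cop (g n i) := fun n i => cop_of (hg n i)
  have hg0 : ∀ n i, g n i ≠ 0 := fun n i => (hcop n i).1
  have hgC : ∀ n i, mm (g n i) ≤ C := by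
    intro n i
    have h1 : mm (g n i) ≤ ∑ i, mm (g n i) :=
      single_le_sum (f := fun i => mm (g n i)) (fun i _ => mm_nonneg (hg0 n i)) (mem_univ i)
    have h2 : 0 ≤ Real.log (c n) := Real.log_nonneg (by
      exact_mod_cast (Finset.mem_Icc.mp (hc n)).1)
    have h3 := hsum n
    have h4 := hC n
    linarith
  obtain ⟨c0, hc0, hcc⟩ := ultra_const 𝒰 c _ hc
  -- short pairs
  obtain ⟨K, hK⟩ := short_pair C
  obtain ⟨N, hN⟩ := exists_nat_ge K
  have hrep : ∀ n i, ∃ (α β : Fin N → ℤ) (p q : Fin N → (Fin (k n) →₀ ℕ)),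
      (∀ j, α j ∈ ({-1, 0, 1} : Finset ℤ)) ∧ (∀ j, β j ∈ ({-1, 0, 1} : Finset ℤ)) ∧
      (∑ j, MvPolynomial.monomial (p j) (α j)) ≠ 0 ∧
      (∑ j, MvPolynomial.monomial (p j) (α j)) * rv (g n i) =
        (∑ j, MvPolynomial.monomial (q j) (β j)) * g n i := by
    intro n i
    obtain ⟨A, B, hA, hlA, hlB, hAB⟩ := hK (k n) (g n i) (hg0 n i) (hgC n i)
    obtain ⟨α, p, hα, hp⟩ := poly_repr N A (hlA.trans hN)
    obtain ⟨β, q, hβ, hq⟩ := poly_repr N B (hlB.trans hN)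
    exact ⟨α, β, p, q, hα, hβ, hp ▸ hA, by rw [← hp, ← hq]; exact hAB⟩
  choose α β p q hα hβ hne hrel using hrep
  obtain ⟨α0, -, hα0⟩ := ultra_const 𝒰 α
    (Fintype.piFinset fun _ => Fintype.piFinset fun _ => ({-1, 0, 1} : Finset ℤ)) (by
      intro n
      rw [Fintype.mem_piFinset]
      intro i
      rw [Fintype.mem_piFinset]
      exact hα n i)
  obtain ⟨β0, -, hβ0⟩ := ultra_const 𝒰 β
    (Fintype.piFinset fun _ => Fintype.piFinset fun _ => ({-1, 0, 1} : Finset ℤ)) (by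
      intro n
      rw [Fintype.mem_piFinset]
      intro i
      rw [Fintype.mem_piFinset]
      exact hβ n i)
  -- generic limit
  obtain ⟨v, hv⟩ : ∃ v : ∀ n, Fin N0 × (Fin N ⊕ Fin N) → (Fin (k n) → ℤ), ∀ n t, v n t =
      Sum.elim (fun j => iot (p n t.1 j)) (fun j => iot (q n t.1 j)) t.2 := ⟨_, fun _ _ => rfl⟩
  obtain ⟨P, hP⟩ : ∃ P : ∀ n, (Fin N0 × (Fin N ⊕ Fin N) → ℤ) →+ (Fin (k n) → ℤ), ∀ n t,
      P n (Pi.single t 1) = v n t := by
    refine ⟨fun n => (Fintype.linearCombination ℤ (v n)).toAddMonoidHom, fun n t => ?_⟩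
    change Fintype.linearCombination ℤ (v n) (Pi.single t 1) = v n t
    rw [Fintype.linearCombination_apply_single, one_smul]
  obtain ⟨d, π, σ, hσ1, hσ2⟩ := exists_generic 𝒰 k P
  obtain ⟨u, q', hq'⟩ := exists_shift' fun t : Fin N0 × (Fin N ⊕ Fin N) => π (Pi.single t 1)
  have hcore : ∀ i, ∃ B1 : MvPolynomial (Fin d) ℤ, B1 ≠ 0 ∧
      ∀ᶠ n in (𝒰 : Filter ℕ), mm (g n i) = mA (σ n) B1 := by
    intro i
    obtain ⟨A, hA⟩ : ∃ A : MvPolynomial (Fin d) ℤ, A =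
        ∑ j, MvPolynomial.monomial (q' (i, Sum.inl j)) (α0 i j) := ⟨_, rfl⟩
    obtain ⟨B, hB⟩ : ∃ B : MvPolynomial (Fin d) ℤ, B =
        ∑ j, MvPolynomial.monomial (q' (i, Sum.inr j)) (β0 i j) := ⟨_, rfl⟩
    have hSA : ∀ᶠ n in (𝒰 : Filter ℕ), SP (σ n) A = mo (σ n (iot u)) *
        JJ (k n) (∑ j, MvPolynomial.monomial (p n i j) (α n i j)) := by
      filter_upwards [hσ1, hα0] with n h1 h2
      rw [hA, SP_sum, JJ_sum, mo_mul_sum]
      refine sum_congr rfl fun j _ => ?_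
      rw [hq', map_add, ← h1, hP, hv, h2]
      rfl
    have hSB : ∀ᶠ n in (𝒰 : Filter ℕ), SP (σ n) B = mo (σ n (iot u)) *
        JJ (k n) (∑ j, MvPolynomial.monomial (q n i j) (β n i j)) := by
      filter_upwards [hσ1, hβ0] with n h1 h2
      rw [hB, SP_sum, JJ_sum, mo_mul_sum]
      refine sum_congr rfl fun j _ => ?_
      rw [hq', map_add, ← h1, hP, hv, h2]
      rfl
    have hR : ∀ᶠ n in (𝒰 : Filter ℕ),
        SP (σ n) A * JJ _ (rv (g n i)) = SP (σ n) B * JJ _ (g n i) := by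
      filter_upwards [hSA, hSB] with n h1 h2
      rw [h1, h2, mul_assoc, mul_assoc, ← map_mul, ← map_mul, hrel]
    have hA0 : A ≠ 0 := by
      intro h0
      obtain ⟨n, hn⟩ := hSA.exists
      rw [h0, map_zero] at hn
      exact mul_ne_zero (mo_ne _) (JJ_ne (hne n i)) hn.symm
    have hB0 : B ≠ 0 := by
      intro h0
      obtain ⟨n, hn, hn'⟩ := (hSA.and hR).exists
      rw [h0, map_zero, zero_mul, hn] at hn'
      exact mul_ne_zero (mul_ne_zero (mo_ne _) (JJ_ne (hne n i)))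
        (JJ_ne (rv_ne_zero (hg0 n i))) hn'
    exact slot (F := fun n => g n i) hσ2 (Eventually.of_forall fun n => hcop n i) hA0 hB0 hR
  choose B1 hB1 hB2 using hcore
  have hc0' : (c0 : ℤ) ≠ 0 := by
    have := (Finset.mem_Icc.mp hc0).1
    exact_mod_cast (by omega : c0 ≠ 0)
  have hCne : (MvPolynomial.C (c0 : ℤ) : MvPolynomial (Fin d) ℤ) ≠ 0 := by
    rwa [Ne, MvPolynomial.C_eq_zero]
  have hPne : (∏ i, B1 i) ≠ 0 := prod_ne_zero_iff.mpr fun i _ => hB1 i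
  refine ⟨d, MvPolynomial.C (c0 : ℤ) * ∏ i, B1 i, mul_ne_zero hCne hPne, ?_⟩
  have hev : ∀ᶠ n in (𝒰 : Filter ℕ), ∃ σ : (Fin d → ℤ) →+ (Fin (k n) → ℤ),
      SP σ (MvPolynomial.C (c0 : ℤ) * ∏ i, B1 i) ≠ 0 ∧
      mm (F n) = mA σ (MvPolynomial.C (c0 : ℤ) * ∏ i, B1 i) := by
    filter_upwards [hcc, eventually_all.mpr hB2, eventually_all.mpr fun i =>
      ev_inj_exp hσ2 (B1 i).support] with n h1 h2 h3
    refine ⟨σ n, ?_, ?_⟩
    · rw [map_mul, map_prod]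
      refine mul_ne_zero ?_ (prod_ne_zero_iff.mpr fun i _ => SP_ne_zero (σ n) (hB1 i) (h3 i))
      refine SP_ne_zero (σ n) hCne fun m hm m' hm' _ => ?_
      rw [show (MvPolynomial.C (c0 : ℤ) : MvPolynomial (Fin d) ℤ) =
        MvPolynomial.monomial 0 (c0 : ℤ) from rfl] at hm hm'
      have e1 := Finset.mem_singleton.mp (MvPolynomial.support_monomial_subset hm)
      have e2 := Finset.mem_singleton.mp (MvPolynomial.support_monomial_subset hm')
      rw [e1, e2]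
    rw [hsum n, h1, mA_prod (σ n) hc0' B1 hB1 h3]
    congr 1
    exact sum_congr rfl fun i _ => h2 i
  have hfreq : ∃ᶠ n in atTop, ∃ σ : (Fin d → ℤ) →+ (Fin (k n) → ℤ),
      SP σ (MvPolynomial.C (c0 : ℤ) * ∏ i, B1 i) ≠ 0 ∧
      mm (F n) = mA σ (MvPolynomial.C (c0 : ℤ) * ∏ i, B1 i) := by
    intro hnot
    exact (hev.and (h𝒰 hnot)).exists.elim fun n hn => hn.2 hn.1
  exact Nat.frequently_atTop_iff_infinite.mp hfreq

end Pool.Agent.H87.BZ
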