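import Pool.Agent.H87.BZ.NTb

/-!
# Project BZ, module GLi: invariance under `GL_k(ℤ)`, and the base case

Let `G`, `G'` be inverse integer matrices.
* `NT_sb`: `sb G e` has the value `(monomial) * e(y)`, `y_j = ∏ i, x_i ^ G i j`, at torus points `x`
  (`eval_sb`). Given `h ≠ 0`, `h' = sb G' h ≠ 0` (its value at `x` is a monomial times `h` at the point
  `∏ i, x_i ^ G' i j`; if it were zero, take `x` = the point `∏ i, y_i ^ G i j` to see that `h` vanishes on
  the torus, so `h = 0` by `eq_of_torus`). Apply `NT e` to `h'`: `r`, `ξ`. Put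
  `r' i = ∑ l, r l * G' l i`. Then `∑ i, r' i * G i j = r j`, so `sb G e` vanishes at `pt ξ r'`, and
  `h' (z ^ r) ≠ 0` means `h (z ^ r') ≠ 0` (the point `∏ l, (z ^ r l) ^ G' l i` is `z ^ r' i`).
* `PF_GL`: let `e` be irreducible, `NT`, with `e ∣ sb U A`, `e ∣ sb U B` (`PF_exists_irr`). With
  `V i j = ∑ l, G i l * U l j` one has for torus points `x`: value of `sb G (sb U A)` at `x` = monomial
  (with integer exponents) times the value of `sb V A` at `x`. So there are exponent vectors `a`, `b` with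
  `monomial a 1 * sb G (sb U A) = monomial b 1 * sb V A` (`eq_of_torus`); same for `B`. By `sb_mul`,
  `sb G e ∣ sb G (sb U A)` (write `sb U A = e * f`, both nonzero). `NT (sb G e)` and `sb G e ≠ 0`, so it has
  an irreducible `NT` factor `g`; `g ∣ monomial b 1 * sb V A` and `g` is prime and does not divide the
  monomial (`NT_not_dvd_monomial`), so `g ∣ sb V A`; if `sb U B = 0` then `sb V B = 0` (`eval_sb`), else
  the same argument gives `g ∣ sb V B`.
* `Ann_GL`: if `V b = 0` then `U b = G' V b = 0`. `Prim_GL`: if `W` is a right inverse of `U`, then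
  `W G'` is a right inverse of `G U`.
* `base`: let `V` be a right inverse of the square matrix `U`; then `V U = 1` as well
  (`mul_eq_one_comm`). If `sb U A = 0` then `A` vanishes at all points `∏ i, x_i ^ U i j`, i.e. at all
  torus points (take `x = y ^ V`), so `A = 0`, contradiction. So take `e` irreducible as in
  `PF_exists_irr`; as in `PF_GL` with `G = V`: `g ∣ sb V (sb U A)` irreducible and `NT`, and
  `monomial a 1 * sb V (sb U A) = monomial b 1 * A`, so `g ∣ A`, and `g ∣ B` in the same way: not relatively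
  prime.
-/

set_option autoImplicit false

namespace Pool.Agent.H87.BZ

variable {k d : ℕ}

/-- The homomorphism of tori given by an integer matrix. -/
private noncomputable def GLi_tm {k d : ℕ} (M : Fin k → Fin d → ℤ) (x : Fin k → ℂ) : Fin d → ℂ :=
  fun j => ∏ i, x i ^ M i j

private theorem GLi_tm_ne (M : Fin k → Fin d → ℤ) {x : Fin k → ℂ} (hx : ∀ i, x i ≠ 0) (j : Fin d) :
    GLi_tm M x j ≠ 0 := Finset.prod_ne_zero_iff.2 fun i _ => zpow_ne_zero _ (hx i)

private theorem GLi_zpow_sum {ι : Type} (s : Finset ι) (f : ι → ℤ) {x : ℂ} (hx : x ≠ 0) :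
    x ^ (∑ l ∈ s, f l) = ∏ l ∈ s, x ^ f l := by
  classical
  induction s using Finset.induction_on with
  | empty => simp
  | insert a s ha ih => rw [Finset.sum_insert ha, Finset.prod_insert ha, zpow_add₀ hx, ih]

private theorem GLi_tm_comp {n : ℕ} (G : Fin n → Fin k → ℤ) (U : Fin k → Fin d → ℤ) {x : Fin n → ℂ}
    (hx : ∀ i, x i ≠ 0) : GLi_tm U (GLi_tm G x) = GLi_tm (fun i j => ∑ l, G i l * U l j) x := by
  funext j
  change ∏ l, (∏ i, x i ^ G i l) ^ U l j = ∏ i, x i ^ (∑ l, G i l * U l j)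
  have h1 : ∀ l, (∏ i, x i ^ G i l) ^ U l j = ∏ i, x i ^ (G i l * U l j) := by
    intro l
    rw [← Finset.prod_zpow]
    exact Finset.prod_congr rfl fun i _ => (zpow_mul _ _ _).symm
  simp only [h1]
  rw [Finset.prod_comm]
  exact Finset.prod_congr rfl fun i _ => (GLi_zpow_sum _ _ (hx i)).symm

private theorem GLi_tm_id {M : Fin k → Fin k → ℤ} (hM : ∀ i j, M i j = if i = j then 1 else 0)
    (x : Fin k → ℂ) : GLi_tm M x = x := by
  funext j
  change ∏ i, x i ^ M i j = x j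
  rw [Finset.prod_eq_single j]
  · rw [hM, if_pos rfl, zpow_one]
  · intro i _ hij
    rw [hM, if_neg hij, zpow_zero]
  · intro h; exact absurd (Finset.mem_univ j) h

private theorem GLi_tm_pt (G : Fin k → Fin d → ℤ) (r : Fin k → ℤ) {ξ : ℂ} (hξ : ξ ≠ 0) :
    GLi_tm G (pt ξ r) = pt ξ (fun j => ∑ i, r i * G i j) := by
  funext j
  change ∏ i, (ξ ^ r i) ^ G i j = ξ ^ (∑ i, r i * G i j)
  rw [GLi_zpow_sum _ _ hξ]
  exact Finset.prod_congr rfl fun i _ => (zpow_mul _ _ _).symm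

private theorem GLi_eval (U : Fin k → Fin d → ℤ) (A : MvPolynomial (Fin d) ℤ) {x : Fin k → ℂ}
    (hx : ∀ i, x i ≠ 0) : MvPolynomial.aeval x (sb U A) =
      (∏ i, x i ^ shf U A i) * MvPolynomial.aeval (GLi_tm U x) A := eval_sb U A x hx

private theorem GLi_mono_ne {x : Fin k → ℂ} (hx : ∀ i, x i ≠ 0) (t : Fin k → ℤ) :
    (∏ i, x i ^ t i) ≠ 0 := Finset.prod_ne_zero_iff.2 fun i _ => zpow_ne_zero _ (hx i)

private theorem GLi_sb_ne {A : MvPolynomial (Fin d) ℤ} (hA : A ≠ 0) (U : Fin k → Fin d → ℤ)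
    (V : Fin d → Fin k → ℤ) (h : ∀ i j, ∑ l, V i l * U l j = if i = j then 1 else 0) :
    sb U A ≠ 0 := by
  intro h0
  apply hA
  apply eq_of_torus
  intro y hy
  have hx := GLi_tm_ne V hy
  have h1 := GLi_eval U A hx
  rw [h0, map_zero, GLi_tm_comp V U hy, GLi_tm_id h y] at h1
  rw [map_zero]
  exact (mul_eq_zero.1 h1.symm).resolve_left (GLi_mono_ne hx _)

private theorem GLi_mono_eval (b : Fin k →₀ ℕ) (x : Fin k → ℂ) :
    MvPolynomial.aeval x (MvPolynomial.monomial b (1 : ℤ)) = ∏ i, x i ^ b i := by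
  rw [MvPolynomial.aeval_monomial, map_one, one_mul, Finsupp.prod_fintype]
  intro i; exact pow_zero _

private theorem GLi_transfer {n : ℕ} (G : Fin n → Fin k → ℤ) (U : Fin k → Fin d → ℤ)
    (A : MvPolynomial (Fin d) ℤ) {e : MvPolynomial (Fin k) ℤ} (he : e ≠ 0) (hdvd : e ∣ sb U A)
    {g : MvPolynomial (Fin n) ℤ} (hg : Irreducible g) (hgN : NT g) (hge : g ∣ sb G e)
    (A' : MvPolynomial (Fin n) ℤ) (t : Fin n → ℤ)
    (hA' : ∀ x : Fin n → ℂ, (∀ i, x i ≠ 0) → MvPolynomial.aeval x A' =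
      (∏ i, x i ^ t i) * MvPolynomial.aeval (GLi_tm U (GLi_tm G x)) A) : g ∣ A' := by
  obtain ⟨f, hf⟩ := hdvd
  by_cases hf0 : f = 0
  · have hA0 : A' = 0 := by
      apply eq_of_torus
      intro x hx
      rw [map_zero, hA' x hx]
      have h1 := GLi_eval U A (GLi_tm_ne G hx)
      rw [hf, hf0, mul_zero, map_zero] at h1
      rw [(mul_eq_zero.1 h1.symm).resolve_left (GLi_mono_ne (GLi_tm_ne G hx) _), mul_zero]
    rw [hA0]; exact dvd_zero g
  · have h1 : g ∣ sb G (sb U A) := by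
      rw [hf, sb_mul G he hf0]
      exact Dvd.dvd.mul_right hge _
    -- the total exponent
    let s : Fin n → ℤ := fun i => shf G (sb U A) i + ∑ l, G i l * shf U A l
    have hs : ∀ x : Fin n → ℂ, (∀ i, x i ≠ 0) → MvPolynomial.aeval x (sb G (sb U A)) =
        (∏ i, x i ^ s i) * MvPolynomial.aeval (GLi_tm U (GLi_tm G x)) A := by
      intro x hx
      rw [GLi_eval G _ hx, GLi_eval U A (GLi_tm_ne G hx), ← mul_assoc]
      congr 1
      have h2 : ∏ l, GLi_tm G x l ^ shf U A l = ∏ i, x i ^ ∑ l, G i l * shf U A l := by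
        have h3 := congrFun (GLi_tm_comp G (fun l (_ : Fin 1) => shf U A l) hx) 0
        exact h3
      rw [h2, ← Finset.prod_mul_distrib]
      exact Finset.prod_congr rfl fun i _ => (zpow_add₀ (hx i) _ _).symm
    let a : Fin n →₀ ℕ := Finsupp.equivFunOnFinite.symm fun i => (t i - s i).toNat
    let b : Fin n →₀ ℕ := Finsupp.equivFunOnFinite.symm fun i => (s i - t i).toNat
    have hab : MvPolynomial.monomial a (1 : ℤ) * sb G (sb U A) = MvPolynomial.monomial b 1 * A' := by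
      apply eq_of_torus
      intro x hx
      rw [map_mul, map_mul, GLi_mono_eval, GLi_mono_eval, hs x hx, hA' x hx, ← mul_assoc,
        ← mul_assoc]
      congr 1
      rw [← Finset.prod_mul_distrib, ← Finset.prod_mul_distrib]
      refine Finset.prod_congr rfl fun i _ => ?_
      rw [← zpow_natCast, ← zpow_natCast, ← zpow_add₀ (hx i), ← zpow_add₀ (hx i)]
      congr 1
      change (((t i - s i).toNat : ℕ) : ℤ) + s i = (((s i - t i).toNat : ℕ) : ℤ) + t i
      omega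
    have h4 : g ∣ MvPolynomial.monomial b 1 * A' := by
      rw [← hab]; exact Dvd.dvd.mul_left h1 _
    rcases hg.prime.dvd_or_dvd h4 with h5 | h5
    · exact absurd h5 (NT_not_dvd_monomial hgN b one_ne_zero)
    · exact h5

theorem NT_sb {e : MvPolynomial (Fin k) ℤ} (he : NT e) (he0 : e ≠ 0) (G G' : Fin k → Fin k → ℤ)
    (h1 : ∀ i j, ∑ l, G i l * G' l j = if i = j then 1 else 0)
    (h2 : ∀ i j, ∑ l, G' i l * G l j = if i = j then 1 else 0) :
    NT (sb G e) ∧ sb G e ≠ 0 := by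
  refine ⟨?_, GLi_sb_ne he0 G G' h2⟩
  intro h hh
  obtain ⟨r, ξ, hξ, hr, z, hz, hzr⟩ := he (sb G' h) (GLi_sb_ne hh G' G h1)
  have hpt : ∀ (w : ℂ), w ≠ 0 → ∀ i, pt w r i ≠ 0 := fun w hw i => zpow_ne_zero _ hw
  have hpt' : ∀ (w : ℂ), w ≠ 0 → ∀ i, pt w (fun i => ∑ l, r l * G' l i) i ≠ 0 :=
    fun w hw i => zpow_ne_zero _ hw
  refine ⟨fun i => ∑ l, r l * G' l i, ξ, hξ, ?_, z, hz, ?_⟩
  · rw [GLi_eval G e (hpt' ξ hξ.1), GLi_tm_pt _ _ hξ.1]
    have h3 : (fun j => ∑ i, (∑ l, r l * G' l i) * G i j) = r := by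
      funext j
      have h4 : ∑ i, (∑ l, r l * G' l i) * G i j = ∑ l, r l * ∑ i, G' l i * G i j := by
        simp only [Finset.sum_mul, Finset.mul_sum]
        rw [Finset.sum_comm]
        exact Finset.sum_congr rfl fun _ _ => Finset.sum_congr rfl fun _ _ => by ring
      rw [h4]
      simp [h2]
    rw [h3, hr, mul_zero]
  · intro h0
    apply hzr
    rw [GLi_eval G' h (hpt z hz), GLi_tm_pt _ _ hz, h0, mul_zero]

theorem PF_GL {A B : MvPolynomial (Fin d) ℤ} {U : Fin k → Fin d → ℤ} (hU : PF A B U)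
    (hA : sb U A ≠ 0) (G G' : Fin k → Fin k → ℤ)
    (h1 : ∀ i j, ∑ l, G i l * G' l j = if i = j then 1 else 0)
    (h2 : ∀ i j, ∑ l, G' i l * G l j = if i = j then 1 else 0) :
    PF A B (fun i j => ∑ l, G i l * U l j) := by
  obtain ⟨e, heI, heN, heA, heB⟩ := PF_exists_irr hU hA
  obtain ⟨hN, h0⟩ := NT_sb heN heI.ne_zero G G' h1 h2
  obtain ⟨g, hgI, hgd, hgN⟩ := NT_exists_irreducible h0 hN
  refine ⟨g, hgN, ?_, ?_⟩
  · refine GLi_transfer G U A heI.ne_zero heA hgI hgN hgd _ (shf (fun i j => ∑ l, G i l * U l j) A) ?_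
    intro x hx
    rw [GLi_eval _ _ hx, GLi_tm_comp G U hx]
  · refine GLi_transfer G U B heI.ne_zero heB hgI hgN hgd _ (shf (fun i j => ∑ l, G i l * U l j) B) ?_
    intro x hx
    rw [GLi_eval _ _ hx, GLi_tm_comp G U hx]

theorem Ann_GL {c : ℕ} {U : Fin k → Fin d → ℤ} (G G' : Fin k → Fin k → ℤ)
    (h2 : ∀ i j, ∑ l, G' i l * G l j = if i = j then 1 else 0)
    (h : Ann c (fun i j => ∑ l, G i l * U l j)) : Ann c U := by
  obtain ⟨b, hb0, hbc, hb⟩ := h
  refine ⟨b, hb0, hbc, ?_⟩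
  have hm : (Matrix.of G' : Matrix _ _ ℤ) * (Matrix.of G : Matrix _ _ ℤ) = 1 := by
    ext i j
    rw [Matrix.mul_apply, Matrix.one_apply]
    exact h2 i j
  have hGU : ((Matrix.of G : Matrix (Fin k) (Fin k) ℤ) * (Matrix.of U : Matrix (Fin k) (Fin d) ℤ)).mulVec b = 0 := by
    funext i
    exact hb i
  have hU : (Matrix.of U : Matrix (Fin k) (Fin d) ℤ).mulVec b = 0 := by
    have h3 := congrArg (fun v => (Matrix.of G' : Matrix (Fin k) (Fin k) ℤ).mulVec v) hGU
    simp only [Matrix.mulVec_mulVec, ← Matrix.mul_assoc, hm, Matrix.one_mul,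
      Matrix.mulVec_zero] at h3
    exact h3
  intro i
  exact congrFun hU i

theorem Prim_GL {U : Fin k → Fin d → ℤ} (hU : Prim U) (G G' : Fin k → Fin k → ℤ)
    (h1 : ∀ i j, ∑ l, G i l * G' l j = if i = j then 1 else 0) :
    Prim (fun i j => ∑ l, G i l * U l j) := by
  obtain ⟨V, hV⟩ := hU
  have hm : (Matrix.of G : Matrix _ _ ℤ) * (Matrix.of G' : Matrix _ _ ℤ) = 1 := by
    ext i j
    rw [Matrix.mul_apply, Matrix.one_apply]
    exact h1 i j
  have hUV : (Matrix.of U : Matrix (Fin k) (Fin d) ℤ) * (Matrix.of V : Matrix (Fin d) (Fin k) ℤ) = 1 := by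
    ext i j
    rw [Matrix.mul_apply, Matrix.one_apply]
    exact hV i j
  refine ⟨((Matrix.of V : Matrix (Fin d) (Fin k) ℤ) * (Matrix.of G' : Matrix (Fin k) (Fin k) ℤ)), ?_⟩
  intro i i'
  have h3 : ((Matrix.of G : Matrix (Fin k) (Fin k) ℤ) * (Matrix.of U : Matrix (Fin k) (Fin d) ℤ)) *
      ((Matrix.of V : Matrix (Fin d) (Fin k) ℤ) * (Matrix.of G' : Matrix (Fin k) (Fin k) ℤ)) = 1 := by
    rw [Matrix.mul_assoc, ← Matrix.mul_assoc (Matrix.of U), hUV, Matrix.one_mul, hm]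
  have h4 := congrFun (congrFun h3 i) i'
  rw [Matrix.mul_apply, Matrix.one_apply] at h4
  exact h4

theorem base {A B : MvPolynomial (Fin d) ℤ} (hA : A ≠ 0) (hB : B ≠ 0) (hrp : IsRelPrime A B)
    (U : Fin d → Fin d → ℤ) (hU : Prim U) : ¬ PF A B U := by
  intro hPF
  obtain ⟨V, hV⟩ := hU
  have hUV : (Matrix.of U : Matrix (Fin d) (Fin d) ℤ) * (Matrix.of V : Matrix (Fin d) (Fin d) ℤ) = 1 := by
    ext i j
    rw [Matrix.mul_apply, Matrix.one_apply]
    exact hV i j
  have hVU := mul_eq_one_comm.1 hUV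
  have hV' : ∀ i j, ∑ l, V i l * U l j = if i = j then 1 else 0 := by
    intro i j
    have h4 := congrFun (congrFun hVU i) j
    rw [Matrix.mul_apply, Matrix.one_apply] at h4
    exact h4
  obtain ⟨e, heI, heN, heA, heB⟩ := PF_exists_irr hPF (GLi_sb_ne hA U V hV')
  obtain ⟨hN, h0⟩ := NT_sb heN heI.ne_zero V U hV' hV
  obtain ⟨g, hgI, hgd, hgN⟩ := NT_exists_irreducible h0 hN
  have hx1 : ∀ x : Fin d → ℂ, (∀ i, x i ≠ 0) → GLi_tm U (GLi_tm V x) = x := by
    intro x hx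
    rw [GLi_tm_comp V U hx, GLi_tm_id hV' x]
  have hgA : g ∣ A := by
    refine GLi_transfer V U A heI.ne_zero heA hgI hgN hgd A 0 ?_
    intro x hx
    rw [hx1 x hx]; simp
  have hgB : g ∣ B := by
    refine GLi_transfer V U B heI.ne_zero heB hgI hgN hgd B 0 ?_
    intro x hx
    rw [hx1 x hx]; simp
  exact hgI.not_isUnit (hrp hgA hgB)

end Pool.Agent.H87.BZ
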