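import Pool.Agent.H87.BZ.Defs

/-!
# Project BZ, module Hnf: a reduced basis of a full lattice

`hnf`: for a square integer matrix `M` with `det M ≠ 0` there is a unimodular `G` such that all entries of
`G * M` are at most `|det M|` in absolute value.
Proof by induction on `k`; `k = 0` is trivial. For `k + 1`: by unimodular row operations (Euclidean
algorithm: take, among all unimodular `G`, one for which the sum of the absolute values of the first column
of `G * M` is minimal and look at the entries; or use `exists_gcd`-type lemmas, or Mathlib on bases of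
submodules of `ℤ ^ n`) we get a first column `(g, 0, ..., 0)` with `g ≠ 0`. The matrix is
`[[g, r], [0, M']]`, `|g| * |det M'| = |det M|`, so `1 ≤ |g| ≤ |det M|`, `1 ≤ |det M'| ≤ |det M|`. By
induction a unimodular `G'` makes all entries of `G' * M'` at most `|det M'|`. Finally every vector of
`(det M') ℤ^k` is an integer combination of the rows of `G' M'` (`adjugate (G' M') * (G' M') = ± det M'`), so
adding a combination of the other rows to the first row we can make `0 ≤ r_j < |det M'|`.
-/

set_option autoImplicit false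

namespace Pool.Agent.H87.BZ

private theorem Hnf_detcol {k : ℕ} (A : Matrix (Fin (k + 1)) (Fin (k + 1)) ℤ)
    (h : ∀ i : Fin k, A i.succ 0 = 0) :
    A.det = A 0 0 * (A.submatrix Fin.succ Fin.succ).det := by
  rw [Matrix.det_succ_column_zero, Fin.sum_univ_succ]
  rw [Finset.sum_eq_zero (fun i _ => by rw [h i, mul_zero, zero_mul]), add_zero]
  simp

private theorem Hnf_col {k : ℕ} (c : Fin (k + 1) → ℤ) (hc : c ≠ 0) :
    ∃ G : Matrix (Fin (k + 1)) (Fin (k + 1)) ℤ, IsUnit G.det ∧
      ∀ i : Fin k, ∑ l, G i.succ l * c l = 0 := by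
  classical
  obtain ⟨g, hg⟩ := (IsPrincipalIdealRing.principal (Ideal.span (Set.range c))).principal
  replace hg : Ideal.span (Set.range c) = Ideal.span {g} := hg
  have hgc : ∀ i, g ∣ c i := by
    intro i
    rw [← Ideal.mem_span_singleton, ← hg]
    exact Ideal.subset_span ⟨i, rfl⟩
  choose h hh using hgc
  obtain ⟨u, hu⟩ : ∃ u : Fin (k + 1) → ℤ, ∑ i, u i * c i = g := by
    have h1 : g ∈ Ideal.span (Set.range c) := by
      rw [hg]; exact Ideal.mem_span_singleton_self _
    exact Ideal.mem_span_range_iff_exists_fun.1 h1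
  have hg0 : g ≠ 0 := by
    rintro rfl
    apply hc
    funext i
    rw [hh i, zero_mul]; rfl
  have huh : ∑ i, u i * h i = 1 := by
    have h1 : g * ∑ i, u i * h i = g * 1 := by
      rw [mul_one]
      conv_rhs => rw [← hu]
      rw [Finset.mul_sum]
      refine Finset.sum_congr rfl fun i _ => ?_
      rw [hh i]; ring
    exact mul_left_cancel₀ hg0 h1
  let φ : (Fin (k + 1) → ℤ) →ₗ[ℤ] ℤ :=
    { toFun := fun z => ∑ i, z i * h i
      map_add' := fun z w => by
        simp only [Pi.add_apply, add_mul, Finset.sum_add_distrib]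
      map_smul' := fun r z => by
        simp only [Pi.smul_apply, smul_eq_mul, RingHom.id_apply, Finset.mul_sum, mul_assoc] }
  have hφ : ∀ z, φ z = ∑ i, z i * h i := fun z => rfl
  have hφu : φ u = 1 := huh
  have hsurj : Function.Surjective φ := fun a => ⟨a • u, by
    rw [map_smul, hφu, smul_eq_mul, mul_one]⟩
  have hrank : Module.finrank ℤ (LinearMap.ker φ) = k := by
    have h1 := Submodule.finrank_quotient_add_finrank (LinearMap.ker φ)
    rw [(φ.quotKerEquivOfSurjective hsurj).finrank_eq, Module.finrank_fin_fun,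
      Module.finrank_self] at h1
    omega
  let b : Module.Basis (Fin k) ℤ (LinearMap.ker φ) :=
    (Module.finBasis ℤ (LinearMap.ker φ)).reindex (finCongr hrank)
  have hmem : ∀ z, z - φ z • u ∈ LinearMap.ker φ := by
    intro z
    rw [LinearMap.mem_ker, map_sub, map_smul, hφu, smul_eq_mul, mul_one, sub_self]
  let G : Matrix (Fin (k + 1)) (Fin (k + 1)) ℤ :=
    Matrix.of (Fin.cons u (fun i => ((b i : LinearMap.ker φ) : Fin (k + 1) → ℤ)))
  let W : Matrix (Fin (k + 1)) (Fin (k + 1)) ℤ :=
    Matrix.of fun j => Fin.cons (φ (Pi.single j 1))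
      (fun i => b.repr ⟨_, hmem (Pi.single j 1)⟩ i)
  have hWG : W * G = 1 := by
    ext j l
    rw [Matrix.mul_apply, Fin.sum_univ_succ]
    have h1 : W j 0 = φ (Pi.single j 1) := rfl
    have h2 : ∀ i : Fin k, W j i.succ = b.repr ⟨_, hmem (Pi.single j 1)⟩ i := fun i => by
      simp [W]
    have h3 : G 0 l = u l := rfl
    have h4 : ∀ i : Fin k, G i.succ l = ((b i : LinearMap.ker φ) : Fin (k + 1) → ℤ) l :=
      fun i => by simp [G]
    rw [h1, h3]
    simp only [h2, h4]
    have h5 := b.sum_repr ⟨_, hmem (Pi.single j 1)⟩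
    have h6 := congrArg (fun x : LinearMap.ker φ => (x : Fin (k + 1) → ℤ) l) h5
    simp only [Submodule.coe_sum, Submodule.coe_smul, Finset.sum_apply, Pi.smul_apply,
      smul_eq_mul, Pi.sub_apply] at h6
    rw [h6, Matrix.one_apply]
    simp only [Pi.single_apply, eq_comm (a := l)]
    ring
  refine ⟨G, Matrix.isUnit_det_of_left_inverse hWG, ?_⟩
  intro i
  have h4 : ∀ l, G i.succ l = ((b i : LinearMap.ker φ) : Fin (k + 1) → ℤ) l :=
    fun l => by simp [G]
  have h5 : φ (b i : Fin (k + 1) → ℤ) = 0 := LinearMap.mem_ker.1 (b i).2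
  rw [hφ] at h5
  simp only [h4]
  rw [Finset.sum_congr rfl (g := fun l => g * (((b i : LinearMap.ker φ) : Fin (k + 1) → ℤ) l * h l))
    (fun l _ => by rw [hh l]; ring), ← Finset.mul_sum, h5, mul_zero]

private theorem Hnf_aux : ∀ (k : ℕ) (M : Matrix (Fin k) (Fin k) ℤ), M.det ≠ 0 →
    ∃ G : Matrix (Fin k) (Fin k) ℤ, IsUnit G.det ∧ ∀ i j, |(G * M) i j| ≤ |M.det| := by
  intro k
  induction k with
  | zero =>
    intro M _
    exact ⟨1, by simp, fun i => i.elim0⟩
  | succ k ih =>
    intro M hM
    have hc : (fun i => M i 0) ≠ 0 := by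
      intro h0
      exact hM (Matrix.det_eq_zero_of_column_eq_zero 0 fun i => congrFun h0 i)
    obtain ⟨G1, hG1, hG1c⟩ := Hnf_col _ hc
    set A := G1 * M with hA
    have hA0 : ∀ i : Fin k, A i.succ 0 = 0 := by
      intro i
      rw [hA, Matrix.mul_apply]
      exact hG1c i
    have hdetA : |A.det| = |M.det| := by
      rw [hA, Matrix.det_mul, abs_mul, Int.isUnit_iff_abs_eq.1 hG1, one_mul]
    have hAd := Hnf_detcol A hA0
    set M' := A.submatrix Fin.succ Fin.succ with hM'
    have hAne : A.det ≠ 0 := by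
      rw [← abs_pos, hdetA, abs_pos]; exact hM
    have hg : A 0 0 ≠ 0 := fun h => hAne (by rw [hAd, h, zero_mul])
    have hD : M'.det ≠ 0 := fun h => hAne (by rw [hAd, h, mul_zero])
    obtain ⟨G2, hG2, hG2M⟩ := ih M' hD
    let q : Fin k → ℤ := fun j => A 0 j.succ / M'.det
    let s : Fin k → ℤ := fun i => - ∑ j, q j * M'.adjugate j i
    have hs : ∀ j, ∑ i, s i * M' i j = - (q j * M'.det) := by
      intro j
      have h1 : ∑ i, s i * M' i j = - ∑ j', q j' * (M'.adjugate * M') j' j := by
        simp only [s, neg_mul, Finset.sum_neg_distrib, Finset.sum_mul, Matrix.mul_apply,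
          Finset.mul_sum]
        rw [Finset.sum_comm]
        congr 1
        refine Finset.sum_congr rfl fun _ _ => Finset.sum_congr rfl fun _ _ => by ring
      rw [h1, Matrix.adjugate_mul]
      simp [Matrix.one_apply]
    let H : Matrix (Fin (k + 1)) (Fin (k + 1)) ℤ :=
      Matrix.of (Fin.cons (Fin.cons 1 s) (fun i => Fin.cons 0 (G2 i)))
    have hH00 : H 0 0 = 1 := rfl
    have hH0s : ∀ i : Fin k, H 0 i.succ = s i := fun i => by simp [H]
    have hHs0 : ∀ i : Fin k, H i.succ 0 = 0 := fun i => by simp [H]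
    have hHss : ∀ i j : Fin k, H i.succ j.succ = G2 i j := fun i j => by simp [H]
    have hHdet : IsUnit H.det := by
      rw [Hnf_detcol H hHs0, hH00, one_mul]
      have : H.submatrix Fin.succ Fin.succ = G2 := by
        ext i j; exact hHss i j
      rw [this]; exact hG2
    have h00 : (H * A) 0 0 = A 0 0 := by
      rw [Matrix.mul_apply, Fin.sum_univ_succ]
      simp [hA0, hH00]
    have h0s : ∀ j : Fin k, (H * A) 0 j.succ = A 0 j.succ % M'.det := by
      intro j
      rw [Matrix.mul_apply, Fin.sum_univ_succ, hH00, one_mul]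
      simp only [hH0s]
      have h1 : ∑ i : Fin k, s i * A i.succ j.succ = - (q j * M'.det) := hs j
      rw [h1, Int.emod_def]
      simp only [q]
      ring
    have hs0 : ∀ i : Fin k, (H * A) i.succ 0 = 0 := by
      intro i
      rw [Matrix.mul_apply, Fin.sum_univ_succ]
      simp [hA0, hHs0]
    have hss : ∀ i j : Fin k, (H * A) i.succ j.succ = (G2 * M') i j := by
      intro i j
      rw [Matrix.mul_apply, Fin.sum_univ_succ, hHs0, zero_mul, zero_add, Matrix.mul_apply]
      exact Finset.sum_congr rfl fun l _ => by rw [hHss]; rfl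
    have hg1 : 1 ≤ |A 0 0| := Int.one_le_abs hg
    have hD1 : 1 ≤ |M'.det| := Int.one_le_abs hD
    have hdet : |M.det| = |A 0 0| * |M'.det| := by
      rw [← hdetA, hAd, abs_mul]
    have hle1 : |A 0 0| ≤ |M.det| := by rw [hdet]; nlinarith
    have hle2 : |M'.det| ≤ |M.det| := by rw [hdet]; nlinarith
    refine ⟨H * G1, ?_, ?_⟩
    · rw [Matrix.det_mul]; exact hHdet.mul hG1
    · intro i j
      rw [Matrix.mul_assoc, ← hA]
      refine Fin.cases ?_ (fun i => ?_) i
      · refine Fin.cases ?_ (fun j => ?_) j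
        · rw [h00]; exact hle1
        · rw [h0s]
          refine le_trans ?_ hle2
          rw [abs_of_nonneg (Int.emod_nonneg _ hD)]
          exact (Int.emod_lt_abs _ hD).le
      · refine Fin.cases ?_ (fun j => ?_) j
        · rw [hs0, abs_zero]; exact abs_nonneg _
        · rw [hss]; exact (hG2M i j).trans hle2

theorem hnf {k : ℕ} (M : Matrix (Fin k) (Fin k) ℤ) (h : M.det ≠ 0) :
    ∃ G G' : Matrix (Fin k) (Fin k) ℤ, G * G' = 1 ∧ G' * G = 1 ∧
      ∀ i j, |(G * M) i j| ≤ |M.det| := by
  obtain ⟨G, hG, hGM⟩ := Hnf_aux k M h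
  exact ⟨G, G⁻¹, Matrix.mul_nonsing_inv G hG, Matrix.nonsing_inv_mul G hG, hGM⟩

end Pool.Agent.H87.BZ
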