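import Pool.Agent.H87.BZ.Hnf
import Pool.Agent.H87.MM.Dual

/-!
# Project BZ, module LatA: a reduced basis and small inequivalent vectors

Let `U₀` be primitive of size `k × d` (so `k ≤ d`). Choose a `k`-subset `I` of the columns (an injection
`Fin k → Fin d`) with `Δ = |det (U₀)_I|` maximal. `Δ ≥ 1`: if all `k × k` minors were zero the rows would be
linearly dependent over `ℚ` (or use Cauchy-Binet for `U₀ V = 1`), but `g U₀ = 0` implies
`g = g U₀ V = 0`. Take `G` from `hnf` for the matrix `(U₀)_I`; `U = G U₀`; the entries of `U_I` are at most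
`Δ`. For a column `j` of `U₀` the vector `x = (U₀)_I⁻¹ (U₀)_j` has entries
(Cramer's rule, `Matrix.cramer`) equal to quotients of `k × k` minors by `± Δ`, so at most `1` in absolute
value, and `U_j = G (U₀)_j = U_I x`, so `|U i j| ≤ k Δ`.
The set `Y`: the lattice `Λ` generated by the rows of `U_I` has index `Δ` in `ℤ^k` and contains `Δ ℤ^k`
(adjugate). So there is a set `R` of `Δ` vectors in `[0, Δ)^k` pairwise inequivalent modulo `Λ`
(`ℤ^k / Λ` has `Δ` elements, see `Pool.Agent.H87.MM.index_range` in `Pool/Agent/H87/MM/Dual.lean` for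
`index = |det|`; reduce representatives modulo `Δ`). `Y` = all `y ∈ ℤ^d` with `y_I ∈ R` and the other
`d - k` coordinates in `[0, Δ)`: `Δ * Δ ^ (d - k)` elements. If `y - y' = ∑ g_i U_i` then
`y_I - y'_I ∈ Λ`, so `y_I = y'_I`, `∑ g_i (U_i)_I = 0`, `g = 0` (`det U_I ≠ 0`), `y = y'`.
-/

set_option autoImplicit false

namespace Pool.Agent.H87.BZ

open Matrix

/-- Some maximal minor is not zero. -/
private theorem LatA_minor {k d : ℕ} (A : Matrix (Fin k) (Fin d) ℤ) (V : Matrix (Fin d) (Fin k) ℤ)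
    (h : A * V = 1) : ∃ f : Fin k → Fin d, (A.submatrix id f).det ≠ 0 := by
  classical
  by_contra hcon
  push Not at hcon
  have h1 : ((A * V)ᵀ).det = 1 := by rw [h]; simp
  have h2 : (A * V)ᵀ = fun i => ∑ j, V j i • Aᵀ j := by
    ext i l
    simp [Matrix.mul_apply, Finset.sum_apply, mul_comm]
  have h3 : ((A * V)ᵀ).det = ∑ r : Fin k → Fin d, (∏ i, V (r i) i) • ((A.submatrix id r)ᵀ).det := by
    rw [h2]
    have e1 := (Matrix.detRowAlternating (n := Fin k) (R := ℤ)).toMultilinearMap.map_sum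
      (fun (i : Fin k) (j : Fin d) => V j i • Aᵀ j)
    have e2 : ∀ r : Fin k → Fin d,
        (Matrix.detRowAlternating (n := Fin k) (R := ℤ)).toMultilinearMap
          (fun i => V (r i) i • Aᵀ (r i)) = (∏ i, V (r i) i) • ((A.submatrix id r)ᵀ).det := by
      intro r
      rw [MultilinearMap.map_smul_univ]
      rfl
    simp only [e2] at e1
    exact e1
  rw [h3] at h1
  simp only [Matrix.det_transpose, hcon, smul_zero, Finset.sum_const_zero] at h1
  exact zero_ne_one h1

/-- Representatives in the cube. -/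
private theorem LatA_rep {k : ℕ} (N : Matrix (Fin k) (Fin k) ℤ) (hN : N.det ≠ 0) :
    ∃ (Q : Type) (_ : Fintype Q) (r : Q → Fin k → ℤ), Fintype.card Q = N.det.natAbs ∧
      (∀ q i, 0 ≤ r q i ∧ r q i < (N.det.natAbs : ℤ)) ∧
      ∀ q q' (g : Fin k → ℤ), (∀ i, r q i - r q' i = ∑ l, g l * N l i) → q = q' := by
  classical
  have hdet : (Nᵀ).det ≠ 0 := by rwa [Matrix.det_transpose]
  have hidx := Pool.Agent.H87.MM.index_range Nᵀ hdet
  rw [Matrix.det_transpose] at hidx
  set Λ : AddSubgroup (Fin k → ℤ) := (LinearMap.range (Matrix.toLin' Nᵀ)).toAddSubgroup with hΛ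
  have hD : 0 < N.det.natAbs := Int.natAbs_pos.2 hN
  have hD' : (0 : ℤ) < (N.det.natAbs : ℤ) := by exact_mod_cast hD
  have hfin : Λ.index ≠ 0 := by rw [hidx]; exact hD.ne'
  have hfinite : Finite ((Fin k → ℤ) ⧸ Λ) := Nat.finite_of_card_ne_zero hfin
  let hft : Fintype ((Fin k → ℤ) ⧸ Λ) := Fintype.ofFinite _
  have hmem : ∀ x : Fin k → ℤ, x ∈ Λ ↔ ∃ g : Fin k → ℤ, ∀ i, x i = ∑ l, g l * N l i := by
    intro x
    rw [hΛ, Submodule.mem_toAddSubgroup, LinearMap.mem_range]
    constructor
    · rintro ⟨g, hg⟩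
      refine ⟨g, fun i => ?_⟩
      rw [← hg, Matrix.toLin'_apply, Matrix.mulVec, dotProduct]
      exact Finset.sum_congr rfl fun l _ => by rw [Matrix.transpose_apply, mul_comm]
    · rintro ⟨g, hg⟩
      refine ⟨g, ?_⟩
      ext i
      rw [hg i, Matrix.toLin'_apply, Matrix.mulVec, dotProduct]
      exact Finset.sum_congr rfl fun l _ => by rw [Matrix.transpose_apply, mul_comm]
  have hmul : ∀ c : Fin k → ℤ, (fun i => (N.det.natAbs : ℤ) * c i) ∈ Λ := by
    intro c
    rw [hmem]
    obtain ⟨u, hu⟩ : ∃ u : ℤ, (N.det.natAbs : ℤ) = u * N.det := by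
      rcases Int.natAbs_eq N.det with h | h
      · exact ⟨1, by rw [one_mul]; exact h.symm⟩
      · exact ⟨-1, by linarith⟩
    have hadj : ∀ i, N.det * c i = ∑ l, (∑ m, c m * N.adjugate m l) * N l i := by
      intro i
      have h1 : N.adjugate * N = N.det • (1 : Matrix (Fin k) (Fin k) ℤ) := Matrix.adjugate_mul N
      have h2 : ∀ m, ∑ l, N.adjugate m l * N l i = if m = i then N.det else 0 := by
        intro m
        have := congrFun (congrFun h1 m) i
        rw [Matrix.mul_apply] at this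
        rw [this, Matrix.smul_apply, Matrix.one_apply]
        split_ifs <;> simp
      calc N.det * c i = ∑ m, c m * (if m = i then N.det else 0) := by
            simp [mul_comm]
        _ = ∑ m, c m * ∑ l, N.adjugate m l * N l i := by simp only [h2]
        _ = ∑ l, (∑ m, c m * N.adjugate m l) * N l i := by
            simp only [Finset.mul_sum, Finset.sum_mul]
            rw [Finset.sum_comm]
            exact Finset.sum_congr rfl fun l _ => Finset.sum_congr rfl fun m _ => by ring
    refine ⟨fun l => u * ∑ m, c m * N.adjugate m l, fun i => ?_⟩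
    rw [hu, mul_assoc, hadj i, Finset.mul_sum]
    exact Finset.sum_congr rfl fun l _ => by ring
  refine ⟨(Fin k → ℤ) ⧸ Λ, hft, fun q i => (Quotient.out q : Fin k → ℤ) i %
    (N.det.natAbs : ℤ), ?_, ?_, ?_⟩
  · rw [← hidx, AddSubgroup.index, Nat.card_eq_fintype_card]
  · intro q i
    exact ⟨Int.emod_nonneg _ hD'.ne', Int.emod_lt_of_pos _ hD'⟩
  · intro q q' g hg
    have h1 : (fun i => (Quotient.out q : Fin k → ℤ) i % (N.det.natAbs : ℤ)) -
        (fun i => (Quotient.out q' : Fin k → ℤ) i % (N.det.natAbs : ℤ)) ∈ Λ := by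
      rw [hmem]
      exact ⟨g, fun i => hg i⟩
    have h2 : ∀ q : (Fin k → ℤ) ⧸ Λ, (Quotient.out q : Fin k → ℤ) -
        (fun i => (Quotient.out q : Fin k → ℤ) i % (N.det.natAbs : ℤ)) ∈ Λ := by
      intro q
      have h3 := hmul fun i => (Quotient.out q : Fin k → ℤ) i / (N.det.natAbs : ℤ)
      have h4 : (Quotient.out q : Fin k → ℤ) -
          (fun i => (Quotient.out q : Fin k → ℤ) i % (N.det.natAbs : ℤ)) =
          fun i => (N.det.natAbs : ℤ) * ((Quotient.out q : Fin k → ℤ) i / (N.det.natAbs : ℤ)) := by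
        ext i
        have := Int.emod_add_mul_ediv ((Quotient.out q : Fin k → ℤ) i) (N.det.natAbs : ℤ)
        simp only [Pi.sub_apply]
        linarith
      rw [h4]
      exact h3
    have h5 : (Quotient.out q : Fin k → ℤ) - (Quotient.out q' : Fin k → ℤ) ∈ Λ := by
      have := Λ.sub_mem (Λ.add_mem (h2 q) h1) (h2 q')
      convert this using 1
      abel
    have h6 : (QuotientAddGroup.mk (Quotient.out q : Fin k → ℤ) : (Fin k → ℤ) ⧸ Λ) =
        QuotientAddGroup.mk (Quotient.out q' : Fin k → ℤ) := by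
      rw [eq_comm, QuotientAddGroup.eq]
      convert h5 using 1
      abel
    have h7 : ∀ q : (Fin k → ℤ) ⧸ Λ,
        (QuotientAddGroup.mk (Quotient.out q : Fin k → ℤ) : (Fin k → ℤ) ⧸ Λ) = q :=
      fun q => QuotientAddGroup.out_eq' q
    rw [h7, h7] at h6
    exact h6

theorem latA {k d : ℕ} (U₀ : Fin k → Fin d → ℤ) (h : Prim U₀) :
    ∃ (G G' : Fin k → Fin k → ℤ) (Δ : ℕ) (Y : Finset (Fin d → ℤ)),
      (∀ i j, ∑ l, G i l * G' l j = if i = j then 1 else 0) ∧
      (∀ i j, ∑ l, G' i l * G l j = if i = j then 1 else 0) ∧ 1 ≤ Δ ∧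
      (∀ i j, |∑ l, G i l * U₀ l j| ≤ (k : ℤ) * Δ) ∧ Δ ^ (d - k + 1) ≤ Y.card ∧
      (∀ y ∈ Y, ∀ j, 0 ≤ y j ∧ y j ≤ (Δ : ℤ)) ∧
      ∀ y ∈ Y, ∀ y' ∈ Y, ∀ g : Fin k → ℤ,
        (∀ j, y j - y' j = ∑ i, g i * ∑ l, G i l * U₀ l j) → y = y' := by
  classical
  obtain ⟨V, hV⟩ := h
  set A : Matrix (Fin k) (Fin d) ℤ := Matrix.of U₀ with hA
  have hAV : A * (Matrix.of V) = 1 := by
    ext i i'
    rw [Matrix.mul_apply, Matrix.one_apply]
    exact hV i i'
  obtain ⟨f₀, hf₀⟩ := LatA_minor A (Matrix.of V) hAV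
  have hne : Nonempty (Fin k → Fin d) := ⟨f₀⟩
  obtain ⟨f, hf⟩ := Finite.exists_max fun f : Fin k → Fin d => |(A.submatrix id f).det|
  have hdet : (A.submatrix id f).det ≠ 0 := by
    intro h0
    have := hf f₀
    simp only [h0, abs_zero] at this
    exact hf₀ (abs_nonpos_iff.1 this)
  have hinj : Function.Injective f := by
    intro a b hab
    by_contra hne
    exact hdet (Matrix.det_zero_of_column_eq hne fun i => by
      simp [Matrix.submatrix_apply, hab])
  set M := A.submatrix id f with hM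
  obtain ⟨G, G', hGG', hG'G, hb⟩ := hnf M hdet
  set Δ : ℕ := M.det.natAbs with hΔ
  have hΔpos : 0 < Δ := Int.natAbs_pos.2 hdet
  have hΔabs : |M.det| = (Δ : ℤ) := (Int.natCast_natAbs _).symm
  set N := G * M with hN
  have hGdet : G.det.natAbs = 1 := by
    have h1 : G.det * G'.det = 1 := by rw [← Matrix.det_mul, hGG', Matrix.det_one]
    have h2 := congrArg Int.natAbs h1
    rw [Int.natAbs_mul] at h2
    exact Nat.eq_one_of_mul_eq_one_right h2
  have hNdet : N.det.natAbs = Δ := by
    rw [hN, Matrix.det_mul, Int.natAbs_mul, hGdet, one_mul]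
  have hNdet0 : N.det ≠ 0 := by
    intro h0
    rw [h0] at hNdet
    simp at hNdet
    omega
  have hNf : ∀ i i', ∑ l, G i l * U₀ l (f i') = N i i' := by
    intro i i'
    rw [hN, Matrix.mul_apply]
    rfl
  obtain ⟨Q, _, r, hQ, hr1, hr2⟩ := LatA_rep N hNdet0
  rw [hNdet] at hQ hr1
  -- the set `Y`
  set Φ : Q × ({j : Fin d // j ∉ Set.range f} → Fin Δ) → (Fin d → ℤ) := fun x j =>
    if hj : j ∈ Set.range f then r x.1 (Classical.choose hj) else ((x.2 ⟨j, hj⟩ : Fin Δ) : ℤ) with hΦ
  have hΦf : ∀ x i, Φ x (f i) = r x.1 i := by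
    intro x i
    have hj : f i ∈ Set.range f := ⟨i, rfl⟩
    have hc : Classical.choose hj = i := hinj (Classical.choose_spec hj)
    rw [hΦ]
    simp only
    rw [dif_pos hj, hc]
  have hΦn : ∀ x (j : {j : Fin d // j ∉ Set.range f}), Φ x j = ((x.2 j : Fin Δ) : ℤ) := by
    intro x j
    rw [hΦ]
    simp only
    rw [dif_neg j.2]
  have hΦinj : Function.Injective Φ := by
    intro x x' hxx
    have h1 : x.1 = x'.1 := by
      refine hr2 x.1 x'.1 (fun _ => 0) fun i => ?_
      rw [← hΦf, ← hΦf, hxx]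
      simp
    have h2 : x.2 = x'.2 := by
      funext j
      have := congrFun hxx j
      rw [hΦn, hΦn] at this
      exact Fin.ext (by exact_mod_cast this)
    exact Prod.ext h1 h2
  refine ⟨G, G', Δ, Finset.univ.image Φ, ?_, ?_, hΔpos, ?_, ?_, ?_, ?_⟩
  · intro i j
    have := congrFun (congrFun hGG' i) j
    rw [Matrix.mul_apply, Matrix.one_apply] at this
    exact this
  · intro i j
    have := congrFun (congrFun hG'G i) j
    rw [Matrix.mul_apply, Matrix.one_apply] at this
    exact this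
  · intro i j
    -- Cramer
    have hcr : M *ᵥ (Matrix.cramer M (fun l => A l j)) = M.det • (fun l => A l j) :=
      Matrix.mulVec_cramer M _
    have hcb : ∀ l, |Matrix.cramer M (fun l => A l j) l| ≤ (Δ : ℤ) := by
      intro l
      rw [Matrix.cramer_apply]
      have h1 : M.updateCol l (fun l => A l j) = A.submatrix id (Function.update f l j) := by
        ext a b
        rw [Matrix.updateCol_apply, Matrix.submatrix_apply]
        by_cases hbl : b = l
        · subst hbl
          simp
        · rw [if_neg hbl, Function.update_of_ne hbl]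
          rfl
      rw [h1, ← hΔabs]
      exact hf _
    have hprod : M.det * ∑ l, G i l * U₀ l j =
        ∑ l, N i l * Matrix.cramer M (fun l => A l j) l := by
      have h1 : G *ᵥ (M *ᵥ (Matrix.cramer M (fun l => A l j))) =
          G *ᵥ (M.det • (fun l => A l j)) := by rw [hcr]
      rw [Matrix.mulVec_mulVec, ← hN] at h1
      have h2 := congrFun h1 i
      simp only [Matrix.mulVec, dotProduct] at h2
      rw [h2, Finset.mul_sum]
      refine Finset.sum_congr rfl fun l _ => ?_
      simp only [Pi.smul_apply, smul_eq_mul]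
      have : A l j = U₀ l j := rfl
      rw [this]
      ring
    have hbound : |M.det * ∑ l, G i l * U₀ l j| ≤ (k : ℤ) * ((Δ : ℤ) * Δ) := by
      rw [hprod]
      refine (Finset.abs_sum_le_sum_abs _ _).trans ?_
      have : ∀ l ∈ (Finset.univ : Finset (Fin k)),
          |N i l * Matrix.cramer M (fun l => A l j) l| ≤ (Δ : ℤ) * Δ := by
        intro l _
        rw [abs_mul]
        refine mul_le_mul ?_ (hcb l) (abs_nonneg _) (by positivity)
        rw [← hΔabs]
        exact hb i l
      refine (Finset.sum_le_sum this).trans ?_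
      simp
    rw [abs_mul, hΔabs] at hbound
    have hΔ' : (0 : ℤ) < (Δ : ℤ) := by exact_mod_cast hΔpos
    have h2 : (Δ : ℤ) * |∑ l, G i l * U₀ l j| ≤ (Δ : ℤ) * ((k : ℤ) * Δ) := by
      calc (Δ : ℤ) * |∑ l, G i l * U₀ l j| ≤ (k : ℤ) * ((Δ : ℤ) * Δ) := hbound
        _ = (Δ : ℤ) * ((k : ℤ) * Δ) := by ring
    exact le_of_mul_le_mul_left h2 hΔ'
  · rw [Finset.card_image_of_injective _ hΦinj, Finset.card_univ, Fintype.card_prod, hQ,
      Fintype.card_fun, Fintype.card_fin]
    have hcard : Fintype.card {j : Fin d // j ∉ Set.range f} = d - k := by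
      have h1 : Fintype.card {j : Fin d // j ∉ Set.range f} =
          Fintype.card (Fin d) - Fintype.card {j : Fin d // j ∈ Set.range f} :=
        Fintype.card_subtype_compl _
      have h2 : Fintype.card {j : Fin d // j ∈ Set.range f} = k := by
        have := Set.card_range_of_injective hinj
        rw [Fintype.card_fin] at this
        convert this
      rw [h1, h2, Fintype.card_fin]
    rw [hcard, pow_succ, mul_comm]
  · intro y hy j
    obtain ⟨x, -, rfl⟩ := Finset.mem_image.1 hy
    by_cases hj : j ∈ Set.range f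
    · obtain ⟨i, rfl⟩ := hj
      rw [hΦf]
      exact ⟨(hr1 x.1 i).1, (hr1 x.1 i).2.le⟩
    · have := hΦn x ⟨j, hj⟩
      rw [show Φ x j = _ from this]
      exact ⟨Int.natCast_nonneg _, by exact_mod_cast (x.2 ⟨j, hj⟩).2.le⟩
  · intro y hy y' hy' g hg
    obtain ⟨x, -, rfl⟩ := Finset.mem_image.1 hy
    obtain ⟨x', -, rfl⟩ := Finset.mem_image.1 hy'
    have h1 : x.1 = x'.1 := by
      refine hr2 x.1 x'.1 g fun i => ?_
      have := hg (f i)
      rw [hΦf, hΦf] at this
      rw [this]
      exact Finset.sum_congr rfl fun l _ => by rw [hNf]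
    have h2 : ∀ i, ∑ l, g l * N l i = 0 := by
      intro i
      have := hg (f i)
      rw [hΦf, hΦf, h1, sub_self] at this
      rw [this]
      exact Finset.sum_congr rfl fun l _ => by rw [hNf]
    have h3 : g = 0 := by
      by_contra hne
      apply hNdet0
      apply Matrix.exists_vecMul_eq_zero_iff.1
      refine ⟨g, hne, ?_⟩
      ext i
      rw [Matrix.vecMul, dotProduct]
      exact h2 i
    funext j
    have := hg j
    rw [h3] at this
    simp only [Pi.zero_apply, zero_mul, Finset.sum_const_zero] at this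
    linarith

end Pool.Agent.H87.BZ
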