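import Pool.Agent.H87.BZ.Defs

/-!
# Project BZ, module LatB: a short vector with a highly divisible image

Let `U` be primitive with right inverse `V`. The quotient `Q = ℤ^d / rows(U)` is free of rank `d - k`:
concretely, let `e = 1 - V U` (a `d × d` matrix, acting on row vectors by `x ↦ x - (x V) U`); it is a
projection of `ℤ^d` onto the subgroup `N = {x | x V = 0}` with kernel `rows(U)`; `N` is a direct summand of
`ℤ^d`, free of rank `d - k`.
Pigeonhole: `N / (qΔ) N` has `(qΔ)^(d-k) = q^(d-k) Δ^(d-k) < Δ^(d-k+1) ≤ |Y|` elements, so there are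
`y ≠ y'` in `Y` with `e(y - y') ∈ (qΔ) N`. Put `v = y - y'`, `|v j| ≤ Δ`. `e(v) ≠ 0` by the property of `Y`
(otherwise `v = (v V) U`). Let `β ≥ 1` be the content of `e(v)` in `N ≅ ℤ^(d-k)` and `e(v) = β w₀` with `w₀`
primitive in `N`; `qΔ ∣ β`. As `N` is a direct summand, `w₀` is primitive in `ℤ^d` too: there is `u₀ ∈ ℤ^d`
with `w₀ · u₀ = 1`; replacing `u₀` by `e u₀` (column vectors: `u₀ - V (U u₀)`) we get `U u₀ = 0` and still
`w₀ · u₀ = 1` (because `w₀ V = 0`). `v = β w₀ + z U`, `z = v V`. Take `n` large and put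
`yh = z + β n (1,...,1) ≥ 0`, `w = w₀ - n (1,...,1) U`: `v = β w + yh U`. `Prim (cons w U)`: the right
inverse has the columns `u₀` and `V_i - (w · V_i) u₀` (`w · u₀ = w₀ · u₀ = 1`, `U u₀ = 0`).
-/

set_option autoImplicit false

namespace Pool.Agent.H87.BZ

/-- The map `x ↦ x V`. -/
private def LatB_pV {k d : ℕ} (V : Fin d → Fin k → ℤ) : (Fin d → ℤ) →ₗ[ℤ] (Fin k → ℤ) where
  toFun x i := ∑ j, x j * V j i
  map_add' x y := by
    funext i
    simp only [Pi.add_apply, add_mul, Finset.sum_add_distrib]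
  map_smul' c x := by
    funext i
    simp only [Pi.smul_apply, smul_eq_mul, RingHom.id_apply, Finset.mul_sum, mul_assoc]

/-- The map `z ↦ z U`. -/
private def LatB_pU {k d : ℕ} (U : Fin k → Fin d → ℤ) : (Fin k → ℤ) →ₗ[ℤ] (Fin d → ℤ) where
  toFun z j := ∑ i, z i * U i j
  map_add' x y := by
    funext i
    simp only [Pi.add_apply, add_mul, Finset.sum_add_distrib]
  map_smul' c x := by
    funext i
    simp only [Pi.smul_apply, smul_eq_mul, RingHom.id_apply, Finset.mul_sum, mul_assoc]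

private theorem LatB_pV_apply {k d : ℕ} (V : Fin d → Fin k → ℤ) (x : Fin d → ℤ) (i : Fin k) :
    LatB_pV V x i = ∑ j, x j * V j i := rfl

private theorem LatB_pU_apply {k d : ℕ} (U : Fin k → Fin d → ℤ) (z : Fin k → ℤ) (j : Fin d) :
    LatB_pU U z j = ∑ i, z i * U i j := rfl

private theorem LatB_VU {k d : ℕ} {U : Fin k → Fin d → ℤ} {V : Fin d → Fin k → ℤ}
    (h : ∀ i i', ∑ j, U i j * V j i' = if i = i' then 1 else 0) (z : Fin k → ℤ) :
    LatB_pV V (LatB_pU U z) = z := by
  funext i'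
  show ∑ j, (∑ i, z i * U i j) * V j i' = z i'
  have h1 : ∑ j, (∑ i, z i * U i j) * V j i' = ∑ i, z i * ∑ j, U i j * V j i' := by
    simp only [Finset.sum_mul, Finset.mul_sum]
    rw [Finset.sum_comm]
    exact Finset.sum_congr rfl fun i _ => Finset.sum_congr rfl fun j _ => by ring
  rw [h1]
  simp only [h, mul_ite, mul_one, mul_zero, Finset.sum_ite_eq', Finset.mem_univ, if_true]

/-- A nonzero integer vector is a positive multiple of a primitive one. -/
private theorem LatB_prim {m : ℕ} (c : Fin m → ℤ) (hc : c ≠ 0) (D : ℤ) (hD : ∀ i, D ∣ c i) :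
    ∃ (β : ℕ) (c' t : Fin m → ℤ), 1 ≤ β ∧ D ∣ (β : ℤ) ∧ (∀ i, c i = β * c' i) ∧
      ∑ i, t i * c' i = 1 := by
  obtain ⟨u, hu⟩ := Finset.gcd_eq_sum_mul Finset.univ c
  set g : ℤ := Finset.univ.gcd c with hg
  have hg0 : g ≠ 0 := by
    intro h0
    rw [hg, Finset.gcd_eq_zero_iff] at h0
    exact hc (funext fun i => h0 i (Finset.mem_univ i))
  have hgn : 0 ≤ g := by
    have h1 : normalize g = g := Finset.normalize_gcd
    rw [← h1]
    exact Int.nonneg_of_normalize_eq_self (by rw [normalize_idem])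
  have hdvd : ∀ i, g ∣ c i := fun i => Finset.gcd_dvd (Finset.mem_univ i)
  choose c' hc' using hdvd
  have hcast : ((g.toNat : ℕ) : ℤ) = g := Int.toNat_of_nonneg hgn
  refine ⟨g.toNat, c', u, ?_, ?_, ?_, ?_⟩
  · rw [Nat.one_le_iff_ne_zero]
    intro h0
    rw [h0] at hcast
    exact hg0 (by rw [← hcast]; rfl)
  · rw [hcast]
    exact Finset.dvd_gcd fun i _ => hD i
  · intro i
    rw [hcast]
    exact hc' i
  · have h2 : g * ∑ i, u i * c' i = g * 1 := by
      rw [Finset.mul_sum, mul_one]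
      conv_rhs => rw [hu]
      refine Finset.sum_congr rfl fun i _ => ?_
      rw [hc' i]
      ring
    exact mul_left_cancel₀ hg0 h2

theorem latB {k d : ℕ} (U : Fin k → Fin d → ℤ) (h : Prim U) (Δ q : ℕ) (hΔ : 1 ≤ Δ) (hq : 1 ≤ q)
    (hqΔ : q ^ (d - k) < Δ) (Y : Finset (Fin d → ℤ)) (hY : Δ ^ (d - k + 1) ≤ Y.card)
    (hY1 : ∀ y ∈ Y, ∀ j, 0 ≤ y j ∧ y j ≤ (Δ : ℤ))
    (hY2 : ∀ y ∈ Y, ∀ y' ∈ Y, ∀ g : Fin k → ℤ,
      (∀ j, y j - y' j = ∑ i, g i * U i j) → y = y') :
    ∃ (w v : Fin d → ℤ) (yh : Fin k → ℕ) (β : ℕ), 1 ≤ β ∧ q * Δ ∣ β ∧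
      (∀ j, v j = β * w j + ∑ i, (yh i : ℤ) * U i j) ∧ (∀ j, |v j| ≤ (Δ : ℤ)) ∧
      Prim (Fin.cons w U : Fin (k + 1) → Fin d → ℤ) := by
  obtain ⟨V, hV⟩ := h
  have hqΔ0 : 0 < q * Δ := Nat.mul_pos hq hΔ
  have : NeZero (q * Δ) := ⟨hqΔ0.ne'⟩
  -- the complement
  set N : Submodule ℤ (Fin d → ℤ) := LinearMap.ker (LatB_pV V) with hN
  have hsurj : Function.Surjective (LatB_pV V) := fun z => ⟨LatB_pU U z, LatB_VU hV z⟩
  have hrank : Module.finrank ℤ N = d - k := by
    have h1 := (LatB_pV V).rank_range_add_rank_ker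
    rw [LinearMap.range_eq_top.2 hsurj, rank_top, ← hN, ← Module.finrank_eq_rank,
      ← Module.finrank_eq_rank, ← Module.finrank_eq_rank, Module.finrank_fin_fun,
      Module.finrank_fin_fun] at h1
    have h2 : k + Module.finrank ℤ N = d := by exact_mod_cast h1
    omega
  let b : Module.Basis (Fin (d - k)) ℤ N := Module.finBasisOfFinrankEq ℤ N hrank
  -- the projection
  let eN : (Fin d → ℤ) →ₗ[ℤ] N := LinearMap.codRestrict N
    (LinearMap.id - (LatB_pU U).comp (LatB_pV V)) (by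
      intro x
      rw [hN, LinearMap.mem_ker, LinearMap.sub_apply, LinearMap.id_apply, LinearMap.comp_apply,
        map_sub, LatB_VU hV, sub_self])
  have heN : ∀ x, ((eN x : N) : Fin d → ℤ) = x - LatB_pU U (LatB_pV V x) := fun x => rfl
  -- pigeonhole
  let F : (Fin d → ℤ) → (Fin (d - k) → ZMod (q * Δ)) := fun y i => ((b.repr (eN y) i : ℤ) : ZMod (q * Δ))
  have hcard : (Finset.univ : Finset (Fin (d - k) → ZMod (q * Δ))).card < Y.card := by
    rw [Finset.card_univ, Fintype.card_fun, ZMod.card, Fintype.card_fin]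
    refine lt_of_lt_of_le ?_ hY
    rw [mul_pow, pow_succ, mul_comm]
    exact Nat.mul_lt_mul_of_pos_left hqΔ (pow_pos hΔ _)
  obtain ⟨y, hy, y', hy', hne, hF⟩ := Finset.exists_ne_map_eq_of_card_lt_of_maps_to hcard
    (fun y _ => Finset.mem_univ (F y))
  set v : Fin d → ℤ := y - y' with hv
  have hc0 : (fun i => b.repr (eN v) i) ≠ 0 := by
    intro h0
    apply hne
    have h1 : b.repr (eN v) = 0 := by
      ext i
      exact congrFun h0 i
    have h2 : eN v = 0 := by
      rw [← map_zero b.repr] at h1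
      exact b.repr.injective h1
    have h3 : v - LatB_pU U (LatB_pV V v) = 0 := by
      rw [← heN, h2]
      rfl
    refine hY2 y hy y' hy' (LatB_pV V v) fun j => ?_
    have h4 := congrFun h3 j
    rw [Pi.sub_apply, Pi.zero_apply, sub_eq_zero] at h4
    rw [← LatB_pU_apply, ← h4, hv, Pi.sub_apply]
  have hdiv : ∀ i, ((q * Δ : ℕ) : ℤ) ∣ b.repr (eN v) i := by
    intro i
    have h1 := congrFun hF i
    simp only [F] at h1
    rw [← sub_eq_zero, ← Int.cast_sub, ZMod.intCast_zmod_eq_zero_iff_dvd] at h1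
    have h2 : b.repr (eN v) i = b.repr (eN y) i - b.repr (eN y') i := by
      rw [hv, map_sub, map_sub, Finsupp.sub_apply]
    rw [h2]
    exact h1
  obtain ⟨β, c', t, hβ1, hβD, hc', ht⟩ := LatB_prim _ hc0 _ hdiv
  -- the primitive vector
  set w₀ : N := ∑ i, c' i • b i with hw₀
  have hw₀e : eN v = (β : ℤ) • w₀ := by
    rw [← b.sum_repr (eN v), hw₀, Finset.smul_sum]
    refine Finset.sum_congr rfl fun i _ => ?_
    rw [hc' i, mul_smul]
  have hw₀r : ∀ i, b.repr w₀ i = c' i := by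
    intro i
    rw [hw₀]
    exact congrFun (b.repr_sum_self c') i
  -- the functional
  let f : (Fin d → ℤ) →ₗ[ℤ] ℤ := ∑ i, t i • ((b.coord i).comp eN)
  have hf : ∀ x, f x = ∑ i, t i * b.repr (eN x) i := by
    intro x
    simp only [f, LinearMap.sum_apply, LinearMap.smul_apply, LinearMap.comp_apply,
      Module.Basis.coord_apply, smul_eq_mul]
  have hew : eN (w₀ : Fin d → ℤ) = w₀ := by
    apply Subtype.ext
    rw [heN]
    have h1 : LatB_pV V (w₀ : Fin d → ℤ) = 0 := LinearMap.mem_ker.1 (hN ▸ w₀.2)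
    rw [h1, map_zero, sub_zero]
  have hfw : f w₀ = 1 := by
    rw [hf, hew]
    simp only [hw₀r]
    exact ht
  have hfU : ∀ z, f (LatB_pU U z) = 0 := by
    intro z
    have h1 : eN (LatB_pU U z) = 0 := by
      apply Subtype.ext
      rw [heN, LatB_VU hV, sub_self]
      rfl
    rw [hf, h1, map_zero]
    simp
  set u₀ : Fin d → ℤ := fun j => f (Pi.single j 1) with hu₀
  have hfu : ∀ x : Fin d → ℤ, f x = ∑ j, x j * u₀ j := by
    intro x
    conv_lhs => rw [← Finset.univ_sum_single x]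
    rw [map_sum]
    refine Finset.sum_congr rfl fun j _ => ?_
    have h1 : (Pi.single j (x j) : Fin d → ℤ) = x j • Pi.single j 1 := by
      rw [← Pi.single_smul, smul_eq_mul, mul_one]
    rw [h1, map_smul, smul_eq_mul]
  set z : Fin k → ℤ := LatB_pV V v with hz
  set n : ℤ := ∑ i, |z i| with hn
  have hn0 : 0 ≤ n := Finset.sum_nonneg fun i _ => abs_nonneg _
  set o : Fin k → ℤ := fun _ => n with ho
  have hyh : ∀ i, 0 ≤ z i + β * n := by
    intro i
    have h1 : |z i| ≤ n := Finset.single_le_sum (f := fun i => |z i|)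
      (fun i _ => abs_nonneg _) (Finset.mem_univ i)
    have h2 : n ≤ β * n := by
      have : (1 : ℤ) ≤ β := by exact_mod_cast hβ1
      nlinarith
    have h3 := neg_abs_le (z i)
    linarith
  set w : Fin d → ℤ := (w₀ : Fin d → ℤ) - LatB_pU U o with hw
  have hfw' : f w = 1 := by rw [hw, map_sub, hfU, sub_zero, hfw]
  have hUu : ∀ i, ∑ j, U i j * u₀ j = 0 := by
    intro i
    have h1 : LatB_pU U (Pi.single i 1) = U i := by
      funext j
      rw [LatB_pU_apply]
      simp [Pi.single_apply]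
    rw [← hfu, ← h1]
    exact hfU _
  refine ⟨w, v, fun i => (z i + β * n).toNat, β, hβ1, ?_, ?_, ?_, ?_⟩
  · exact_mod_cast hβD
  · intro j
    have h1 : ∑ i, (((z i + β * n).toNat : ℕ) : ℤ) * U i j =
        LatB_pU U z j + β * LatB_pU U o j := by
      have h0 : (β : ℤ) * ∑ i, o i * U i j = ∑ i, (β : ℤ) * (o i * U i j) :=
        Finset.mul_sum _ _ _
      rw [LatB_pU_apply, LatB_pU_apply, h0, ← Finset.sum_add_distrib]
      refine Finset.sum_congr rfl fun i _ => ?_
      rw [Int.toNat_of_nonneg (hyh i), ho]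
      ring
    rw [h1]
    have h2 : (v - LatB_pU U z) j = ((β : ℤ) • (w₀ : Fin d → ℤ)) j := by
      have h3 := congrArg (fun x : N => (x : Fin d → ℤ)) hw₀e
      simp only [heN] at h3
      rw [← hz] at h3
      exact congrFun h3 j
    rw [Pi.sub_apply, Pi.smul_apply, smul_eq_mul] at h2
    rw [hw, Pi.sub_apply]
    linear_combination h2
  · intro j
    rw [hv, Pi.sub_apply, abs_le]
    have h1 := hY1 y hy j
    have h2 := hY1 y' hy' j
    constructor <;> linarith [h1.1, h1.2, h2.1, h2.2]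
  · refine ⟨fun j => Fin.cons (u₀ j) (fun i => V j i - (∑ j', w j' * V j' i) * u₀ j), ?_⟩
    intro i i'
    refine Fin.cases ?_ (fun i => ?_) i <;> refine Fin.cases ?_ (fun i' => ?_) i'
    · simp only [Fin.cons_zero, if_true]
      rw [← hfu, hfw']
    · simp only [Fin.cons_zero, Fin.cons_succ]
      rw [if_neg (Fin.succ_ne_zero i').symm]
      have h1 : ∀ j, w j * (V j i' - (∑ j', w j' * V j' i') * u₀ j) =
          w j * V j i' - (∑ j', w j' * V j' i') * (w j * u₀ j) := fun j => by ring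
      simp only [h1]
      rw [Finset.sum_sub_distrib, ← Finset.mul_sum, ← hfu, hfw', mul_one, sub_self]
    · simp only [Fin.cons_zero, Fin.cons_succ]
      rw [if_neg (Fin.succ_ne_zero i)]
      exact hUu i
    · simp only [Fin.cons_succ, Fin.succ_inj]
      have h1 : ∀ j, U i j * (V j i' - (∑ j', w j' * V j' i') * u₀ j) =
          U i j * V j i' - (∑ j', w j' * V j' i') * (U i j * u₀ j) := fun j => by ring
      simp only [h1]
      rw [Finset.sum_sub_distrib, ← Finset.mul_sum, hUu, mul_zero, sub_zero]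
      exact hV i i'

end Pool.Agent.H87.BZ
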