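import Pool.Agent.H87.BZ.Defs

/-!
# Project BZ, module Sp1: the substitution `X_i ↦ X ^ (û i)`

`Sep û K`: no nonzero integer vector with entries at most `K` in absolute value is orthogonal to `û`; so the
monomials of polynomials with all `degreeOf j ≤ K` have distinct images.
* `aeval_sp1`, `natDegree_sp1`: direct (`MvPolynomial.aeval` of monomials; every exponent is
  `∑ j, û j * m j`, `m j ≤ degreeOf j`).
* `coeff_sp1`: under `Sep`, the coefficient of `sp1 û P` at `∑ j, û j * m j` is `P.coeff m`; `sp1_ne_zero`.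
* `support_sp1`: the support of `sp1 û P` is contained in the set of the `∑ j, û j * m j`, `m ∈ P.support`.
* `sp1_expand`: `sp1 û (expand p P)` at `z` is `sp1 û P` at `z ^ p`.
* `width_sp1`: `e` irreducible, not a monomial, with `degreeOf i e ≠ 0`: there are `m`, `m'` in the support
  of `e` with `m i ≥ 1` and `m' i = 0` (otherwise `X i ∣ e`, and `e`, irreducible, would be a unit times
  `X i`, a monomial). The coefficients of `sp1 û e` at `∑ û m` and at `∑ û m'` are not zero (`coeff_sp1`), so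
  `natDegree ≥ ∑ j, û j * m j`, `natTrailingDegree ≤ ∑ j, û j * m' j`, and the difference is at least
  `û i - D * ∑ j ≠ i, û j`.
-/

set_option autoImplicit false

namespace Pool.Agent.H87.BZ

/-- `û` separates the monomials with exponents at most `K`. -/
def Sep {k : ℕ} (û : Fin k → ℕ) (K : ℕ) : Prop :=
  ∀ h : Fin k → ℤ, h ≠ 0 → (∀ j, |h j| ≤ (K : ℤ)) → ∑ j, (û j : ℤ) * h j ≠ 0

variable {k : ℕ}

theorem aeval_sp1 (û : Fin k → ℕ) (P : MvPolynomial (Fin k) ℤ) (z : ℂ) :
    Polynomial.aeval z (sp1 û P) = MvPolynomial.aeval (fun i => z ^ û i) P := by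
  have h : ((Polynomial.aeval z).comp (sp1 û) : MvPolynomial (Fin k) ℤ →ₐ[ℤ] ℂ) =
      MvPolynomial.aeval (fun i => z ^ û i) := by
    apply MvPolynomial.algHom_ext
    intro i
    simp [sp1]
  exact DFunLike.congr_fun h P

private theorem Sp1_mono (û : Fin k → ℕ) (m : Fin k →₀ ℕ) (c : ℤ) :
    sp1 û (MvPolynomial.monomial m c) = Polynomial.monomial (∑ j, û j * m j) c := by
  rw [sp1, MvPolynomial.aeval_monomial, Finsupp.prod_fintype _ _ (fun i => pow_zero _)]
  simp_rw [← pow_mul]
  rw [Finset.prod_pow_eq_pow_sum, ← Polynomial.C_mul_X_pow_eq_monomial]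
  simp

private theorem Sp1_sum (û : Fin k → ℕ) (P : MvPolynomial (Fin k) ℤ) :
    sp1 û P = ∑ m ∈ P.support, Polynomial.monomial (∑ j, û j * m j) (P.coeff m) := by
  conv_lhs => rw [P.as_sum]
  rw [map_sum]
  exact Finset.sum_congr rfl fun m _ => Sp1_mono û m _

private theorem Sp1_coeff (û : Fin k → ℕ) (P : MvPolynomial (Fin k) ℤ) (n : ℕ) :
    (sp1 û P).coeff n = ∑ m ∈ P.support, if ∑ j, û j * m j = n then P.coeff m else 0 := by
  rw [Sp1_sum, Polynomial.finsetSum_coeff]
  exact Finset.sum_congr rfl fun m _ => by rw [Polynomial.coeff_monomial]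

theorem natDegree_sp1 (û : Fin k → ℕ) (P : MvPolynomial (Fin k) ℤ) :
    (sp1 û P).natDegree ≤ ∑ j, û j * P.degreeOf j := by
  rw [Sp1_sum]
  apply Polynomial.natDegree_sum_le_of_forall_le
  intro m hm
  refine (Polynomial.natDegree_monomial_le _).trans ?_
  gcongr with j _
  rw [MvPolynomial.degreeOf_eq_sup]
  exact Finset.le_sup (f := fun m => m j) hm

theorem support_sp1 (û : Fin k → ℕ) (P : MvPolynomial (Fin k) ℤ) :
    (sp1 û P).support ⊆ P.support.image fun m => ∑ j, û j * m j := by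
  intro n hn
  rw [Polynomial.mem_support_iff, Sp1_coeff] at hn
  obtain ⟨m, hm, hne⟩ := Finset.exists_ne_zero_of_sum_ne_zero hn
  rw [Finset.mem_image]
  refine ⟨m, hm, ?_⟩
  by_contra h
  exact hne (if_neg h)

theorem coeff_sp1 {û : Fin k → ℕ} {P : MvPolynomial (Fin k) ℤ}
    (h : ∀ m ∈ P.support, ∀ m' ∈ P.support, ∑ j, û j * m j = ∑ j, û j * m' j → m = m')
    {m : Fin k →₀ ℕ} (hm : m ∈ P.support) : (sp1 û P).coeff (∑ j, û j * m j) = P.coeff m := by
  rw [Sp1_coeff, Finset.sum_eq_single_of_mem m hm, if_pos rfl]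
  intro m' hm' hne
  rw [if_neg]
  intro heq
  exact hne (h m' hm' m hm heq)

theorem inj_of_sep {û : Fin k → ℕ} {K : ℕ} (hs : Sep û K) {P : MvPolynomial (Fin k) ℤ}
    (hP : ∀ j, P.degreeOf j ≤ K) :
    ∀ m ∈ P.support, ∀ m' ∈ P.support, ∑ j, û j * m j = ∑ j, û j * m' j → m = m' := by
  intro m hm m' hm' heq
  by_contra hne
  have hb : ∀ m ∈ P.support, ∀ j, m j ≤ K := by
    intro m hm j
    refine le_trans ?_ (hP j)
    rw [MvPolynomial.degreeOf_eq_sup]
    exact Finset.le_sup (f := fun m => m j) hm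
  apply hs (fun j => (m j : ℤ) - m' j)
  · intro h
    apply hne
    ext j
    have := congrFun h j
    simp only [Pi.zero_apply] at this
    omega
  · intro j
    have h1 := hb m hm j
    have h2 := hb m' hm' j
    rw [abs_le]
    constructor <;> omega
  · have h3 : (∑ j, (û j : ℤ) * (m j : ℤ)) = ∑ j, (û j : ℤ) * (m' j : ℤ) := by
      exact_mod_cast heq
    simp_rw [mul_sub]
    rw [Finset.sum_sub_distrib, h3, sub_self]

theorem sp1_ne_zero {û : Fin k → ℕ} {K : ℕ} (hs : Sep û K) {P : MvPolynomial (Fin k) ℤ}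
    (hP0 : P ≠ 0) (hP : ∀ j, P.degreeOf j ≤ K) : sp1 û P ≠ 0 := by
  intro h0
  obtain ⟨m, hm⟩ := MvPolynomial.support_nonempty.mpr hP0
  have := coeff_sp1 (inj_of_sep hs hP) hm
  rw [h0, Polynomial.coeff_zero] at this
  exact MvPolynomial.mem_support_iff.mp hm this.symm

theorem aeval_sp1_expand (û : Fin k → ℕ) (p : ℕ) (P : MvPolynomial (Fin k) ℤ) (z : ℂ) :
    MvPolynomial.aeval (fun i => z ^ û i) (MvPolynomial.expand p P) =
      MvPolynomial.aeval (fun i => (z ^ p) ^ û i) P := by
  have h : ((MvPolynomial.aeval (fun i => z ^ û i)).comp (MvPolynomial.expand p) :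
      MvPolynomial (Fin k) ℤ →ₐ[ℤ] ℂ) = MvPolynomial.aeval (fun i => (z ^ p) ^ û i) := by
    apply MvPolynomial.algHom_ext
    intro i
    simp only [AlgHom.comp_apply, MvPolynomial.expand_X, map_pow, MvPolynomial.aeval_X]
    rw [← pow_mul, ← pow_mul, mul_comm]
  exact DFunLike.congr_fun h P

theorem width_sp1 {û : Fin k → ℕ} {K : ℕ} (hs : Sep û K) {e : MvPolynomial (Fin k) ℤ}
    (he : Irreducible e) (hmon : ¬ ∃ m c, e = MvPolynomial.monomial m c) (i : Fin k)
    (hi : e.degreeOf i ≠ 0) {D : ℕ} (hD : ∀ j, e.degreeOf j ≤ D) (hDK : D ≤ K) :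
    û i ≤ (sp1 û e).natDegree - (sp1 û e).natTrailingDegree +
      D * ∑ j ∈ Finset.univ.erase i, û j := by
  classical
  have hinj := inj_of_sep hs (fun j => (hD j).trans hDK)
  obtain ⟨m, hm, hmi⟩ : ∃ m ∈ e.support, 1 ≤ m i := by
    by_contra hcon
    push Not at hcon
    apply hi
    rw [MvPolynomial.degreeOf_eq_sup]
    apply Nat.le_zero.mp
    apply Finset.sup_le
    intro m hm
    have := hcon m hm
    omega
  obtain ⟨m', hm', hmi'⟩ : ∃ m' ∈ e.support, m' i = 0 := by
    by_contra hcon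
    push Not at hcon
    have hdvd : MvPolynomial.X i ∣ e := by
      rw [MvPolynomial.X_dvd_iff_modMonomial_eq_zero]
      ext n
      rw [MvPolynomial.coeff_zero]
      by_cases hn : Finsupp.single i 1 ≤ n
      · exact MvPolynomial.coeff_modMonomial_of_le _ hn
      · rw [MvPolynomial.coeff_modMonomial_of_not_le _ hn]
        by_contra hne
        have h1 := hcon n (MvPolynomial.mem_support_iff.mpr hne)
        apply hn
        rw [Finsupp.single_le_iff]
        omega
    obtain ⟨q, hq⟩ := hdvd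
    rcases he.isUnit_or_isUnit hq with h1 | h1
    · have h2 := MvPolynomial.X_ne_zero (R := ℤ) i
      have h3 : (MvPolynomial.X i : MvPolynomial (Fin k) ℤ).totalDegree = 0 := by
        obtain ⟨u, hu⟩ := h1
        have := MvPolynomial.isUnit_iff_eq_C_of_isReduced.mp ⟨u, hu⟩
        obtain ⟨r, _, hr⟩ := this
        rw [hr]
        exact MvPolynomial.totalDegree_C r
      rw [MvPolynomial.totalDegree_X] at h3
      omega
    · obtain ⟨r, _, hr⟩ := MvPolynomial.isUnit_iff_eq_C_of_isReduced.mp h1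
      apply hmon
      refine ⟨Finsupp.single i 1, r, ?_⟩
      rw [hq, hr, mul_comm, MvPolynomial.C_mul_X_eq_monomial]
  have h1 : (sp1 û e).coeff (∑ j, û j * m j) ≠ 0 := by
    rw [coeff_sp1 hinj hm]
    exact MvPolynomial.mem_support_iff.mp hm
  have h2 : (sp1 û e).coeff (∑ j, û j * m' j) ≠ 0 := by
    rw [coeff_sp1 hinj hm']
    exact MvPolynomial.mem_support_iff.mp hm'
  have h3 := Polynomial.le_natDegree_of_ne_zero h1
  have h4 := Polynomial.natTrailingDegree_le_of_ne_zero h2
  have h5 : û i ≤ ∑ j, û j * m j := by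
    calc û i ≤ û i * m i := Nat.le_mul_of_pos_right _ hmi
      _ ≤ ∑ j, û j * m j :=
        Finset.single_le_sum (f := fun j => û j * m j) (fun j _ => Nat.zero_le _)
          (Finset.mem_univ i)
  have h6 : ∑ j, û j * m' j ≤ D * ∑ j ∈ Finset.univ.erase i, û j := by
    rw [← Finset.add_sum_erase _ _ (Finset.mem_univ i), hmi', mul_zero, zero_add,
      Finset.mul_sum]
    apply Finset.sum_le_sum
    intro j _
    rw [mul_comm D]
    gcongr
    refine le_trans ?_ (hD j)
    rw [MvPolynomial.degreeOf_eq_sup]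
    exact Finset.le_sup (f := fun m => m j) hm'
  omega

end Pool.Agent.H87.BZ
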