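import Pool.Agent.H87.MM.Closed
import Pool.Agent.H87.BZ.Sp1

/-!
# Project BZ, module LemJ: Jensen's formula in a generic direction

`mm` is the logarithmic Mahler measure of the library `Pool/Agent/H87/MM` (`mm_eq`: the integral over the
unit cube of `log |ε(exp(2πi t))|`; `integrable_log`, `ev_eq_eval`).
* `mm_eq_lead` (Jensen in a generic direction): let `û : Fin k → ℕ` with `Sep û K`, `degreeOf ε ≤ K`, and
  suppose that for every `x` with all `‖x i‖ = 1` all roots `z` of the polynomial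
  `g_x(z) = ε(x_1 z^(û 1), ..., x_k z^(û k))` satisfy `‖z‖ ≤ 1`. Then `mm ε = log |c|`, `c` the coefficient of
  `ε` at the monomial `m₁` with the largest `∑ û m`. Proof. For all real `θ` the map
  `t ↦ t + θ û` preserves the integral over the cube of functions which are periodic with period `1` in each
  variable, so `mm ε = ∫_t log |ε(exp(2πi(t + θ û)))|` for every `θ`. Integrate over `θ ∈ [0, 1]` and exchange
  the integrals (Fubini; the function `(t, θ) ↦ log |...|` is integrable on the product: its integral over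
  `t` of the absolute value does not depend on `θ`; measurability is clear):
  `mm ε = ∫_t ∫_θ log |g_x(e^{2πiθ})| dθ dt`, `x = exp(2πi t)`. The inner integral is the logarithmic Mahler
  measure of `g_x` (`Polynomial.logMahlerMeasure`), which is
  `log |leading coefficient| + ∑ log⁺ ‖root‖ = log |c x^(m₁)| = log |c|`
  (`Polynomial.logMahlerMeasure_eq_log_leadingCoeff_add_sum_log_roots`).
-/

set_option autoImplicit false

namespace Pool.Agent.H87.BZ

open Pool.Agent.H87.MM (mm)

variable {k : ℕ}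

/-- `ε(x_1 z^(û 1), ..., x_k z^(û k))` as a polynomial in `z` -/
noncomputable def gx (û : Fin k → ℕ) (ε : MvPolynomial (Fin k) ℤ) (x : Fin k → ℂ) :
    Polynomial ℂ :=
  MvPolynomial.aeval (fun i => Polynomial.C (x i) * Polynomial.X ^ û i) ε


private theorem LemJ_gx_coeff (û : Fin k → ℕ) (ε : MvPolynomial (Fin k) ℤ) (x : Fin k → ℂ) (n : ℕ) :
    (gx û ε x).coeff n = ∑ m ∈ ε.support, if n = ∑ j, û j * m j then
      ((ε.coeff m : ℤ) : ℂ) * ∏ i, x i ^ m i else 0 := by
  unfold gx
  rw [MvPolynomial.aeval_def, MvPolynomial.eval₂_eq', Polynomial.finsetSum_coeff]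
  refine Finset.sum_congr rfl fun m _ => ?_
  have h1 : ∏ i, (Polynomial.C (x i) * Polynomial.X ^ û i) ^ m i =
      Polynomial.C (∏ i, x i ^ m i) * Polynomial.X ^ (∑ j, û j * m j) := by
    simp only [mul_pow, Finset.prod_mul_distrib, ← pow_mul, Finset.prod_pow_eq_pow_sum, map_prod,
      map_pow]
  rw [h1]
  have h2 : (algebraMap ℤ (Polynomial ℂ)) (ε.coeff m) = Polynomial.C ((ε.coeff m : ℤ) : ℂ) := by
    simp
  rw [h2, ← mul_assoc, ← Polynomial.C_mul, Polynomial.coeff_C_mul_X_pow]

private theorem LemJ_norm_coeff {û : Fin k → ℕ} {K : ℕ} (hs : Sep û K)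
    {ε : MvPolynomial (Fin k) ℤ} (hK : ∀ j, ε.degreeOf j ≤ K) {x : Fin k → ℂ}
    (hx : ∀ i, ‖x i‖ = 1) (n : ℕ) :
    ‖(gx û ε x).coeff n‖ = |((sp1 û ε).coeff n : ℝ)| := by
  have hinj := inj_of_sep hs hK
  rw [LemJ_gx_coeff]
  by_cases h : ∃ m ∈ ε.support, n = ∑ j, û j * m j
  · obtain ⟨m, hm, rfl⟩ := h
    rw [coeff_sp1 hinj hm, Finset.sum_eq_single_of_mem m hm]
    · rw [if_pos rfl, norm_mul, norm_prod]
      simp [hx]
    · intro m' hm' hne
      rw [if_neg]
      intro h
      exact hne (hinj m' hm' m hm h.symm)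
  · have h1 : (sp1 û ε).coeff n = 0 := by
      by_contra hne
      have h2 := support_sp1 û ε (Polynomial.mem_support_iff.mpr hne)
      rw [Finset.mem_image] at h2
      obtain ⟨m, hm, hmn⟩ := h2
      exact h ⟨m, hm, hmn.symm⟩
    rw [h1, Finset.sum_eq_zero]
    · simp
    · intro m hm
      rw [if_neg]
      intro hn
      exact h ⟨m, hm, hn⟩

private theorem LemJ_lead {û : Fin k → ℕ} {K : ℕ} (hs : Sep û K)
    {ε : MvPolynomial (Fin k) ℤ} (hK : ∀ j, ε.degreeOf j ≤ K) {x : Fin k → ℂ}
    (hx : ∀ i, ‖x i‖ = 1) : ‖(gx û ε x).leadingCoeff‖ = |((sp1 û ε).leadingCoeff : ℝ)| := by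
  have h0 : ∀ n, (gx û ε x).coeff n = 0 ↔ (sp1 û ε).coeff n = 0 := by
    intro n
    rw [← norm_eq_zero, LemJ_norm_coeff hs hK hx, abs_eq_zero, Int.cast_eq_zero]
  have h1 : (gx û ε x).natDegree = (sp1 û ε).natDegree := by
    apply le_antisymm
    · rw [Polynomial.natDegree_le_iff_coeff_eq_zero]
      intro N hN
      rw [h0]
      exact Polynomial.coeff_eq_zero_of_natDegree_lt hN
    · rw [Polynomial.natDegree_le_iff_coeff_eq_zero]
      intro N hN
      rw [← h0]
      exact Polynomial.coeff_eq_zero_of_natDegree_lt hN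
  unfold Polynomial.leadingCoeff
  rw [h1, LemJ_norm_coeff hs hK hx]

/-- the integral over the circle as a circle average -/
private theorem LemJ_circle (g : Polynomial ℂ) :
    ∫ a in (0 : ℝ)..(0 + 1), Real.log ‖g.eval (Complex.exp (((2 * Real.pi * a : ℝ) : ℂ) *
      Complex.I))‖ = g.logMahlerMeasure := by
  rw [Polynomial.logMahlerMeasure_def, Real.circleAverage_def]
  have h := intervalIntegral.integral_comp_mul_left
    (f := fun θ : ℝ => Real.log ‖g.eval (circleMap 0 1 θ)‖) (a := 0) (b := 1)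
    (c := 2 * Real.pi) (by positivity)
  rw [mul_zero, mul_one] at h
  rw [zero_add, ← h]
  refine intervalIntegral.integral_congr fun a _ => ?_
  simp [circleMap]

open MeasureTheory

/-- the function on the torus -/
private noncomputable def LemJ_G (ε : MvPolynomial (Fin k) ℤ) (y : Fin k → AddCircle (1 : ℝ)) : ℝ :=
  Real.log ‖MvPolynomial.eval (fun i => ((AddCircle.toCircle (y i) : Circle) : ℂ))
    (MvPolynomial.map (Int.castRingHom ℂ) ε)‖

private theorem LemJ_measurable (ε : MvPolynomial (Fin k) ℤ) : Measurable (LemJ_G ε) := by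
  unfold LemJ_G
  refine Real.measurable_log.comp (Continuous.measurable ?_)
  refine Continuous.norm ?_
  simp only [MvPolynomial.eval_eq']
  fun_prop

private theorem LemJ_inner (û : Fin k → ℕ) (ε : MvPolynomial (Fin k) ℤ)
    (y : Fin k → AddCircle (1 : ℝ)) :
    ∫ s : AddCircle (1 : ℝ), LemJ_G ε (y + fun i => û i • s) =
      (gx û ε fun i => ((AddCircle.toCircle (y i) : Circle) : ℂ)).logMahlerMeasure := by
  rw [← AddCircle.intervalIntegral_preimage 1 0, ← LemJ_circle]
  refine intervalIntegral.integral_congr fun a _ => ?_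
  unfold LemJ_G gx
  congr 2
  rw [MvPolynomial.eval_map, MvPolynomial.eval₂_eq', MvPolynomial.aeval_def,
    MvPolynomial.eval₂_eq', Polynomial.eval_finsetSum]
  refine Finset.sum_congr rfl fun m _ => ?_
  rw [Polynomial.eval_mul, Polynomial.eval_prod]
  congr 1
  · simp
  · refine Finset.prod_congr rfl fun i _ => ?_
    simp only [Pi.add_apply, AddCircle.toCircle_add, AddCircle.toCircle_nsmul,
      AddCircle.toCircle_apply_mk, Circle.coe_mul, Circle.coe_pow, Circle.coe_exp, div_one,
      Polynomial.eval_pow, Polynomial.eval_mul, Polynomial.eval_C, Polynomial.eval_X]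

theorem mm_eq_lead {û : Fin k → ℕ} {K : ℕ} (hs : Sep û K) {ε : MvPolynomial (Fin k) ℤ}
    (hε : ε ≠ 0) (hK : ∀ j, ε.degreeOf j ≤ K)
    (h : ∀ x : Fin k → ℂ, (∀ i, ‖x i‖ = 1) → ∀ z : ℂ, (gx û ε x).eval z = 0 → ‖z‖ ≤ 1) :
    mm ε = Real.log |((sp1 û ε).leadingCoeff : ℝ)| := by
  obtain ⟨ν, hν⟩ : ∃ ν : Measure (AddCircle (1 : ℝ)), ν = volume := ⟨_, rfl⟩
  have hνp : IsProbabilityMeasure ν := ⟨by rw [hν, AddCircle.measure_univ]; simp⟩
  have hνh : ν.IsAddHaarMeasure := by rw [hν]; infer_instance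
  obtain ⟨μ, hμ⟩ : ∃ μ : Measure (Fin k → AddCircle (1 : ℝ)), μ = Measure.pi fun _ => ν := ⟨_, rfl⟩
  have hμp : IsProbabilityMeasure μ := by rw [hμ]; infer_instance
  have hμh : μ.IsAddRightInvariant := by rw [hμ]; infer_instance
  -- the projection from the cube to the torus
  have hmp : MeasurePreserving (fun (t : Fin k → ℝ) i => (t i : AddCircle (1 : ℝ)))
      (volume.restrict (MM.cube k)) μ := by
    have h1 : (volume : Measure (Fin k → ℝ)).restrict (MM.cube k) =
        Measure.pi fun _ => (volume : Measure ℝ).restrict (Set.Ioc 0 (0 + 1)) := by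
      unfold MM.cube
      rw [volume_pi, Measure.restrict_pi_pi, zero_add]
      congr 1
      funext i
      exact Measure.restrict_congr_set Ioc_ae_eq_Icc.symm
    rw [h1, hμ]
    refine measurePreserving_pi _ _ fun i => ?_
    rw [hν]
    exact AddCircle.measurePreserving_mk 1 0
  have hGc : ∀ t : Fin k → ℝ, LemJ_G ε (fun i => (t i : AddCircle (1 : ℝ))) =
      Real.log ‖MM.ev (MM.chr t) (MM.lp ε)‖ := by
    intro t
    rw [MM.ev_eq_eval]
    unfold LemJ_G
    simp only [AddCircle.toCircle_apply_mk, Circle.coe_exp, div_one]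
  have hGi : Integrable (LemJ_G ε) μ := by
    rw [← hmp.integrable_comp (LemJ_measurable ε).aestronglyMeasurable]
    have := MM.integrable_log hε
    exact this.congr (ae_of_all _ fun t => (hGc t).symm)
  have hmm : mm ε = ∫ y, LemJ_G ε y ∂μ := by
    unfold mm
    rw [← hmp.map_eq, integral_map hmp.measurable.aemeasurable
      (LemJ_measurable ε).aestronglyMeasurable]
    exact integral_congr_ae (ae_of_all _ fun t => (hGc t).symm)
  -- the shear
  have hS : MeasurePreserving (fun p : AddCircle (1 : ℝ) × (Fin k → AddCircle (1 : ℝ)) =>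
      (p.1, p.2 + fun i => û i • p.1)) (ν.prod μ) (ν.prod μ) := by
    refine MeasurePreserving.skew_product (MeasurePreserving.id ν)
      (g := fun s y => y + fun i => û i • s) ?_ (ae_of_all _ fun s => ?_)
    · exact Continuous.measurable (by fun_prop)
    · exact map_add_right_eq_self μ _
  have hG2 : Integrable (fun p : AddCircle (1 : ℝ) × (Fin k → AddCircle (1 : ℝ)) => LemJ_G ε p.2)
      (ν.prod μ) := hGi.comp_snd ν
  have hG3 : Integrable (fun p : AddCircle (1 : ℝ) × (Fin k → AddCircle (1 : ℝ)) =>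
      LemJ_G ε (p.2 + fun i => û i • p.1)) (ν.prod μ) := hS.integrable_comp_of_integrable hG2
  have e1 : ∫ p, LemJ_G ε (p.2 + fun i => û i • p.1) ∂(ν.prod μ) =
      ∫ p, LemJ_G ε p.2 ∂(ν.prod μ) := by
    conv_rhs => rw [← hS.map_eq]
    rw [integral_map hS.measurable.aemeasurable]
    rw [hS.map_eq]
    exact hG2.aestronglyMeasurable
  have e2 : ∫ p, LemJ_G ε p.2 ∂(ν.prod μ) = ∫ y, LemJ_G ε y ∂μ := by
    rw [integral_prod _ hG2]
    simp
  have e3 : ∫ p, LemJ_G ε (p.2 + fun i => û i • p.1) ∂(ν.prod μ) =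
      ∫ y, ∫ s, LemJ_G ε (y + fun i => û i • s) ∂ν ∂μ := integral_prod_symm _ hG3
  have e4 : ∀ y, ∫ s, LemJ_G ε (y + fun i => û i • s) ∂ν =
      Real.log |((sp1 û ε).leadingCoeff : ℝ)| := by
    intro y
    have hx : ∀ i, ‖((AddCircle.toCircle (y i) : Circle) : ℂ)‖ = 1 := fun i => Circle.norm_coe _
    rw [hν, LemJ_inner, Polynomial.logMahlerMeasure_eq_log_leadingCoeff_add_sum_log_roots,
      LemJ_lead hs hK hx]
    rw [Multiset.sum_eq_zero, add_zero]
    intro r hr
    rw [Multiset.mem_map] at hr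
    obtain ⟨z, hz, rfl⟩ := hr
    have h1 := h _ hx z (Polynomial.isRoot_of_mem_roots hz)
    rw [Real.posLog_eq_zero_iff, abs_of_nonneg (norm_nonneg z)]
    exact h1
  rw [hmm, ← e2, ← e1, e3]
  simp only [e4]
  simp

end Pool.Agent.H87.BZ
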