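import Pool.Agent.H87.BZ.Torus
import Pool.Agent.H87.BZ.Sp1

/-!
# Project BZ, module NTb: basic properties of `NT`

* `aeval_pt_expand`: `MvPolynomial.expand q g` is `g (X ^ q)`, so its value at `pt ξ r` is the value of
  `g` at `pt (ξ ^ q) r` (`(ξ ^ r i) ^ q = (ξ ^ q) ^ r i`).
* `NT_of_dvd`: clear. `NT_mul`: if neither `e` nor `f` is `NT`, there are `h₁`, `h₂` nonzero such that for
  every `r` with `h₁(z ^ r) ≠ 0` for some `z ≠ 0` all zeros `ξ` of `e(ξ ^ r)` fail `NTor`; same for `f`,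
  `h₂`. Use `h₁ * h₂` in `NT (e * f)`.
* `NT_exists_irreducible`: `e` is not a unit (a unit is `±1` and has no zeros; use `h = 1`), factor `e`
  (`WfDvdMonoid.exists_factors`), induction over the multiset of factors with `NT_mul`.
* `NT_not_dvd_monomial`: at a zero `pt ξ r` of `e` (`h = 1`) the monomial `c * X ^ m` is
  `c * ∏ (ξ ^ r i) ^ m i ≠ 0`.
* `tors`: let `Z` be the set of all `z ≠ 0` with `g (z ^ r) = 0`. It is finite: `z ^ N * g (z ^ r)` is a
  polynomial in `z` for a large `N`, not zero because of `hr` (or: `g (z ^ r)` is, up to a power of `z`,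
  the value of `sb (fun _ : Fin 1 => r) ..`; any way is fine). If `z ∈ Z` then `expand q g` vanishes at
  `z ^ r` (`g ∣ expand q g`), i.e. `g ((z ^ q) ^ r) = 0`, `z ^ q ∈ Z`. So for `ξ ∈ Z` all `ξ ^ (q ^ j)` lie in
  the finite set `Z`: `ξ ^ (q ^ i) = ξ ^ (q ^ j)` for some `i < j`, and `ξ ^ (q ^ j - q ^ i) = 1`.
* `not_NT_of_expand`: use `h = g` in `NT g` and `tors`.
* `PF_exists_irr`: `NT_exists_irreducible` (`e ∣ sb U A ≠ 0`, so `e ≠ 0`).
* `NT_degreeOf`: an irreducible `e` with `NT e` is not a constant, so some variable occurs in it.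
* `NT_one_var`: for `k = 1` an `e` with a nontorsion zero is `NT` (take `r = 1`; `h(z) ≠ 0` for some `z`).
-/

set_option autoImplicit false

namespace Pool.Agent.H87.BZ

variable {k d : ℕ}

theorem aeval_pt_expand (q : ℕ) (g : MvPolynomial (Fin k) ℤ) (ξ : ℂ) (r : Fin k → ℤ) :
    MvPolynomial.aeval (pt ξ r) (MvPolynomial.expand q g) =
      MvPolynomial.aeval (pt (ξ ^ q) r) g := by
  rw [MvPolynomial.aeval_expand]
  congr 2
  funext i
  simp only [pt, Pi.pow_apply]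
  rw [← zpow_natCast, ← zpow_natCast, ← zpow_mul, ← zpow_mul, mul_comm]

theorem NT_of_dvd {e f : MvPolynomial (Fin k) ℤ} (h : NT e) (hef : e ∣ f) : NT f := by
  intro g hg
  obtain ⟨r, ξ, hξ, h1, h2⟩ := h g hg
  obtain ⟨c, rfl⟩ := hef
  exact ⟨r, ξ, hξ, by rw [map_mul, h1, zero_mul], h2⟩

theorem NT_mul {e f : MvPolynomial (Fin k) ℤ} (h : NT (e * f)) : NT e ∨ NT f := by
  by_contra hcon
  rw [not_or] at hcon
  obtain ⟨he, hf⟩ := hcon
  unfold NT at he hf
  push Not at he hf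
  obtain ⟨h₁, h₁0, he⟩ := he
  obtain ⟨h₂, h₂0, hf⟩ := hf
  obtain ⟨r, ξ, hξ, h3, z, hz, h4⟩ := h (h₁ * h₂) (mul_ne_zero h₁0 h₂0)
  rw [map_mul] at h3 h4
  rcases mul_eq_zero.mp h3 with h5 | h5
  · exact left_ne_zero_of_mul h4 (he r ξ hξ h5 z hz)
  · exact right_ne_zero_of_mul h4 (hf r ξ hξ h5 z hz)

theorem NT_exists_irreducible {e : MvPolynomial (Fin k) ℤ} (he : e ≠ 0) (h : NT e) :
    ∃ g, Irreducible g ∧ g ∣ e ∧ NT g := by
  revert he h
  induction e using WfDvdMonoid.induction_on_irreducible with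
  | zero => intro he; exact absurd rfl he
  | unit u hu =>
    intro _ h
    obtain ⟨r, ξ, -, h1, -⟩ := h 1 one_ne_zero
    exact absurd h1 ((hu.map (MvPolynomial.aeval (pt ξ r))).ne_zero)
  | mul a i ha hi ih =>
    intro he h
    rcases NT_mul h with h1 | h1
    · exact ⟨i, hi, dvd_mul_right _ _, h1⟩
    · obtain ⟨g, hg, hga, hgN⟩ := ih ha h1
      exact ⟨g, hg, hga.mul_left _, hgN⟩

theorem NT_not_dvd_monomial {e : MvPolynomial (Fin k) ℤ} (h : NT e) (m : Fin k →₀ ℕ) {c : ℤ}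
    (hc : c ≠ 0) : ¬ e ∣ MvPolynomial.monomial m c := by
  rintro ⟨g, hg⟩
  obtain ⟨r, ξ, hξ, h1, -⟩ := h 1 one_ne_zero
  have h2 : MvPolynomial.aeval (pt ξ r) (MvPolynomial.monomial m c) = 0 := by
    rw [hg, map_mul, h1, zero_mul]
  rw [MvPolynomial.aeval_monomial] at h2
  rcases mul_eq_zero.mp h2 with h3 | h3
  · exact hc (by simpa using h3)
  · rw [Finsupp.prod, Finset.prod_eq_zero_iff] at h3
    obtain ⟨i, -, h4⟩ := h3
    exact zpow_ne_zero _ hξ.1 (pow_eq_zero_iff (M₀ := ℂ) (n := m i) (by rintro h0; rw [h0, pow_zero] at h4; exact one_ne_zero h4) |>.mp h4)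

/-- the zeros of `g (z ^ r)` -/
theorem finite_zeros {g : MvPolynomial (Fin k) ℤ} {r : Fin k → ℤ}
    (hr : ∃ z : ℂ, z ≠ 0 ∧ MvPolynomial.aeval (pt z r) g ≠ 0) :
    {z : ℂ | z ≠ 0 ∧ MvPolynomial.aeval (pt z r) g = 0}.Finite := by
  set P := sp1 (fun _ : Fin 1 => 1) (sb (fun _ : Fin 1 => r) g) with hP
  have hval : ∀ z : ℂ, z ≠ 0 → Polynomial.aeval z P =
      z ^ shf (fun _ : Fin 1 => r) g 0 * MvPolynomial.aeval (pt z r) g := by
    intro z hz
    rw [hP, aeval_sp1, eval_sb]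
    · simp only [pow_one, Finset.univ_unique, Finset.prod_singleton]
      rfl
    · intro i
      simpa using hz
  obtain ⟨z₀, hz₀, hz₁⟩ := hr
  have hP0 : P.map (Int.castRingHom ℂ) ≠ 0 := by
    intro h
    have h1 : Polynomial.aeval z₀ P = 0 := by
      rw [Polynomial.aeval_def, ← Polynomial.eval_map]
      have : (P.map (algebraMap ℤ ℂ)) = 0 := h
      rw [this, Polynomial.eval_zero]
    rw [hval z₀ hz₀] at h1
    rcases mul_eq_zero.mp h1 with h2 | h2
    · exact zpow_ne_zero _ hz₀ h2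
    · exact hz₁ h2
  refine (Polynomial.finite_setOfPred_isRoot hP0).subset ?_
  rintro z ⟨hz, hz'⟩
  have h1 : Polynomial.aeval z P = 0 := by rw [hval z hz, hz', mul_zero]
  rw [Polynomial.aeval_def, ← Polynomial.eval_map] at h1
  exact h1

theorem tors {g : MvPolynomial (Fin k) ℤ} {q : ℕ} (hq : 2 ≤ q) (h : g ∣ MvPolynomial.expand q g)
    {r : Fin k → ℤ} (hr : ∃ z : ℂ, z ≠ 0 ∧ MvPolynomial.aeval (pt z r) g ≠ 0) {ξ : ℂ}
    (hξ : MvPolynomial.aeval (pt ξ r) g = 0) : ¬ NTor ξ := by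
  rintro ⟨h0, hn⟩
  have hfin := finite_zeros hr
  have hmem : ∀ n : ℕ, MvPolynomial.aeval (pt (ξ ^ q ^ n) r) g = 0 := by
    intro n
    induction n with
    | zero => simpa using hξ
    | succ n ih =>
      rw [pow_succ, pow_mul, ← aeval_pt_expand]
      obtain ⟨c, hc⟩ := h
      rw [hc, map_mul, ih, zero_mul]
  have hinj : ¬ Function.Injective fun n : ℕ => ξ ^ q ^ n := by
    intro hinj
    refine Set.infinite_of_injective_forall_mem hinj (s := {z : ℂ | z ≠ 0 ∧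
      MvPolynomial.aeval (pt z r) g = 0}) (fun n => ⟨pow_ne_zero _ h0, hmem n⟩) hfin
  rw [Function.Injective] at hinj
  push Not at hinj
  obtain ⟨a, b, hab, hne⟩ := hinj
  wlog hlt : a < b generalizing a b
  · exact this b a hab.symm hne.symm (lt_of_le_of_ne (not_lt.mp hlt) hne.symm)
  have h1 : q ^ a < q ^ b := Nat.pow_lt_pow_right hq hlt
  refine hn (q ^ b - q ^ a) (by omega) ?_
  have h2 : ξ ^ q ^ b = ξ ^ (q ^ b - q ^ a) * ξ ^ q ^ a := by
    rw [← pow_add]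
    congr 1
    omega
  rw [← hab] at h2
  have h3 : ξ ^ q ^ a ≠ 0 := pow_ne_zero _ h0
  have h4 : (ξ ^ (q ^ b - q ^ a) - 1) * ξ ^ q ^ a = 0 := by
    rw [sub_mul, ← h2, one_mul, sub_self]
  exact sub_eq_zero.mp ((mul_eq_zero.mp h4).resolve_right h3)

theorem not_NT_of_expand {g : MvPolynomial (Fin k) ℤ} (hg : g ≠ 0) {q : ℕ} (hq : 2 ≤ q)
    (h : g ∣ MvPolynomial.expand q g) : ¬ NT g := by
  intro hN
  obtain ⟨r, ξ, hξ, h1, h2⟩ := hN g hg
  exact tors hq h h2 h1 hξ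

theorem PF_exists_irr {A B : MvPolynomial (Fin d) ℤ} {U : Fin k → Fin d → ℤ} (h : PF A B U)
    (hA : sb U A ≠ 0) : ∃ e, Irreducible e ∧ NT e ∧ e ∣ sb U A ∧ e ∣ sb U B := by
  obtain ⟨e, he, h1, h2⟩ := h
  have he0 : e ≠ 0 := by
    rintro rfl
    exact hA (zero_dvd_iff.mp h1)
  obtain ⟨g, hg, hge, hgN⟩ := NT_exists_irreducible he0 he
  exact ⟨g, hg, hgN, hge.trans h1, hge.trans h2⟩

theorem NT_degreeOf {e : MvPolynomial (Fin k) ℤ} (he : e ≠ 0) (h : NT e) :
    ∃ i, e.degreeOf i ≠ 0 := by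
  by_contra hcon
  push Not at hcon
  have h1 : e = MvPolynomial.monomial 0 (e.coeff 0) := by
    ext m
    rw [MvPolynomial.coeff_monomial]
    split_ifs with hm
    · rw [← hm]
    · by_contra hne
      refine hm ?_
      have hms : m ∈ e.support := MvPolynomial.mem_support_iff.mpr hne
      ext j
      have := (MvPolynomial.monomial_le_degreeOf j hms).trans (hcon j).le
      simpa using (Nat.le_zero.mp this).symm
  have hc : e.coeff 0 ≠ 0 := by
    intro h2
    rw [h2, map_zero] at h1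
    exact he h1
  exact NT_not_dvd_monomial h 0 hc (by rw [← h1])

theorem NT_one_var {e : MvPolynomial (Fin 1) ℤ} {ξ : ℂ} (hξ : NTor ξ)
    (h : MvPolynomial.aeval (fun _ => ξ) e = 0) : NT e := by
  intro g hg
  refine ⟨fun _ => 1, ξ, hξ, ?_, ?_⟩
  · have : pt ξ (fun _ : Fin 1 => (1 : ℤ)) = fun _ => ξ := by
      funext i
      simp [pt]
    rw [this]
    exact h
  · by_contra hcon
    push Not at hcon
    refine hg (eq_of_torus fun x hx => ?_)
    rw [map_zero]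
    have h1 := hcon (x 0) (hx 0)
    have h2 : pt (x 0) (fun _ : Fin 1 => (1 : ℤ)) = x := by
      funext i
      fin_cases i
      simp [pt]
    rwa [h2] at h1

end Pool.Agent.H87.BZ
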