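import Pool.Agent.H87.BZ.LemJ
import Pool.Agent.H87.BZ.NTb

/-!
# Project BZ, module LemR: roots in a generic direction

* `roots_le_one`: if `ε ∣ expand q ε`, `q ≥ 2`, the hypothesis of `mm_eq_lead` holds. All roots of all `g_x`,
  `‖x i‖ = 1`, are at most `1 + ∑ |coefficients| =: R` in absolute value, because the leading coefficient has
  absolute value `|c| ≥ 1` (`Sep` and `degreeOf ≤ K`: the terms do not collide). If `g_x(z) = 0` then
  `expand q ε` vanishes at the point `(x_i z^(û i))`, i.e. `g_{x^q}(z^q) = 0`; iterating,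
  `‖z‖^(q^j) ≤ R` for all `j`, so `‖z‖ ≤ 1`.
* `lead_one`: if moreover `ε` is irreducible and not a constant then `c = ± 1`. `G = sp1 û ε ∈ ℤ[X]` is
  primitive: its coefficients are those of `ε` (`coeff_sp1`), and no prime number divides all coefficients
  of `ε` (it would be associated to `ε`). All nonzero roots of `G` are roots of unity (`tors` with
  `r = û`). Let `E₁` be an irreducible factor of `G`; it is primitive; if it has degree `0` it is a unit; if
  it has a root which is zero it is `± X`; otherwise it has a root `ω` with `ω ^ n = 1`, so it divides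
  `X ^ n - 1` over `ℚ` and (Gauss) over `ℤ`, and its leading coefficient divides `1`. So the leading
  coefficient `c` of `G` is `± 1`.
-/

set_option autoImplicit false

namespace Pool.Agent.H87.BZ

variable {k : ℕ}

private theorem LemR_eval (û : Fin k → ℕ) (ε : MvPolynomial (Fin k) ℤ) (x : Fin k → ℂ) (z : ℂ) :
    (gx û ε x).eval z = MvPolynomial.aeval (fun i => x i * z ^ û i) ε := by
  unfold gx
  have h1 : ((Polynomial.evalRingHom z).comp
      ((MvPolynomial.aeval (fun i => Polynomial.C (x i) * Polynomial.X ^ û i) :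
        MvPolynomial (Fin k) ℤ →ₐ[ℤ] Polynomial ℂ) : MvPolynomial (Fin k) ℤ →+* Polynomial ℂ)) =
      ((MvPolynomial.aeval (fun i => x i * z ^ û i) :
        MvPolynomial (Fin k) ℤ →ₐ[ℤ] ℂ) : MvPolynomial (Fin k) ℤ →+* ℂ) := by
    refine MvPolynomial.ringHom_ext (fun r => by simp) (fun i => by simp)
  exact RingHom.congr_fun h1 ε

/-- the value at a point of the twisted torus, as a sum -/
private theorem LemR_sum (û : Fin k → ℕ) (ε : MvPolynomial (Fin k) ℤ) (x : Fin k → ℂ) (z : ℂ) :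
    MvPolynomial.aeval (fun i => x i * z ^ û i) ε =
      ∑ m ∈ ε.support, ((ε.coeff m : ℤ) : ℂ) * (∏ i, x i ^ m i) * z ^ (∑ j, û j * m j) := by
  rw [MvPolynomial.aeval_def, MvPolynomial.eval₂_eq']
  refine Finset.sum_congr rfl fun m _ => ?_
  have h1 : ∏ i, (x i * z ^ û i) ^ m i = (∏ i, x i ^ m i) * z ^ (∑ j, û j * m j) := by
    rw [← Finset.prod_pow_eq_pow_sum, ← Finset.prod_mul_distrib]
    exact Finset.prod_congr rfl fun i _ => by rw [mul_pow, ← pow_mul]
  rw [h1, mul_assoc]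
  rfl

private theorem LemR_bound {û : Fin k → ℕ} {K : ℕ} (hs : Sep û K) {ε : MvPolynomial (Fin k) ℤ}
    (hε : ε ≠ 0) (hK : ∀ j, ε.degreeOf j ≤ K) (x : Fin k → ℂ) (hx : ∀ i, ‖x i‖ = 1) (z : ℂ)
    (hz1 : 1 < ‖z‖) (hz : MvPolynomial.aeval (fun i => x i * z ^ û i) ε = 0) :
    ‖z‖ ≤ ∑ m ∈ ε.support, |((ε.coeff m : ℤ) : ℝ)| := by
  classical
  have hinj := inj_of_sep hs hK
  obtain ⟨m₁, hm₁, hmax⟩ := ε.support.exists_max_image (fun m => ∑ j, û j * m j)
    (MvPolynomial.support_nonempty.mpr hε)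
  have hz0 : 0 < ‖z‖ := lt_trans one_pos hz1
  rw [LemR_sum, ← Finset.add_sum_erase _ _ hm₁] at hz
  have hnx : ∀ m : Fin k →₀ ℕ, ‖∏ i, x i ^ m i‖ = 1 := by
    intro m
    rw [norm_prod]
    exact Finset.prod_eq_one fun i _ => by rw [norm_pow, hx, one_pow]
  have h1 : ‖((ε.coeff m₁ : ℤ) : ℂ) * (∏ i, x i ^ m₁ i) * z ^ (∑ j, û j * m₁ j)‖ =
      ‖∑ m ∈ ε.support.erase m₁, ((ε.coeff m : ℤ) : ℂ) * (∏ i, x i ^ m i) *
        z ^ (∑ j, û j * m j)‖ := by
    rw [eq_neg_of_add_eq_zero_left hz, norm_neg]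
  rw [norm_mul, norm_mul, hnx, mul_one, norm_pow] at h1
  have hc1 : (1 : ℝ) ≤ ‖((ε.coeff m₁ : ℤ) : ℂ)‖ := by
    rw [Complex.norm_intCast]
    exact_mod_cast Int.one_le_abs (MvPolynomial.mem_support_iff.mp hm₁)
  have hterm : ∀ m ∈ ε.support.erase m₁, ‖((ε.coeff m : ℤ) : ℂ) * (∏ i, x i ^ m i) *
      z ^ (∑ j, û j * m j)‖ * ‖z‖ ≤ |((ε.coeff m : ℤ) : ℝ)| * ‖z‖ ^ (∑ j, û j * m₁ j) := by
    intro m hm
    obtain ⟨hne, hm'⟩ := Finset.mem_erase.mp hm
    rw [norm_mul, norm_mul, hnx, mul_one, norm_pow, Complex.norm_intCast, mul_assoc, ← pow_succ]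
    refine mul_le_mul_of_nonneg_left ?_ (abs_nonneg _)
    refine pow_le_pow_right₀ hz1.le ?_
    have h2 := hmax m hm'
    rcases Nat.lt_or_ge (∑ j, û j * m j) (∑ j, û j * m₁ j) with h3 | h3
    · exact h3
    · exact absurd (hinj m hm' m₁ hm₁ (le_antisymm h2 h3)) hne
  have h4 : ‖z‖ ^ (∑ j, û j * m₁ j) * ‖z‖ ≤
      (∑ m ∈ ε.support, |((ε.coeff m : ℤ) : ℝ)|) * ‖z‖ ^ (∑ j, û j * m₁ j) := by
    calc ‖z‖ ^ (∑ j, û j * m₁ j) * ‖z‖
        ≤ ‖((ε.coeff m₁ : ℤ) : ℂ)‖ * ‖z‖ ^ (∑ j, û j * m₁ j) * ‖z‖ := by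
          refine mul_le_mul_of_nonneg_right ?_ hz0.le
          exact le_mul_of_one_le_left (pow_nonneg hz0.le _) hc1
      _ = ‖∑ m ∈ ε.support.erase m₁, ((ε.coeff m : ℤ) : ℂ) * (∏ i, x i ^ m i) *
        z ^ (∑ j, û j * m j)‖ * ‖z‖ := by rw [h1]
      _ ≤ (∑ m ∈ ε.support.erase m₁, ‖((ε.coeff m : ℤ) : ℂ) * (∏ i, x i ^ m i) *
        z ^ (∑ j, û j * m j)‖) * ‖z‖ :=
          mul_le_mul_of_nonneg_right (norm_sum_le _ _) hz0.le
      _ = ∑ m ∈ ε.support.erase m₁, ‖((ε.coeff m : ℤ) : ℂ) * (∏ i, x i ^ m i) *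
        z ^ (∑ j, û j * m j)‖ * ‖z‖ := Finset.sum_mul _ _ _
      _ ≤ ∑ m ∈ ε.support.erase m₁, |((ε.coeff m : ℤ) : ℝ)| * ‖z‖ ^ (∑ j, û j * m₁ j) :=
          Finset.sum_le_sum hterm
      _ = (∑ m ∈ ε.support.erase m₁, |((ε.coeff m : ℤ) : ℝ)|) * ‖z‖ ^ (∑ j, û j * m₁ j) :=
          (Finset.sum_mul _ _ _).symm
      _ ≤ (∑ m ∈ ε.support, |((ε.coeff m : ℤ) : ℝ)|) * ‖z‖ ^ (∑ j, û j * m₁ j) := by
          refine mul_le_mul_of_nonneg_right ?_ (pow_nonneg hz0.le _)
          exact Finset.sum_le_sum_of_subset_of_nonneg (Finset.erase_subset _ _)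
            fun _ _ _ => abs_nonneg _
  rw [mul_comm] at h4
  exact le_of_mul_le_mul_right h4 (pow_pos hz0 _)

theorem roots_le_one {û : Fin k → ℕ} {K : ℕ} (hs : Sep û K) {ε : MvPolynomial (Fin k) ℤ}
    (hε : ε ≠ 0) (hK : ∀ j, ε.degreeOf j ≤ K) {q : ℕ} (hq : 2 ≤ q)
    (h : ε ∣ MvPolynomial.expand q ε) (x : Fin k → ℂ) (hx : ∀ i, ‖x i‖ = 1) (z : ℂ)
    (hz : (gx û ε x).eval z = 0) : ‖z‖ ≤ 1 := by
  rw [LemR_eval] at hz
  have hit : ∀ n : ℕ, MvPolynomial.aeval
      (fun i => x i ^ q ^ n * (z ^ q ^ n) ^ û i) ε = 0 := by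
    intro n
    induction n with
    | zero => simpa using hz
    | succ n ih =>
      obtain ⟨w, hw⟩ := h
      have h1 : MvPolynomial.aeval (fun i => x i ^ q ^ n * (z ^ q ^ n) ^ û i)
          (MvPolynomial.expand q ε) = 0 := by rw [hw, map_mul, ih, zero_mul]
      rw [MvPolynomial.aeval_expand] at h1
      rw [← h1]
      have h2 : (fun i => x i ^ q ^ (n + 1) * (z ^ q ^ (n + 1)) ^ û i) =
          (fun i => x i ^ q ^ n * (z ^ q ^ n) ^ û i) ^ q := by
        funext i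
        simp only [Pi.pow_apply]
        rw [mul_pow, ← pow_mul, ← pow_mul, ← pow_mul, ← pow_mul, pow_succ, mul_assoc,
          mul_comm q (û i)]
      rw [h2]
  by_contra hz1
  rw [not_le] at hz1
  have hb : ∀ n : ℕ, ‖z‖ ^ q ^ n ≤ ∑ m ∈ ε.support, |((ε.coeff m : ℤ) : ℝ)| := by
    intro n
    have h1 := LemR_bound hs hε hK (fun i => x i ^ q ^ n)
      (fun i => by rw [norm_pow, hx, one_pow]) (z ^ q ^ n)
      (by rw [norm_pow]; exact one_lt_pow₀ hz1 (pow_ne_zero _ (by omega))) (hit n)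
    rwa [norm_pow] at h1
  obtain ⟨N, hN⟩ := pow_unbounded_of_one_lt (∑ m ∈ ε.support, |((ε.coeff m : ℤ) : ℝ)|) hz1
  have h2 := hb N
  have h3 : N ≤ q ^ N := (Nat.lt_pow_self (by omega)).le
  have h4 : ‖z‖ ^ N ≤ ‖z‖ ^ q ^ N := pow_le_pow_right₀ hz1.le h3
  linarith

private theorem LemR_factor (E : Polynomial ℤ) (hE : Irreducible E) (hp : E.IsPrimitive)
    (hr : ∀ z : ℂ, Polynomial.aeval z E = 0 → ¬ NTor z) : IsUnit E.leadingCoeff := by
  by_cases h0 : E.natDegree = 0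
  · rw [Polynomial.natDegree_eq_zero] at h0
    obtain ⟨c, rfl⟩ := h0
    have := hp c dvd_rfl
    rwa [Polynomial.leadingCoeff_C]
  · have hdeg : 0 < (E.map (Int.castRingHom ℂ)).degree := by
      rw [← Polynomial.natDegree_pos_iff_degree_pos,
        Polynomial.natDegree_map_eq_of_injective (RingHom.injective_int _)]
      omega
    obtain ⟨ω, hω⟩ := Complex.exists_root hdeg
    have hω' : Polynomial.aeval ω E = 0 := by
      rw [Polynomial.aeval_def, ← Polynomial.eval_map]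
      exact hω
    have hnt := hr ω hω'
    by_cases hω0 : ω = 0
    · subst hω0
      have hc0 : E.coeff 0 = 0 := by
        rw [Polynomial.aeval_def, Polynomial.eval₂_at_zero, eq_intCast] at hω'
        exact_mod_cast hω'
      obtain ⟨g, hg⟩ := Polynomial.X_dvd_iff.mpr hc0
      rcases hE.isUnit_or_isUnit hg with h1 | h1
      · exact absurd h1 Polynomial.not_isUnit_X
      · rw [hg, Polynomial.leadingCoeff_mul, Polynomial.leadingCoeff_X, one_mul]
        rw [Polynomial.isUnit_iff] at h1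
        obtain ⟨r, hr, rfl⟩ := h1
        rwa [Polynomial.leadingCoeff_C]
    · obtain ⟨n, hn, hωn⟩ : ∃ n : ℕ, 0 < n ∧ ω ^ n = 1 := by
        by_contra hcon
        exact hnt ⟨hω0, fun n hn h1 => hcon ⟨n, hn, h1⟩⟩
      have hirr : Irreducible (E.map (Int.castRingHom ℚ)) :=
        (Polynomial.IsPrimitive.Int.irreducible_iff_irreducible_map_cast hp).mp hE
      have hωq : Polynomial.aeval ω (E.map (Int.castRingHom ℚ)) = 0 := by
        rw [Polynomial.aeval_def, Polynomial.eval₂_map]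
        rw [Polynomial.aeval_def] at hω'
        rw [← hω']
        congr 1
      have hd1 : minpoly ℚ ω ∣ E.map (Int.castRingHom ℚ) := minpoly.dvd ℚ ω hωq
      have hint : IsIntegral ℚ ω :=
        ⟨Polynomial.X ^ n - Polynomial.C (1 : ℚ),
          Polynomial.monic_X_pow_sub_C (1 : ℚ) (show n ≠ 0 by omega), by simp [hωn]⟩
      have hd2 : E.map (Int.castRingHom ℚ) ∣ minpoly ℚ ω :=
        ((minpoly.irreducible hint).associated_of_dvd hirr hd1).symm.dvd
      have hd3 : minpoly ℚ ω ∣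
          ((Polynomial.X ^ n - 1 : Polynomial ℤ).map (Int.castRingHom ℚ)) := by
        refine minpoly.dvd ℚ ω ?_
        simp [hωn]
      have hd4 : E ∣ (Polynomial.X ^ n - 1 : Polynomial ℤ) :=
        (Polynomial.IsPrimitive.Int.dvd_iff_map_cast_dvd_map_cast _ _ hp).mpr (hd2.trans hd3)
      obtain ⟨g, hg⟩ := hd4
      have hl : (Polynomial.X ^ n - 1 : Polynomial ℤ).leadingCoeff = 1 := by
        have := Polynomial.monic_X_pow_sub_C (1 : ℤ) (show n ≠ 0 by omega)
        rw [Polynomial.C_1] at this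
        exact this
      rw [hg, Polynomial.leadingCoeff_mul] at hl
      exact IsUnit.of_mul_eq_one _ hl

private theorem LemR_mprod (s : Multiset ℤ) (h : ∀ a ∈ s, IsUnit a) : IsUnit s.prod := by
  induction s using Multiset.induction_on with
  | empty => simp
  | cons a s ih =>
    rw [Multiset.prod_cons]
    exact (h a (Multiset.mem_cons_self _ _)).mul
      (ih fun b hb => h b (Multiset.mem_cons_of_mem hb))

private theorem LemR_lead (f : Polynomial ℤ) (hf : f ≠ 0) (hp : f.IsPrimitive)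
    (hr : ∀ z : ℂ, Polynomial.aeval z f = 0 → ¬ NTor z) : IsUnit f.leadingCoeff := by
  obtain ⟨s, hs, u, hu⟩ := WfDvdMonoid.exists_factors f hf
  rw [← hu, Polynomial.leadingCoeff_mul]
  refine IsUnit.mul ?_ ?_
  · rw [Polynomial.leadingCoeff_multiset_prod]
    refine LemR_mprod _ ?_
    intro a ha
    obtain ⟨E, hE, rfl⟩ := Multiset.mem_map.mp ha
    have hEf : E ∣ f := (Multiset.dvd_prod hE).trans (Dvd.intro _ hu)
    refine LemR_factor E (hs E hE) (Polynomial.isPrimitive_of_dvd hp hEf) fun z hz => ?_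
    refine hr z ?_
    obtain ⟨g, hg⟩ := hEf
    rw [hg, map_mul, hz, zero_mul]
  · have h1 := u.isUnit
    rw [Polynomial.isUnit_iff] at h1
    obtain ⟨r, hr, hru⟩ := h1
    rw [← hru, Polynomial.leadingCoeff_C]
    exact hr

theorem lead_one {û : Fin k → ℕ} {K : ℕ} (hs : Sep û K) {ε : MvPolynomial (Fin k) ℤ}
    (hε : Irreducible ε) (hc : ¬ ∃ c, ε = MvPolynomial.C c) (hK : ∀ j, ε.degreeOf j ≤ K) {q : ℕ}
    (hq : 2 ≤ q) (h : ε ∣ MvPolynomial.expand q ε) :
    |((sp1 û ε).leadingCoeff : ℝ)| = 1 := by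
  have hG := sp1_ne_zero hs hε.ne_zero hK
  have hprim : (sp1 û ε).IsPrimitive := by
    intro r hr
    by_contra hru
    have h1 : MvPolynomial.C r ∣ ε := by
      rw [MvPolynomial.C_dvd_iff_dvd_coeff]
      intro m
      by_cases hm : m ∈ ε.support
      · rw [← coeff_sp1 (inj_of_sep hs hK) hm]
        exact (Polynomial.C_dvd_iff_dvd_coeff _ _).mp hr _
      · rw [MvPolynomial.notMem_support_iff.mp hm]
        exact dvd_zero _
    obtain ⟨b, hb⟩ := h1
    rcases hε.isUnit_or_isUnit hb with h2 | h2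
    · rw [MvPolynomial.isUnit_iff_eq_C_of_isReduced] at h2
      obtain ⟨s, hs', hs''⟩ := h2
      rw [MvPolynomial.C_injective _ _ hs''] at hru
      exact hru hs'
    · rw [MvPolynomial.isUnit_iff_eq_C_of_isReduced] at h2
      obtain ⟨s, hs', hs''⟩ := h2
      refine hc ⟨r * s, ?_⟩
      rw [hb, hs'', map_mul]
  have hpt : ∀ z : ℂ, MvPolynomial.aeval (pt z (fun i => (û i : ℤ))) ε =
      Polynomial.aeval z (sp1 û ε) := by
    intro z
    rw [aeval_sp1]
    have h1 : pt z (fun i => (û i : ℤ)) = fun i => z ^ û i := by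
      funext i
      simp [pt]
    rw [h1]
  have hex : ∃ z : ℂ, z ≠ 0 ∧ MvPolynomial.aeval (pt z (fun i => (û i : ℤ))) ε ≠ 0 := by
    classical
    obtain ⟨z, hz⟩ := Infinite.exists_notMem_finset
      (((sp1 û ε).aroots ℂ).toFinset ∪ {(0 : ℂ)})
    rw [Finset.mem_union, Finset.mem_singleton, not_or, Multiset.mem_toFinset,
      Polynomial.mem_aroots] at hz
    refine ⟨z, hz.2, ?_⟩
    rw [hpt]
    exact fun h0 => hz.1 ⟨hG, h0⟩
  have hu : IsUnit (sp1 û ε).leadingCoeff := by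
    refine LemR_lead _ hG hprim fun z hz => ?_
    refine tors hq h hex ?_
    rw [hpt]
    exact hz
  have h3 := Int.isUnit_iff_abs_eq.mp hu
  exact_mod_cast h3

end Pool.Agent.H87.BZ
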