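import Pool.Agent.H87.BZ.Sp1

/-!
# Project BZ, module Pick: choice of the direction `û` and of the prime `p`

* `prm`: a prime factor of `t ! * Π + 1`.
* `avoid`: fewer than `p` nonzero linear forms on `(ZMod p) ^ k` do not cover: each has `p ^ (k - 1)` zeros.
  (Or by induction on `k`.) So there is `ρ : Fin k → ZMod p` with `∑ h j * ρ j ≠ 0` for all `h ∈ H`.
* `pick`: take the index `i` last, i.e. list the indices as `j_1, ..., j_(k-1), j_k = i` in any order, and
  choose successively `û (j_l)` in the interval `(K * s_(l-1), K * s_(l-1) + p * β]`, `s_l` the sum of the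
  first `l` chosen values, `s_0 = 0`, with `û ≡ yh` modulo `β` and `û ≡ ρ` modulo `p`
  (`Nat.chineseRemainder`; every residue class modulo `p β` meets the interval). Then
  `s_l ≤ (K + 1) s_(l-1) + p β`, so `s_k ≤ p β (K + 2) ^ k`, and
  `û (j_l) > K * s_(l-1)`. `Sep`: let `h ≠ 0` with entries at most `K`, `l` maximal with `h (j_l) ≠ 0`; then
  `|û (j_l) h (j_l)| ≥ û (j_l) > K s_(l-1) ≥ |∑_{l' < l} û h|`. Dominance of `û i` is the case `l = k`.
  (A convenient way: induction on a `Finset` of indices, or on `k` after moving `i` to the last place.)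
-/

set_option autoImplicit false

namespace Pool.Agent.H87.BZ

theorem prm (t Q : ℕ) (hQ : 0 < Q) :
    ∃ p : ℕ, p.Prime ∧ t < p ∧ ¬ p ∣ Q ∧ p ≤ t.factorial * Q + 1 := by
  have hpos : 0 < t.factorial * Q := Nat.mul_pos (Nat.factorial_pos t) hQ
  have hne : t.factorial * Q + 1 ≠ 1 := by omega
  have hp := Nat.minFac_prime hne
  have hdvd := Nat.minFac_dvd (t.factorial * Q + 1)
  set p := Nat.minFac (t.factorial * Q + 1) with hpdef
  have hcop : ¬ p ∣ t.factorial * Q := by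
    intro h
    have h1 : p ∣ 1 := (Nat.dvd_add_right h).1 hdvd
    exact hp.one_lt.ne' (Nat.dvd_one.1 h1)
  refine ⟨p, hp, ?_, ?_, Nat.le_of_dvd (Nat.succ_pos _) hdvd⟩
  · by_contra hlt
    push Not at hlt
    exact hcop (Dvd.dvd.mul_right ((Nat.Prime.dvd_factorial hp).2 hlt) Q)
  · intro h
    exact hcop (Dvd.dvd.mul_left h _)

theorem avoid {k p : ℕ} (hp : p.Prime) (H : Finset (Fin k → ℤ))
    (hH : ∀ h ∈ H, ∃ j, ¬ (p : ℤ) ∣ h j) (hc : H.card < p) :
    ∃ ρ : Fin k → ℕ, (∀ j, ρ j < p) ∧ ∀ h ∈ H, ¬ (p : ℤ) ∣ ∑ j, (ρ j : ℤ) * h j := by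
  classical
  have : Fact p.Prime := ⟨hp⟩
  induction k with
  | zero =>
    refine ⟨fun _ => 0, fun j => j.elim0, fun h hh => ?_⟩
    obtain ⟨j, -⟩ := hH h hh
    exact j.elim0
  | succ k ih =>
    obtain ⟨ρ', hρ', hρ''⟩ := ih ((H.filter fun h => ∃ j : Fin k, ¬ (p : ℤ) ∣ h j.succ).image
      fun h j => h j.succ) (by
        intro h hh
        rw [Finset.mem_image] at hh
        obtain ⟨g, hg, rfl⟩ := hh
        exact (Finset.mem_filter.1 hg).2)
      (lt_of_le_of_lt (Finset.card_image_le.trans (Finset.card_filter_le _ _)) hc)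
    set B : Finset (ZMod p) := H.image fun h =>
      -(∑ j : Fin k, (ρ' j : ZMod p) * ((h j.succ : ℤ) : ZMod p)) / ((h 0 : ℤ) : ZMod p) with hB
    have hBc : B.card < Fintype.card (ZMod p) := by
      rw [ZMod.card]
      exact lt_of_le_of_lt Finset.card_image_le hc
    obtain ⟨x, hx⟩ : ∃ x, x ∉ B := by
      by_contra hcon
      push Not at hcon
      have : B = Finset.univ := Finset.eq_univ_iff_forall.2 hcon
      rw [this, Finset.card_univ] at hBc
      exact lt_irrefl _ hBc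
    refine ⟨Fin.cons x.val ρ', ?_, ?_⟩
    · intro j
      refine Fin.cases ?_ (fun j => ?_) j
      · simpa using ZMod.val_lt x
      · simpa using hρ' j
    · intro h hh hdvd
      rw [Fin.sum_univ_succ] at hdvd
      simp only [Fin.cons_zero, Fin.cons_succ] at hdvd
      by_cases h0 : (p : ℤ) ∣ h 0
      · have hS : (p : ℤ) ∣ ∑ j : Fin k, (ρ' j : ℤ) * h j.succ :=
          (Int.dvd_add_right (Dvd.dvd.mul_left h0 _)).1 hdvd
        obtain ⟨j, hj⟩ := hH h hh
        have hj0 : j ≠ 0 := by rintro rfl; exact hj h0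
        obtain ⟨j', rfl⟩ := Fin.exists_succ_eq.2 hj0
        exact hρ'' (fun j => h j.succ) (Finset.mem_image.2 ⟨h, Finset.mem_filter.2 ⟨hh, j', hj⟩, rfl⟩) hS
      · apply hx
        rw [hB, Finset.mem_image]
        refine ⟨h, hh, ?_⟩
        have hz : ((h 0 : ℤ) : ZMod p) ≠ 0 := by
          intro hz
          exact h0 ((ZMod.intCast_zmod_eq_zero_iff_dvd _ _).1 hz)
        have h1 : (((x.val : ℤ) * h 0 + ∑ j : Fin k, (ρ' j : ℤ) * h j.succ : ℤ) : ZMod p) = 0 :=
          (ZMod.intCast_zmod_eq_zero_iff_dvd _ _).2 hdvd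
        push_cast at h1
        rw [ZMod.natCast_zmod_val] at h1
        rw [div_eq_iff hz]
        linear_combination -h1

/-- A value in the interval `(N, N + p β]` in given residue classes. -/
private theorem Pick_val (N β p a b : ℕ) (hβ : 0 < β) (hp : 0 < p) (hco : Nat.Coprime β p) :
    ∃ v : ℕ, N < v ∧ v ≤ N + p * β ∧ v ≡ a [MOD β] ∧ v ≡ b [MOD p] := by
  obtain ⟨c, hc1, hc2⟩ := Nat.chineseRemainder hco a b
  have hM : 0 < p * β := Nat.mul_pos hp hβ
  set M := p * β with hMdef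
  have hle : N + 1 ≤ M * (N + 1) := Nat.le_mul_of_pos_left _ hM
  obtain ⟨w, hw⟩ : ∃ w, w = c + (M * (N + 1) - (N + 1)) := ⟨_, rfl⟩
  have hkey : N + 1 + w % M ≡ c [MOD M] := by
    have h1 : N + 1 + w % M ≡ N + 1 + w [MOD M] := Nat.ModEq.add_left _ (Nat.mod_modEq _ _)
    have h2 : N + 1 + w = c + M * (N + 1) := by omega
    rw [h2] at h1
    refine h1.trans ?_
    have h3 : c + M * (N + 1) ≡ c + 0 [MOD M] :=
      Nat.ModEq.add_left _ ((Nat.modEq_zero_iff_dvd).2 (Dvd.intro _ rfl))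
    exact h3
  have hlt := Nat.mod_lt w hM
  refine ⟨N + 1 + w % M, by omega, by omega, ?_, ?_⟩
  · exact (hkey.of_dvd (Dvd.intro_left p rfl)).trans hc1
  · exact (hkey.of_dvd (Dvd.intro β rfl)).trans hc2

/-- Separation on a set of indices. -/
private def Pick_P {k : ℕ} (yh ρ : Fin k → ℕ) (β p K : ℕ) (S : Finset (Fin k))
    (û : Fin k → ℕ) : Prop :=
  (∀ j ∈ S, û j ≡ yh j [MOD β] ∧ û j ≡ ρ j [MOD p]) ∧
  (∀ h : Fin k → ℤ, (∃ j ∈ S, h j ≠ 0) → (∀ j ∈ S, |h j| ≤ (K : ℤ)) →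
    ∑ j ∈ S, (û j : ℤ) * h j ≠ 0) ∧
  ∑ j ∈ S, û j ≤ p * β * (K + 2) ^ S.card

private theorem Pick_step {k : ℕ} (yh ρ : Fin k → ℕ) (β p K : ℕ) (hβ : 0 < β) (hp : 0 < p)
    (hco : Nat.Coprime β p) (S : Finset (Fin k)) (a : Fin k) (ha : a ∉ S) (û : Fin k → ℕ)
    (hû : Pick_P yh ρ β p K S û) :
    ∃ v : Fin k → ℕ, Pick_P yh ρ β p K (insert a S) v ∧ K * ∑ j ∈ S, v j < v a := by
  classical
  obtain ⟨h1, h2, h3⟩ := hû
  obtain ⟨v, hv1, hv2, hv3, hv4⟩ := Pick_val (K * ∑ j ∈ S, û j) β p (yh a) (ρ a) hβ hp hco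
  have hne : ∀ j ∈ S, j ≠ a := fun j hj hja => ha (hja ▸ hj)
  have hup : ∀ j ∈ S, Function.update û a v j = û j := fun j hj =>
    Function.update_of_ne (hne j hj) _ _
  have hua : Function.update û a v a = v := Function.update_self _ _ _
  have hsum : ∑ j ∈ S, Function.update û a v j = ∑ j ∈ S, û j := Finset.sum_congr rfl hup
  refine ⟨Function.update û a v, ⟨?_, ?_, ?_⟩, ?_⟩
  · intro j hj
    rcases Finset.mem_insert.1 hj with rfl | hj
    · rw [hua]; exact ⟨hv3, hv4⟩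
    · rw [hup j hj]; exact h1 j hj
  · intro h hex hb
    rw [Finset.sum_insert ha, hua]
    have hs : ∑ j ∈ S, (Function.update û a v j : ℤ) * h j = ∑ j ∈ S, (û j : ℤ) * h j :=
      Finset.sum_congr rfl fun j hj => by rw [hup j hj]
    rw [hs]
    by_cases hha : h a = 0
    · rw [hha, mul_zero, zero_add]
      refine h2 h ?_ fun j hj => hb j (Finset.mem_insert_of_mem hj)
      obtain ⟨j, hj, hj0⟩ := hex
      rcases Finset.mem_insert.1 hj with rfl | hj
      · exact absurd hha hj0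
      · exact ⟨j, hj, hj0⟩
    · intro hcon
      have hS : |∑ j ∈ S, (û j : ℤ) * h j| ≤ (K : ℤ) * ∑ j ∈ S, (û j : ℤ) := by
        refine (Finset.abs_sum_le_sum_abs _ _).trans ?_
        rw [Finset.mul_sum]
        refine Finset.sum_le_sum fun j hj => ?_
        rw [abs_mul, abs_of_nonneg (Int.natCast_nonneg _), mul_comm]
        exact mul_le_mul_of_nonneg_right (hb j (Finset.mem_insert_of_mem hj))
          (Int.natCast_nonneg _)
      have hva : (v : ℤ) ≤ |(v : ℤ) * h a| := by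
        rw [abs_mul, abs_of_nonneg (Int.natCast_nonneg v)]
        have : 1 ≤ |h a| := Int.one_le_abs hha
        nlinarith [Int.natCast_nonneg v]
      have heq : (v : ℤ) * h a = -∑ j ∈ S, (û j : ℤ) * h j := by linarith
      rw [heq, abs_neg] at hva
      have hv1' : (K : ℤ) * ∑ j ∈ S, (û j : ℤ) < (v : ℤ) := by exact_mod_cast hv1
      linarith
  · rw [Finset.sum_insert ha, hua, hsum, Finset.card_insert_of_notMem ha]
    have hpow : 1 ≤ (K + 2) ^ S.card := Nat.one_le_pow _ _ (by omega)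
    set T := (K + 2) ^ S.card with hT
    set s := ∑ j ∈ S, û j with hs
    have hpb : p * β ≤ p * β * T := Nat.le_mul_of_pos_right _ hpow
    have hKs : (K + 1) * s ≤ (K + 1) * (p * β * T) := Nat.mul_le_mul_left _ h3
    have hexp : p * β * (K + 2) ^ (S.card + 1) = (K + 1) * (p * β * T) + p * β * T := by
      rw [pow_succ, ← hT]; ring
    rw [hexp]
    have : (K + 1) * s = K * s + s := by ring
    omega
  · rw [hsum, hua]; exact hv1

theorem pick {k : ℕ} (i : Fin k) (yh : Fin k → ℕ) (β p K : ℕ) (hβ : 0 < β) (hp : p.Prime)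
    (hpβ : ¬ p ∣ β) (H : Finset (Fin k → ℤ)) (hH : ∀ h ∈ H, ∃ j, ¬ (p : ℤ) ∣ h j)
    (hc : H.card < p) :
    ∃ û : Fin k → ℕ, (∀ j, û j ≡ yh j [MOD β]) ∧
      (∀ h ∈ H, ¬ (p : ℤ) ∣ ∑ j, (û j : ℤ) * h j) ∧
      K * ∑ j ∈ Finset.univ.erase i, û j < û i ∧ Sep û K ∧
      ∑ j, û j ≤ p * β * (K + 2) ^ k := by
  classical
  obtain ⟨ρ, -, hρ⟩ := avoid hp H hH hc
  have hco : Nat.Coprime β p := ((Nat.Prime.coprime_iff_not_dvd hp).2 hpβ).symm
  have hall : ∀ S : Finset (Fin k), ∃ û, Pick_P yh ρ β p K S û := by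
    intro S
    induction S using Finset.induction_on with
    | empty =>
      refine ⟨fun _ => 0, ?_, ?_, ?_⟩
      · intro j hj; simp at hj
      · rintro h ⟨j, hj, -⟩; simp at hj
      · simp
    | insert a S ha ih =>
      obtain ⟨û, hû⟩ := ih
      obtain ⟨v, hv, -⟩ := Pick_step yh ρ β p K hβ hp.pos hco S a ha û hû
      exact ⟨v, hv⟩
  obtain ⟨û₀, hû₀⟩ := hall (Finset.univ.erase i)
  obtain ⟨û, hû, hdom⟩ := Pick_step yh ρ β p K hβ hp.pos hco (Finset.univ.erase i) i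
    (Finset.notMem_erase i _) û₀ hû₀
  rw [Finset.insert_erase (Finset.mem_univ i)] at hû
  obtain ⟨h1, h2, h3⟩ := hû
  refine ⟨û, fun j => (h1 j (Finset.mem_univ j)).1, ?_, hdom, ?_, ?_⟩
  · intro h hh hdvd
    apply hρ h hh
    have hmod : (∑ j, (û j : ℤ) * h j) ≡ (∑ j, (ρ j : ℤ) * h j) [ZMOD (p : ℤ)] := by
      refine Int.ModEq.sum fun j _ => ?_
      exact Int.ModEq.mul_right _ ((Int.natCast_modEq_iff).2 (h1 j (Finset.mem_univ j)).2)
    exact (Int.ModEq.dvd_iff hmod).1 hdvd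
  · intro h hne hb
    refine h2 h ?_ fun j _ => hb j
    obtain ⟨j, hj⟩ := Function.ne_iff.1 hne
    exact ⟨j, Finset.mem_univ j, hj⟩
  · simpa using h3

end Pool.Agent.H87.BZ
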