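import Pool.Agent.H87.BZ.Sel
import Pool.Agent.H87.BZ.Pick
import Pool.Agent.H87.BZ.NTb

/-!
# Project BZ, module NTc: a criterion for `NT`

`nt_of`: `e` irreducible, not a monomial, `e ∤ expand p e` for all primes `p` implies `NT e`.
Proof. Some variable `i` occurs in `e` (otherwise `e` is a constant, a monomial). Let `h ≠ 0`. Let `D` bound
all `degreeOf j` of `e` and of `h`, `t` the number of terms of `e`, `H` the set of the differences
`fun j => (m j : ℤ) - m' j` for `m ≠ m'` in the support of `e` (at most `t ^ 2` elements), `p` a prime larger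
than `t ^ 2 + t + D` (`Nat.exists_infinite_primes`), so that every `h' ∈ H` has a nonzero entry of absolute
value `≤ D < p`, not divisible by `p`. `K = D + t (2 D (p D) + D + p D + 0)`. `pick i 0 1 p K H` gives `û`;
`sel` with `P = e`, `δ = 1`, `Dδ = 0`, `β = 1` gives `E ∣ sp1 û e` with a root `ξ`, `NTor ξ`, so
`e(ξ ^ û) = 0` (`aeval_sp1`), and `sp1 û h ≠ 0` (`sp1_ne_zero`), so it does not vanish at some `z ≠ 0`.
Take `r j = û j` (`pt z r = fun j => z ^ (û j : ℤ) = z ^ û j`).
-/

set_option autoImplicit false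

namespace Pool.Agent.H87.BZ

/-- the differences of the exponents -/
noncomputable def difs {k : ℕ} (P : MvPolynomial (Fin k) ℤ) : Finset (Fin k → ℤ) := by
  classical
  exact P.support.offDiag.image fun q => fun j => (q.1 j : ℤ) - q.2 j

theorem mem_difs {k : ℕ} {P : MvPolynomial (Fin k) ℤ} {m m' : Fin k →₀ ℕ} (hm : m ∈ P.support)
    (hm' : m' ∈ P.support) (h : m ≠ m') : (fun j => (m j : ℤ) - m' j) ∈ difs P := by
  classical
  unfold difs
  rw [Finset.mem_image]
  exact ⟨(m, m'), by rw [Finset.mem_offDiag]; exact ⟨hm, hm', h⟩, rfl⟩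

theorem card_difs {k : ℕ} (P : MvPolynomial (Fin k) ℤ) {t : ℕ} (ht : P.support.card ≤ t) :
    (difs P).card ≤ t ^ 2 := by
  classical
  unfold difs
  refine Finset.card_image_le.trans ?_
  rw [Finset.offDiag_card]
  have : P.support.card * P.support.card ≤ t * t := Nat.mul_le_mul ht ht
  rw [sq]
  omega

theorem difs_not_dvd {k : ℕ} {P : MvPolynomial (Fin k) ℤ} {D p : ℕ}
    (hD : ∀ j, P.degreeOf j ≤ D) (hp : D < p) {h : Fin k → ℤ} (hh : h ∈ difs P) :
    ∃ j, ¬ (p : ℤ) ∣ h j := by
  classical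
  unfold difs at hh
  rw [Finset.mem_image] at hh
  obtain ⟨⟨m, m'⟩, hmm, rfl⟩ := hh
  rw [Finset.mem_offDiag] at hmm
  obtain ⟨hm, hm', hne⟩ := hmm
  dsimp only at hm hm' hne ⊢
  have : ∃ j, m j ≠ m' j := by
    by_contra hcon
    push Not at hcon
    exact hne (Finsupp.ext hcon)
  obtain ⟨j, hj⟩ := this
  refine ⟨j, fun hd => hj ?_⟩
  have h1 : m j ≤ D := (MvPolynomial.monomial_le_degreeOf j hm).trans (hD j)
  have h2 : m' j ≤ D := (MvPolynomial.monomial_le_degreeOf j hm').trans (hD j)
  have h3 : |(m j : ℤ) - m' j| < p := by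
    rw [abs_lt]
    constructor <;> omega
  have h4 := Int.eq_zero_of_abs_lt_dvd hd h3
  omega


theorem nt_of {k : ℕ} {e : MvPolynomial (Fin k) ℤ} (he : Irreducible e)
    (hmon : ¬ ∃ m c, e = MvPolynomial.monomial m c)
    (hexp : ∀ p : ℕ, p.Prime → ¬ e ∣ MvPolynomial.expand p e) : NT e := by
  classical
  intro h hh
  have hi : ∃ i, e.degreeOf i ≠ 0 := by
    by_contra hcon
    push Not at hcon
    refine hmon ⟨0, e.coeff 0, ?_⟩
    have : e = MvPolynomial.C (e.coeff 0) := by
      ext m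
      rw [MvPolynomial.coeff_C]
      split_ifs with hm
      · rw [← hm]
      · by_contra hne
        refine hm ?_
        have hms : m ∈ e.support := MvPolynomial.mem_support_iff.mpr hne
        ext j
        have := (MvPolynomial.monomial_le_degreeOf j hms).trans (hcon j).le
        simpa using (Nat.le_zero.mp this).symm
    conv_lhs => rw [this]
    rfl
  obtain ⟨i, hei⟩ := hi
  set D := (∑ j, e.degreeOf j) + ∑ j, h.degreeOf j with hDdef
  set t := e.support.card with ht
  have hDe : ∀ j, e.degreeOf j ≤ D := fun j =>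
    (Finset.single_le_sum (f := fun j => e.degreeOf j) (fun _ _ => Nat.zero_le _)
      (Finset.mem_univ j)).trans (Nat.le_add_right _ _)
  have hDh : ∀ j, h.degreeOf j ≤ D := fun j =>
    (Finset.single_le_sum (f := fun j => h.degreeOf j) (fun _ _ => Nat.zero_le _)
      (Finset.mem_univ j)).trans (Nat.le_add_left _ _)
  obtain ⟨p, hpn, hp⟩ := Nat.exists_infinite_primes (t ^ 2 + t + D + 1)
  set K := D + t * (2 * D * (p * D) + D + p * D + 1 * 0) with hK
  have hDK : D ≤ K := Nat.le_add_right _ _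
  obtain ⟨û, -, h2, h3, h4, -⟩ := pick i (fun _ => 0) 1 p K one_pos hp hp.not_dvd_one
    (difs e) (fun g hg => difs_not_dvd hDe (by omega) hg)
    (lt_of_le_of_lt (card_difs e ht.ge) (by omega))
  obtain ⟨E, hE, ⟨ξ, hξ, hEξ⟩, hE2, -⟩ := sel i e e 1 D 0 t p 1 K û he hei hmon he.ne_zero
    (dvd_refl _) le_rfl hp (by omega) hDe (fun m hm m' hm' hne => h2 _ (mem_difs hm hm' hne))
    (hexp p hp) one_ne_zero (by simp) (fun j => by simp) one_pos le_rfl h3 h4
  have hr : ∀ z : ℂ, pt z (fun j => (û j : ℤ)) = fun j => z ^ û j := by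
    intro z
    funext j
    simp [pt]
  refine ⟨fun j => (û j : ℤ), ξ, hξ, ?_, ?_⟩
  · rw [hr, ← aeval_sp1]
    obtain ⟨g, hg⟩ := hE2
    rw [hg, map_mul, hEξ, zero_mul]
  · have h5 : sp1 û h ≠ 0 := sp1_ne_zero h4 hh fun j => (hDh j).trans hDK
    by_contra hcon
    push Not at hcon
    have h6 : ∀ z : ℂ, z ≠ 0 → Polynomial.aeval z (sp1 û h) = 0 := by
      intro z hz
      rw [aeval_sp1, ← hr]
      exact hcon z hz
    have h7 : (sp1 û h).map (Int.castRingHom ℂ) = 0 := by
      refine Polynomial.eq_zero_of_infinite_isRoot _ ?_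
      refine Set.Infinite.mono (s := {0}ᶜ) ?_ (Set.finite_singleton (0 : ℂ)).infinite_compl
      intro z hz
      have h8 := h6 z hz
      rw [Polynomial.aeval_def, ← Polynomial.eval_map] at h8
      exact h8
    exact h5 ((Polynomial.map_eq_zero_iff (Int.castRingHom ℂ).injective_int).mp h7)

end Pool.Agent.H87.BZ
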