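import Pool.Agent.H87.BZ.LemR
import Pool.Agent.H87.BZ.NTc

/-!
# Project BZ, module LemZ: Mahler measure zero

* `lemZ`: `mm ε = log 1 = 0`. (Existence of `û` with `Sep û K`: `û i = (2 K + 1) ^ i`, or `pick` with
  `β = 1`, `p = 2`, `H = ∅`; for `k = 0` a nonconstant `ε` does not exist.)
* `NT_of_mm`: `nt_of`: an irreducible monomial which is not a constant is `± X i`, of measure `0` (or: it
  divides a monomial ... `mm` of a monomial with coefficient `c` is `log |c|`, and a nonconstant irreducible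
  monomial has `c = ± 1`); `lemZ` excludes `ε ∣ expand p ε`.
-/

set_option autoImplicit false

namespace Pool.Agent.H87.BZ

open Pool.Agent.H87.MM (mm)

variable {k : ℕ}

theorem lemZ {ε : MvPolynomial (Fin k) ℤ} (hε : Irreducible ε)
    (hc : ¬ ∃ c, ε = MvPolynomial.C c) {q : ℕ} (hq : 2 ≤ q) (h : ε ∣ MvPolynomial.expand q ε) :
    mm ε = 0 := by
  rcases Nat.eq_zero_or_pos k with hk | hk
  · subst hk
    exact (hc ⟨_, MvPolynomial.eq_C_of_isEmpty ε⟩).elim
  · let K : ℕ := ∑ j, ε.degreeOf j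
    have hK : ∀ j, ε.degreeOf j ≤ K := fun j =>
      Finset.single_le_sum (f := fun j => ε.degreeOf j) (fun _ _ => Nat.zero_le _)
        (Finset.mem_univ j)
    obtain ⟨û, _, _, _, hs, _⟩ := pick (⟨0, hk⟩ : Fin k) (fun _ => 0) 1 2 K one_pos
      Nat.prime_two (by norm_num) ∅ (fun h hh => (Finset.notMem_empty h hh).elim) (by simp)
    rw [mm_eq_lead hs hε.ne_zero hK
      (fun x hx z hz => roots_le_one hs hε.ne_zero hK hq h x hx z hz),
      lead_one hs hε hc hK hq h, Real.log_one]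

theorem NT_of_mm {ε : MvPolynomial (Fin k) ℤ} (hε : Irreducible ε)
    (hc : ¬ ∃ c, ε = MvPolynomial.C c) (hpos : 0 < mm ε) : NT ε := by
  refine nt_of hε ?_ ?_
  · rintro ⟨m, c, hmc⟩
    have h1 : ε ∣ MvPolynomial.expand 2 ε := by
      rw [hmc, MvPolynomial.monomial_eq, map_mul, MvPolynomial.expand_C, Finsupp.prod, map_prod]
      refine mul_dvd_mul_left _ (Finset.prod_dvd_prod_of_dvd _ _ fun i _ => ?_)
      rw [map_pow, MvPolynomial.expand_X]
      exact pow_dvd_pow_of_dvd (dvd_pow_self _ two_ne_zero) _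
    exact hpos.ne' (lemZ hε hc le_rfl h1)
  · intro p hp h
    exact hpos.ne' (lemZ hε hc hp.two_le h)

end Pool.Agent.H87.BZ
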