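import Pool.Agent.H87.BZ.Defs

/-!
# Project BZ, module MultR: multiplicity of a root of a resultant

`F`, `G` are polynomials in `X` over `ℂ[z]` of degrees at most `m`, `n`; `F₀`, `G₀ ∈ ℂ[X]` their
specialisations at `z = z₀`, not both zero; `Z` a finite set of common roots of `F₀`, `G₀`. Then
`(z - z₀) ^ |Z|` divides `Res_X(F, G)` (formal degrees `m`, `n`).
Proof. Let `S(z)` be the Sylvester matrix (`Polynomial.sylvester F G m n`, size `N = m + n`), `S₀` its value
at `z₀`, the Sylvester matrix of `F₀`, `G₀` (`Matrix.map`). For a common root `ζ` the vector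
`v_ζ = (ζ ^ i)_(i < N)` satisfies `v_ζ ᵥ* S₀ = 0` or `S₀ *ᵥ v_ζ = 0`, depending on the convention of Mathlib
(each column, or row, of `S₀` contains the coefficients of `X ^ j * F₀` or `X ^ j * G₀`, so the product has
the entries `ζ ^ j F₀(ζ)`, `ζ ^ j G₀(ζ)`; here `natDegree F₀ ≤ m`, `natDegree G₀ ≤ n`). `|Z| ≤ N` because
one of `F₀`, `G₀` is a nonzero polynomial of degree at most `N` vanishing on `Z`; so the vectors `v_ζ`,
`ζ ∈ Z`, are linearly independent (Vandermonde). Extend them to a basis of `ℂ^N` and let `C` be the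
invertible constant matrix formed by the basis: `|Z|` rows (columns) of `C S(z)` (`S(z) C`) vanish at
`z = z₀`, so are divisible by `z - z₀`, and `(z - z₀) ^ |Z|` divides `det C * det S(z)` where `det C` is a
nonzero constant.
(If `m + n = 0` then `Z` is empty.)
-/

set_option autoImplicit false

namespace Pool.Agent.H87.BZ

private theorem MultR_sum (g : Polynomial ℂ) (N n j : ℕ) (hg : g.natDegree ≤ n) (hj : j + n < N)
    (ζ : ℂ) : ∑ l : Fin N, ζ ^ (l : ℕ) *
      (if (l : ℕ) ∈ Set.Icc j (j + n) then g.coeff (l - j) else 0) = ζ ^ j * g.eval ζ := by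
  rw [Fin.sum_univ_eq_sum_range
    (fun l => ζ ^ l * (if l ∈ Set.Icc j (j + n) then g.coeff (l - j) else 0)) N]
  have hsub : Finset.Ico j (j + n + 1) ⊆ Finset.range N := by
    intro l hl
    rw [Finset.mem_Ico] at hl
    rw [Finset.mem_range]
    omega
  rw [← Finset.sum_subset hsub]
  · rw [Finset.sum_Ico_eq_sum_range, show j + n + 1 - j = n + 1 by omega,
      Polynomial.eval_eq_sum_range' (Nat.lt_succ_of_le hg) ζ, Finset.mul_sum]
    refine Finset.sum_congr rfl ?_
    intro i hi
    rw [Finset.mem_range] at hi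
    rw [if_pos (Set.mem_Icc.2 ⟨by omega, by omega⟩), show j + i - j = i by omega, pow_add]
    ring
  · intro l _ hl
    rw [if_neg, mul_zero]
    intro h
    rw [Set.mem_Icc] at h
    apply hl
    rw [Finset.mem_Ico]
    omega

private theorem MultR_vec (f g : Polynomial ℂ) (m n : ℕ) (hf : f.natDegree ≤ m)
    (hg : g.natDegree ≤ n) (ζ : ℂ) (hfζ : f.eval ζ = 0) (hgζ : g.eval ζ = 0) (j : Fin (m + n)) :
    ∑ l : Fin (m + n), ζ ^ (l : ℕ) * Polynomial.sylvester f g m n l j = 0 := by
  induction j using Fin.addCases with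
  | left j =>
    simp only [Polynomial.sylvester, Matrix.of_apply, Fin.addCases_left]
    rw [MultR_sum g (m + n) n j hg (by have := j.2; omega) ζ, hgζ, mul_zero]
  | right j =>
    simp only [Polynomial.sylvester, Matrix.of_apply, Fin.addCases_right]
    rw [MultR_sum f (m + n) m j hf (by have := j.2; omega) ζ, hfζ, mul_zero]

theorem multR (F G : Polynomial (Polynomial ℂ)) (m n : ℕ) (hF : F.natDegree ≤ m)
    (hG : G.natDegree ≤ n) (z₀ : ℂ) (Z : Finset ℂ)
    (h0 : F.map (Polynomial.evalRingHom z₀) ≠ 0 ∨ G.map (Polynomial.evalRingHom z₀) ≠ 0)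
    (hZ : ∀ ζ ∈ Z, (F.map (Polynomial.evalRingHom z₀)).eval ζ = 0 ∧
      (G.map (Polynomial.evalRingHom z₀)).eval ζ = 0) :
    (Polynomial.X - Polynomial.C z₀) ^ Z.card ∣ Polynomial.resultant F G m n := by
  classical
  set F₀ := F.map (Polynomial.evalRingHom z₀) with hF₀
  set G₀ := G.map (Polynomial.evalRingHom z₀) with hG₀
  have hF₀d : F₀.natDegree ≤ m := Polynomial.natDegree_map_le.trans hF
  have hG₀d : G₀.natDegree ≤ n := Polynomial.natDegree_map_le.trans hG
  have hcard : Z.card ≤ m + n := by
    rcases h0 with h | h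
    · have h1 : Z.val ⊆ F₀.roots := by
        intro ζ hζ
        rw [Polynomial.mem_roots h]
        exact (hZ ζ hζ).1
      have h2 := Polynomial.card_le_degree_of_subset_roots h1
      omega
    · have h1 : Z.val ⊆ G₀.roots := by
        intro ζ hζ
        rw [Polynomial.mem_roots h]
        exact (hZ ζ hζ).2
      have h2 := Polynomial.card_le_degree_of_subset_roots h1
      omega
  obtain ⟨Z', hZZ', hZ'⟩ := Infinite.exists_superset_card_eq Z (m + n) hcard
  set e : Fin (m + n) → ℂ := fun i => ((Finset.equivFinOfCardEq hZ').symm i : ℂ) with he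
  have hinj : Function.Injective e := by
    intro i j hij
    exact (Finset.equivFinOfCardEq hZ').symm.injective (Subtype.ext hij)
  have hfil : (Finset.univ.filter fun i => e i ∈ Z).card = Z.card := by
    rw [← Finset.card_image_of_injective _ hinj]
    congr 1
    ext ζ
    rw [Finset.mem_image]
    constructor
    · rintro ⟨i, hi, rfl⟩
      exact (Finset.mem_filter.1 hi).2
    · intro hζ
      refine ⟨Finset.equivFinOfCardEq hZ' ⟨ζ, hZZ' hζ⟩, ?_, ?_⟩
      · rw [Finset.mem_filter]
        refine ⟨Finset.mem_univ _, ?_⟩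
        rw [he]
        simpa using hζ
      · rw [he]
        simp
  have hdet : (Matrix.vandermonde e).det ≠ 0 := Matrix.det_vandermonde_ne_zero_iff.2 hinj
  set V : Matrix (Fin (m + n)) (Fin (m + n)) (Polynomial ℂ) :=
    (Polynomial.C : ℂ →+* Polynomial ℂ).mapMatrix (Matrix.vandermonde e) with hV
  set M := V * Polynomial.sylvester F G m n with hM
  have hMdet : M.det = Polynomial.C (Matrix.vandermonde e).det * Polynomial.resultant F G m n := by
    rw [hM, Matrix.det_mul, hV, ← RingHom.map_det]
    rfl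
  -- the rows of the common roots vanish at z₀
  have hrow : ∀ i j, e i ∈ Z → (M i j).eval z₀ = 0 := by
    intro i j hi
    have h1 := MultR_vec F₀ G₀ m n hF₀d hG₀d (e i) (hZ _ hi).1 (hZ _ hi).2 j
    rw [← h1, hM, Matrix.mul_apply, Polynomial.eval_finsetSum]
    refine Finset.sum_congr rfl ?_
    intro l _
    rw [Polynomial.eval_mul, hF₀, hG₀, Polynomial.sylvester_map_map]
    have h2 : (V i l).eval z₀ = e i ^ (l : ℕ) := by
      rw [hV]
      simp [Matrix.vandermonde_apply]
    rw [h2]
    rfl
  have hdvd : ∀ i j, ∃ q : Polynomial ℂ,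
      M i j = (if e i ∈ Z then (Polynomial.X - Polynomial.C z₀) else 1) * q := by
    intro i j
    by_cases hi : e i ∈ Z
    · rw [if_pos hi]
      exact Polynomial.dvd_iff_isRoot.2 (hrow i j hi)
    · rw [if_neg hi]
      exact ⟨M i j, (one_mul _).symm⟩
  choose q hq using hdvd
  have hMq : M.det = (Polynomial.X - Polynomial.C z₀) ^ Z.card * (Matrix.of q).det := by
    have h1 : M = Matrix.of fun i j =>
        (if e i ∈ Z then (Polynomial.X - Polynomial.C z₀) else 1) * (Matrix.of q) i j := by
      ext1 i j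
      exact hq i j
    rw [h1, Matrix.det_mul_column, Finset.prod_ite, Finset.prod_const, Finset.prod_const_one,
      mul_one, hfil]
  have hu : IsUnit (Polynomial.C (Matrix.vandermonde e).det) :=
    Polynomial.isUnit_C.2 (isUnit_iff_ne_zero.2 hdet)
  have hfin : (Polynomial.X - Polynomial.C z₀) ^ Z.card ∣
      Polynomial.C (Matrix.vandermonde e).det * Polynomial.resultant F G m n := by
    rw [← hMdet, hMq]
    exact dvd_mul_right _ _
  exact (IsUnit.dvd_mul_left hu).1 hfin

end Pool.Agent.H87.BZ
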