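import Pool.Agent.H87.BZ.Uni

/-!
# Project BZ, module Red: products, reduction to the reciprocal case
-/

set_option autoImplicit false

open Finset Filter Topology MeasureTheory

namespace Pool.Agent.H87.BZ

open Pool.Agent.H87.MM

variable {n : ℕ}

theorem hom_ext {r : ℕ} {M : Type*} [AddCommGroup M] {σ τ : (Fin r → ℤ) →+ M}
    (h : ∀ i, σ (Pi.single i 1) = τ (Pi.single i 1)) : σ = τ := by
  classical
  refine AddMonoidHom.ext fun x => ?_
  have hx : x = ∑ i, x i • (Pi.single i 1 : Fin r → ℤ) := by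
    funext j
    rw [Finset.sum_apply, Finset.sum_eq_single j]
    · simp
    · intro b _ hb
      rw [Pi.smul_apply, Pi.single_eq_of_ne hb.symm, smul_zero]
    · intro hj
      exact absurd (mem_univ j) hj
  rw [hx, map_sum, map_sum]
  exact sum_congr rfl fun i _ => by rw [map_zsmul, map_zsmul, h]

theorem SP_rename {r r' l : ℕ} (f : Fin r → Fin r') (τ : (Fin r' → ℤ) →+ (Fin l → ℤ))
    (G : MvPolynomial (Fin r) ℤ) :
    SP τ (MvPolynomial.rename f G) = SP (τ.comp (exv f)) G := by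
  have h : (SP τ).comp (MvPolynomial.rename f : MvPolynomial (Fin r) ℤ →ₐ[ℤ] _).toRingHom =
      SP (τ.comp (exv f)) := by
    refine MvPolynomial.ringHom_ext (fun c => ?_) fun i => ?_
    · change SP τ (MvPolynomial.rename f (MvPolynomial.C c)) = _
      rw [MvPolynomial.rename_C]
      have : ∀ c : ℤ, (MvPolynomial.C c : MvPolynomial (Fin r') ℤ) = (c : MvPolynomial _ ℤ) :=
        fun c => by simp
      have h2 : ∀ c : ℤ, (MvPolynomial.C c : MvPolynomial (Fin r) ℤ) = (c : MvPolynomial _ ℤ) :=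
        fun c => by simp
      rw [this, h2, map_intCast, map_intCast]
    · change SP τ (MvPolynomial.rename f (MvPolynomial.X i)) = _
      rw [MvPolynomial.rename_X, SP_X, SP_X, AddMonoidHom.comp_apply, exv_single]
  exact congrArg (fun φ : MvPolynomial (Fin r) ℤ →+* _ => φ G) h

theorem mA_congr {r r' l : ℕ} {τ : (Fin r' → ℤ) →+ (Fin l → ℤ)} {σ : (Fin r → ℤ) →+ (Fin l → ℤ)}
    {G' : MvPolynomial (Fin r') ℤ} {G : MvPolynomial (Fin r) ℤ} (h : SP τ G' = SP σ G) :
    mA τ G' = mA σ G := by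
  obtain ⟨z, P, -, hP, -⟩ := exists_poly τ G' G'
  rw [← mm_eq_mA τ hP]
  rw [h] at hP
  rw [← mm_eq_mA σ hP]

theorem mA_mul {r l : ℕ} {τ : (Fin r → ℤ) →+ (Fin l → ℤ)} {A B : MvPolynomial (Fin r) ℤ}
    (hA : SP τ A ≠ 0) (hB : SP τ B ≠ 0) : mA τ (A * B) = mA τ A + mA τ B := by
  obtain ⟨z, P, Q, hP, hQ⟩ := exists_poly τ A B
  have hP0 : P ≠ 0 := by
    rintro rfl
    rw [map_zero] at hP
    exact mul_ne_zero (mo_ne _) hA hP.symm
  have hQ0 : Q ≠ 0 := by
    rintro rfl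
    rw [map_zero] at hQ
    exact mul_ne_zero (mo_ne _) hB hQ.symm
  have hPQ : JJ l (P * Q) = mo (iot z + iot z) * SP τ (A * B) := by
    rw [map_mul, map_mul, hP, hQ, ← mo_mul]
    ring
  rw [← mm_eq_mA τ hPQ, ← mm_eq_mA τ hP, ← mm_eq_mA τ hQ, mm_mul hP0 hQ0]

/-- the product of two polynomials in disjoint sets of variables -/
noncomputable def tp {r s : ℕ} (G : MvPolynomial (Fin r) ℤ) (H : MvPolynomial (Fin s) ℤ) :
    MvPolynomial (Fin (r + s)) ℤ :=
  MvPolynomial.rename (Fin.castAdd s) G * MvPolynomial.rename (Fin.natAdd r) H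

theorem tp_ne_zero {r s : ℕ} {G : MvPolynomial (Fin r) ℤ} {H : MvPolynomial (Fin s) ℤ}
    (hG : G ≠ 0) (hH : H ≠ 0) : tp G H ≠ 0 := by
  refine mul_ne_zero ?_ ?_
  · rw [Ne, ← map_zero (MvPolynomial.rename (Fin.castAdd s) :
      MvPolynomial (Fin r) ℤ →ₐ[ℤ] MvPolynomial (Fin (r + s)) ℤ)]
    exact fun h => hG (MvPolynomial.rename_injective _ (Fin.castAdd_injective r s) h)
  · rw [Ne, ← map_zero (MvPolynomial.rename (Fin.natAdd r) :
      MvPolynomial (Fin s) ℤ →ₐ[ℤ] MvPolynomial (Fin (r + s)) ℤ)]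
    exact fun h => hH (MvPolynomial.rename_injective _ (Fin.natAdd_injective s r) h)

theorem InM_tp {r s : ℕ} {G : MvPolynomial (Fin r) ℤ} {H : MvPolynomial (Fin s) ℤ} {x y : ℝ}
    (hx : InM G x) (hy : InM H y) : InM (tp G H) (x + y) := by
  obtain ⟨l, σ, hσ, rfl⟩ := hx
  obtain ⟨k, ρ, hρ, rfl⟩ := hy
  obtain ⟨τ, hτ⟩ := exists_hom (r := r + s) (l := l + k)
    (Fin.addCases (fun i => exv (Fin.castAdd k) (σ (Pi.single i 1)))
      fun i => exv (Fin.natAdd l) (ρ (Pi.single i 1)))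
  have h1 : τ.comp (exv (Fin.castAdd s)) = (exv (Fin.castAdd k)).comp σ := by
    refine hom_ext fun i => ?_
    rw [AddMonoidHom.comp_apply, exv_single, hτ, Fin.addCases_left]
    rfl
  have h2 : τ.comp (exv (Fin.natAdd r)) = (exv (Fin.natAdd l)).comp ρ := by
    refine hom_ext fun i => ?_
    rw [AddMonoidHom.comp_apply, exv_single, hτ, Fin.addCases_right]
    rfl
  have h3 : SP τ (MvPolynomial.rename (Fin.castAdd s) G) =
      SP ((exv (Fin.castAdd k)).comp σ) G := by rw [SP_rename, h1]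
  have h4 : SP τ (MvPolynomial.rename (Fin.natAdd r) H) =
      SP ((exv (Fin.natAdd l)).comp ρ) H := by rw [SP_rename, h2]
  have h5 : SP τ (MvPolynomial.rename (Fin.castAdd s) G) ≠ 0 := by
    rw [h3]
    exact SP_exv_ne (Fin.castAdd_injective l k) hσ
  have h6 : SP τ (MvPolynomial.rename (Fin.natAdd r) H) ≠ 0 := by
    rw [h4]
    exact SP_exv_ne (Fin.natAdd_injective k l) hρ
  refine ⟨l + k, τ, ?_, ?_⟩
  · unfold tp
    rw [map_mul]
    exact mul_ne_zero h5 h6
  · unfold tp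
    rw [mA_mul h5 h6, mA_congr h3, mA_congr h4, mA_exv (Fin.castAdd_injective l k),
      mA_exv (Fin.natAdd_injective k l)]

theorem recip_of_associated {G H : MvPolynomial (Fin n) ℤ} (h : Associated G H) (hG : Recip G) :
    Recip H := by
  obtain ⟨u, rfl⟩ := h
  obtain ⟨c, hc, hu⟩ := MvPolynomial.isUnit_iff_eq_C_of_isReduced.mp u.isUnit
  have hcoeff : ∀ m, (G * (u : MvPolynomial (Fin n) ℤ)).coeff m = G.coeff m * c := by
    intro m
    rw [hu, mul_comm, MvPolynomial.coeff_C_mul, mul_comm]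
  obtain ⟨a, ε, hε, h1, h2⟩ := hG
  refine ⟨a, ε, hε, fun m hm => h1 m ?_, fun m hm => ?_⟩
  · rw [MvPolynomial.mem_support_iff] at hm ⊢
    rw [hcoeff] at hm
    exact left_ne_zero_of_mul hm
  · rw [hcoeff, hcoeff, h2 m hm]
    ring

/-- products of nonconstant reciprocal irreducible polynomials of positive measure -/
def RP (R : MvPolynomial (Fin n) ℤ) : Prop :=
  ∃ s : Multiset (MvPolynomial (Fin n) ℤ), (∀ G ∈ s, Irreducible G ∧ Recip G ∧ 0 < mm G ∧
    ¬ ∃ c : ℤ, G = MvPolynomial.C c) ∧ R = s.prod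

theorem Cl_mul_irr {P i : MvPolynomial (Fin n) ℤ} (hi : Irreducible i) (hP : Cl P)
    (h : 0 < mm i → ¬ Recip i ∨ ∃ c : ℤ, i = MvPolynomial.C c) : Cl (i * P) := by
  intro G hG hd hpos
  have hprime := UniqueFactorizationMonoid.irreducible_iff_prime.mp hG
  rcases hprime.dvd_or_dvd hd with h1 | h1
  · have hass : Associated G i := hG.associated_of_dvd hi h1
    have hmm : mm i = mm G := by
      obtain ⟨u, rfl⟩ := hass
      rw [mm_mul hG.ne_zero u.ne_zero, mm_unit u.isUnit, add_zero]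
    rcases h (by rw [hmm]; exact hpos) with h2 | ⟨c, hc⟩
    · exact Or.inl fun h3 => h2 (recip_of_associated hass h3)
    · refine Or.inr ?_
      have hc0 : c ≠ 0 := by
        rintro rfl
        exact hi.ne_zero (by rw [hc, map_zero])
      exact eq_C_of_dvd_C hc0 (hc ▸ h1)
  · exact hP G hG h1 hpos

theorem Cl_unit {u : MvPolynomial (Fin n) ℤ} (hu : IsUnit u) : Cl u := by
  intro G hG hd _
  exact absurd (isUnit_of_dvd_unit hd hu) hG.not_isUnit

theorem split {F : MvPolynomial (Fin n) ℤ} (hF : F ≠ 0) : ∃ P R : MvPolynomial (Fin n) ℤ,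
    P ≠ 0 ∧ R ≠ 0 ∧ F = P * R ∧ Cl P ∧ RP R := by
  classical
  revert hF
  induction F using WfDvdMonoid.induction_on_irreducible with
  | zero => intro h; exact absurd rfl h
  | unit u hu =>
    intro _
    exact ⟨u, 1, hu.ne_zero, one_ne_zero, (mul_one u).symm, Cl_unit hu, 0,
      fun G hG => absurd hG (Multiset.notMem_zero G), by simp⟩
  | mul a i ha hi ih =>
    intro _
    obtain ⟨P, R, hP, hR, rfl, hcl, s, hs, hsR⟩ := ih ha
    by_cases h : 0 < mm i → ¬ Recip i ∨ ∃ c : ℤ, i = MvPolynomial.C c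
    · exact ⟨i * P, R, mul_ne_zero hi.ne_zero hP, hR, by ring, Cl_mul_irr hi hcl h, s, hs, hsR⟩
    · push Not at h
      obtain ⟨h1, h2, h3⟩ := h
      refine ⟨P, i * R, hP, mul_ne_zero hi.ne_zero hR, by ring, hcl, i ::ₘ s, fun G hG => ?_, by
        rw [Multiset.prod_cons, hsR]⟩
      rcases Multiset.mem_cons.mp hG with h4 | h4
      · rw [h4]
        exact ⟨hi, h2, h1, fun ⟨c, hc⟩ => h3 c hc⟩
      · exact hs G h4

/-- the question of the problem for a class of polynomials -/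
def QF (K : ∀ k : ℕ, MvPolynomial (Fin k) ℤ → Prop) : Prop :=
  ∀ (d : ℕ → ℕ) (F : ∀ n : ℕ, MvPolynomial (Fin (d n)) ℤ), (∀ n, F n ≠ 0) →
    (∀ n, K (d n) (F n)) →
    (∀ (r : ℕ) (G : MvPolynomial (Fin r) ℤ), G ≠ 0 → {n | InM G (mm (F n))}.Finite) →
    Tendsto (fun n => mm (F n)) atTop atTop

theorem QF_Cl : QF fun _ F => Cl F := by
  intro d F hF hcl hfin
  rw [tendsto_atTop]
  intro C
  obtain ⟨N, hN⟩ := uniform_alt C
  by_cases h0 : alt N = 0
  · refine Eventually.of_forall fun n => ?_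
    by_contra hcon
    obtain ⟨l, σ, hσ, -⟩ := hN _ (F n) (hF n) (hcl n) (not_le.mp hcon).le
    exact hσ (by rw [h0, map_zero])
  · have h1 := hfin _ (alt N) h0
    have h2 : {n | ¬ C ≤ mm (F n)}.Finite :=
      h1.subset fun n hn => hN _ (F n) (hF n) (hcl n) (not_le.mp hn).le
    rw [← Nat.cofinite_eq_atTop]
    exact h2

theorem QF_red (h : QF fun _ F => RP F) : QF fun _ _ => True := by
  intro d F hF _ hfin
  rw [tendsto_atTop]
  intro C
  by_contra hcon
  rw [not_eventually] at hcon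
  obtain ⟨φ, hφ, hφC⟩ := extraction_of_frequently_atTop hcon
  choose P R hP hR hPR hcl hRP using fun j => split (hF (φ j))
  have hsum : ∀ j, mm (F (φ j)) = mm (P j) + mm (R j) := fun j => by
    rw [hPR j, mm_mul (hP j) (hR j)]
  have hPC : ∀ j, mm (P j) ≤ C := fun j => by
    have h1 := not_le.mp (hφC j)
    have h2 := mm_nonneg (hR j)
    rw [hsum] at h1
    linarith
  have hRC : ∀ j, mm (R j) ≤ C := fun j => by
    have h1 := not_le.mp (hφC j)
    have h2 := mm_nonneg (hP j)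
    rw [hsum] at h1
    linarith
  obtain ⟨N, hN⟩ := uniform_alt C
  have hPN : ∀ j, InM (alt N) (mm (P j)) := fun j => hN _ (P j) (hP j) (hcl j) (hPC j)
  have h0 : alt N ≠ 0 := by
    intro h0
    obtain ⟨l, σ, hσ, -⟩ := hPN 0
    exact hσ (by rw [h0, map_zero])
  have hnt : ¬ Tendsto (fun j => mm (R j)) atTop atTop := by
    intro ht
    obtain ⟨j, hj⟩ := ((tendsto_atTop.mp ht) (C + 1)).exists
    have := hRC j
    linarith
  have h1 : ¬ ∀ (r : ℕ) (G : MvPolynomial (Fin r) ℤ), G ≠ 0 → {j | InM G (mm (R j))}.Finite :=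
    fun h2 => hnt (h (fun j => d (φ j)) R hR hRP h2)
  push Not at h1
  obtain ⟨r, G, hG, hinf⟩ := h1
  have h2 := hfin _ (tp (alt N) G) (tp_ne_zero h0 hG)
  refine (Set.Infinite.image (hφ.injective.injOn) hinf) (h2.subset ?_)
  rintro _ ⟨j, hj, rfl⟩
  change InM _ (mm (F (φ j)))
  rw [hsum]
  exact InM_tp (hPN j) hj

theorem chr_exp {l : ℕ} (t : Fin l → ℝ) (x : Fin l → ℤ) : chr t (.ofAdd x) =
    Complex.exp (((2 * Real.pi * ∑ j, ((x j : ℤ) : ℝ) * t j : ℝ) : ℂ) * Complex.I) := by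
  rw [chr_apply]
  have h2 : ∀ j, Complex.exp ((2 * Real.pi * t j : ℝ) * Complex.I) ^ (x j) =
      Complex.exp (((2 * Real.pi * (((x j : ℤ) : ℝ) * t j) : ℝ) : ℂ) * Complex.I) := by
    intro j
    rw [← Complex.exp_int_mul]
    congr 1
    push_cast
    ring
  rw [Finset.prod_congr rfl fun j _ => h2 j, ← Complex.exp_sum]
  congr 1
  rw [← Finset.sum_mul]
  congr 1
  rw [← Complex.ofReal_sum, Finset.mul_sum]

theorem ev_SP_eval {r l : ℕ} (σ : (Fin r → ℤ) →+ (Fin l → ℤ)) (G : MvPolynomial (Fin r) ℤ)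
    (t : Fin l → ℝ) : ev (chr t) (SP σ G) = MvPolynomial.eval
      (fun i => Complex.exp (((2 * Real.pi * ∑ j, ((σ (Pi.single i 1) j : ℤ) : ℝ) * t j : ℝ) : ℂ) *
        Complex.I)) (MvPolynomial.map (Int.castRingHom ℂ) G) := by
  rw [ev_SP, ev_lp_eval]
  congr 2
  funext i
  exact chr_exp t (σ (Pi.single i 1))

/-- the set `M(G)` in terms of matrices -/
theorem InM_iff {r : ℕ} (G : MvPolynomial (Fin r) ℤ) (x : ℝ) : InM G x ↔
    ∃ (l : ℕ) (A : Fin r → Fin l → ℤ), (∃ t : Fin l → ℝ, MvPolynomial.eval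
      (fun i => Complex.exp (((2 * Real.pi * ∑ j, (A i j : ℝ) * t j : ℝ) : ℂ) * Complex.I))
        (MvPolynomial.map (Int.castRingHom ℂ) G) ≠ 0) ∧
      x = ∫ t : Fin l → ℝ in Set.univ.pi (fun _ => Set.Icc (0 : ℝ) 1),
        Real.log ‖MvPolynomial.eval
          (fun i => Complex.exp (((2 * Real.pi * ∑ j, (A i j : ℝ) * t j : ℝ) : ℂ) * Complex.I))
          (MvPolynomial.map (Int.castRingHom ℂ) G)‖ := by
  constructor
  · rintro ⟨l, σ, hσ, rfl⟩
    refine ⟨l, fun i j => σ (Pi.single i 1) j, ?_, mA_eq σ G⟩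
    obtain ⟨z, P, -, hP, -⟩ := exists_poly σ G G
    obtain ⟨t, ht⟩ := exists_value hP hσ
    rw [ev_SP_eval] at ht
    exact ⟨t, ht⟩
  · rintro ⟨l, A, ⟨t, ht⟩, rfl⟩
    obtain ⟨σ, hσ⟩ := exists_hom A
    refine ⟨l, σ, fun h => ?_, ?_⟩
    · have h1 := ev_SP_eval σ G t
      rw [h, map_zero] at h1
      simp only [hσ] at h1
      exact ht h1.symm
    · rw [mA_eq]
      simp only [hσ]

/-- the question for products of a polynomial without reciprocal factors and a polynomial with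
measure in one set `M(H)` -/
theorem QF_part {r₀ : ℕ} {H : MvPolynomial (Fin r₀) ℤ} (hH : H ≠ 0) :
    QF fun _ F => ∃ P R, F = P * R ∧ Cl P ∧ InM H (mm R) := by
  intro d F hF hcl hfin
  rw [tendsto_atTop]
  intro C
  obtain ⟨N, hN⟩ := uniform_alt C
  have key : ∀ n, ¬ C ≤ mm (F n) → alt N ≠ 0 ∧ InM (tp (alt N) H) (mm (F n)) := by
    intro n hn
    obtain ⟨P, R, hPR, h1, h2⟩ := hcl n
    have hP : P ≠ 0 := by
      rintro rfl
      exact hF n (by rw [hPR, zero_mul])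
    have hR : R ≠ 0 := by
      rintro rfl
      exact hF n (by rw [hPR, mul_zero])
    have hsum : mm (F n) = mm P + mm R := by rw [hPR, mm_mul hP hR]
    have h3 : mm P ≤ C := by
      have h4 := mm_nonneg hR
      have h5 := not_le.mp hn
      rw [hsum] at h5
      linarith
    have h6 := hN _ P hP h1 h3
    refine ⟨?_, ?_⟩
    · intro h0
      obtain ⟨l, σ, hσ, -⟩ := h6
      exact hσ (by rw [h0, map_zero])
    · rw [hsum]
      exact InM_tp h6 h2
  by_cases h0 : alt N = 0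
  · refine Eventually.of_forall fun n => ?_
    by_contra hcon
    exact (key n hcon).1 h0
  · rw [← Nat.cofinite_eq_atTop]
    exact (hfin _ _ (tp_ne_zero h0 hH)).subset fun n hn => (key n hn).2

end Pool.Agent.H87.BZ
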