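import Pool.Agent.H87.BZ.Defs

/-!
# Project BZ, module Rpt: upper bound for a resultant by the Mahler measure

* `rpt`: for complex polynomials `f`, `g` of degrees at most `m`, `n`:
  `|Res(f, g)| ≤ b ^ m * M(f) ^ n` (formal degrees `m`, `n`), `b` at least the sum of the absolute values of
  the coefficients of `g`. Proof: `f = 0`: if `n = 0` the resultant is `(g.coeff 0) ^ m`
  (`resultant_zero_right_deg`), if `n > 0` it is `0` unless... (`resultant_zero_left`:
  `0 ^ n * (g.coeff 0) ^ m`). `f ≠ 0`, degree `m₀ ≤ m`: `resultant_add_left_deg` reduces to `m = m₀`, with a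
  factor `± (g.coeff n) ^ (m - m₀)`, of absolute value at most `b ^ (m - m₀)`; and for `m = natDegree f` one
  has `Res(f, g) = ± lc(f) ^ n * ∏_τ g(τ)` over the roots `τ` of `f` (`resultant_eq_prod_eval`), with
  `|g(τ)| ≤ b * max(1, |τ|) ^ n`, and `M(f) = |lc f| ∏ max(1, |τ|)`
  (`Polynomial.mahlerMeasure_eq_leadingCoeff_mul_prod_roots`).
-/

set_option autoImplicit false

namespace Pool.Agent.H87.BZ

private theorem Rpt_coeff (g : Polynomial ℂ) (i : ℕ) : ‖g.coeff i‖ ≤ g.sum (fun _ c => ‖c‖) := by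
  rw [Polynomial.sum_def]
  by_cases hi : i ∈ g.support
  · exact Finset.single_le_sum (f := fun j => ‖g.coeff j‖) (fun j _ => norm_nonneg _) hi
  · rw [Polynomial.notMem_support_iff.mp hi, norm_zero]
    exact Finset.sum_nonneg (fun j _ => norm_nonneg _)

private theorem Rpt_eval (g : Polynomial ℂ) (n : ℕ) (hg : g.natDegree ≤ n) (t : ℂ) :
    ‖g.eval t‖ ≤ g.sum (fun _ c => ‖c‖) * (max 1 ‖t‖) ^ n := by
  rw [Polynomial.eval_eq_sum, Polynomial.sum_def, Polynomial.sum_def, Finset.sum_mul]
  apply norm_sum_le_of_le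
  intro i hi
  rw [norm_mul, norm_pow]
  apply mul_le_mul_of_nonneg_left _ (norm_nonneg _)
  have h1 : i ≤ n := (Polynomial.le_natDegree_of_mem_supp i hi).trans hg
  calc ‖t‖ ^ i ≤ (max 1 ‖t‖) ^ i := pow_le_pow_left₀ (norm_nonneg _) (le_max_right _ _) _
    _ ≤ (max 1 ‖t‖) ^ n := pow_le_pow_right₀ (le_max_left _ _) h1

theorem rpt (f g : Polynomial ℂ) (m n : ℕ) (hf : f.natDegree ≤ m) (hg : g.natDegree ≤ n) (b : ℝ)
    (hb : g.sum (fun _ c => ‖c‖) ≤ b) :
    ‖Polynomial.resultant f g m n‖ ≤ b ^ m * f.mahlerMeasure ^ n := by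
  have hb0 : 0 ≤ b := by
    refine le_trans ?_ hb
    rw [Polynomial.sum_def]
    exact Finset.sum_nonneg (fun j _ => norm_nonneg _)
  by_cases hf0 : f = 0
  · subst hf0
    rw [Polynomial.resultant_zero_left, Polynomial.mahlerMeasure_zero]
    rcases Nat.eq_zero_or_pos n with hn | hn
    · subst hn
      simp only [pow_zero, one_mul, mul_one, norm_pow]
      exact pow_le_pow_left₀ (norm_nonneg _) ((Rpt_coeff g 0).trans hb) _
    · rw [zero_pow (by omega), zero_pow (by omega)]
      simp
  obtain ⟨k, rfl⟩ := Nat.exists_eq_add_of_le hf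
  rw [Polynomial.resultant_add_left_deg _ _ _ _ _ le_rfl,
    Polynomial.resultant_eq_prod_eval f g n hg (IsAlgClosed.splits f)]
  have h1 : ‖(f.roots.map g.eval).prod‖ ≤ b ^ f.natDegree *
      (f.roots.map (fun a => max 1 ‖a‖)).prod ^ n := by
    have hcard : f.roots.card = f.natDegree :=
      (IsAlgClosed.splits f).natDegree_eq_card_roots.symm
    rw [← hcard]
    generalize f.roots = s
    induction s using Multiset.induction_on with
    | empty => simp
    | cons a s ih =>
      simp only [Multiset.map_cons, Multiset.prod_cons, norm_mul, Multiset.card_cons]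
      calc ‖g.eval a‖ * ‖(s.map g.eval).prod‖
          ≤ (b * (max 1 ‖a‖) ^ n) * (b ^ s.card * (s.map (fun a => max 1 ‖a‖)).prod ^ n) := by
            apply mul_le_mul _ ih (norm_nonneg _) (by positivity)
            refine (Rpt_eval g n hg a).trans ?_
            exact mul_le_mul_of_nonneg_right hb (by positivity)
        _ = _ := by rw [mul_pow, pow_succ]; ring
  rw [Polynomial.mahlerMeasure_eq_leadingCoeff_mul_prod_roots, norm_mul, norm_mul, norm_mul,
    norm_pow, norm_pow, norm_pow, norm_neg, norm_one, one_pow, one_mul]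
  calc ‖g.coeff n‖ ^ k * (‖f.leadingCoeff‖ ^ n * ‖(f.roots.map g.eval).prod‖)
      ≤ b ^ k * (‖f.leadingCoeff‖ ^ n * (b ^ f.natDegree *
        (f.roots.map (fun a => max 1 ‖a‖)).prod ^ n)) := by
        apply mul_le_mul _ _ (by positivity) (by positivity)
        · exact pow_le_pow_left₀ (norm_nonneg _) ((Rpt_coeff g n).trans hb) _
        · exact mul_le_mul_of_nonneg_left h1 (by positivity)
    _ = _ := by rw [mul_pow, pow_add]; ring

end Pool.Agent.H87.BZ
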