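import Pool.Agent.H87.BZ.Defs

/-!
# Project BZ, module VSum: short sums of roots of unity

`vsum`: let `ω` have finite order `n` (`orderOf ω`), divisible by the prime `p`, and let `P` be a nonzero
integer polynomial with fewer than `p` terms whose exponents are distinct modulo `p`. Then `P(ω) ≠ 0`.
Proof. Let `ζ` be a primitive `p`-th root of unity. For all `j : ZMod p` except at most one, `ω ζ^j` is again
a primitive `n`-th root of unity: if `p² ∣ n` this holds for all `j` (`(ω ζ^j)^p = ω^p` has order `n/p`,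
divisible by `p`, so the order of `ω ζ^j` is `n`); if `p ∥ n`, write `n = p m`, `p ∤ m`; the order of
`ω ζ^j` divides `n`, is divisible by `orderOf (ω^p) = m`, so it is `m` or `n`; it is `m` iff
`ω^m ζ^(j m) = 1`, which holds for exactly one `j` modulo `p`. The primitive `n`-th roots of unity are
conjugate (they are the roots of `Polynomial.cyclotomic n ℤ`, which is the minimal polynomial of `ω` over
`ℤ`/`ℚ`: `Polynomial.cyclotomic_eq_minpoly`), so `P(ω) = 0` gives `P(ω ζ^j) = 0` for all `j ≠ j₀`. Put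
`F(j) = ∑_{h ∈ supp P} c_h ω^h ζ^(j h)`. For every residue `a` modulo `p` one has
`∑_j F(j) ζ^(-j a) = p * (c_h ω^h)` if `a` is the residue of (the unique) `h ∈ supp P`, and `0` if there is
none. The left side is `F(j₀) ζ^(-j₀ a)`. As `P` has fewer than `p` terms there is a residue `a` not
represented, so `F(j₀) = 0`, hence `c_h ω^h = 0` for all `h ∈ supp P`: contradiction (`P ≠ 0`).
`root_pow`: if `p ∤ orderOf ω` (`orderOf ω = n > 0`), then `ω ^ p` is again a primitive `n`-th root of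
unity, so it is a root of every integer polynomial which vanishes at `ω`.
-/

set_option autoImplicit false

namespace Pool.Agent.H87.BZ

/-- Primitive roots of unity of the same order are conjugate. -/
private theorem VSum_conj {P : Polynomial ℤ} {ω μ : ℂ} (h0 : 0 < orderOf ω)
    (hμ : orderOf μ = orderOf ω) (h : Polynomial.aeval ω P = 0) : Polynomial.aeval μ P = 0 := by
  have h1 : IsPrimitiveRoot ω (orderOf ω) := IsPrimitiveRoot.orderOf ω
  have h2 : IsPrimitiveRoot μ (orderOf ω) := hμ ▸ IsPrimitiveRoot.orderOf μ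
  have h3 : minpoly ℤ ω ∣ P :=
    minpoly.isIntegrallyClosed_dvd (h1.isIntegral h0) h
  rw [← Polynomial.cyclotomic_eq_minpoly h1 h0, Polynomial.cyclotomic_eq_minpoly h2 h0] at h3
  obtain ⟨Q, rfl⟩ := h3
  rw [map_mul, minpoly.aeval, zero_mul]

private theorem VSum_me {ζ : ℂ} (hζ : ζ ≠ 0) (a b : ℕ) :
    ζ ^ a = ζ ^ b ↔ a ≡ b [MOD orderOf ζ] := by
  have h := pow_eq_pow_iff_modEq (x := Units.mk0 ζ hζ) (m := b) (n := a)
  rw [← orderOf_units, Units.val_mk0] at h
  rw [← h]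
  rw [Units.ext_iff, Units.val_pow_eq_pow_val, Units.val_pow_eq_pow_val, Units.val_mk0]

/-- Almost all twists of `ω` have the same order. -/
private theorem VSum_ord {p : ℕ} (hp : p.Prime) {ω ζ : ℂ} (hζ : orderOf ζ = p)
    (h0 : 0 < orderOf ω) (hpo : p ∣ orderOf ω) {i j : ℕ}
    (hi : orderOf (ω * ζ ^ i) ≠ orderOf ω) (hj : orderOf (ω * ζ ^ j) ≠ orderOf ω) :
    i ≡ j [MOD p] := by
  obtain ⟨m, hm⟩ := hpo
  have hp0 : 0 < p := hp.pos
  have hm0 : 0 < m := by
    rcases Nat.eq_zero_or_pos m with rfl | h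
    · omega
    · exact h
  have hζp : ζ ^ p = 1 := hζ ▸ pow_orderOf_eq_one ζ
  have key : ∀ k : ℕ, orderOf (ω * ζ ^ k) ≠ orderOf ω → (ω * ζ ^ k) ^ m = 1 := by
    intro k hk
    have h1 : orderOf (ω * ζ ^ k) ∣ orderOf ω := by
      rw [orderOf_dvd_iff_pow_eq_one, mul_pow, pow_orderOf_eq_one, one_mul, hm, ← pow_mul]
      rw [show k * (p * m) = p * (k * m) by ring, pow_mul, hζp, one_pow]
    have h2 : m ∣ orderOf (ω * ζ ^ k) := by
      have h3 : orderOf ((ω * ζ ^ k) ^ p) = m := by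
        rw [mul_pow, ← pow_mul, mul_comm k p, pow_mul, hζp, one_pow, mul_one]
        rw [orderOf_pow' _ hp0.ne', hm, Nat.gcd_mul_right_left, Nat.mul_div_cancel_left _ hp0]
      rw [← h3]
      exact orderOf_pow_dvd p
    obtain ⟨t, ht⟩ := h2
    have h4 : t ∣ p := by
      rw [ht, hm, mul_comm p m] at h1
      exact Nat.dvd_of_mul_dvd_mul_left hm0 h1
    rcases (Nat.dvd_prime hp).mp h4 with rfl | rfl
    · rw [mul_one] at ht
      rw [← ht]
      exact pow_orderOf_eq_one _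
    · exact absurd (by rw [ht, hm, mul_comm]) hk
  have hi' := key i hi
  have hj' := key j hj
  have hω0 : ω ≠ 0 := by
    rintro rfl
    simp at h0
  have hζ0 : ζ ≠ 0 := by
    rintro rfl
    rw [zero_pow hp0.ne'] at hζp
    exact zero_ne_one hζp
  have h5 : ζ ^ (i * m) = ζ ^ (j * m) := by
    rw [mul_pow, ← pow_mul] at hi' hj'
    have : ω ^ m ≠ 0 := pow_ne_zero _ hω0
    apply mul_left_cancel₀ this
    rw [hi', hj']
  rw [VSum_me hζ0, hζ] at h5
  by_cases hpm : p ∣ m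
  · exfalso
    obtain ⟨s, rfl⟩ := hpm
    have h6 : (ω * ζ ^ i) ^ (p * s) = ω ^ (p * s) := by
      rw [mul_pow, ← pow_mul, show i * (p * s) = p * (i * s) by ring, pow_mul ζ p, hζp, one_pow,
        mul_one]
    rw [h6] at hi'
    have h7 := orderOf_dvd_of_pow_eq_one hi'
    rw [hm] at h7
    have h8 := Nat.le_of_dvd hm0 h7
    have h9 := hp.two_le
    nlinarith
  · have hc : Nat.gcd p m = 1 := (Nat.Prime.coprime_iff_not_dvd hp).mpr hpm
    exact Nat.ModEq.cancel_right_of_coprime hc h5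

private theorem VSum_geom {p : ℕ} (hp : 0 < p) {ζ : ℂ} (hζ : orderOf ζ = p) (h a : ℕ) :
    ∑ j ∈ Finset.range p, (ζ ^ j) ^ h * (ζ⁻¹ ^ j) ^ a =
      if h ≡ a [MOD p] then (p : ℂ) else 0 := by
  have hζp : ζ ^ p = 1 := hζ ▸ pow_orderOf_eq_one ζ
  have hζ0 : ζ ≠ 0 := by
    rintro rfl
    rw [zero_pow hp.ne'] at hζp
    exact zero_ne_one hζp
  have h1 : ∀ j : ℕ, (ζ ^ j) ^ h * (ζ⁻¹ ^ j) ^ a = (ζ ^ h * (ζ⁻¹) ^ a) ^ j := by
    intro j
    rw [mul_pow, ← pow_mul, ← pow_mul, ← pow_mul, ← pow_mul, mul_comm j h, mul_comm j a]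
  simp_rw [h1]
  split_ifs with hc
  · have h2 : ζ ^ h * (ζ⁻¹) ^ a = 1 := by
      rw [← hζ, ← VSum_me hζ0] at hc
      rw [hc, inv_pow, mul_inv_cancel₀ (pow_ne_zero _ hζ0)]
    rw [h2]
    simp
  · have h2 : ζ ^ h * (ζ⁻¹) ^ a ≠ 1 := by
      intro h3
      apply hc
      rw [← hζ, ← VSum_me hζ0]
      rw [inv_pow, mul_inv_eq_one₀ (pow_ne_zero _ hζ0)] at h3
      exact h3
    rw [geom_sum_eq h2]
    have h4 : (ζ ^ h * (ζ⁻¹) ^ a) ^ p = 1 := by
      rw [mul_pow, ← pow_mul, ← pow_mul, mul_comm h p, mul_comm a p, pow_mul, pow_mul, hζp,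
        inv_pow, hζp]
      simp
    rw [h4, sub_self, zero_div]

theorem vsum {p : ℕ} (hp : p.Prime) (P : Polynomial ℤ) (hP : P ≠ 0) (hc : P.support.card < p)
    (hinj : ∀ a ∈ P.support, ∀ b ∈ P.support, a ≡ b [MOD p] → a = b)
    {ω : ℂ} {n : ℕ} (hn : 0 < n) (hω : ω ^ n = 1) (hpo : p ∣ orderOf ω) :
    Polynomial.aeval ω P ≠ 0 := by
  intro h0
  classical
  have hp0 : 0 < p := hp.pos
  have hord : 0 < orderOf ω := orderOf_pos_iff.mpr (isOfFinOrder_iff_pow_eq_one.mpr ⟨n, hn, hω⟩)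
  obtain ⟨ζ, hζ'⟩ : ∃ ζ : ℂ, IsPrimitiveRoot ζ p := ⟨_, Complex.isPrimitiveRoot_exp p hp0.ne'⟩
  have hζ : orderOf ζ = p := hζ'.eq_orderOf.symm
  have hω0 : ω ≠ 0 := by
    rintro rfl
    rw [zero_pow hn.ne'] at hω
    exact zero_ne_one hω
  -- the values
  set F : ℕ → ℂ := fun j => Polynomial.aeval (ω * ζ ^ j) P with hF
  have hFj : ∀ j, F j = ∑ h ∈ P.support, (P.coeff h : ℂ) * ω ^ h * (ζ ^ j) ^ h := by
    intro j
    rw [hF]
    simp only
    rw [Polynomial.aeval_def, Polynomial.eval₂_eq_sum, Polynomial.sum_def]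
    apply Finset.sum_congr rfl
    intro h _
    rw [mul_pow]
    simp [mul_assoc]
  have hsum : ∀ a : ℕ, ∑ j ∈ Finset.range p, F j * (ζ⁻¹ ^ j) ^ a =
      ∑ h ∈ P.support, (P.coeff h : ℂ) * ω ^ h * (if h ≡ a [MOD p] then (p : ℂ) else 0) := by
    intro a
    simp_rw [hFj, Finset.sum_mul]
    rw [Finset.sum_comm]
    apply Finset.sum_congr rfl
    intro h _
    rw [← VSum_geom hp0 hζ h a, Finset.mul_sum]
    apply Finset.sum_congr rfl
    intro j _
    ring
  -- all but one value vanish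
  obtain ⟨j₀, hj₀p, hj₀⟩ : ∃ j₀ ∈ Finset.range p, ∀ j ∈ Finset.range p, j ≠ j₀ → F j = 0 := by
    by_cases hex : ∃ j₀ ∈ Finset.range p, orderOf (ω * ζ ^ j₀) ≠ orderOf ω
    · obtain ⟨j₀, hj₀, hne⟩ := hex
      refine ⟨j₀, hj₀, fun j hj hjj => ?_⟩
      by_cases hoj : orderOf (ω * ζ ^ j) = orderOf ω
      · exact VSum_conj hord hoj h0
      · exfalso
        apply hjj
        have h1 := VSum_ord hp hζ hord hpo hoj hne
        rw [Finset.mem_range] at hj hj₀
        exact Nat.ModEq.eq_of_lt_of_lt h1 hj hj₀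
    · push Not at hex
      exact ⟨0, Finset.mem_range.mpr hp0, fun j hj _ => VSum_conj hord (hex j hj) h0⟩
  have hζ0 : ζ ≠ 0 := hζ'.ne_zero hp0.ne'
  -- a residue which is not represented
  obtain ⟨a, ha, hna⟩ : ∃ a ∈ Finset.range p, a ∉ P.support.image (fun h => h % p) := by
    apply Finset.exists_mem_notMem_of_card_lt_card
    calc (P.support.image (fun h => h % p)).card ≤ P.support.card := Finset.card_image_le
      _ < p := hc
      _ = (Finset.range p).card := (Finset.card_range p).symm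
  have hFj₀ : F j₀ = 0 := by
    have h1 := hsum a
    have h2 : ∑ h ∈ P.support, (P.coeff h : ℂ) * ω ^ h * (if h ≡ a [MOD p] then (p : ℂ) else 0)
        = 0 := by
      apply Finset.sum_eq_zero
      intro h hh
      rw [if_neg, mul_zero]
      intro hmod
      apply hna
      rw [Finset.mem_image]
      refine ⟨h, hh, ?_⟩
      rw [Finset.mem_range] at ha
      rw [hmod, Nat.mod_eq_of_lt ha]
    rw [h2, Finset.sum_eq_single_of_mem j₀ hj₀p (fun j hj hjj => by rw [hj₀ j hj hjj, zero_mul])]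
      at h1
    rcases mul_eq_zero.mp h1 with h3 | h3
    · exact h3
    · exfalso
      exact pow_ne_zero _ (pow_ne_zero _ (inv_ne_zero hζ0)) h3
  obtain ⟨h, hh⟩ := Polynomial.nonempty_support_iff.mpr hP
  have h1 := hsum h
  have h2 : ∑ j ∈ Finset.range p, F j * (ζ⁻¹ ^ j) ^ h = 0 := by
    apply Finset.sum_eq_zero
    intro j hj
    by_cases hjj : j = j₀
    · rw [hjj, hFj₀, zero_mul]
    · rw [hj₀ j hj hjj, zero_mul]
  rw [h2, Finset.sum_eq_single_of_mem h hh, if_pos (Nat.ModEq.refl h)] at h1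
  · have h3 : (P.coeff h : ℂ) ≠ 0 := by
      exact_mod_cast Polynomial.mem_support_iff.mp hh
    have h4 : (p : ℂ) ≠ 0 := by exact_mod_cast hp0.ne'
    exact mul_ne_zero (mul_ne_zero h3 (pow_ne_zero _ hω0)) h4 h1.symm
  · intro b hb hbh
    rw [if_neg, mul_zero]
    intro hmod
    exact hbh (hinj b hb h hh hmod)

theorem root_pow {p : ℕ} (hp : p.Prime) (P : Polynomial ℤ) {ω : ℂ} {n : ℕ} (hn : 0 < n)
    (hω : ω ^ n = 1) (hpo : ¬ p ∣ orderOf ω) (h : Polynomial.aeval ω P = 0) :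
    Polynomial.aeval (ω ^ p) P = 0 := by
  have hord : 0 < orderOf ω := orderOf_pos_iff.mpr (isOfFinOrder_iff_pow_eq_one.mpr ⟨n, hn, hω⟩)
  apply VSum_conj hord _ h
  apply Nat.Coprime.orderOf_pow
  exact ((Nat.Prime.coprime_iff_not_dvd hp).mpr hpo).symm

end Pool.Agent.H87.BZ
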