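import Pool.Agent.H87.BZ.Sp1
import Pool.Agent.H87.BZ.Conj
import Pool.Agent.H87.BZ.VSum
import Pool.Agent.H87.BZ.FewM
import Pool.Agent.H87.BZ.Elim0

/-!
# Project BZ, module Sel: selection of a nontorsion root

`e` is irreducible, not a monomial, the variable `i` occurs in `e`, and `e ∣ P`, where `P` has at most `t`
terms whose images `∑ û m` are distinct modulo a prime `p > t`; `e ∤ expand p e`. `û i` dominates the other
`û j`, and `û` separates exponents up to `K`. `δ ≠ 0` does not contain the variable `i`. Then `sp1 û e` has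
an irreducible factor `E` with a nontorsion root, such that `δ(z ^ û) ≠ 0` whenever `E(ζ z) = 0`, `ζ ^ β = 1`.
Proof. Let `s = ∑ j ≠ i, û j`. `elim0 i e (expand p e)` (`Da = D`, `Db = p * D`:
`(expand p e).degreeOf j = p * e.degreeOf j`; an irreducible common factor is associated to `e`, so would give
`e ∣ expand p e`) gives `ρ ≠ 0` with `ρ.degreeOf i = 0`, `ρ.degreeOf j ≤ 2 D (p D) + D + p D ≤ K`. Let `S` be
the finite set of the roots of `sp1 û ρ` (nonzero by `sp1_ne_zero`; at most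
`natDegree (sp1 û ρ) ≤ (2 D (p D) + D + p D) s` of them, `natDegree_sp1`) and of the `ζ z` with `ζ ^ β = 1`
and `z` a root of `sp1 û δ` (at most `β * Dδ * s`; `sp1 û δ ≠ 0`, `Dδ ≤ K` because `t, β ≥ 1`). If every
nonzero root `ω` of `sp1 û e` were in `S`, then by `width_le` (with `sp1 û P`, which is not zero and has at
most `t` terms: `support_sp1`, `coeff_sp1`) and `width_sp1` one would have
`û i ≤ t * ((2 D (p D) + D + p D) s + β Dδ s) + D s ≤ K * s < û i`, a contradiction. So there is a nonzero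
root `ξ ∉ S` of `sp1 û e`. If `ξ ^ n = 1`, `n > 0`: as `P(ξ ^ û) = 0` and `sp1 û P` has fewer than `p` terms,
distinct modulo `p`, `vsum` gives `p ∤ orderOf ξ`, and then `root_pow` (for `sp1 û e`) gives
`(sp1 û e)(ξ ^ p) = 0`, i.e. `expand p e` vanishes at `ξ ^ û` (`aeval_sp1_expand`), so `ρ(ξ ^ û) = 0`
(`aeval_of_span`), `ξ ∈ S`: contradiction. So `NTor ξ`. Let `E` be an irreducible factor of `sp1 û e ≠ 0` in
`ℤ[X]` with `E(ξ) = 0` (factor `sp1 û e` into irreducibles). The last property is `conj_root` with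
`g = sp1 û δ`: if `ζ ^ β = 1`, `ζ z = ξ`, `g(z) = 0`, then `ξ ∈ S`.
-/

set_option autoImplicit false

namespace Pool.Agent.H87.BZ


private theorem Sel_irr (f : Polynomial ℤ) (hf : f ≠ 0) (ξ : ℂ) (h : Polynomial.aeval ξ f = 0) :
    ∃ E : Polynomial ℤ, Irreducible E ∧ Polynomial.aeval ξ E = 0 ∧ E ∣ f := by
  obtain ⟨s, hs, u, hu⟩ := WfDvdMonoid.exists_factors f hf
  have h1 : Polynomial.aeval ξ s.prod = 0 := by
    have h2 : Polynomial.aeval ξ (s.prod * (u : Polynomial ℤ)) = 0 := by rw [hu]; exact h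
    rw [map_mul] at h2
    rcases mul_eq_zero.mp h2 with h3 | h3
    · exact h3
    · exfalso
      have hu1 : IsUnit (Polynomial.aeval ξ (u : Polynomial ℤ)) := u.isUnit.map _
      exact hu1.ne_zero h3
  rw [map_multiset_prod] at h1
  rw [Multiset.prod_eq_zero_iff] at h1
  obtain ⟨E, hE, hE0⟩ := Multiset.mem_map.mp h1
  refine ⟨E, hs E hE, hE0, ?_⟩
  have := Multiset.dvd_prod hE
  exact this.trans (Dvd.intro _ hu)

private theorem Sel_deg {k : ℕ} (i : Fin k) (û : Fin k → ℕ) (ρ : MvPolynomial (Fin k) ℤ) (R : ℕ)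
    (h0 : ρ.degreeOf i = 0) (hR : ∀ j, ρ.degreeOf j ≤ R) :
    (sp1 û ρ).natDegree ≤ R * ∑ j ∈ Finset.univ.erase i, û j := by
  refine (natDegree_sp1 û ρ).trans ?_
  rw [← Finset.add_sum_erase _ _ (Finset.mem_univ i), h0, mul_zero, zero_add, Finset.mul_sum]
  refine Finset.sum_le_sum fun j _ => ?_
  rw [mul_comm]
  exact Nat.mul_le_mul_right _ (hR j)

private theorem Sel_rt (g : Polynomial ℤ) (hg : g ≠ 0) (z : ℂ) :
    z ∈ (g.aroots ℂ).toFinset ↔ Polynomial.aeval z g = 0 := by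
  rw [Multiset.mem_toFinset, Polynomial.mem_aroots]
  exact ⟨fun h => h.2, fun h => ⟨hg, h⟩⟩

private theorem Sel_rtc (g : Polynomial ℤ) : (g.aroots ℂ).toFinset.card ≤ g.natDegree := by
  refine (Multiset.toFinset_card_le _).trans ?_
  refine (Polynomial.card_roots' _).trans ?_
  exact Polynomial.natDegree_map_le

theorem sel {k : ℕ} (i : Fin k) (e P δ : MvPolynomial (Fin k) ℤ) (D Dδ t p β K : ℕ)
    (û : Fin k → ℕ) (he : Irreducible e) (hei : e.degreeOf i ≠ 0)
    (hmon : ¬ ∃ m c, e = MvPolynomial.monomial m c) (hP : P ≠ 0) (heP : e ∣ P)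
    (ht : P.support.card ≤ t) (hp : p.Prime) (htp : t < p) (hD : ∀ j, e.degreeOf j ≤ D)
    (hmod : ∀ m ∈ P.support, ∀ m' ∈ P.support, m ≠ m' →
      ¬ (p : ℤ) ∣ ∑ j, (û j : ℤ) * ((m j : ℤ) - (m' j : ℤ)))
    (hexp : ¬ e ∣ MvPolynomial.expand p e) (hδ : δ ≠ 0) (hδi : δ.degreeOf i = 0)
    (hDδ : ∀ j, δ.degreeOf j ≤ Dδ) (hβ : 0 < β)
    (hK : D + t * (2 * D * (p * D) + D + p * D + β * Dδ) ≤ K)
    (hdom : K * ∑ j ∈ Finset.univ.erase i, û j < û i) (hsep : Sep û K) :
    ∃ E : Polynomial ℤ, Irreducible E ∧ HasNT E ∧ E ∣ sp1 û e ∧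
      ∀ z ζ : ℂ, ζ ^ β = 1 → Polynomial.aeval (ζ * z) E = 0 →
        MvPolynomial.aeval (fun j => z ^ û j) δ ≠ 0 := by
  classical
  have hpp : 0 < p := hp.pos
  -- exponents
  have ht1 : 1 ≤ t := by
    refine le_trans ?_ ht
    exact Finset.card_pos.mpr (MvPolynomial.support_nonempty.mpr hP)
  have hexpD : ∀ j, (MvPolynomial.expand p e).degreeOf j ≤ p * D := by
    intro j
    refine le_trans ?_ (Nat.mul_le_mul_left p (hD j))
    rw [MvPolynomial.degreeOf_le_iff]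
    intro m hm
    have h1 := MvPolynomial.support_expand_subset e hm
    obtain ⟨m', hm', rfl⟩ := Finset.mem_image.mp h1
    simp only [Finsupp.smul_apply, smul_eq_mul]
    exact Nat.mul_le_mul_left p (MvPolynomial.le_degreeOf_of_mem_support j hm')
  obtain ⟨ρ, hρ0, hρi, hρs, hρD⟩ := elim0 i e (MvPolynomial.expand p e) he.ne_zero D (p * D) hD
    hexpD (by
      intro g hg hge hgx
      exfalso
      have := hg.associated_of_dvd he hge
      exact hexp (this.symm.dvd.trans hgx))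
  set s : ℕ := ∑ j ∈ Finset.univ.erase i, û j with hs
  set R : ℕ := 2 * D * (p * D) + D + p * D with hR
  have hDK : D ≤ K := le_trans (Nat.le_add_right _ _) hK
  have hRK : R ≤ K := by
    refine le_trans ?_ hK
    nlinarith [Nat.zero_le (β * Dδ), Nat.zero_le D, Nat.zero_le R]
  have hDδK : Dδ ≤ K := by
    refine le_trans ?_ hK
    have h1 : Dδ ≤ β * Dδ := Nat.le_mul_of_pos_left _ hβ
    have h2 : R + β * Dδ ≤ t * (R + β * Dδ) := Nat.le_mul_of_pos_left _ ht1
    omega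
  have hρ1 : sp1 û ρ ≠ 0 := sp1_ne_zero hsep hρ0 fun j => (hρD j).trans hRK
  have hδ1 : sp1 û δ ≠ 0 := sp1_ne_zero hsep hδ fun j => (hDδ j).trans hDδK
  have he1 : sp1 û e ≠ 0 := sp1_ne_zero hsep he.ne_zero fun j => (hD j).trans hDK
  have hmod' : ∀ m ∈ P.support, ∀ m' ∈ P.support,
      (∑ j, û j * m j) ≡ (∑ j, û j * m' j) [MOD p] → m = m' := by
    intro m hm m' hm' h
    by_contra hne
    refine hmod m' hm' m hm (Ne.symm hne) ?_
    have h1 := (Nat.modEq_iff_dvd.mp h)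
    have h2 : ((∑ j, û j * m' j : ℕ) : ℤ) - ((∑ j, û j * m j : ℕ) : ℤ) =
        ∑ j, (û j : ℤ) * ((m' j : ℤ) - (m j : ℤ)) := by
      push_cast
      rw [← Finset.sum_sub_distrib]
      exact Finset.sum_congr rfl fun j _ => by ring
    rw [← h2]
    exact h1
  have hP1 : sp1 û P ≠ 0 := by
    obtain ⟨m, hm⟩ := MvPolynomial.support_nonempty.mpr hP
    intro h0
    have h1 := coeff_sp1 (û := û) (P := P)
      (fun m hm m' hm' h => hmod' m hm m' hm' (by rw [h])) hm
    rw [h0, Polynomial.coeff_zero] at h1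
    exact (MvPolynomial.mem_support_iff.mp hm) h1.symm
  have hPt : (sp1 û P).support.card ≤ t :=
    (Finset.card_le_card (support_sp1 û P)).trans (Finset.card_image_le.trans ht)
  have heP1 : sp1 û e ∣ sp1 û P := map_dvd _ heP
  -- the set S
  let S : Finset ℂ := ((sp1 û ρ).aroots ℂ).toFinset ∪
    ((Polynomial.nthRoots β (1 : ℂ)).toFinset ×ˢ ((sp1 û δ).aroots ℂ).toFinset).image
      fun q => q.1 * q.2
  have hScard : S.card ≤ R * s + β * (Dδ * s) := by
    refine (Finset.card_union_le _ _).trans ?_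
    refine Nat.add_le_add ((Sel_rtc _).trans (Sel_deg i û ρ R hρi hρD)) ?_
    refine Finset.card_image_le.trans ?_
    rw [Finset.card_product]
    refine Nat.mul_le_mul ?_ ((Sel_rtc _).trans (Sel_deg i û δ Dδ hδi hDδ))
    exact (Multiset.toFinset_card_le _).trans (Polynomial.card_nthRoots β 1)
  obtain ⟨ξ, hξ0, hξe, hξS⟩ : ∃ ξ : ℂ, ξ ≠ 0 ∧ Polynomial.aeval ξ (sp1 û e) = 0 ∧ ξ ∉ S := by
    by_contra hcon
    have hcon' : ∀ z : ℂ, z ≠ 0 → Polynomial.aeval z (sp1 û e) = 0 → z ∈ S := by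
      intro z hz hze
      by_contra hzS
      exact hcon ⟨z, hz, hze, hzS⟩
    have h1 := width_le (sp1 û e) (sp1 û P) hP1 heP1 S hcon'
    have h2 := width_sp1 hsep he hmon i hei hD hDK
    have h3 : (sp1 û P).support.card * S.card ≤ t * (R * s + β * (Dδ * s)) :=
      Nat.mul_le_mul hPt hScard
    have h4 : û i ≤ t * (R * s + β * (Dδ * s)) + D * s :=
      h2.trans (Nat.add_le_add_right (h1.trans h3) _)
    have h5 : t * (R * s + β * (Dδ * s)) + D * s = (D + t * (R + β * Dδ)) * s := by ring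
    rw [h5] at h4
    have h6 : (D + t * (R + β * Dδ)) * s ≤ K * s := Nat.mul_le_mul_right _ hK
    exact absurd (lt_of_le_of_lt (h4.trans h6) hdom) (lt_irrefl _)
  have hξρ : Polynomial.aeval ξ (sp1 û ρ) ≠ 0 := by
    intro h0
    exact hξS (Finset.mem_union_left _ ((Sel_rt _ hρ1 ξ).mpr h0))
  have hNT : NTor ξ := by
    refine ⟨hξ0, fun n hn hξn => ?_⟩
    have hPξ : Polynomial.aeval ξ (sp1 û P) = 0 := by
      obtain ⟨q, hq⟩ := heP1
      rw [hq, map_mul, hξe, zero_mul]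
    have hpo : ¬ p ∣ orderOf ξ := by
      intro hpo
      refine vsum hp (sp1 û P) hP1 (lt_of_le_of_lt hPt htp) ?_ hn hξn hpo hPξ
      intro a ha b hb hab
      obtain ⟨m, hm, rfl⟩ := Finset.mem_image.mp (support_sp1 û P ha)
      obtain ⟨m', hm', rfl⟩ := Finset.mem_image.mp (support_sp1 û P hb)
      rw [hmod' m hm m' hm' hab]
    have h1 := root_pow hp (sp1 û e) hn hξn hpo hξe
    rw [aeval_sp1, ← aeval_sp1_expand] at h1
    have h2 : MvPolynomial.aeval (fun i => ξ ^ û i) e = 0 := by rw [← aeval_sp1]; exact hξe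
    have h3 := aeval_of_span hρs (fun i => ξ ^ û i) h2 h1
    rw [← aeval_sp1] at h3
    exact hξρ h3
  obtain ⟨E, hEi, hEξ, hEd⟩ := Sel_irr (sp1 û e) he1 ξ hξe
  refine ⟨E, hEi, ⟨ξ, hNT, hEξ⟩, hEd, fun z ζ hζ hz => ?_⟩
  rw [← aeval_sp1]
  refine conj_root (g := sp1 û δ) hEi hβ hEξ ?_ hζ hz
  intro z' ζ' hζ' hz' h0
  refine hξS (Finset.mem_union_right _ (Finset.mem_image.mpr ⟨(ζ', z'), ?_, hz'⟩))
  rw [Finset.mem_product]
  refine ⟨?_, (Sel_rt _ hδ1 z').mpr h0⟩
  rw [Multiset.mem_toFinset, Polynomial.mem_nthRoots hβ]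
  exact hζ'

end Pool.Agent.H87.BZ
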