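import Pool.Agent.H87.BZ.SlotX

/-!
# Project BZ, module Slot: exact value of the measure of one factor

Library `Pool/Agent/H87/MM`: `SP σ A` is the image of `A` under `x^m ↦ [σ (iot m)]` in the group algebra of
`ℤ^n`, `JJ n F` the image of `F`, `mo z` a monomial, `ev`, `chr t` evaluation at the point `exp(2πi t)` of the
torus, `exists_poly`, `ev_SP`, `JJ_injective`, `ev_inj_exp`, `SP_ne_zero`, `Cop`, `mm_mul`, `mm_rv`.

`mA σ G` is the measure of the monomial substitution of `G` given by `σ`.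
* `slot`: follow `core` and `core_upper` in `Pool/Agent/H87/MM/Core.lean`. As there, reduce to relatively
  prime `A1`, `B1` with the relation eventually (`exists_reduced_factors`). For `𝒰`-almost all `n`:
  `exists_poly (σ n) A1 B1` gives `z`, `P`, `Q`, nonzero, with `P * rv (F n) = Q * F n`; `F n ∣ P` (`Cop`), say
  `P = F n * e`, so `Q = e * rv (F n)` (cancel `F n`), `mm Q = mm e + mm (F n)` (`mm_mul`, `mm_rv`),
  `mm Q = mA (σ n) B1` (`mm_eq_mA`), and `mm e = 0` by `slot_aux` (its hypothesis on `σ n` holds for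
  `𝒰`-almost all `n`: `ev_inj_box` for the finite set of small vectors).
-/

set_option autoImplicit false

open Finset Filter Topology MeasureTheory

namespace Pool.Agent.H87.BZ

open Pool.Agent.H87.MM

theorem slot {d : ℕ} {𝒰 : Ultrafilter ℕ} {k : ℕ → ℕ}
    {σ : ∀ n, (Fin d → ℤ) →+ (Fin (k n) → ℤ)} {F : ∀ n, MvPolynomial (Fin (k n)) ℤ}
    (hσ : ∀ x, x ≠ 0 → ∀ᶠ n in (𝒰 : Filter ℕ), σ n x ≠ 0)
    (hF : ∀ᶠ n in (𝒰 : Filter ℕ), Cop (F n)) {A B : MvPolynomial (Fin d) ℤ} (hA : A ≠ 0)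
    (hB : B ≠ 0)
    (hrel : ∀ᶠ n in (𝒰 : Filter ℕ), SP (σ n) A * JJ _ (rv (F n)) = SP (σ n) B * JJ _ (F n)) :
    ∃ B1 : MvPolynomial (Fin d) ℤ, B1 ≠ 0 ∧ ∀ᶠ n in (𝒰 : Filter ℕ), mm (F n) = mA (σ n) B1 := by
  classical
  obtain ⟨A1, B1, c, hcop, hcA, hcB⟩ := UniqueFactorizationMonoid.exists_reduced_factors A hA B
  have hc0 : c ≠ 0 := by
    rintro rfl
    rw [zero_mul] at hcA
    exact hA hcA.symm
  have hA1 : A1 ≠ 0 := by
    rintro rfl
    rw [mul_zero] at hcA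
    exact hA hcA.symm
  have hB1 : B1 ≠ 0 := by
    rintro rfl
    rw [mul_zero] at hcB
    exact hB hcB.symm
  have hrel1 : ∀ᶠ n in (𝒰 : Filter ℕ),
      SP (σ n) A1 * JJ _ (rv (F n)) = SP (σ n) B1 * JJ _ (F n) := by
    filter_upwards [hrel, ev_inj_exp hσ c.support] with n h1 h2
    have h3 := SP_ne_zero (σ n) hc0 h2
    rw [← hcA, ← hcB, map_mul, map_mul, mul_assoc, mul_assoc] at h1
    exact mul_left_cancel₀ h3 h1
  obtain ⟨C, hC⟩ := slot_aux hA1 hB1 hcop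
  obtain ⟨Z, hZ⟩ : ∃ Z : Finset (Fin d → ℤ), Z =
      Fintype.piFinset (fun _ => Finset.Icc (-(C : ℤ)) (C : ℤ)) := ⟨_, rfl⟩
  refine ⟨B1, hB1, ?_⟩
  filter_upwards [hF, hrel1, ev_inj_box hσ Z, ev_inj_exp hσ A1.support,
    ev_inj_exp hσ B1.support] with n h1 h2 h3 h4 h5
  obtain ⟨z, P, Q, hP, hQ⟩ := exists_poly (σ n) A1 B1
  have hP0 : P ≠ 0 := by
    rintro rfl
    rw [map_zero] at hP
    exact mul_ne_zero (mo_ne _) (SP_ne_zero (σ n) hA1 h4) hP.symm
  have hQ0 : Q ≠ 0 := by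
    rintro rfl
    rw [map_zero] at hQ
    exact mul_ne_zero (mo_ne _) (SP_ne_zero (σ n) hB1 h5) hQ.symm
  have hPQ : P * rv (F n) = Q * F n := by
    refine JJ_injective ?_
    rw [map_mul, map_mul, hP, hQ, mul_assoc, mul_assoc, h2]
  obtain ⟨e, he⟩ : F n ∣ P := h1.2 P (hPQ ▸ dvd_mul_left _ _)
  have he0 : e ≠ 0 := by
    rintro rfl
    rw [mul_zero] at he
    exact hP0 he
  have hQe : Q = e * rv (F n) := by
    have : F n * Q = F n * (e * rv (F n)) := by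
      rw [mul_comm, ← hPQ, he]
      ring
    exact mul_left_cancel₀ h1.1 this
  have hme : mm e = 0 := by
    refine hC (k n) (σ n) (fun b hb hbC hb0 => hb (h3 b ?_ hb0)) (iot z) P Q e hP0 hQ0 hP hQ
      ⟨F n, by rw [he, mul_comm]⟩ ⟨rv (F n), hQe⟩
    rw [hZ, Fintype.mem_piFinset]
    intro j
    rw [Finset.mem_Icc]
    exact abs_le.mp (hbC j)
  have e1 : mm Q = mm e + mm (F n) := by
    rw [hQe, mm_mul he0 (rv_ne_zero h1.1), mm_rv]
  rw [← mm_eq_mA (σ n) hQ, e1, hme, zero_add]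

end Pool.Agent.H87.BZ
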