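import Pool.Agent.H87.MM.Closed
import Pool.Agent.H87.BZ.Defs

/-!
# Project BZ, module SlotA: measures of monomial substitutions

Library `Pool/Agent/H87/MM`: `SP σ A` is the image of `A` under `x^m ↦ [σ (iot m)]` in the group algebra of
`ℤ^n`, `JJ n F` the image of `F`, `mo z` a monomial, `ev`, `chr t` evaluation at the point `exp(2πi t)` of the
torus, `exists_poly`, `ev_SP`, `JJ_injective`, `ev_inj_exp`, `SP_ne_zero`, `Cop`, `mm_mul`, `mm_rv`.

`mA σ G` is the measure of the monomial substitution of `G` given by `σ`.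
* `mm_eq_mA`: if `JJ n Q = mo z * SP σ G`, then `mm Q = mA σ G`: apply `ev (chr t)` (`ev_SP`; the monomial
  has absolute value `1`, `norm_chr`; `JJ_eq_lp`).
* `mA_eq`: `mA σ G` is the integral of the frozen statement with `A i j = σ (Pi.single i 1) j`.
-/

set_option autoImplicit false

open Finset Filter Topology MeasureTheory

namespace Pool.Agent.H87.BZ

open Pool.Agent.H87.MM

/-- The logarithmic Mahler measure of the monomial substitution `σ` in `G`. -/
noncomputable def mA {d n : ℕ} (σ : (Fin d → ℤ) →+ (Fin n → ℤ)) (G : MvPolynomial (Fin d) ℤ) : ℝ :=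
  ∫ t in cube n, Real.log ‖ev ((chr t).comp (AddMonoidHom.toMultiplicative σ)) (lp G)‖

theorem mm_eq_mA {d n : ℕ} (σ : (Fin d → ℤ) →+ (Fin n → ℤ)) {G : MvPolynomial (Fin d) ℤ}
    {Q : MvPolynomial (Fin n) ℤ} {z : Fin n → ℤ} (h : JJ n Q = mo z * SP σ G) :
    mm Q = mA σ G := by
  unfold mm mA
  refine integral_congr_ae (Eventually.of_forall fun t => ?_)
  dsimp only
  rw [← JJ_eq_lp, h, map_mul, norm_mul, ev_SP]
  have h1 : ‖ev (chr t) (mo z)‖ = 1 := by
    have h2 : ev (chr t) (mo z) = chr t (.ofAdd z) := by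
      unfold mo
      rw [AddMonoidAlgebra.lift_single, one_smul]
    rw [h2, norm_chr]
  rw [h1, one_mul]

theorem ev_lp_eval {d : ℕ} (χ : Multiplicative (Fin d → ℤ) →* ℂ) (G : MvPolynomial (Fin d) ℤ) :
    ev χ (lp G) = MvPolynomial.eval (fun i => χ (.ofAdd (Pi.single i 1)))
      (MvPolynomial.map (Int.castRingHom ℂ) G) := by
  rw [ev_lp, MvPolynomial.eval_map, MvPolynomial.eval₂_eq']
  refine Finset.sum_congr rfl fun m _ => ?_
  change _ = ((G.coeff m : ℤ) : ℂ) * _
  congr 1
  have h1 : iot m = ∑ i, m i • (Pi.single i 1 : Fin d → ℤ) := by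
    funext j
    rw [Finset.sum_apply]
    simp only [Pi.smul_apply, iot]
    rw [Finset.sum_eq_single j]
    · simp
    · intro b _ hb
      rw [Pi.single_eq_of_ne hb.symm, smul_zero]
    · intro hj
      exact absurd (Finset.mem_univ j) hj
  rw [h1, ofAdd_sum, map_prod]
  refine Finset.prod_congr rfl fun i _ => ?_
  rw [ofAdd_nsmul, map_pow]

theorem mA_eq {d n : ℕ} (σ : (Fin d → ℤ) →+ (Fin n → ℤ)) (G : MvPolynomial (Fin d) ℤ) :
    mA σ G = ∫ t : Fin n → ℝ in Set.univ.pi (fun _ => Set.Icc (0 : ℝ) 1),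
      Real.log ‖MvPolynomial.eval
        (fun i => Complex.exp (((2 * Real.pi * ∑ j, ((σ (Pi.single i 1) j : ℤ) : ℝ) * t j : ℝ) : ℂ) *
          Complex.I)) (MvPolynomial.map (Int.castRingHom ℂ) G)‖ := by
  have h1 : ∀ (t : Fin n → ℝ) (x : Fin n → ℤ), chr t (.ofAdd x) =
      Complex.exp (((2 * Real.pi * ∑ j, ((x j : ℤ) : ℝ) * t j : ℝ) : ℂ) * Complex.I) := by
    intro t x
    rw [chr_apply]
    have h2 : ∀ j, Complex.exp ((2 * Real.pi * t j : ℝ) * Complex.I) ^ (x j) =
        Complex.exp (((2 * Real.pi * (((x j : ℤ) : ℝ) * t j) : ℝ) : ℂ) * Complex.I) := by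
      intro j
      rw [← Complex.exp_int_mul]
      congr 1
      push_cast
      ring
    rw [Finset.prod_congr rfl fun j _ => h2 j, ← Complex.exp_sum]
    congr 1
    rw [← Finset.sum_mul]
    congr 1
    rw [← Complex.ofReal_sum, Finset.mul_sum]
  unfold mA cube
  simp only [ev_lp_eval]
  refine integral_congr_ae (Eventually.of_forall fun t => ?_)
  dsimp only
  congr 3
  congr 1
  funext i
  exact h1 t (σ (Pi.single i 1))

end Pool.Agent.H87.BZ
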