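import Pool.Agent.H87.BZ.LemZ
import Pool.Agent.H87.BZ.BZ1
import Pool.Agent.H87.BZ.SlotA

/-!
# Project BZ, module SlotX: common factors of specialisations have measure zero

Library `Pool/Agent/H87/MM`: `SP σ A` is the image of `A` under `x^m ↦ [σ (iot m)]` in the group algebra of
`ℤ^n`, `JJ n F` the image of `F`, `mo z` a monomial, `ev`, `chr t` evaluation at the point `exp(2πi t)` of the
torus, `exists_poly`, `ev_SP`, `JJ_injective`, `ev_inj_exp`, `SP_ne_zero`, `Cop`, `mm_mul`, `mm_rv`.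

`mA σ G` is the measure of the monomial substitution of `G` given by `σ`.
* `slot_aux`: `A`, `B` relatively prime, `c` the constant of `bz`; `σ b ≠ 0` for all small `b`, where we take
  the constant `c' = c + A.totalDegree + B.totalDegree` in the statement, so that `σ` is injective on the
  exponents of `A` and of `B`. Suppose `mm e ≠ 0`, so `0 < mm e` (`mm_nonneg`; `e ≠ 0`). Then `e` has an
  irreducible factor `ε` with `0 < mm ε` (factor `e`: `WfDvdMonoid.exists_factors`; `mm_mul`, `mm_unit`,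
  `mm_multiset` in Closed.lean). `ε ∣ P`, `ε ∣ Q`. If `ε = C c₁`: `c₁` divides all coefficients of `P`, i.e. all
  coefficients of `A` (`SP_coeff`, compare `JJ n P = mo z * SP σ A`, `JJ_eq_lp`), so `C c₁ ∣ A`, and
  `C c₁ ∣ B` in the same way, so `C c₁` is a unit and `mm ε = 0`, a contradiction. Otherwise `NT ε`
  (`NT_of_mm`). Let `h = ∏_b (∏_{i : σ_i > 0} X_i ^ σ_i - ∏_{i : σ_i < 0} X_i ^ (-σ_i))`, `σ_i = (σ b) i`, product
  over the finitely many `b ≠ 0` with entries at most `c`: nonzero (each factor is a difference of two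
  different monomials). `NT ε` with this `h` gives `r`, `ξ`: `ε(ξ ^ r) = 0` and `h(z ^ r) ≠ 0`, so
  `z ^ (r · σ b) ≠ 1`, for some `z ≠ 0`, so `r · σ b ≠ 0` for all these `b`. Let
  `u j = ∑ i, r i * σ (Pi.single j 1) i`; then `A (ξ ^ u)` is, up to a power of `ξ`, `P (ξ ^ r) = 0`
  (apply to `JJ n P = mo z * SP σ A` the evaluation `AddMonoidAlgebra.lift` at the character
  `x ↦ ξ ^ (r · x)`), the same for `B`, `Q`. `bz`: there is `b ≠ 0`, small, with `∑ b j * u j = 0`, i.e.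
  `r · σ b = 0`: contradiction.
-/

set_option autoImplicit false

open Finset Filter Topology MeasureTheory

namespace Pool.Agent.H87.BZ

open Pool.Agent.H87.MM

/-- the character `x ↦ ξ ^ (r · x)` -/
private noncomputable def chz {n : ℕ} (ξ : ℂ) (hξ : ξ ≠ 0) (r : Fin n → ℤ) :
    Multiplicative (Fin n → ℤ) →* ℂ where
  toFun x := ξ ^ (∑ i, r i * x.toAdd i)
  map_one' := by simp
  map_mul' x y := by
    rw [← zpow_add₀ hξ, ← Finset.sum_add_distrib]
    congr 1
    refine Finset.sum_congr rfl fun i _ => ?_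
    rw [toAdd_mul, Pi.add_apply, mul_add]

private theorem chz_apply {n : ℕ} (ξ : ℂ) (hξ : ξ ≠ 0) (r : Fin n → ℤ) (x : Fin n → ℤ) :
    chz ξ hξ r (.ofAdd x) = ξ ^ (∑ i, r i * x i) := rfl

private theorem ev_chz_SP {d n : ℕ} (ξ : ℂ) (hξ : ξ ≠ 0) (r : Fin n → ℤ)
    (σ : (Fin d → ℤ) →+ (Fin n → ℤ)) (A : MvPolynomial (Fin d) ℤ) :
    ev (chz ξ hξ r) (SP σ A) =
      MvPolynomial.aeval (pt ξ (fun j => ∑ i, r i * σ (Pi.single j 1) i)) A := by
  have h : ((ev (chz ξ hξ r) : AddMonoidAlgebra ℂ (Fin n → ℤ) →+* ℂ).comp (SP σ)) =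
      ((MvPolynomial.aeval (pt ξ (fun j => ∑ i, r i * σ (Pi.single j 1) i)) :
        MvPolynomial (Fin d) ℤ →ₐ[ℤ] ℂ) : MvPolynomial (Fin d) ℤ →+* ℂ) := by
    apply MvPolynomial.ringHom_ext
    · intro c
      simp
    · intro j
      have h1 : (MvPolynomial.X j : MvPolynomial (Fin d) ℤ) =
        MvPolynomial.monomial (Finsupp.single j 1) 1 := rfl
      have h2 : iot (Finsupp.single j 1 : Fin d →₀ ℕ) = Pi.single j 1 := by
        funext i
        by_cases hij : i = j
        · subst hij; simp [iot]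
        · simp [iot, hij]
      have h3 : (MvPolynomial.aeval (pt ξ (fun j => ∑ i, r i * σ (Pi.single j 1) i))
          (MvPolynomial.X j : MvPolynomial (Fin d) ℤ) : ℂ) =
          ξ ^ (∑ i, r i * σ (Pi.single j 1) i) := by
        rw [MvPolynomial.aeval_X]; rfl
      rw [RingHom.comp_apply]
      change _ = MvPolynomial.aeval (pt ξ (fun j => ∑ i, r i * σ (Pi.single j 1) i))
          (MvPolynomial.X j : MvPolynomial (Fin d) ℤ)
      rw [h3, h1, SP_monomial, h2]
      change ev (chz ξ hξ r) _ = _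
      rw [AddMonoidAlgebra.lift_single, Int.cast_one, one_smul, chz_apply]
  exact congrArg (fun f => f A) h

private theorem ev_chz_JJ {n : ℕ} (ξ : ℂ) (hξ : ξ ≠ 0) (r : Fin n → ℤ)
    (P : MvPolynomial (Fin n) ℤ) :
    ev (chz ξ hξ r) (JJ n P) = MvPolynomial.aeval (pt ξ r) P := by
  have h1 := ev_chz_SP ξ hξ r (AddMonoidHom.id (Fin n → ℤ)) P
  rw [SP_id] at h1
  rw [h1]
  congr 2
  funext j
  simp [Pi.single_apply]

private theorem SlotX_inj {d n : ℕ} (σ : (Fin d → ℤ) →+ (Fin n → ℤ)) {c : ℕ}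
    (hσ : ∀ b : Fin d → ℤ, b ≠ 0 → (∀ j, |b j| ≤ (c : ℤ)) → σ b ≠ 0)
    {A : MvPolynomial (Fin d) ℤ} (hA : A.totalDegree ≤ c) :
    ∀ m ∈ A.support, ∀ m' ∈ A.support, σ (iot m) = σ (iot m') → m = m' := by
  have hbd : ∀ m ∈ A.support, ∀ j, (m j : ℤ) ≤ c := by
    intro m hm j
    have h1 := MvPolynomial.le_totalDegree hm
    have h2 : m j ≤ m.sum fun _ e => e := by
      by_cases hj : j ∈ m.support
      · exact Finset.single_le_sum (f := fun i => m i) (fun _ _ => Nat.zero_le _) hj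
      · rw [Finsupp.notMem_support_iff.1 hj]; exact Nat.zero_le _
    exact_mod_cast (h2.trans h1).trans hA
  intro m hm m' hm' h
  by_contra hne
  refine hσ (iot m - iot m') ?_ ?_ ?_
  · intro h0
    exact hne (iot_injective (sub_eq_zero.mp h0))
  · intro j
    have h1 := hbd m hm j
    have h2 := hbd m' hm' j
    rw [Pi.sub_apply, abs_le]
    simp only [iot]
    constructor <;> omega
  · rw [map_sub, h, sub_self]

private theorem SlotX_coeff {d n : ℕ} (σ : (Fin d → ℤ) →+ (Fin n → ℤ)) 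
    {A : MvPolynomial (Fin d) ℤ} {z : Fin n → ℤ} {P : MvPolynomial (Fin n) ℤ}
    (hinj : ∀ m ∈ A.support, ∀ m' ∈ A.support, σ (iot m) = σ (iot m') → m = m')
    (hP : JJ n P = mo z * SP σ A) {m : Fin d →₀ ℕ} (hm : m ∈ A.support) :
    ∃ m' : Fin n →₀ ℕ, P.coeff m' = A.coeff m := by
  have h1 := SP_coeff σ hinj hm
  have h2 : (JJ n P).coeff (z + σ (iot m)) = ((A.coeff m : ℤ) : ℂ) := by
    rw [hP, SP_eq_sum, mo_mul_sum]
    exact coeff_sum_eq A.support (fun m => z + σ (iot m)) _ hm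
      (fun m' hm' h => hinj m' hm' m hm (add_left_cancel h))
  have h3 : (JJ n P).coeff (z + σ (iot m)) ≠ 0 := by
    rw [h2]
    have := MvPolynomial.mem_support_iff.mp hm
    exact_mod_cast this
  rw [JJ_eq_lp] at h2 h3
  obtain ⟨m', hm', h4⟩ := coeff_sum_ne _ _ _ h3
  refine ⟨m', ?_⟩
  have h5 : (lp P).coeff (iot m') = ((P.coeff m' : ℤ) : ℂ) :=
    coeff_sum_eq _ (fun m => iot m) _ hm' fun _ _ h => iot_injective h
  rw [h4, h2] at h5
  exact_mod_cast h5.symm

private theorem SlotX_irr {n : ℕ} {e : MvPolynomial (Fin n) ℤ} (he : e ≠ 0) (hpos : 0 < mm e) :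
    ∃ ε, Irreducible ε ∧ ε ∣ e ∧ 0 < mm ε := by
  obtain ⟨t, ht, u, hu⟩ := WfDvdMonoid.exists_factors e he
  have h2 : t.prod ≠ 0 := Multiset.prod_ne_zero fun h => (ht 0 h).ne_zero rfl
  have h1 : mm e = (t.map mm).sum := by
    rw [← hu, mm_mul h2 u.ne_zero, mm_unit u.isUnit, add_zero,
      mm_multiset t fun G hG => (ht G hG).ne_zero]
  by_contra hcon
  push Not at hcon
  have h3 : (t.map mm).sum ≤ 0 := by
    have h4 := Multiset.sum_le_card_nsmul (t.map mm) 0 (by
      intro x hx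
      obtain ⟨G, hG, rfl⟩ := Multiset.mem_map.1 hx
      exact hcon G (ht G hG) ((Multiset.dvd_prod hG).trans ⟨u, hu.symm⟩))
    simpa using h4
  linarith

/-- the difference of the two monomials belonging to `x` -/
private noncomputable def dm {n : ℕ} (x : Fin n → ℤ) : MvPolynomial (Fin n) ℤ :=
  MvPolynomial.monomial (Finsupp.equivFunOnFinite.symm fun i => (x i).toNat) 1 -
    MvPolynomial.monomial (Finsupp.equivFunOnFinite.symm fun i => (-x i).toNat) 1

private theorem dm_ne {n : ℕ} {x : Fin n → ℤ} (hx : x ≠ 0) : dm x ≠ 0 := by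
  intro h
  apply hx
  unfold dm at h
  rw [sub_eq_zero] at h
  have h1 := (MvPolynomial.monomial_eq_monomial_iff _ _ _ _).1 h
  rcases h1 with ⟨h1, _⟩ | ⟨h1, _⟩
  · funext i
    have h2 := DFunLike.congr_fun h1 i
    simp only [Finsupp.equivFunOnFinite_symm_apply_apply] at h2
    simp only [Pi.zero_apply]
    omega
  · exact absurd h1 one_ne_zero

private theorem aeval_dm {n : ℕ} {z : ℂ} (hz : z ≠ 0) (r x : Fin n → ℤ)
    (h : ∑ i, r i * x i = 0) : MvPolynomial.aeval (pt z r) (dm x) = 0 := by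
  have key : ∀ y : Fin n → ℕ, MvPolynomial.aeval (pt z r)
      (MvPolynomial.monomial (Finsupp.equivFunOnFinite.symm y) (1 : ℤ)) =
        z ^ (∑ i, r i * (y i : ℤ)) := by
    intro y
    rw [MvPolynomial.aeval_monomial, map_one, one_mul,
      Finsupp.prod_fintype _ _ (fun i => pow_zero _)]
    have h1 : ∀ s : Finset (Fin n), ∏ i ∈ s, pt z r i ^ (y i) =
        z ^ (∑ i ∈ s, r i * (y i : ℤ)) := by
      intro s
      induction s using Finset.induction_on with
      | empty => simp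
      | insert a s ha ih =>
        rw [Finset.prod_insert ha, Finset.sum_insert ha, ih, zpow_add₀ hz, pt, zpow_mul,
          zpow_natCast]
    exact h1 Finset.univ
  unfold dm
  rw [map_sub, key, key, sub_eq_zero]
  congr 1
  rw [← sub_eq_zero, ← Finset.sum_sub_distrib, ← h]
  refine Finset.sum_congr rfl fun i _ => ?_
  rw [← mul_sub]
  congr 1
  omega

/-- relatively prime `A`, `B`: the common factor has measure zero -/
theorem slot_aux {d : ℕ} {A B : MvPolynomial (Fin d) ℤ} (hA : A ≠ 0) (hB : B ≠ 0)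
    (hrp : IsRelPrime A B) : ∃ c : ℕ, ∀ (n : ℕ) (σ : (Fin d → ℤ) →+ (Fin n → ℤ)),
      (∀ b : Fin d → ℤ, b ≠ 0 → (∀ j, |b j| ≤ (c : ℤ)) → σ b ≠ 0) →
      ∀ (z : Fin n → ℤ) (P Q e : MvPolynomial (Fin n) ℤ), P ≠ 0 → Q ≠ 0 →
        JJ n P = mo z * SP σ A → JJ n Q = mo z * SP σ B → e ∣ P → e ∣ Q → mm e = 0 := by
  classical
  obtain ⟨c, hc⟩ := bz hA hB hrp
  refine ⟨c + A.totalDegree + B.totalDegree, fun n σ hσ z P Q e hP0 hQ0 hP hQ heP heQ => ?_⟩
  have he0 : e ≠ 0 := by
    rintro rfl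
    exact hP0 (zero_dvd_iff.1 heP)
  by_contra hmm
  have hpos : 0 < mm e := lt_of_le_of_ne (mm_nonneg he0) (Ne.symm hmm)
  obtain ⟨ε, hε, hεe, hεpos⟩ := SlotX_irr he0 hpos
  have hinjA := SlotX_inj σ hσ (A := A) (by omega)
  have hinjB := SlotX_inj σ hσ (A := B) (by omega)
  by_cases hconst : ∃ c₁, ε = MvPolynomial.C c₁
  · obtain ⟨c₁, rfl⟩ := hconst
    have h1 : MvPolynomial.C c₁ ∣ A := by
      rw [MvPolynomial.C_dvd_iff_dvd_coeff]
      intro m
      by_cases hm : m ∈ A.support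
      · obtain ⟨m', hm'⟩ := SlotX_coeff σ hinjA hP hm
        rw [← hm']
        exact (MvPolynomial.C_dvd_iff_dvd_coeff _ _).1 (hεe.trans heP) m'
      · rw [MvPolynomial.notMem_support_iff.1 hm]; exact dvd_zero _
    have h2 : MvPolynomial.C c₁ ∣ B := by
      rw [MvPolynomial.C_dvd_iff_dvd_coeff]
      intro m
      by_cases hm : m ∈ B.support
      · obtain ⟨m', hm'⟩ := SlotX_coeff σ hinjB hQ hm
        rw [← hm']
        exact (MvPolynomial.C_dvd_iff_dvd_coeff _ _).1 (hεe.trans heQ) m'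
      · rw [MvPolynomial.notMem_support_iff.1 hm]; exact dvd_zero _
    have h3 : IsUnit (MvPolynomial.C c₁ : MvPolynomial (Fin d) ℤ) := hrp h1 h2
    have h4 : IsUnit c₁ := by
      have := h3.map (MvPolynomial.constantCoeff (σ := Fin d) (R := ℤ))
      simpa using this
    exact hε.not_isUnit (h4.map MvPolynomial.C)
  · have hNT := NT_of_mm hε hconst hεpos
    obtain ⟨T, hT⟩ : ∃ T : Finset (Fin d → ℤ), T =
        (Fintype.piFinset fun _ : Fin d => Finset.Icc (-(c : ℤ)) (c : ℤ)).filter (· ≠ 0) :=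
      ⟨_, rfl⟩
    have hbig : ∀ b : Fin d → ℤ, b ≠ 0 → (∀ j, |b j| ≤ (c : ℤ)) → σ b ≠ 0 := by
      intro b hb hbj
      apply hσ b hb
      intro j
      have := hbj j
      push_cast
      omega
    have hprod : (∏ b ∈ T, dm (σ b)) ≠ 0 := by
      rw [Finset.prod_ne_zero_iff]
      intro b hb
      rw [hT, Finset.mem_filter, Fintype.mem_piFinset] at hb
      exact dm_ne (hbig b hb.2 fun j => abs_le.2 (Finset.mem_Icc.1 (hb.1 j)))
    obtain ⟨r, ξ, hξ, hε0, z₁, hz₁, hne⟩ := hNT _ hprod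
    have hξ0 : ξ ≠ 0 := hξ.1
    have hmo : ev (chz ξ hξ0 r) (mo z) ≠ 0 := by
      rw [AddMonoidAlgebra.lift_single, one_smul, chz_apply]
      exact zpow_ne_zero _ hξ0
    have hPA : MvPolynomial.aeval (pt ξ (fun j => ∑ i, r i * σ (Pi.single j 1) i)) A = 0 := by
      rw [← ev_chz_SP ξ hξ0 r σ A]
      have h1 : ev (chz ξ hξ0 r) (JJ n P) = 0 := by
        rw [ev_chz_JJ]
        obtain ⟨w, hw⟩ := hεe.trans heP
        rw [hw, map_mul, hε0, zero_mul]
      rw [hP, map_mul] at h1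
      exact (mul_eq_zero.1 h1).resolve_left hmo
    have hQB : MvPolynomial.aeval (pt ξ (fun j => ∑ i, r i * σ (Pi.single j 1) i)) B = 0 := by
      rw [← ev_chz_SP ξ hξ0 r σ B]
      have h1 : ev (chz ξ hξ0 r) (JJ n Q) = 0 := by
        rw [ev_chz_JJ]
        obtain ⟨w, hw⟩ := hεe.trans heQ
        rw [hw, map_mul, hε0, zero_mul]
      rw [hQ, map_mul] at h1
      exact (mul_eq_zero.1 h1).resolve_left hmo
    obtain ⟨b, hb0, hbj, hsum⟩ := hc _ ξ hξ hPA hQB
    have hsum' : ∑ i, r i * σ b i = 0 := by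
      have hb : b = ∑ j, b j • (Pi.single j 1 : Fin d → ℤ) := by
        funext i
        simp [Finset.sum_apply, Pi.single_apply]
      have h1 : ∀ i, σ b i = ∑ j, b j * σ (Pi.single j 1) i := by
        intro i
        conv_lhs => rw [hb, map_sum]
        rw [Finset.sum_apply]
        refine Finset.sum_congr rfl fun j _ => ?_
        rw [map_zsmul, Pi.smul_apply, smul_eq_mul]
      rw [← hsum]
      simp only [h1, Finset.mul_sum]
      rw [Finset.sum_comm]
      refine Finset.sum_congr rfl fun j _ => Finset.sum_congr rfl fun i _ => ?_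
      ring
    apply hne
    rw [map_prod]
    refine Finset.prod_eq_zero (i := b) ?_ (aeval_dm hz₁ r (σ b) hsum')
    rw [hT, Finset.mem_filter, Fintype.mem_piFinset]
    exact ⟨fun j => Finset.mem_Icc.2 (abs_le.1 (hbj j)), hb0⟩

end Pool.Agent.H87.BZ
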