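import Pool.Agent.H87.BZ.Defs

/-!
# Project BZ, module StepA: two auxiliary facts for the induction step

* `small_ann`: for `k < d` and `M` there is `c` with `Ann c U` for all `k × d` integer matrices with entries at
  most `M`: each has a nonzero integer vector in its kernel (more unknowns than equations:
  `Matrix.exists_mulVec_eq_zero_iff`-type results over `ℚ` and clearing denominators, or
  `Int.Matrix.exists_ne_zero_int_vec_norm_le` (Siegel's lemma in Mathlib)), and there are finitely many.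
* `exp_beats`: from `c₀ ≤ x ^ K * n`, `q x ≤ C`, `x ≥ 0`, `n ≤ C (q (q+1)^N + 1)^C`, `K = C (N + 1) + 1` it
  follows that `q` is bounded: `c₀ q ^ K ≤ C ^ K * C (q (q+1)^N + 1)^C ≤ C ^ (K + 1) (2 * 2^N q^(N+1)) ^ C`, so
  `c₀ q ≤ C ^ (K+1) * 2 ^ ((N+1) C)`.
-/

set_option autoImplicit false

namespace Pool.Agent.H87.BZ

theorem small_ann {k d : ℕ} (hkd : k < d) (M : ℕ) : ∃ c : ℕ, ∀ U : Fin k → Fin d → ℤ,
    (∀ i j, |U i j| ≤ (M : ℤ)) → Ann c U := by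
  have h1 : ∀ U : Fin k → Fin d → ℤ, ∃ c : ℕ, Ann c U := by
    intro U
    have h2 : ∃ b : Fin d → ℤ, b ≠ 0 ∧ ∀ i, ∑ j, U i j * b j = 0 := by
      rcases Nat.eq_zero_or_pos k with hk | hk
      · subst hk
        refine ⟨fun _ => 1, ?_, fun i => i.elim0⟩
        intro h
        have := congrFun h ⟨0, hkd⟩
        exact one_ne_zero this
      · obtain ⟨t, ht, ht', _⟩ := Int.Matrix.exists_ne_zero_int_vec_norm_le (Matrix.of U)
          (by simpa using hkd) (by simpa using hk)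
        refine ⟨t, ht, fun i => ?_⟩
        have := congrFun ht' i
        simpa [Matrix.mulVec, dotProduct] using this
    obtain ⟨b, hb, hb'⟩ := h2
    refine ⟨∑ j, (b j).natAbs, b, hb, fun j => ?_, hb'⟩
    rw [Int.abs_eq_natAbs]
    exact_mod_cast Finset.single_le_sum (f := fun j => (b j).natAbs) (fun _ _ => Nat.zero_le _)
      (Finset.mem_univ j)
  choose f hf using h1
  have hfin : {U : Fin k → Fin d → ℤ | ∀ i j, U i j ∈ Set.Icc (-(M : ℤ)) M}.Finite := by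
    have : {U : Fin k → Fin d → ℤ | ∀ i j, U i j ∈ Set.Icc (-(M : ℤ)) M} =
        {U | ∀ i, U i ∈ {g : Fin d → ℤ | ∀ j, g j ∈ Set.Icc (-(M : ℤ)) M}} := rfl
    rw [this]
    exact Set.Finite.pi' fun i => Set.Finite.pi' fun j => Set.finite_Icc _ _
  obtain ⟨c, hc⟩ := (hfin.image f).bddAbove
  refine ⟨c, fun U hU => ?_⟩
  have h3 : f U ≤ c := hc ⟨U, fun i j => abs_le.1 (hU i j), rfl⟩
  obtain ⟨b, hb, hb1, hb2⟩ := hf U
  exact ⟨b, hb, fun j => (hb1 j).trans (by exact_mod_cast h3), hb2⟩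

theorem exp_beats (c₀ : ℝ) (hc : 0 < c₀) (C N : ℕ) : ∃ q₀ : ℕ, ∀ (q n : ℕ) (x : ℝ), 0 ≤ x →
    c₀ ≤ x ^ (C * (N + 1) + 1) * n → q * x ≤ C → n ≤ C * (q * (q + 1) ^ N + 1) ^ C → q ≤ q₀ := by
  refine ⟨⌈(C : ℝ) ^ (C * (N + 1) + 1) * C * (2 ^ (N + 1)) ^ C / c₀⌉₊, ?_⟩
  intro q n x hx h1 h2 h3
  rcases Nat.eq_zero_or_pos q with hq | hq
  · rw [hq]; exact Nat.zero_le _
  have hq1 : (1 : ℝ) ≤ q := by exact_mod_cast hq
  have hq0 : (0 : ℝ) < q := by linarith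
  have h4 : (n : ℝ) ≤ C * ((2 ^ (N + 1) * (q : ℝ) ^ (N + 1)) ^ C) := by
    have h5 : (n : ℝ) ≤ C * ((q : ℝ) * ((q : ℝ) + 1) ^ N + 1) ^ C := by exact_mod_cast h3
    refine h5.trans ?_
    refine mul_le_mul_of_nonneg_left ?_ (Nat.cast_nonneg C)
    refine pow_le_pow_left₀ (by positivity) ?_ C
    have h6 : ((q : ℝ) + 1) ^ N ≤ (2 * q) ^ N := pow_le_pow_left₀ (by positivity) (by linarith) N
    have h7 : (1 : ℝ) ≤ 2 ^ N * (q : ℝ) ^ (N + 1) := by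
      have h8 : (1 : ℝ) ≤ 2 ^ N := one_le_pow₀ (by norm_num)
      have h9 : (1 : ℝ) ≤ (q : ℝ) ^ (N + 1) := one_le_pow₀ hq1
      nlinarith
    calc (q : ℝ) * ((q : ℝ) + 1) ^ N + 1 ≤ q * (2 * q) ^ N + 2 ^ N * (q : ℝ) ^ (N + 1) := by
          have := mul_le_mul_of_nonneg_left h6 hq0.le
          linarith
      _ = 2 ^ (N + 1) * (q : ℝ) ^ (N + 1) := by rw [mul_pow, pow_succ, pow_succ]; ring
  have h5 : c₀ * (q : ℝ) ^ (C * (N + 1) + 1) ≤
      (C : ℝ) ^ (C * (N + 1) + 1) * (C * ((2 ^ (N + 1) * (q : ℝ) ^ (N + 1)) ^ C)) := by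
    calc c₀ * (q : ℝ) ^ (C * (N + 1) + 1)
        ≤ (x ^ (C * (N + 1) + 1) * n) * (q : ℝ) ^ (C * (N + 1) + 1) :=
          mul_le_mul_of_nonneg_right h1 (by positivity)
      _ = ((q : ℝ) * x) ^ (C * (N + 1) + 1) * n := by rw [mul_pow]; ring
      _ ≤ (C : ℝ) ^ (C * (N + 1) + 1) * (C * ((2 ^ (N + 1) * (q : ℝ) ^ (N + 1)) ^ C)) :=
          mul_le_mul (pow_le_pow_left₀ (by positivity) h2 _) h4 (Nat.cast_nonneg n) (by positivity)
  have h6 : c₀ * q ≤ (C : ℝ) ^ (C * (N + 1) + 1) * C * (2 ^ (N + 1)) ^ C := by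
    have h7 : (0 : ℝ) < (q : ℝ) ^ (C * (N + 1)) := by positivity
    have h8 : c₀ * q * (q : ℝ) ^ (C * (N + 1)) ≤
        (C : ℝ) ^ (C * (N + 1) + 1) * C * (2 ^ (N + 1)) ^ C * (q : ℝ) ^ (C * (N + 1)) := by
      have e1 : c₀ * (q : ℝ) ^ (C * (N + 1) + 1) = c₀ * q * (q : ℝ) ^ (C * (N + 1)) := by
        rw [pow_succ]; ring
      have e2 : (C : ℝ) ^ (C * (N + 1) + 1) * (C * ((2 ^ (N + 1) * (q : ℝ) ^ (N + 1)) ^ C)) =
          (C : ℝ) ^ (C * (N + 1) + 1) * C * (2 ^ (N + 1)) ^ C * (q : ℝ) ^ (C * (N + 1)) := by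
        rw [mul_pow, ← pow_mul (q : ℝ), mul_comm (N + 1) C]; ring
      rw [← e1, ← e2]; exact h5
    exact le_of_mul_le_mul_right h8 h7
  have h7 : (q : ℝ) ≤ (C : ℝ) ^ (C * (N + 1) + 1) * C * (2 ^ (N + 1)) ^ C / c₀ := by
    rw [le_div_iff₀ hc, mul_comm]; exact h6
  exact_mod_cast h7.trans (Nat.le_ceil _)
end Pool.Agent.H87.BZ
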