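import Pool.Agent.H87.BZ.CoreE
import Pool.Agent.H87.BZ.Dob
import Pool.Agent.H87.BZ.GLi
import Pool.Agent.H87.BZ.LatA
import Pool.Agent.H87.BZ.LatB
import Pool.Agent.H87.BZ.StepA

/-!
# Project BZ, module Step: induction step

* `step`: `S(k + 1)` implies `S(k)` for `k < d`. Let `c'` be the constant of `S(k+1)`, `Dg = A.totalDegree +
  B.totalDegree`, `C` the constant of `core`, `N = d - k ≥ 1`, `K = C (N + 1) + 1`, `c₀` the constant of
  `dob K`, `q₀` the bound from `exp_beats`, `M = k (q₀ + 1) ^ N`, `c₃` from `small_ann`. Claim: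
  `c = c' + Dg + c₃` works for `S(k)`. Let `U₀` be primitive with `PF A B U₀`, and suppose `¬ Ann c U₀`
  (`Ann` is monotone in `c`, so `¬ Ann` for `c'`, `Dg`, `c₃`). `latA`: `G`, `G'`, `Δ`, `Y`; `U = G U₀` is
  primitive, `PF A B U` (`sb U₀ A ≠ 0` by `sb_ne_zero`), and `¬ Ann` for `U` (`Ann_GL`). If
  `Δ ≤ (q₀ + 1) ^ N` then `Ann c₃ U`: contradiction. So `Δ > (q₀ + 1) ^ N`; let `q` be maximal with
  `q ^ N < Δ`; so `q ≥ q₀ + 1`, `Δ ≤ (q + 1) ^ N`. `latB`: `w`, `v`, `yh`, `β`, `Prim (cons w U)`. If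
  `PF A B (cons w U)` then `Ann c' (cons w U)`, so `Ann c' U`, contradiction. So `core` gives `E`, and `dob K`,
  `exp_beats` give `q ≤ q₀`: contradiction. (`lm E ≥ 0`: `lm_nonneg`.)
* `bz_all`: `S(k)` for all `1 ≤ k ≤ d`: downward induction from `S(d)` (`base`: no `PF`).
-/

set_option autoImplicit false

namespace Pool.Agent.H87.BZ

theorem Ann_mono {k d c c' : ℕ} (h : c ≤ c') {U : Fin k → Fin d → ℤ} (hU : Ann c U) :
    Ann c' U := by
  obtain ⟨b, hb, h1, h2⟩ := hU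
  exact ⟨b, hb, fun j => (h1 j).trans (by exact_mod_cast h), h2⟩

theorem step {k d : ℕ} (hkd : k < d) {A B : MvPolynomial (Fin d) ℤ} (hA : A ≠ 0)
    (hB : B ≠ 0) (h : ∃ c : ℕ, ∀ U : Fin (k + 1) → Fin d → ℤ, Prim U → PF A B U → Ann c U) :
    ∃ c : ℕ, ∀ U : Fin k → Fin d → ℤ, Prim U → PF A B U → Ann c U := by
  obtain ⟨c', hc'⟩ := h
  obtain ⟨C, hC⟩ := core (k := k) hA hB
  obtain ⟨c₀, hc₀, hdob⟩ := dob (C * (d - k + 1) + 1)
  obtain ⟨q₀, hq₀⟩ := exp_beats c₀ hc₀ C (d - k)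
  obtain ⟨c₃, hc₃⟩ := small_ann hkd (k * (q₀ + 1) ^ (d - k))
  have hN : d - k ≠ 0 := by omega
  refine ⟨c' + (A.totalDegree + B.totalDegree) + c₃, fun U₀ hU₀ hPF => ?_⟩
  by_contra hAnn
  have hA1 : ¬ Ann c' U₀ := fun h => hAnn (Ann_mono (by omega) h)
  have hA2 : ¬ Ann (A.totalDegree + B.totalDegree) U₀ := fun h => hAnn (Ann_mono (by omega) h)
  have hA3 : ¬ Ann c₃ U₀ := fun h => hAnn (Ann_mono (by omega) h)
  obtain ⟨G, G', Δ, Y, hG1, hG2, hΔ, hU, hYc, hY1, hY2⟩ := latA U₀ hU₀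
  have hsA : sb U₀ A ≠ 0 := sb_ne_zero hA2 (Nat.le_add_right _ _) hA
  have hPrim := Prim_GL hU₀ G G' hG1
  have hPFU := PF_GL hPF hsA G G' hG1 hG2
  have hnA : ∀ c, Ann c (fun i j => ∑ l, G i l * U₀ l j) → Ann c U₀ :=
    fun c => Ann_GL G G' hG2
  generalize hUdef : (fun i j => ∑ l, G i l * U₀ l j : Fin k → Fin d → ℤ) = U at hPrim hPFU hnA
  have hUij : ∀ i j, ∑ l, G i l * U₀ l j = U i j := fun i j => by rw [← hUdef]
  simp only [hUij] at hU hY2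
  by_cases hΔ1 : Δ ≤ (q₀ + 1) ^ (d - k)
  · refine hA3 (hnA _ (hc₃ U fun i j => (hU i j).trans ?_))
    have : k * Δ ≤ k * (q₀ + 1) ^ (d - k) := Nat.mul_le_mul_left k hΔ1
    exact_mod_cast this
  · obtain ⟨q, hqq, hq1, hq2⟩ : ∃ q, q₀ + 1 ≤ q ∧ q ^ (d - k) < Δ ∧ Δ ≤ (q + 1) ^ (d - k) := by
      classical
      have hex : ∃ q', Δ ≤ q' ^ (d - k) := ⟨Δ, Nat.le_self_pow hN Δ⟩
      have h1 := Nat.find_spec hex
      have h2 : q₀ + 1 < Nat.find hex := by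
        by_contra hlt
        exact hΔ1 (h1.trans (Nat.pow_le_pow_left (not_lt.mp hlt) _))
      obtain ⟨q, hq⟩ : ∃ q, Nat.find hex = q + 1 := ⟨Nat.find hex - 1, by omega⟩
      refine ⟨q, by omega, ?_, by rw [← hq]; exact h1⟩
      have h3 := Nat.find_min hex (m := q) (by omega)
      exact not_le.mp h3
    have hq0 : 1 ≤ q := by omega
    obtain ⟨w, v, yh, β, hβ, hqβ, hv, hv', hPrim'⟩ :=
      latB U hPrim Δ q hΔ hq0 hq1 Y hYc hY1 hY2
    have hnPF : ¬ PF A B (Fin.cons w U : Fin (k + 1) → Fin d → ℤ) := by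
      intro hPF'
      obtain ⟨b, hb0, hb1, hb2⟩ := hc' _ hPrim' hPF'
      refine hA1 (hnA _ ⟨b, hb0, hb1, fun i => ?_⟩)
      have := hb2 i.succ
      simpa using this
    obtain ⟨E, hE1, hE2, hE3, hE4⟩ := hC q Δ U w v yh β hq0 hΔ hU hβ hqβ hv hv'
      (fun h => hA2 (hnA _ h)) hPFU hnPF
    have h5 : E.natDegree ≤ C * (q * (q + 1) ^ (d - k) + 1) ^ C := by
      refine hE4.trans (Nat.mul_le_mul_left _ (Nat.pow_le_pow_left ?_ _))
      exact Nat.add_le_add_right (Nat.mul_le_mul_left _ hq2) _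
    have h6 := hq₀ q E.natDegree (lm E) (lm_nonneg hE1.ne_zero) (hdob E hE1 hE2) hE3 h5
    omega

theorem bz_all {k d : ℕ} (hkd : k ≤ d) {A B : MvPolynomial (Fin d) ℤ} (hA : A ≠ 0)
    (hB : B ≠ 0) (hrp : IsRelPrime A B) :
    ∃ c : ℕ, ∀ U : Fin k → Fin d → ℤ, Prim U → PF A B U → Ann c U := by
  obtain ⟨n, hn⟩ := Nat.exists_eq_add_of_le hkd
  induction n generalizing k with
  | zero =>
    have hkd' : d = k := by omega
    subst hkd'
    exact ⟨0, fun U hU hPF => absurd hPF (base hA hB hrp U hU)⟩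
  | succ n ih =>
    exact step (by omega) hA hB (ih (by omega) (by omega))

end Pool.Agent.H87.BZ
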