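import Pool.Agent.H87.BZ.Defs

/-!
# Project BZ, module Torus: the substitution `sb`

* `eq_of_torus`: multiply `P - Q` by the product of all variables; the result vanishes at all complex
  points, so it is zero (`MvPolynomial.funext` after mapping to `ℂ`, `Int.castRingHom` is injective),
  and the variables are not zero divisors.
* `ex_apply`: the integer `shf U A i + ∑ j, U i j * m j` is nonnegative for `m` in the support, because
  `|∑ j, U i j * m j| ≤ (∑ j, |U i j|) * max_j m j ≤ (∑ j, |U i j|) * A.totalDegree`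
  (`MvPolynomial.le_totalDegree`: the sum of the `m j` is at most the total degree).
* `eval_sb`: expand `A` as the sum of its monomials; `x i ^ (ex U A m i : ℕ) = x i ^ (shf + ...)` (zpow),
  `zpow_add₀`, products of zpow.
* `sb_mul`: `eq_of_torus` and `eval_sb`; `totalDegree (A * B) = totalDegree A + totalDegree B`
  (`MvPolynomial.totalDegree_mul_of_isDomain`), so `shf U (A * B) i = shf U A i + shf U B i`.
* `degreeOf_sb`: all exponents `ex U A m i` are at most `2 * totalDegree A * ∑ j, |U i j|`.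
* `ex_inj`: if `ex U A m = ex U A m'` and `m ≠ m'`, then `b j = m j - m' j` is nonzero, `|b j| ≤
  totalDegree A ≤ c` and `∑ j, U i j * b j = 0` for all `i` (`ex_apply`), so `Ann c U`.
* `support_sb_subset` is clear (`MvPolynomial.support_sum`, `support_monomial_subset`); `coeff_sb`: the
  exponents `ex U A m` are distinct; `sb_ne_zero` follows; `support_sb`: the support of `sb U A` is the
  image of the support of `A`.
* `ln_sb` : `ln (sb U A) ≤ ln A` (triangle inequality; true without any hypothesis).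
-/

set_option autoImplicit false

namespace Pool.Agent.H87.BZ

variable {k d : ℕ}

private theorem Torus_zpow_sum {ι : Type*} (s : Finset ι) (x : ℂ) (hx : x ≠ 0) (a : ι → ℤ) :
    x ^ (∑ j ∈ s, a j) = ∏ j ∈ s, x ^ a j := by
  classical
  induction s using Finset.induction_on with
  | empty => simp
  | insert j s hj ih => rw [Finset.sum_insert hj, Finset.prod_insert hj, zpow_add₀ hx, ih]

private theorem Torus_le_totalDegree {A : MvPolynomial (Fin d) ℤ} {m : Fin d →₀ ℕ}
    (hm : m ∈ A.support) (j : Fin d) : m j ≤ A.totalDegree := by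
  calc m j ≤ m.sum (fun _ e => e) := by
        rw [Finsupp.sum_fintype _ _ (fun _ => rfl)]
        exact Finset.single_le_sum (f := fun j => m j) (fun _ _ => Nat.zero_le _)
          (Finset.mem_univ j)
    _ ≤ A.totalDegree := MvPolynomial.le_totalDegree hm

private theorem Torus_abs_le (U : Fin k → Fin d → ℤ) (A : MvPolynomial (Fin d) ℤ) {m : Fin d →₀ ℕ}
    (hm : m ∈ A.support) (i : Fin k) : |∑ j, U i j * (m j : ℤ)| ≤ shf U A i := by
  calc |∑ j, U i j * (m j : ℤ)| ≤ ∑ j, |U i j * (m j : ℤ)| := Finset.abs_sum_le_sum_abs _ _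
    _ ≤ ∑ j, (A.totalDegree : ℤ) * |U i j| := by
        apply Finset.sum_le_sum
        intro j _
        rw [abs_mul, Nat.abs_cast, mul_comm]
        exact mul_le_mul_of_nonneg_right (by exact_mod_cast Torus_le_totalDegree hm j)
          (abs_nonneg _)
    _ = shf U A i := by rw [shf, Finset.mul_sum]

theorem eq_of_torus {P Q : MvPolynomial (Fin k) ℤ}
    (h : ∀ x : Fin k → ℂ, (∀ i, x i ≠ 0) → MvPolynomial.aeval x P = MvPolynomial.aeval x Q) :
    P = Q := by
  have h1 : (P - Q) * ∏ i, (MvPolynomial.X i : MvPolynomial (Fin k) ℤ) = 0 := by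
    have hinj := MvPolynomial.map_injective (σ := Fin k) (Int.castRingHom ℂ)
      (RingHom.injective_int _)
    apply hinj
    rw [map_zero]
    apply MvPolynomial.funext
    intro x
    rw [MvPolynomial.eval_map, map_zero]
    have h2 : MvPolynomial.aeval x
        ((P - Q) * ∏ i, (MvPolynomial.X i : MvPolynomial (Fin k) ℤ)) = 0 := by
      rw [map_mul, map_sub, map_prod]
      by_cases hx : ∀ i, x i ≠ 0
      · rw [h x hx, sub_self, zero_mul]
      · push Not at hx
        obtain ⟨i, hi⟩ := hx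
        rw [Finset.prod_eq_zero (Finset.mem_univ i), mul_zero]
        rw [MvPolynomial.aeval_X, hi]
    exact h2
  have h3 : (∏ i, (MvPolynomial.X i : MvPolynomial (Fin k) ℤ)) ≠ 0 :=
    Finset.prod_ne_zero_iff.mpr (fun i _ => MvPolynomial.X_ne_zero i)
  exact sub_eq_zero.mp ((mul_eq_zero.mp h1).resolve_right h3)

theorem ex_apply (U : Fin k → Fin d → ℤ) (A : MvPolynomial (Fin d) ℤ) {m : Fin d →₀ ℕ}
    (hm : m ∈ A.support) (i : Fin k) :
    ((ex U A m i : ℕ) : ℤ) = shf U A i + ∑ j, U i j * (m j : ℤ) := by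
  have hnn : 0 ≤ shf U A i + ∑ j, U i j * (m j : ℤ) := by
    have h1 := Torus_abs_le U A hm i
    linarith [neg_abs_le (∑ j, U i j * (m j : ℤ))]
  change (((shf U A i + ∑ j, U i j * (m j : ℤ)).toNat : ℕ) : ℤ) = _
  exact Int.toNat_of_nonneg hnn

theorem eval_sb (U : Fin k → Fin d → ℤ) (A : MvPolynomial (Fin d) ℤ) (x : Fin k → ℂ)
    (hx : ∀ i, x i ≠ 0) : MvPolynomial.aeval x (sb U A) =
      (∏ i, x i ^ shf U A i) * MvPolynomial.aeval (fun j => ∏ i, x i ^ U i j) A := by
  rw [sb, map_sum, MvPolynomial.aeval_def (fun j => ∏ i, x i ^ U i j), MvPolynomial.eval₂_eq',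
    Finset.mul_sum]
  apply Finset.sum_congr rfl
  intro m hm
  rw [MvPolynomial.aeval_monomial, Finsupp.prod_fintype _ _ (fun i => pow_zero _)]
  have key : ∏ i, x i ^ (ex U A m i) =
      (∏ i, x i ^ shf U A i) * ∏ j, (∏ i, x i ^ U i j) ^ m j := by
    calc ∏ i, x i ^ (ex U A m i)
        = ∏ i, (x i ^ shf U A i * ∏ j, (x i ^ U i j) ^ m j) := by
          apply Finset.prod_congr rfl
          intro i _
          rw [← zpow_natCast, ex_apply U A hm i, zpow_add₀ (hx i), Torus_zpow_sum _ _ (hx i)]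
          congr 1
          apply Finset.prod_congr rfl
          intro j _
          rw [zpow_mul, zpow_natCast]
      _ = (∏ i, x i ^ shf U A i) * ∏ i, ∏ j, (x i ^ U i j) ^ m j := Finset.prod_mul_distrib
      _ = (∏ i, x i ^ shf U A i) * ∏ j, (∏ i, x i ^ U i j) ^ m j := by
          rw [Finset.prod_comm]
          congr 1
          apply Finset.prod_congr rfl
          intro j _
          rw [Finset.prod_pow]
  rw [key]
  ring

theorem sb_mul (U : Fin k → Fin d → ℤ) {A B : MvPolynomial (Fin d) ℤ} (hA : A ≠ 0) (hB : B ≠ 0) :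
    sb U (A * B) = sb U A * sb U B := by
  apply eq_of_torus
  intro x hx
  rw [map_mul, eval_sb U _ x hx, eval_sb U A x hx, eval_sb U B x hx, map_mul]
  have h1 : ∀ i, shf U (A * B) i = shf U A i + shf U B i := by
    intro i
    rw [shf, shf, shf, MvPolynomial.totalDegree_mul_of_isDomain hA hB]
    push_cast
    ring
  have h2 : (∏ i, x i ^ shf U (A * B) i) = (∏ i, x i ^ shf U A i) * ∏ i, x i ^ shf U B i := by
    rw [← Finset.prod_mul_distrib]
    apply Finset.prod_congr rfl
    intro i _
    rw [h1 i, zpow_add₀ (hx i)]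
  rw [h2]
  ring

theorem support_sb_subset (U : Fin k → Fin d → ℤ) (A : MvPolynomial (Fin d) ℤ) :
    (sb U A).support ⊆ A.support.image (ex U A) := by
  intro s hs
  by_contra hns
  rw [MvPolynomial.mem_support_iff] at hs
  apply hs
  rw [sb, MvPolynomial.coeff_sum]
  apply Finset.sum_eq_zero
  intro m hm
  rw [MvPolynomial.coeff_monomial, if_neg]
  intro he
  exact hns (Finset.mem_image.mpr ⟨m, hm, he⟩)

theorem degreeOf_sb (U : Fin k → Fin d → ℤ) (A : MvPolynomial (Fin d) ℤ) (i : Fin k) :
    (sb U A).degreeOf i ≤ 2 * A.totalDegree * ∑ j, (U i j).natAbs := by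
  rw [MvPolynomial.degreeOf_le_iff]
  intro s hs
  obtain ⟨m, hm, rfl⟩ := Finset.mem_image.mp (support_sb_subset U A hs)
  have h1 := ex_apply U A hm i
  have h2 := le_trans (le_abs_self _) (Torus_abs_le U A hm i)
  have h3 : ((2 * A.totalDegree * ∑ j, (U i j).natAbs : ℕ) : ℤ) = 2 * shf U A i := by
    rw [shf]
    push_cast
    ring_nf
  have h4 : ((ex U A m i : ℕ) : ℤ) ≤ ((2 * A.totalDegree * ∑ j, (U i j).natAbs : ℕ) : ℤ) := by
    rw [h3, h1]
    linarith
  exact_mod_cast h4

theorem ex_inj {c : ℕ} {U : Fin k → Fin d → ℤ} (h : ¬ Ann c U) {A : MvPolynomial (Fin d) ℤ}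
    (hA : A.totalDegree ≤ c) {m m' : Fin d →₀ ℕ} (hm : m ∈ A.support) (hm' : m' ∈ A.support)
    (he : ex U A m = ex U A m') : m = m' := by
  by_contra hne
  apply h
  refine ⟨fun j => (m j : ℤ) - (m' j : ℤ), ?_, ?_, ?_⟩
  · intro h0
    apply hne
    ext j
    have := congrFun h0 j
    simp only [Pi.zero_apply] at this
    omega
  · intro j
    have h1 := Torus_le_totalDegree hm j
    have h2 := Torus_le_totalDegree hm' j
    change |(m j : ℤ) - (m' j : ℤ)| ≤ (c : ℤ)
    rw [abs_le]
    constructor <;> omega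
  · intro i
    have h1 := ex_apply U A hm i
    have h2 := ex_apply U A hm' i
    rw [he, h2] at h1
    have h3 : ∑ j, U i j * ((m j : ℤ) - (m' j : ℤ)) =
        ∑ j, U i j * (m j : ℤ) - ∑ j, U i j * (m' j : ℤ) := by
      rw [← Finset.sum_sub_distrib]
      apply Finset.sum_congr rfl
      intro j _
      ring
    rw [h3]
    linarith

theorem coeff_sb {c : ℕ} {U : Fin k → Fin d → ℤ} (h : ¬ Ann c U) {A : MvPolynomial (Fin d) ℤ}
    (hA : A.totalDegree ≤ c) {m : Fin d →₀ ℕ} (hm : m ∈ A.support) :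
    (sb U A).coeff (ex U A m) = A.coeff m := by
  rw [sb, MvPolynomial.coeff_sum, Finset.sum_eq_single m]
  · rw [MvPolynomial.coeff_monomial, if_pos rfl]
  · intro m' hm' hne
    rw [MvPolynomial.coeff_monomial, if_neg]
    intro he
    exact hne (ex_inj h hA hm' hm he)
  · intro hn
    exact absurd hm hn

theorem sb_ne_zero {c : ℕ} {U : Fin k → Fin d → ℤ} (h : ¬ Ann c U) {A : MvPolynomial (Fin d) ℤ}
    (hA : A.totalDegree ≤ c) (hA0 : A ≠ 0) : sb U A ≠ 0 := by
  intro h0
  obtain ⟨m, hm⟩ := MvPolynomial.support_nonempty.mpr hA0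
  have h1 := coeff_sb h hA hm
  rw [h0, MvPolynomial.coeff_zero] at h1
  exact (MvPolynomial.mem_support_iff.mp hm) h1.symm

theorem card_support_sb (U : Fin k → Fin d → ℤ) (A : MvPolynomial (Fin d) ℤ) :
    (sb U A).support.card ≤ A.support.card :=
  le_trans (Finset.card_le_card (support_sb_subset U A)) Finset.card_image_le

theorem ln_sb (U : Fin k → Fin d → ℤ) (A : MvPolynomial (Fin d) ℤ) : ln (sb U A) ≤ ln A := by
  rw [ln, ln]
  have h1 : ∀ s ∈ (sb U A).support, |(((sb U A).coeff s : ℤ) : ℝ)| ≤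
      ∑ m ∈ A.support, if ex U A m = s then |((A.coeff m : ℤ) : ℝ)| else 0 := by
    intro s _
    have h2 : (sb U A).coeff s = ∑ m ∈ A.support, if ex U A m = s then A.coeff m else 0 := by
      rw [sb, MvPolynomial.coeff_sum]
      apply Finset.sum_congr rfl
      intro m _
      rw [MvPolynomial.coeff_monomial]
    rw [h2]
    push_cast
    refine le_trans (Finset.abs_sum_le_sum_abs _ _) (Finset.sum_le_sum ?_)
    intro m _
    split_ifs with hc
    · exact le_refl _
    · rw [abs_zero]
  refine le_trans (Finset.sum_le_sum h1) ?_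
  rw [Finset.sum_comm]
  apply Finset.sum_le_sum
  intro m _
  rw [Finset.sum_ite_eq]
  split_ifs
  · exact le_refl _
  · exact abs_nonneg _

end Pool.Agent.H87.BZ
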