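import Pool.Agent.H87.BZ.Elim0

/-!
# Project BZ, module TrD: common zeros of relatively prime polynomials

`f ≠ 0` and `Q` are relatively prime in `ℤ[X_0, ..., X_k]`, `a = (T, y_1, ..., y_k)` is a point over a field
`Ω` of characteristic zero, `T ≠ 0`, such that all coordinates except the one with index `l` are
algebraically independent over `ℚ`. Then `a' = tw β yh y T = (T ^ β, y_i T ^ (yh i))` is not a common zero.
Proof. Every `a_j` is algebraic over the field `ℚ(a')` generated by the `a'_j`: `T` is a root of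
`X ^ β - a'_0`, `β ≥ 1`, and `y_i = a'_i / T ^ (yh i)`. The `k` elements `a_j`, `j ≠ l`, are algebraically
independent, so the transcendence degree of `ℚ(a')` is at least `k`. Choose a transcendence basis of `ℚ(a')`
among the `a'_j` (`exists_isTranscendenceBasis_subset`, or `Algebra.trdeg` and the matroid lemmas): it has at
least `k` elements, so there is an index `l'` such that the `a'_j`, `j ≠ l'`, are algebraically
independent. (`exists_index` below; if all `k + 1` of them are independent take any `l'`.) Now `elim0 l' f Q`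
(an irreducible common factor would be a unit, so the hypothesis of `elim0` holds vacuously) gives `ρ ≠ 0` in
the ideal `(f, Q)` without the variable `l'`, so `ρ(a') = 0` (`aeval_of_span`), which contradicts the
independence: `ρ` is the image of a nonzero polynomial in the variables `j ≠ l'`
(`MvPolynomial.exists_rename_eq_of_vars_subset_range`; `degreeOf l' ρ = 0` means `l' ∉ ρ.vars`), with integer
coefficients, nonzero over `ℚ`.
-/

set_option autoImplicit false

namespace Pool.Agent.H87.BZ

private theorem TrD_alg {k : ℕ} {Ω : Type} [Field Ω] [CharZero Ω] {T : Ω} (hT : T ≠ 0)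
    (y : Fin k → Ω) {β : ℕ} (hβ : 1 ≤ β) (yh : Fin k → ℕ) (j : Fin (k + 1)) :
    IsAlgebraic (Algebra.adjoin ℚ (Set.range (tw β yh y T)))
      ((Fin.cons T y : Fin (k + 1) → Ω) j) := by
  set A := Algebra.adjoin ℚ (Set.range (tw β yh y T)) with hA
  have hmem : ∀ i, IsAlgebraic A (tw β yh y T i) := by
    intro i
    exact isAlgebraic_algebraMap (⟨tw β yh y T i, Algebra.subset_adjoin ⟨i, rfl⟩⟩ : A)
  have hTa : IsAlgebraic A T := by
    have h0 := hmem 0
    have h1 : tw β yh y T 0 = T ^ β := by simp [tw]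
    rw [h1] at h0
    exact IsAlgebraic.of_pow (by omega) h0
  refine Fin.cases ?_ ?_ j
  · simpa using hTa
  · intro i
    have h0 := hmem i.succ
    have h1 : tw β yh y T i.succ = y i * T ^ yh i := by simp [tw]
    rw [h1] at h0
    have h2 : (Fin.cons T y : Fin (k + 1) → Ω) i.succ = (y i * T ^ yh i) * (T ^ yh i)⁻¹ := by
      rw [Fin.cons_succ, mul_assoc, mul_inv_cancel₀ (pow_ne_zero _ hT), mul_one]
    rw [h2]
    exact h0.mul (hTa.pow _).inv

theorem exists_index {k : ℕ} {Ω : Type} [Field Ω] [CharZero Ω] {T : Ω} (hT : T ≠ 0)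
    (y : Fin k → Ω) (l : Fin (k + 1))
    (hind : AlgebraicIndependent ℚ
      (fun j : {j : Fin (k + 1) // j ≠ l} => (Fin.cons T y : Fin (k + 1) → Ω) j.1))
    {β : ℕ} (hβ : 1 ≤ β) (yh : Fin k → ℕ) :
    ∃ l' : Fin (k + 1), AlgebraicIndependent ℚ
      (fun j : {j : Fin (k + 1) // j ≠ l'} => tw β yh y T j.1) := by
  classical
  set a' := tw β yh y T with ha'
  set x := fun j : {j : Fin (k + 1) // j ≠ l} => (Fin.cons T y : Fin (k + 1) → Ω) j.1 with hx
  let M := AlgebraicIndependent.matroid ℚ Ω
  have hXind : M.Indep (Set.range x) := by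
    rw [AlgebraicIndependent.matroid_indep_iff]
    exact hind.coe_range
  have hXsub : Set.range x ⊆ M.closure (Set.range a') := by
    rintro _ ⟨j, rfl⟩
    change x j ∈ (AlgebraicIndependent.matroid ℚ Ω).closure (Set.range a')
    rw [AlgebraicIndependent.matroid_closure_eq, SetLike.mem_coe, Subalgebra.mem_algebraicClosure]
    exact TrD_alg hT y hβ yh j.1
  have hk : ((k : ℕ) : ℕ∞) ≤ M.eRk (Set.range a') := by
    rw [← Matroid.eRk_closure_eq]
    refine le_trans ?_ (hXind.encard_le_eRk_of_subset hXsub)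
    have h1 : (Set.range x).encard = ((k : ℕ) : ℕ∞) := by
      rw [← Set.image_univ, hind.injective.injOn.encard_image, Set.encard_univ, ENat.card_eq_coe_fintype_card]
      congr 1
      simp
    rw [h1]
  obtain ⟨I, hI⟩ := M.exists_isBasis (Set.range a')
  rw [← hI.encard_eq_eRk] at hk
  have hIs : I ⊆ Set.range a' := hI.subset
  have hIind : AlgebraicIndepOn ℚ id I := by
    have := hI.indep
    rwa [AlgebraicIndependent.matroid_indep_iff] at this
  obtain ⟨S, -, hS⟩ : ∃ s' ⊆ (Set.univ ∩ a' ⁻¹' I : Set (Fin (k + 1))), Set.BijOn a' s' I := by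
    apply Set.SurjOn.exists_bijOn_subset
    intro z hz
    obtain ⟨j, rfl⟩ := hIs hz
    exact ⟨j, ⟨Set.mem_univ _, hz⟩, rfl⟩
  have hScard : k ≤ S.toFinset.card := by
    have h1 : S.encard = I.encard := by
      rw [← hS.image_eq, hS.injOn.encard_image]
    rw [← h1, Set.encard_eq_coe_toFinset_card] at hk
    exact_mod_cast hk
  obtain ⟨l', hl'⟩ : ∃ l' : Fin (k + 1), ∀ j, j ≠ l' → j ∈ S := by
    by_cases hall : ∀ j, j ∈ S
    · exact ⟨0, fun j _ => hall j⟩
    · push Not at hall
      obtain ⟨l', hl'⟩ := hall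
      refine ⟨l', fun j hj => ?_⟩
      by_contra hcon
      have h2 : S.toFinset ⊆ (Finset.univ \ {l', j} : Finset (Fin (k + 1))) := by
        intro t ht
        rw [Set.mem_toFinset] at ht
        simp only [Finset.mem_sdiff, Finset.mem_univ, true_and, Finset.mem_insert,
          Finset.mem_singleton, not_or]
        exact ⟨fun h => hl' (h ▸ ht), fun h => hcon (h ▸ ht)⟩
      have h3 := Finset.card_le_card h2
      rw [Finset.card_sdiff_of_subset (Finset.subset_univ _), Finset.card_univ, Fintype.card_fin,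
        Finset.card_pair hj.symm] at h3
      omega
  refine ⟨l', ?_⟩
  let g : {j : Fin (k + 1) // j ≠ l'} → I := fun j => ⟨a' j.1, hS.mapsTo (hl' j.1 j.2)⟩
  have hg : Function.Injective g := by
    intro j j' hjj
    have h4 : a' j.1 = a' j'.1 := congrArg Subtype.val hjj
    exact Subtype.ext (hS.injOn (hl' j.1 j.2) (hl' j'.1 j'.2) h4)
  exact AlgebraicIndependent.comp hIind g hg

theorem trd {k : ℕ} {f Q : MvPolynomial (Fin (k + 1)) ℤ} (hf : f ≠ 0) (hrp : IsRelPrime f Q)
    {Ω : Type} [Field Ω] [CharZero Ω] {T : Ω} (hT : T ≠ 0) (y : Fin k → Ω) (l : Fin (k + 1))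
    (hind : AlgebraicIndependent ℚ
      (fun j : {j : Fin (k + 1) // j ≠ l} => (Fin.cons T y : Fin (k + 1) → Ω) j.1))
    {β : ℕ} (hβ : 1 ≤ β) (yh : Fin k → ℕ)
    (h1 : MvPolynomial.aeval (tw β yh y T) f = 0) (h2 : MvPolynomial.aeval (tw β yh y T) Q = 0) :
    False := by
  classical
  obtain ⟨l', hl'⟩ := exists_index hT y l hind hβ yh
  obtain ⟨ρ, hρ0, hρl, hρm, -⟩ := elim0 l' f Q hf (∑ j, f.degreeOf j) (∑ j, Q.degreeOf j)
    (fun j => Finset.single_le_sum (f := fun j => f.degreeOf j) (fun _ _ => Nat.zero_le _)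
      (Finset.mem_univ j))
    (fun j => Finset.single_le_sum (f := fun j => Q.degreeOf j) (fun _ _ => Nat.zero_le _)
      (Finset.mem_univ j))
    (fun g hg hgf hgQ => absurd (hrp hgf hgQ) hg.not_isUnit)
  have hρz := aeval_of_span hρm (tw β yh y T) h1 h2
  have hvars : (↑ρ.vars : Set (Fin (k + 1))) ⊆
      Set.range (Subtype.val : {j : Fin (k + 1) // j ≠ l'} → Fin (k + 1)) := by
    intro j hj
    refine ⟨⟨j, ?_⟩, rfl⟩
    rintro rfl
    have hj' : j ∈ ρ.vars := hj
    rw [MvPolynomial.mem_vars_iff_mem_support] at hj'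
    obtain ⟨d, hd, hjd⟩ := hj'
    have := MvPolynomial.monomial_le_degreeOf j hd
    rw [hρl] at this
    exact (Finsupp.mem_support_iff.1 hjd) (by omega)
  obtain ⟨q, hq⟩ := MvPolynomial.exists_rename_eq_of_vars_subset_range ρ Subtype.val
    Subtype.val_injective hvars
  have hq0 : q ≠ 0 := by
    rintro rfl
    exact hρ0 (by rw [← hq, map_zero])
  rw [← hq, MvPolynomial.aeval_rename] at hρz
  have h5 : MvPolynomial.aeval (fun j : {j : Fin (k + 1) // j ≠ l'} => tw β yh y T j.1)
      (MvPolynomial.map (algebraMap ℤ ℚ) q) = 0 := by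
    rw [MvPolynomial.aeval_map_algebraMap]
    exact hρz
  have h6 : MvPolynomial.map (algebraMap ℤ ℚ) q = 0 :=
    (map_eq_zero_iff _ hl').1 h5
  apply hq0
  have hinj : Function.Injective (MvPolynomial.map (σ := {j : Fin (k + 1) // j ≠ l'})
      (algebraMap ℤ ℚ)) := MvPolynomial.map_injective _ (by
        intro a b hab; exact_mod_cast hab)
  exact (map_eq_zero_iff _ hinj).1 h6

end Pool.Agent.H87.BZ
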