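import Pool.Agent.H87.BZ.Fin
import Pool.Agent.H87.BZ.LemZ

/-!
# Project BZ, module Uni: one polynomial for all measures up to a bound
-/

set_option autoImplicit false

open Finset Filter Topology MeasureTheory

namespace Pool.Agent.H87.BZ

open Pool.Agent.H87.MM

variable {n : ℕ}

/-- membership in `M(G)`, in terms of homomorphisms -/
def InM {r : ℕ} (G : MvPolynomial (Fin r) ℤ) (x : ℝ) : Prop :=
  ∃ (l : ℕ) (σ : (Fin r → ℤ) →+ (Fin l → ℤ)), SP σ G ≠ 0 ∧ x = mA σ G

instance countable_poly (r : ℕ) : Countable (MvPolynomial (Fin r) ℤ) := by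
  have h : Function.Injective fun P : MvPolynomial (Fin r) ℤ =>
      (⟨P.support, fun m => P.coeff m.1⟩ : Σ s : Finset (Fin r →₀ ℕ), (s → ℤ)) := by
    intro P Q hPQ
    rw [Sigma.mk.injEq] at hPQ
    obtain ⟨h1, h2⟩ := hPQ
    ext m
    by_cases hm : m ∈ P.support
    · have h3 : ∀ (s : Finset (Fin r →₀ ℕ)) (hs : P.support = s) (g : s → ℤ),
          HEq (fun m : P.support => P.coeff m.1) g → ∀ hm' : m ∈ s, P.coeff m = g ⟨m, hm'⟩ := by
        rintro s rfl g hg hm'
        rw [heq_eq_eq] at hg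
        rw [← hg]
      exact h3 Q.support h1 _ h2 (h1 ▸ hm)
    · rw [MvPolynomial.notMem_support_iff.mp hm, MvPolynomial.notMem_support_iff.mp (h1 ▸ hm)]
  exact h.countable

/-- finitely many polynomials suffice -/
theorem finite_family (C : ℝ) : ∃ S : Finset (Σ r : ℕ, MvPolynomial (Fin r) ℤ),
    (∀ p ∈ S, p.2 ≠ 0) ∧ ∀ (k : ℕ) (F : MvPolynomial (Fin k) ℤ), F ≠ 0 → Cl F → mm F ≤ C →
      ∃ p ∈ S, InM p.2 (mm F) := by
  classical
  by_contra hcon
  push Not at hcon
  have : Nonempty (Σ r : ℕ, MvPolynomial (Fin r) ℤ) := ⟨⟨0, 0⟩⟩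
  obtain ⟨e, he⟩ := exists_surjective_nat (Σ r : ℕ, MvPolynomial (Fin r) ℤ)
  have h1 : ∀ n : ℕ, ∃ (k : ℕ) (F : MvPolynomial (Fin k) ℤ), F ≠ 0 ∧ Cl F ∧ mm F ≤ C ∧
      ∀ i ≤ n, (e i).2 ≠ 0 → ¬ InM (e i).2 (mm F) := by
    intro n
    obtain ⟨k, F, h2, h3, h4, h5⟩ := hcon (((range (n + 1)).image e).filter fun p => p.2 ≠ 0)
      (fun p hp => (mem_filter.mp hp).2)
    refine ⟨k, F, h2, h3, h4, fun i hi h0 => h5 (e i) ?_⟩
    rw [mem_filter]
    exact ⟨mem_image_of_mem _ (mem_range.mpr (by omega)), h0⟩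
  choose k F h2 h3 h4 h5 using h1
  obtain ⟨d, G, hG, hinf⟩ := bounded_seq k F h2 h3 h4
  obtain ⟨i, hi⟩ := he ⟨d, G⟩
  obtain ⟨m, hm, him⟩ := hinf.exists_gt i
  obtain ⟨σ, hσ, hσ'⟩ := hm
  have h6 := h5 m i him.le
  rw [hi] at h6
  exact h6 hG ⟨_, σ, hσ, hσ'⟩

theorem mm_X_sub_one {l : ℕ} (i : Fin l) :
    mm (MvPolynomial.X i - 1 : MvPolynomial (Fin l) ℤ) = 0 := by
  have hirr : Irreducible (MvPolynomial.X i - 1 : MvPolynomial (Fin l) ℤ) := by
    have h := MvPolynomial.irreducible_mul_X_add (R := ℤ) (n := Fin l) 1 (-1) i one_ne_zero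
      (by simp) (by rw [MvPolynomial.vars_neg]; simp)
      (isRelPrime_one_left)
    rwa [one_mul, ← sub_eq_add_neg] at h
  refine lemZ hirr ?_ le_rfl ?_
  · rintro ⟨c, hc⟩
    have h1 := congrArg (MvPolynomial.degreeOf i) hc
    have h2 : (MvPolynomial.X i : MvPolynomial (Fin l) ℤ) = MvPolynomial.C (c + 1) := by
      rw [map_add, ← hc, MvPolynomial.C_1]
      ring
    have h3 := congrArg (MvPolynomial.degreeOf i) h2
    rw [MvPolynomial.degreeOf_C, MvPolynomial.degreeOf_X] at h3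
    simp at h3
  · rw [map_sub, MvPolynomial.expand_X, map_one]
    exact ⟨MvPolynomial.X i + 1, by ring⟩

/-- the generic sum of `N` variables minus the sum of `N` other variables -/
noncomputable def alt (N : ℕ) : MvPolynomial (Fin (N + N)) ℤ :=
  ∑ i : Fin N, (MvPolynomial.X (Fin.castAdd N i) - MvPolynomial.X (Fin.natAdd N i))

theorem SP_X {r l : ℕ} (σ : (Fin r → ℤ) →+ (Fin l → ℤ)) (i : Fin r) :
    SP σ (MvPolynomial.X i) = mo (σ (Pi.single i 1)) := by
  classical
  have h : (MvPolynomial.X i : MvPolynomial (Fin r) ℤ) =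
      MvPolynomial.monomial (Finsupp.single i 1) 1 := rfl
  have h2 : iot (Finsupp.single i 1) = (Pi.single i 1 : Fin r → ℤ) := by
    funext j
    by_cases hj : j = i
    · subst hj
      simp [iot]
    · simp [iot, hj]
  rw [h, SP_monomial, h2]
  simp [mo]

theorem SP_alt {l N : ℕ} (τ : (Fin (N + N) → ℤ) →+ (Fin l → ℤ)) :
    SP τ (alt N) = ∑ i : Fin N, (mo (τ (Pi.single (Fin.castAdd N i) 1)) -
      mo (τ (Pi.single (Fin.natAdd N i) 1))) := by
  unfold alt
  rw [map_sum]
  exact sum_congr rfl fun i _ => by rw [map_sub, SP_X, SP_X]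

theorem exists_hom {r l : ℕ} (w : Fin r → (Fin l → ℤ)) :
    ∃ τ : (Fin r → ℤ) →+ (Fin l → ℤ), ∀ i, τ (Pi.single i 1) = w i := by
  refine ⟨(Fintype.linearCombination ℤ w).toAddMonoidHom, fun i => ?_⟩
  change Fintype.linearCombination ℤ w (Pi.single i 1) = w i
  rw [Fintype.linearCombination_apply_single, one_smul]

/-- the polynomial `alt N` contains all polynomials of small length (at least one variable) -/
theorem InM_alt_pos {r : ℕ} {G : MvPolynomial (Fin r) ℤ} {N : ℕ} (hN : len G ≤ N) {l : ℕ}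
    (hl : 0 < l) (σ : (Fin r → ℤ) →+ (Fin l → ℤ)) (hσ : SP σ G ≠ 0) :
    InM (alt N) (mA σ G) := by
  classical
  obtain ⟨α, p, hα, hp⟩ := poly_repr N G hN
  obtain ⟨z, P, -, hP, -⟩ := exists_poly σ G G
  have hP0 : P ≠ 0 := by
    rintro rfl
    rw [map_zero] at hP
    exact mul_ne_zero (mo_ne _) hσ hP.symm
  obtain ⟨i₀, hi₀⟩ : ∃ i₀ : Fin l, i₀ = ⟨0, hl⟩ := ⟨_, rfl⟩
  obtain ⟨e, he⟩ : ∃ e : Fin l → ℤ, e = Pi.single i₀ 1 := ⟨_, rfl⟩
  have hX : JJ l (MvPolynomial.X i₀ - 1) = mo e - 1 := by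
    rw [map_sub, map_one, ← SP_id, SP_X, he]
    rfl
  obtain ⟨u, v, huv⟩ : ∃ u v : Fin N → (Fin l → ℤ), ∀ j,
      (mo e - 1) * AddMonoidAlgebra.single (σ (iot (p j))) ((α j : ℤ) : ℂ) =
        mo (u j) - mo (v j) := by
    have h1 : ∀ j, ∃ u v : Fin l → ℤ,
        (mo e - 1) * AddMonoidAlgebra.single (σ (iot (p j))) ((α j : ℤ) : ℂ) = mo u - mo v := by
      intro j
      have h2 := hα j
      simp only [Finset.mem_insert, Finset.mem_singleton] at h2
      rcases h2 with h2 | h2 | h2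
      · refine ⟨σ (iot (p j)), e + σ (iot (p j)), ?_⟩
        have h3 : (AddMonoidAlgebra.single (σ (iot (p j))) ((α j : ℤ) : ℂ) :
            AddMonoidAlgebra ℂ (Fin l → ℤ)) = - mo (σ (iot (p j))) := by
          rw [h2]
          unfold mo
          push_cast
          rw [← AddMonoidAlgebra.single_neg]
        rw [h3, ← mo_mul]
        ring
      · refine ⟨0, 0, ?_⟩
        rw [h2]
        simp
      · refine ⟨e + σ (iot (p j)), σ (iot (p j)), ?_⟩
        have h3 : (AddMonoidAlgebra.single (σ (iot (p j))) ((α j : ℤ) : ℂ) :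
            AddMonoidAlgebra ℂ (Fin l → ℤ)) = mo (σ (iot (p j))) := by
          rw [h2]
          unfold mo
          push_cast
          rfl
        rw [h3, ← mo_mul]
        ring
    choose u v huv using h1
    exact ⟨u, v, huv⟩
  obtain ⟨τ, hτ⟩ := exists_hom (r := N + N) (Fin.addCases u v)
  have hτG : SP τ (alt N) = (mo e - 1) * SP σ G := by
    rw [SP_alt, hp, SP_sum, mul_sum]
    refine sum_congr rfl fun i _ => ?_
    rw [huv, hτ, hτ, Fin.addCases_left, Fin.addCases_right]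
  have hne : (MvPolynomial.X i₀ - 1 : MvPolynomial (Fin l) ℤ) ≠ 0 := by
    intro h
    have h1 := congrArg (MvPolynomial.eval (fun _ => (0 : ℤ))) h
    simp at h1
  have hJ : JJ l ((MvPolynomial.X i₀ - 1) * P) = mo (iot z) * SP τ (alt N) := by
    rw [map_mul, hX, hP, hτG]
    ring
  have hPX : (MvPolynomial.X i₀ - 1) * P ≠ 0 := mul_ne_zero hne hP0
  refine ⟨l, τ, ?_, ?_⟩
  · intro h
    rw [h, mul_zero] at hJ
    exact JJ_ne hPX hJ
  · rw [← mm_eq_mA τ hJ, ← mm_eq_mA σ hP, mm_mul hne hP0, mm_X_sub_one, zero_add]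

/-- extension of exponent vectors along a map of the variables -/
noncomputable def exv {l l' : ℕ} (f : Fin l → Fin l') : (Fin l → ℤ) →+ (Fin l' → ℤ) :=
  (Fintype.linearCombination ℤ (fun i => (Pi.single (f i) 1 : Fin l' → ℤ))).toAddMonoidHom

theorem exv_single {l l' : ℕ} (f : Fin l → Fin l') (i : Fin l) :
    exv f (Pi.single i 1) = Pi.single (f i) 1 := by
  change Fintype.linearCombination ℤ (fun i => (Pi.single (f i) 1 : Fin l' → ℤ))
    (Pi.single i 1) = _
  rw [Fintype.linearCombination_apply_single, one_smul]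

theorem exv_apply {l l' : ℕ} (f : Fin l → Fin l') (x : Fin l → ℤ) :
    exv f x = ∑ i, x i • (Pi.single (f i) 1 : Fin l' → ℤ) := by
  change Fintype.linearCombination ℤ (fun i => (Pi.single (f i) 1 : Fin l' → ℤ)) x = _
  rw [Fintype.linearCombination_apply]

theorem chr_exv {l l' : ℕ} (f : Fin l → Fin l') (t : Fin l' → ℝ) (x : Fin l → ℤ) :
    chr t (.ofAdd (exv f x)) = chr (fun i => t (f i)) (.ofAdd x) := by
  classical
  rw [exv_apply, ofAdd_sum, map_prod, chr_apply]
  refine prod_congr rfl fun i _ => ?_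
  rw [ofAdd_zsmul, map_zpow, chr_apply, prod_eq_single (f i)]
  · rw [Pi.single_eq_same, zpow_one]
  · intro j _ hj
    rw [Pi.single_eq_of_ne hj, zpow_zero]
  · intro h
    exact absurd (mem_univ _) h

theorem cube_measure (l : ℕ) : (volume : Measure (Fin l → ℝ)).restrict (cube l) =
    Measure.pi fun _ : Fin l => (volume : Measure ℝ).restrict (Set.Icc 0 1) := by
  unfold cube
  rw [volume_pi, Measure.restrict_pi_pi]

theorem mp_comp {l l' : ℕ} {f : Fin l → Fin l'} (hf : Function.Injective f) :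
    MeasurePreserving (fun t : Fin l' → ℝ => fun i => t (f i))
      ((volume : Measure (Fin l' → ℝ)).restrict (cube l'))
      ((volume : Measure (Fin l → ℝ)).restrict (cube l)) := by
  classical
  have hm : Measurable fun t : Fin l' → ℝ => fun i => t (f i) :=
    measurable_pi_lambda _ fun i => measurable_pi_apply (f i)
  refine ⟨hm, ?_⟩
  rw [cube_measure, cube_measure]
  refine (Measure.pi_eq fun s hs => ?_).symm
  have hν : ((volume : Measure ℝ).restrict (Set.Icc 0 1)) Set.univ = 1 := by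
    rw [Measure.restrict_apply_univ, Real.volume_Icc]
    simp
  obtain ⟨S, hS⟩ : ∃ S : Fin l' → Set ℝ, ∀ j, S j = ⋂ i ∈ {i | f i = j}, s i := ⟨_, fun _ => rfl⟩
  have hSf : ∀ i, S (f i) = s i := by
    intro i
    rw [hS]
    ext x
    simp only [Set.mem_iInter, Set.mem_ofPred_eq]
    constructor
    · intro h
      exact h i rfl
    · intro h i' hi'
      rw [hf hi']
      exact h
  have hSn : ∀ j, j ∉ Finset.univ.image f → S j = Set.univ := by
    intro j hj
    rw [hS]
    ext x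
    simp only [Set.mem_iInter, Set.mem_ofPred_eq, Set.mem_univ, iff_true]
    intro i hi
    exact absurd (Finset.mem_image.mpr ⟨i, Finset.mem_univ _, hi⟩) hj
  have hpre : (fun t : Fin l' → ℝ => fun i => t (f i)) ⁻¹' (Set.univ.pi s) = Set.univ.pi S := by
    ext t
    simp only [Set.mem_preimage, Set.mem_pi, Set.mem_univ, forall_true_left, hS,
      Set.mem_iInter, Set.mem_ofPred_eq]
    constructor
    · intro h j i hi
      rw [← hi]
      exact h i
    · intro h i
      exact h (f i) i rfl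
  rw [Measure.map_apply hm (MeasurableSet.univ_pi hs), hpre, Measure.pi_pi]
  have h1 : ∏ j ∈ Finset.univ.image f, ((volume : Measure ℝ).restrict (Set.Icc 0 1)) (S j) =
      ∏ j, ((volume : Measure ℝ).restrict (Set.Icc 0 1)) (S j) := by
    refine Finset.prod_subset (Finset.subset_univ _) fun j _ hj => ?_
    rw [hSn j hj, hν]
  rw [← h1, Finset.prod_image fun i _ i' _ h => hf h]
  exact Finset.prod_congr rfl fun i _ => by rw [hSf]

theorem continuous_ev {r l : ℕ} (σ : (Fin r → ℤ) →+ (Fin l → ℤ)) (G : MvPolynomial (Fin r) ℤ) :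
    Continuous fun t : Fin l → ℝ =>
      ev ((chr t).comp (AddMonoidHom.toMultiplicative σ)) (lp G) := by
  simp only [ev_lp]
  refine continuous_finsetSum _ fun m _ => continuous_const.mul ?_
  exact continuous_chr (σ (iot m))

/-- adding variables -/
theorem mA_exv {r l l' : ℕ} {f : Fin l → Fin l'} (hf : Function.Injective f)
    (σ : (Fin r → ℤ) →+ (Fin l → ℤ)) (G : MvPolynomial (Fin r) ℤ) :
    mA ((exv f).comp σ) G = mA σ G := by
  have h1 : ∀ t : Fin l' → ℝ,
      (chr t).comp (AddMonoidHom.toMultiplicative ((exv f).comp σ)) =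
        (chr fun i => t (f i)).comp (AddMonoidHom.toMultiplicative σ) := by
    intro t
    refine MonoidHom.ext fun x => ?_
    exact chr_exv f t (σ (Multiplicative.toAdd x))
  unfold mA
  simp only [h1]
  have h2 := mp_comp hf
  rw [← h2.map_eq, integral_map h2.aemeasurable]
  exact (Real.measurable_log.comp (continuous_ev σ G).norm.measurable).aestronglyMeasurable

theorem exists_value {l : ℕ} {c : AddMonoidAlgebra ℂ (Fin l → ℤ)} {z : Fin l → ℤ}
    {P : MvPolynomial (Fin l) ℤ} (hP : JJ l P = mo z * c) (hc : c ≠ 0) :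
    ∃ t : Fin l → ℝ, ev (chr t) c ≠ 0 := by
  have hP0 : P ≠ 0 := by
    rintro rfl
    rw [map_zero] at hP
    exact mul_ne_zero (mo_ne _) hc hP.symm
  have h1 := ae_ff_pos hP0
  have h2 : (volume.restrict (cube l) : Measure (Fin l → ℝ)) ≠ 0 := by
    intro h
    have h3 : (volume.restrict (cube l) : Measure (Fin l → ℝ)) Set.univ = 1 := by
      rw [Measure.restrict_apply_univ, volume_cube]
    rw [h] at h3
    simp at h3
  have : NeZero (volume.restrict (cube l) : Measure (Fin l → ℝ)) := ⟨h2⟩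
  obtain ⟨t, ht⟩ := h1.exists
  refine ⟨t, fun h => ?_⟩
  unfold ff at ht
  rw [← JJ_eq_lp, hP, map_mul, h, mul_zero, norm_zero] at ht
  simp at ht

theorem SP_comp {r l l' : ℕ} (τ : (Fin l → ℤ) →+ (Fin l' → ℤ)) (σ : (Fin r → ℤ) →+ (Fin l → ℤ))
    (G : MvPolynomial (Fin r) ℤ) :
    SP (τ.comp σ) G = AddMonoidAlgebra.mapDomainRingHom ℂ τ (SP σ G) := by
  rw [SP_eq_sum, SP_eq_sum, map_sum]
  refine sum_congr rfl fun m _ => ?_
  rw [AddMonoidAlgebra.mapDomainRingHom_apply, AddMonoidAlgebra.mapDomain_single]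
  rfl

theorem exv_injective {l l' : ℕ} {f : Fin l → Fin l'} (hf : Function.Injective f) :
    Function.Injective (exv f) := by
  classical
  rw [injective_iff_map_eq_zero]
  intro x hx
  funext i
  have h1 := congrFun hx (f i)
  rw [exv_apply, Finset.sum_apply, Finset.sum_eq_single i] at h1
  · simpa using h1
  · intro j _ hj
    rw [Pi.smul_apply, Pi.single_eq_of_ne (fun h => hj (hf h).symm), smul_zero]
  · intro h
    exact absurd (mem_univ _) h

theorem SP_exv_ne {r l l' : ℕ} {f : Fin l → Fin l'} (hf : Function.Injective f)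
    {σ : (Fin r → ℤ) →+ (Fin l → ℤ)} {G : MvPolynomial (Fin r) ℤ} (h : SP σ G ≠ 0) :
    SP ((exv f).comp σ) G ≠ 0 := by
  rw [SP_comp]
  intro h1
  refine h (AddMonoidAlgebra.mapDomain_injective (exv_injective hf) ?_)
  rw [AddMonoidAlgebra.mapDomainRingHom_apply] at h1
  rw [h1]
  simp

/-- the polynomial `alt N` contains all polynomials of small length -/
theorem InM_alt {r : ℕ} {G : MvPolynomial (Fin r) ℤ} {N : ℕ} (hN : len G ≤ N) {x : ℝ}
    (hx : InM G x) : InM (alt N) x := by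
  obtain ⟨l, σ, hσ, rfl⟩ := hx
  rw [← mA_exv (Fin.castSucc_injective l) σ G]
  exact InM_alt_pos hN (Nat.succ_pos l) _ (SP_exv_ne (Fin.castSucc_injective l) hσ)

/-- one polynomial for all measures up to `C` -/
theorem uniform_alt (C : ℝ) : ∃ N : ℕ, ∀ (k : ℕ) (F : MvPolynomial (Fin k) ℤ), F ≠ 0 → Cl F →
    mm F ≤ C → InM (alt N) (mm F) := by
  classical
  obtain ⟨S, hS, h⟩ := finite_family C
  obtain ⟨N, hN⟩ := exists_nat_ge (∑ p ∈ S, len p.2)
  refine ⟨N, fun k F hF hcl hC => ?_⟩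
  obtain ⟨p, hp, h1⟩ := h k F hF hcl hC
  refine InM_alt (le_trans ?_ hN) h1
  exact single_le_sum (f := fun p : (Σ r : ℕ, MvPolynomial (Fin r) ℤ) => len p.2)
    (fun p _ => sum_nonneg fun _ _ => abs_nonneg _) hp

end Pool.Agent.H87.BZ
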