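import Pool.Agent.H87.BZ.Red

/-!
# Project BZ: the uniform form of the theorem for products
-/

set_option autoImplicit false

open Finset Filter Topology MeasureTheory

namespace Pool.Agent.H87.BZ

open Pool.Agent.H87.MM

/-- the alternating sum does not vanish as soon as it has a nonzero substitution -/
theorem alt_ne_of_InM {N : ℕ} {x : ℝ} (h : InM (alt N) x) : alt N ≠ 0 := by
  intro h0
  obtain ⟨l, σ, hσ, -⟩ := h
  exact hσ (by rw [h0, map_zero])

/-- all measures at most `C` of products of a polynomial without reciprocal factors and a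
polynomial with measure in `M(H)` belong to `M(G)` for one nonzero `G` -/
theorem uniform_part {r₀ : ℕ} {H : MvPolynomial (Fin r₀) ℤ} (hH : H ≠ 0) (C : ℝ) :
    ∃ (r : ℕ) (G : MvPolynomial (Fin r) ℤ), G ≠ 0 ∧ ∀ (k : ℕ) (F : MvPolynomial (Fin k) ℤ),
      F ≠ 0 → (∃ P R, F = P * R ∧ Cl P ∧ InM H (mm R)) → mm F ≤ C → InM G (mm F) := by
  obtain ⟨N, hN⟩ := uniform_alt C
  have key : ∀ (k : ℕ) (F : MvPolynomial (Fin k) ℤ), F ≠ 0 →
      (∃ P R, F = P * R ∧ Cl P ∧ InM H (mm R)) → mm F ≤ C →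
      alt N ≠ 0 ∧ InM (tp (alt N) H) (mm F) := by
    intro k F hF hPR' hFC
    obtain ⟨P, R, hPR, h1, h2⟩ := hPR'
    have hP : P ≠ 0 := by
      rintro rfl
      exact hF (by rw [hPR, zero_mul])
    have hR : R ≠ 0 := by
      rintro rfl
      exact hF (by rw [hPR, mul_zero])
    have hsum : mm F = mm P + mm R := by rw [hPR, mm_mul hP hR]
    have h3 : mm P ≤ C := by
      have h4 := mm_nonneg hR
      rw [hsum] at hFC
      linarith
    have h6 := hN _ P hP h1 h3
    refine ⟨alt_ne_of_InM h6, ?_⟩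
    rw [hsum]
    exact InM_tp h6 h2
  by_cases h0 : alt N = 0
  · exact ⟨0, 1, one_ne_zero, fun k F hF hPR hFC => absurd h0 (key k F hF hPR hFC).1⟩
  · exact ⟨_, _, tp_ne_zero h0 hH, fun k F hF hPR hFC => (key k F hF hPR hFC).2⟩

end Pool.Agent.H87.BZ
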